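import Pool.Agent.Work.MP_f3d170_lt.Interface

set_option autoImplicit false

/-! Block CFG of the linear upper threshold (MP_f3d170_co). -/

open Set Matroid Nat
open Pool.Agent.Work.MP_f3d170_co_h45
open Pool.Agent.Work.MP_f3d170_co_helper60
open Pool.Agent.Work.MP_f3d170_co_helper60b (trunc Gen IsHyp HasGen star StarSet Rec IsPart)
open Pool.Agent.Work.MP_f3d170_co_helper44

namespace Pool.F3LT

theorem p_CFG (hCONT : Stmt_CONT) (hSUP1 : Stmt_SUP1) : Stmt_CFG := by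
  intro n j g m h ℓ F B 𝒰 hn hj hsz hext hg hm hh hB h1 h2 h3 h4 h5
  have hc := hCONT (Set (Fin n)) 𝒰 (R1 j) (fun _ _ => False) m h 1 0 ℓ hm hh le_rfl
    (hg.trans h3) (by
      intro A hA hmA
      have hne : A.Nonempty := by
        rw [Set.nonempty_iff_ne_empty]
        rintro rfl
        rw [Set.ncard_empty] at hmA
        omega
      have h6 : 5 * 𝒰.ncard ≤ n * A.ncard := by
        calc 5 * 𝒰.ncard ≤ 5 * g := Nat.mul_le_mul_left _ hg
          _ ≤ n * m := h1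
          _ ≤ n * A.ncard := Nat.mul_le_mul_left _ hmA
      obtain ⟨X, hX, h7⟩ := hSUP1 n j 𝒰 A hn hj hsz hext hA hne h6
      refine ⟨X, hX, Or.inl ?_⟩
      have h8 : j * n * A.ncard ≤ j * n * (h * dg (R1 j) A X) := by
        calc j * n * A.ncard ≤ 5 * 𝒰.ncard * dg (R1 j) A X := h7
          _ ≤ 5 * g * dg (R1 j) A X := Nat.mul_le_mul_right _ (Nat.mul_le_mul_left _ hg)
          _ ≤ j * n * h * dg (R1 j) A X := Nat.mul_le_mul_right _ h2
          _ = j * n * (h * dg (R1 j) A X) := by rw [mul_assoc]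
      exact Nat.le_of_mul_le_mul_left h8 (Nat.mul_pos hj hn))
  have hsub : FamU j 𝒰 ⊆ {𝒟 : Set (Set (Fin n)) | 𝒟 ⊆ 𝒰 ∧ (∀ x ∈ 𝒟, dg (R1 j) 𝒟 x = 0) ∧
      ∀ x ∈ 𝒟, dg (fun _ _ => False) 𝒟 x ≤ 0} := by
    rintro 𝒟 ⟨ha, hb⟩
    refine ⟨ha, hb, fun x _ => ?_⟩
    simp [dg]
  have h9 := Set.ncard_le_ncard hsub (Set.toFinite _)
  have h10 : {R : Set (Set (Fin n)) | R ⊆ 𝒰 ∧ R.ncard ≤ (h + (0 + 1) * 1) * (ℓ + 1)}.ncard ≤
      (3 * B) ^ F := by
    refine le_trans (Set.ncard_le_ncard ?_ (Set.toFinite _))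
      (stmt_CNT (Set (Fin n)) 𝒰 F B (Set.toFinite _) hB (hg.trans h5))
    rintro R ⟨ha, hb⟩
    refine ⟨ha, hb.trans ?_⟩
    simpa using h4
  exact h9.trans (hc.trans (Nat.mul_le_mul_right _ h10))

end Pool.F3LT
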