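import Pool.Agent.Work.MP_f3d170_lt.Interface

/-! # Block CFN (helper72): the number of the families in `Un` -/

set_option autoImplicit false

open Set Matroid Nat
open Pool.Agent.Work.MP_f3d170_co_h45
open Pool.Agent.Work.MP_f3d170_co_helper60
open Pool.Agent.Work.MP_f3d170_co_helper60b (trunc Gen IsHyp HasGen star StarSet Rec IsPart)
open Pool.Agent.Work.MP_f3d170_co_helper44

namespace Pool.F3LT

theorem CFN_card (n j : ℕ) (𝓖 : Set (Set (Fin n))) : (Un n j 𝓖).ncard ≤ n.choose j := by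
  have h1 : Un n j 𝓖 ⊆ {X : Set (Fin n) | X.ncard = j} := fun X hX => hX.1
  have h2 : {X : Set (Fin n) | X.ncard = j} =
      (fun S : Finset (Fin n) => (S : Set (Fin n))) ''
        ((Finset.univ : Finset (Fin n)).powersetCard j : Set (Finset (Fin n))) := by
    classical
    ext X
    constructor
    · intro hX
      refine ⟨X.toFinite.toFinset, ?_, Set.Finite.coe_toFinset _⟩
      rw [Finset.mem_coe, Finset.mem_powersetCard]
      refine ⟨Finset.subset_univ _, ?_⟩
      rw [← Set.ncard_eq_toFinset_card X]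
      exact hX
    · rintro ⟨S, hS, rfl⟩
      rw [Finset.mem_coe, Finset.mem_powersetCard] at hS
      show (S : Set (Fin n)).ncard = j
      rw [Set.ncard_coe_finset]
      exact hS.2
  calc (Un n j 𝓖).ncard ≤ {X : Set (Fin n) | X.ncard = j}.ncard :=
        Set.ncard_le_ncard h1 (Set.toFinite _)
    _ = (((Finset.univ : Finset (Fin n)).powersetCard j : Finset (Finset (Fin n))) :
          Set (Finset (Fin n))).ncard := by
        rw [h2]
        exact Set.ncard_image_of_injective _ Finset.coe_injective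
    _ = n.choose j := by
        rw [Set.ncard_coe_finset, Finset.card_powersetCard, Finset.card_univ, Fintype.card_fin]

theorem p_CFN (hCONT : Stmt_CONT) (hSUP2 : Stmt_SUP2) : Stmt_CFN := by
  intro n j Δ m h₁ h₂ ℓ F B 𝓖 hj hjn hm hh1 hh2 hB hc1 hc2 hc3 hc4 hF hB2
  have hV := CFN_card n j 𝓖
  have hn : 1 ≤ n := by omega
  have h := hCONT (Set (Fin n)) (Un n j 𝓖) (R1 j) (R2 j 𝓖) m h₁ h₂ Δ ℓ hm hh1 hh2
    (hV.trans hc4) ?_
  · have hsub : {R : Set (Set (Fin n)) | R ⊆ Un n j 𝓖 ∧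
        R.ncard ≤ (h₁ + (Δ + 1) * h₂) * (ℓ + 1)} ⊆
        {R : Set (Set (Fin n)) | R ⊆ Un n j 𝓖 ∧ R.ncard ≤ F} :=
      fun R hR => ⟨hR.1, hR.2.trans hF⟩
    have h2 := stmt_CNT (Set (Fin n)) (Un n j 𝓖) F B (Set.toFinite _) hB (hV.trans hB2)
    exact h.trans (Nat.mul_le_mul_right _ ((Set.ncard_le_ncard hsub (Set.toFinite _)).trans h2))
  · intro A hA hmA
    have hAne : A.Nonempty := by
      rw [Set.nonempty_iff_ne_empty]
      rintro rfl
      rw [Set.ncard_empty] at hmA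
      omega
    obtain ⟨X, hX, hor⟩ := hSUP2 n j 𝓖 A hj hjn hA hAne
      (hc1.trans (Nat.mul_le_mul_left _ hmA))
    refine ⟨X, hX, ?_⟩
    have hp : 0 < j ^ 2 * n := by positivity
    rcases hor with h | h
    · left
      have h3 : j ^ 2 * n * A.ncard ≤ j ^ 2 * n * (h₁ * dg (R1 j) A X) := by
        calc j ^ 2 * n * A.ncard ≤ 16 * n.choose j * dg (R1 j) A X := h
          _ ≤ j ^ 2 * n * h₁ * dg (R1 j) A X := Nat.mul_le_mul_right _ hc2
          _ = j ^ 2 * n * (h₁ * dg (R1 j) A X) := by ring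
      exact Nat.le_of_mul_le_mul_left h3 hp
    · right
      have hp2 : 0 < j ^ 2 * n ^ 2 := by positivity
      have h3 : j ^ 2 * n ^ 2 * A.ncard ≤ j ^ 2 * n ^ 2 * (h₂ * dg (R2 j 𝓖) A X) := by
        calc j ^ 2 * n ^ 2 * A.ncard ≤ 64 * n.choose j * dg (R2 j 𝓖) A X := h
          _ ≤ j ^ 2 * n ^ 2 * h₂ * dg (R2 j 𝓖) A X := Nat.mul_le_mul_right _ hc3
          _ = j ^ 2 * n ^ 2 * (h₂ * dg (R2 j 𝓖) A X) := by ring
      exact Nat.le_of_mul_le_mul_left h3 hp2

end Pool.F3LT
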