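import Pool.Agent.Work.MP_f3d170_lt.Interface

set_option autoImplicit false

/-! Block CONT: containers for two relations (helper41). -/

open Set

namespace Pool.F3LT

namespace X_CONT

variable {α : Type}

lemma dg_mono [Finite α] (R : α → α → Prop) {A B : Set α} (h : A ⊆ B) (v : α) :
    dg R A v ≤ dg R B v := by
  refine Set.ncard_le_ncard ?_ (Set.toFinite _)
  rintro w ⟨h1, h2⟩
  exact ⟨h h1, h2⟩

/-- the two properties of the families -/
def Gd (R₁ R₂ : α → α → Prop) (Δ : ℕ) (𝒟 : Set α) : Prop :=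
  (∀ x ∈ 𝒟, dg R₁ 𝒟 x = 0) ∧ ∀ x ∈ 𝒟, dg R₂ 𝒟 x ≤ Δ

lemma Gd.mono [Finite α] {R₁ R₂ : α → α → Prop} {Δ : ℕ} {𝒟 𝒟' : Set α}
    (h : Gd R₁ R₂ Δ 𝒟) (hs : 𝒟' ⊆ 𝒟) : Gd R₁ R₂ Δ 𝒟' := by
  refine ⟨fun x hx => ?_, fun x hx => ?_⟩
  · have := dg_mono R₁ hs x
    have h2 := h.1 x (hs hx)
    omega
  · exact (dg_mono R₂ hs x).trans (h.2 x (hs hx))

/-- one step of the induction -/
lemma step [Finite α] (P : Set α → Prop) (hP : ∀ 𝒟 𝒟' : Set α, P 𝒟 → 𝒟' ⊆ 𝒟 → P 𝒟')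
    (W N : Set α) (v : α) (hv : v ∈ W) (hN : N ⊆ W) (m h hi Di : ℕ) (hm : 1 ≤ m)
    (hhi : 1 ≤ hi) (hh : hi * (Di + 1) ≤ h) (hW : m ≤ W.ncard) (hc : W.ncard ≤ hi * N.ncard)
    (hD : ∀ 𝒟 ⊆ W, P 𝒟 → v ∈ 𝒟 → (𝒟 ∩ N).ncard ≤ Di)
    (ih : ∀ W' : Set α, W' ⊆ W → W'.ncard < W.ncard → ∃ f : Set α → Set α,
      (∀ R, (f R).ncard ≤ m) ∧ ∀ 𝒟 ⊆ W', P 𝒟 → ∃ R ⊆ 𝒟, 𝒟 ⊆ R ∪ f R ∧
        (W'.ncard < m → R = ∅) ∧
        (m ≤ W'.ncard → (R.ncard : ℝ) ≤ (h : ℝ) * (1 + Real.log ((W'.ncard : ℝ) / m)))) :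
    ∃ f : Set α → Set α,
      (∀ R, (f R).ncard ≤ m) ∧ ∀ 𝒟 ⊆ W, P 𝒟 → ∃ R ⊆ 𝒟, 𝒟 ⊆ R ∪ f R ∧
        (W.ncard < m → R = ∅) ∧
        (m ≤ W.ncard → (R.ncard : ℝ) ≤ (h : ℝ) * (1 + Real.log ((W.ncard : ℝ) / m))) := by
  classical
  have hm0 : (0 : ℝ) < m := by exact_mod_cast hm
  have hW0 : (0 : ℝ) < (W.ncard : ℝ) := by
    have : 0 < W.ncard := by omega
    exact_mod_cast this
  have hlog : 0 ≤ Real.log ((W.ncard : ℝ) / m) := by
    apply Real.log_nonneg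
    rw [le_div_iff₀ hm0, one_mul]
    exact_mod_cast hW
  set W₁ : Set α := W \ {v} with hW₁
  set W₂ : Set α := W \ ({v} ∪ N) with hW₂
  have c1 : W₁.ncard < W.ncard :=
    Set.ncard_lt_ncard ⟨Set.sdiff_subset, fun hcon => (hcon hv).2 rfl⟩ (Set.toFinite _)
  have c2 : W₂.ncard < W.ncard :=
    Set.ncard_lt_ncard ⟨Set.sdiff_subset, fun hcon => (hcon hv).2 (Or.inl rfl)⟩ (Set.toFinite _)
  have c3 : W₂.ncard + N.ncard ≤ W.ncard := by
    have h1 : (W \ N).ncard + N.ncard = W.ncard :=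
      Set.ncard_sdiff_add_ncard_of_subset hN (Set.toFinite _)
    have h2 : W₂.ncard ≤ (W \ N).ncard := by
      refine Set.ncard_le_ncard ?_ (Set.toFinite _)
      intro x hx
      exact ⟨hx.1, fun hxN => hx.2 (Or.inr hxN)⟩
    omega
  obtain ⟨f₁, hf₁, g₁⟩ := ih W₁ Set.sdiff_subset c1
  obtain ⟨f₂, hf₂, g₂⟩ := ih W₂ Set.sdiff_subset c2
  refine ⟨fun R => if v ∈ R then f₂ (R ∩ W₂) else f₁ R, ?_, ?_⟩
  · intro R
    dsimp only
    split_ifs
    · exact hf₂ _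
    · exact hf₁ _
  intro 𝒟 h𝒟 hPD
  by_cases hvD : v ∈ 𝒟
  · obtain ⟨R', hR', hcov, hsm, hbd⟩ := g₂ (𝒟 ∩ W₂) Set.inter_subset_right
      (hP _ _ hPD Set.inter_subset_left)
    have hK := hD 𝒟 h𝒟 hPD hvD
    have e1 : (({v} ∪ (𝒟 ∩ N)) ∪ R') ∩ W₂ = R' := by
      ext x
      constructor
      · rintro ⟨(hx | hx) | hx, hx2⟩
        · exact absurd (Or.inl hx) hx2.2
        · exact absurd (Or.inr hx.2) hx2.2
        · exact hx
      · intro hx
        exact ⟨Or.inr hx, (hR' hx).2⟩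
    refine ⟨({v} ∪ (𝒟 ∩ N)) ∪ R', ?_, ?_, ?_, ?_⟩
    · rintro x ((hx | hx) | hx)
      · rw [Set.mem_singleton_iff] at hx
        rw [hx]; exact hvD
      · exact hx.1
      · exact (hR' hx).1
    · have hvR : v ∈ ({v} ∪ (𝒟 ∩ N)) ∪ R' := Or.inl (Or.inl rfl)
      dsimp only
      rw [if_pos hvR, e1]
      intro x hx
      by_cases hxv : x = v
      · exact Or.inl (Or.inl (Or.inl hxv))
      by_cases hxN : x ∈ N
      · exact Or.inl (Or.inl (Or.inr ⟨hx, hxN⟩))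
      have hx2 : x ∈ 𝒟 ∩ W₂ := ⟨hx, h𝒟 hx, by
        rintro (h1 | h1)
        · exact hxv h1
        · exact hxN h1⟩
      rcases hcov hx2 with h1 | h1
      · exact Or.inl (Or.inr h1)
      · exact Or.inr h1
    · intro hlt
      omega
    · intro _
      have hcard : (({v} ∪ (𝒟 ∩ N)) ∪ R').ncard ≤ 1 + Di + R'.ncard := by
        have h1 := Set.ncard_union_le ({v} ∪ (𝒟 ∩ N)) R'
        have h2 := Set.ncard_union_le {v} (𝒟 ∩ N)
        rw [Set.ncard_singleton] at h2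
        omega
      have hcardR : ((({v} ∪ (𝒟 ∩ N)) ∪ R').ncard : ℝ) ≤ 1 + Di + R'.ncard := by
        exact_mod_cast hcard
      have hhR : ((hi : ℝ) * (Di + 1)) ≤ h := by exact_mod_cast hh
      have hhi0 : (1 : ℝ) ≤ hi := by exact_mod_cast hhi
      have hDi0 : (0 : ℝ) ≤ Di := Nat.cast_nonneg _
      have hle : (1 + Di : ℝ) ≤ h := by nlinarith
      have h0 : (0 : ℝ) ≤ h := by linarith
      rcases lt_or_ge W₂.ncard m with hlt | hge
      · have hR0 : R'.ncard = 0 := by rw [hsm hlt, Set.ncard_empty]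
        rw [hR0] at hcardR
        have : (h : ℝ) ≤ h * (1 + Real.log ((W.ncard : ℝ) / m)) := by
          have := mul_nonneg h0 hlog
          linarith
        push_cast at hcardR
        linarith
      · have hb := hbd hge
        have hW20 : (0 : ℝ) < (W₂.ncard : ℝ) := by
          have : 0 < W₂.ncard := by omega
          exact_mod_cast this
        have key : Real.log ((W₂.ncard : ℝ) / m) ≤
            Real.log ((W.ncard : ℝ) / m) - 1 / hi := by
          have e2 : (W₂.ncard : ℝ) / m = ((W₂.ncard : ℝ) / W.ncard) * ((W.ncard : ℝ) / m) := by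
            field_simp
          rw [e2, Real.log_mul (by positivity) (by positivity)]
          have h3 := Real.log_le_sub_one_of_pos (x := (W₂.ncard : ℝ) / W.ncard) (by positivity)
          have h4 : (W₂.ncard : ℝ) / W.ncard ≤ 1 - 1 / hi := by
            rw [div_le_iff₀ hW0]
            have h5 : (W₂.ncard : ℝ) + N.ncard ≤ W.ncard := by exact_mod_cast c3
            have h6 : (W.ncard : ℝ) ≤ hi * N.ncard := by exact_mod_cast hc
            have h7 : (W.ncard : ℝ) / hi ≤ N.ncard := by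
              rw [div_le_iff₀ (by linarith)]
              linarith
            have h8 : (1 - 1 / (hi : ℝ)) * W.ncard = W.ncard - (W.ncard : ℝ) / hi := by ring
            rw [h8]; linarith
          linarith
        have h9 : (1 + Di : ℝ) ≤ h * (1 / hi) := by
          rw [mul_one_div, le_div_iff₀ (by linarith)]
          linarith
        have h10 : (h : ℝ) * (1 + Real.log ((W₂.ncard : ℝ) / m)) ≤
            h * (1 + (Real.log ((W.ncard : ℝ) / m) - 1 / hi)) :=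
          mul_le_mul_of_nonneg_left (by linarith) h0
        have h11 : (h : ℝ) * (1 + (Real.log ((W.ncard : ℝ) / m) - 1 / hi)) =
          h * (1 + Real.log ((W.ncard : ℝ) / m)) - h * (1 / hi) := by ring
        linarith
  · have hsub : 𝒟 ⊆ W₁ := fun x hx => ⟨h𝒟 hx, fun hxv => hvD (by
      rw [Set.mem_singleton_iff] at hxv
      rw [← hxv]; exact hx)⟩
    obtain ⟨R, hR, hcov, hsm, hbd⟩ := g₁ 𝒟 hsub hPD
    refine ⟨R, hR, ?_, ?_, ?_⟩
    · dsimp only
      rw [if_neg (fun hh => hvD (hR hh))]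
      exact hcov
    · intro hlt
      omega
    · intro _
      have h0 : (0 : ℝ) ≤ h := Nat.cast_nonneg _
      rcases lt_or_ge W₁.ncard m with hlt | hge
      · rw [hsm hlt, Set.ncard_empty]
        push_cast
        have := mul_nonneg h0 hlog
        linarith
      · refine (hbd hge).trans ?_
        apply mul_le_mul_of_nonneg_left _ h0
        have hW10 : (0 : ℝ) < (W₁.ncard : ℝ) := by
          have : 0 < W₁.ncard := by omega
          exact_mod_cast this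
        have : Real.log ((W₁.ncard : ℝ) / m) ≤ Real.log ((W.ncard : ℝ) / m) := by
          apply Real.log_le_log (by positivity)
          apply div_le_div_of_nonneg_right _ hm0.le
          exact_mod_cast c1.le
        linarith

theorem claim [Finite α] (V : Set α) (R₁ R₂ : α → α → Prop) (m h₁ h₂ Δ : ℕ) (hm : 1 ≤ m)
    (hh₁ : 1 ≤ h₁) (hh₂ : 1 ≤ h₂)
    (H : ∀ A ⊆ V, m ≤ A.ncard → ∃ v ∈ A, A.ncard ≤ h₁ * dg R₁ A v ∨ A.ncard ≤ h₂ * dg R₂ A v) :
    ∀ (k : ℕ) (W : Set α), W ⊆ V → W.ncard = k → ∃ f : Set α → Set α,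
      (∀ R, (f R).ncard ≤ m) ∧ ∀ 𝒟 ⊆ W, Gd R₁ R₂ Δ 𝒟 → ∃ R ⊆ 𝒟, 𝒟 ⊆ R ∪ f R ∧
        (W.ncard < m → R = ∅) ∧
        (m ≤ W.ncard → (R.ncard : ℝ) ≤
          ((h₁ + (Δ + 1) * h₂ : ℕ) : ℝ) * (1 + Real.log ((W.ncard : ℝ) / m))) := by
  intro k
  induction k using Nat.strong_induction_on with
  | _ k ih =>
    intro W hWV hWk
    rcases lt_or_ge W.ncard m with hlt | hge
    · refine ⟨fun _ => W, fun _ => hlt.le, fun 𝒟 h𝒟 _ => ⟨∅, Set.empty_subset _, ?_, fun _ => rfl,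
        fun hge => absurd hge (by omega)⟩⟩
      exact h𝒟.trans Set.subset_union_right
    · obtain ⟨v, hv, hor⟩ := H W hWV hge
      have ih' : ∀ W' : Set α, W' ⊆ W → W'.ncard < W.ncard → ∃ f : Set α → Set α,
        (∀ R, (f R).ncard ≤ m) ∧ ∀ 𝒟 ⊆ W', Gd R₁ R₂ Δ 𝒟 → ∃ R ⊆ 𝒟, 𝒟 ⊆ R ∪ f R ∧
          (W'.ncard < m → R = ∅) ∧
          (m ≤ W'.ncard → (R.ncard : ℝ) ≤
            ((h₁ + (Δ + 1) * h₂ : ℕ) : ℝ) * (1 + Real.log ((W'.ncard : ℝ) / m))) :=
        fun W' hW' hlt => ih W'.ncard (by omega) W' (hW'.trans hWV) rfl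
      rcases hor with h1 | h1
      · refine step (Gd R₁ R₂ Δ) (fun 𝒟 𝒟' h hs => h.mono hs) W {w | w ∈ W ∧ R₁ v w} v hv
          (fun w hw => hw.1) m _ h₁ 0 hm hh₁ ?_ hge h1 ?_ ih'
        · nlinarith
        · intro 𝒟 h𝒟 hG hvD
          have := hG.1 v hvD
          refine le_of_eq_of_le ?_ this.le
          unfold dg
          congr 1
          ext w
          constructor
          · rintro ⟨hw1, hw2⟩
            exact ⟨hw1, hw2.2⟩
          · rintro ⟨hw1, hw2⟩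
            exact ⟨hw1, h𝒟 hw1, hw2⟩
      · refine step (Gd R₁ R₂ Δ) (fun 𝒟 𝒟' h hs => h.mono hs) W {w | w ∈ W ∧ R₂ v w} v hv
          (fun w hw => hw.1) m _ h₂ Δ hm hh₂ ?_ hge h1 ?_ ih'
        · nlinarith
        · intro 𝒟 h𝒟 hG hvD
          have := hG.2 v hvD
          refine le_of_eq_of_le ?_ this
          unfold dg
          congr 1
          ext w
          constructor
          · rintro ⟨hw1, hw2⟩
            exact ⟨hw1, hw2.2⟩
          · rintro ⟨hw1, hw2⟩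
            exact ⟨hw1, h𝒟 hw1, hw2⟩

end X_CONT

open X_CONT in
theorem p_CONT : Stmt_CONT := by
  intro α _ V R₁ R₂ m h₁ h₂ Δ ℓ hm hh₁ hh₂ hV H
  classical
  obtain ⟨f, hf, g⟩ := claim V R₁ R₂ m h₁ h₂ Δ hm hh₁ hh₂ H _ V subset_rfl rfl
  have hm0 : (0 : ℝ) < m := by exact_mod_cast hm
  set h : ℕ := h₁ + (Δ + 1) * h₂ with hh
  set ℛ : Set (Set α) := {R : Set α | R ⊆ V ∧ R.ncard ≤ h * (ℓ + 1)} with hℛ
  have hcov : {𝒟 : Set α | 𝒟 ⊆ V ∧ (∀ x ∈ 𝒟, dg R₁ 𝒟 x = 0) ∧ ∀ x ∈ 𝒟, dg R₂ 𝒟 x ≤ Δ} ⊆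
      ⋃ R ∈ ℛ, (fun S => R ∪ S) '' (𝒫 (f R)) := by
    rintro 𝒟 ⟨hD, hG1, hG2⟩
    obtain ⟨R, hR, hc, hsm, hbd⟩ := g 𝒟 hD ⟨hG1, hG2⟩
    simp only [Set.mem_iUnion]
    refine ⟨R, ⟨hR.trans hD, ?_⟩, 𝒟 ∩ f R, Set.inter_subset_right, ?_⟩
    · rcases lt_or_ge V.ncard m with hlt | hge
      · rw [hsm hlt, Set.ncard_empty]; exact Nat.zero_le _
      · have h1 := hbd hge
        have h2 : Real.log ((V.ncard : ℝ) / m) ≤ ℓ := by
          have h3 : (V.ncard : ℝ) / m ≤ 2 ^ ℓ := by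
            rw [div_le_iff₀ hm0]
            exact_mod_cast hV
          have hV0 : (0 : ℝ) < (V.ncard : ℝ) := by
            have : 0 < V.ncard := by omega
            exact_mod_cast this
          have h4 : Real.log ((V.ncard : ℝ) / m) ≤ Real.log (2 ^ ℓ) :=
            Real.log_le_log (by positivity) h3
          rw [Real.log_pow] at h4
          have h5 : Real.log 2 ≤ 1 := by
            have := Real.log_two_lt_d9
            linarith
          have h6 : (ℓ : ℝ) * Real.log 2 ≤ ℓ * 1 :=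
            mul_le_mul_of_nonneg_left h5 (Nat.cast_nonneg _)
          linarith
        have h3 : (R.ncard : ℝ) ≤ (h : ℝ) * (ℓ + 1) := by
          refine h1.trans ?_
          apply mul_le_mul_of_nonneg_left _ (Nat.cast_nonneg _)
          linarith
        exact_mod_cast h3
    · ext x
      constructor
      · rintro (hx | hx)
        · exact hR hx
        · exact hx.1
      · intro hx
        rcases hc hx with h1 | h1
        · exact Or.inl h1
        · exact Or.inr ⟨hx, h1⟩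
  refine (Set.ncard_le_ncard hcov (Set.toFinite _)).trans ?_
  have hfin : ℛ.Finite := Set.toFinite _
  have hun : (⋃ R ∈ ℛ, (fun S => R ∪ S) '' (𝒫 (f R))) =
      (⋃ R ∈ hfin.toFinset, (fun S => R ∪ S) '' (𝒫 (f R))) := by
    simp
  rw [hun]
  refine (Finset.set_ncard_biUnion_le _ _).trans ?_
  rw [Set.ncard_eq_toFinset_card ℛ hfin, ← smul_eq_mul]
  refine Finset.sum_le_card_nsmul _ _ _ ?_
  intro R _
  refine (Set.ncard_image_le (Set.toFinite _)).trans ?_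
  rw [Set.ncard_powerset _ (Set.toFinite _)]
  exact Nat.pow_le_pow_right (by norm_num) (hf R)

end Pool.F3LT
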