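import Pool.Agent.Work.MP_f3d170_lt.Interface

set_option autoImplicit false

/-! # MP_f3d170_co, linear upper threshold, block DET (helper22) -/

open Set Matroid Nat
open Pool.Agent.Work.MP_f3d170_co_h45
open Pool.Agent.Work.MP_f3d170_co_helper60
open Pool.Agent.Work.MP_f3d170_co_helper60b
open Pool.Agent.Work.MP_f3d170_co_helper44

namespace Pool.F3LT

variable {n s : ℕ}

lemma DET_rec {M : Matroid (Fin n)} (hE : M.E = Set.univ) {P A : Set (Fin n)}
    (hP : IsHyp M s P) (hA1 : A ⊆ P) (hA2 : s + 1 ≤ A.ncard) (hA3 : Gen M s A) :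
    Rec (trunc M s) s A ⊆ P := by
  rintro z (hz | ⟨S, hS, hSc, hzS, hz⟩)
  · exact hA1 hz
  · have hSind : M.Indep S := by
      obtain ⟨S', hSS', hS'A, hS'c⟩ := Set.exists_subsuperset_card_eq hS (by omega : S.ncard ≤ s)
        (by omega)
      exact (hA3 S' hS'A hS'c).subset hSS'
    have hdep : ¬ M.Indep (insert z S) := by
      intro h
      apply hz
      refine trunc_indep.2 ⟨h, ?_⟩
      rw [Set.ncard_insert_of_notMem hzS (Set.toFinite _)]
      omega
    rw [hSind.insert_indep_iff_of_notMem hzS] at hdep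
    have hzcl : z ∈ M.closure S := by
      by_contra hcon
      exact hdep ⟨by rw [hE]; trivial, hcon⟩
    rw [← hP.1]
    exact M.closure_subset_closure (hS.trans hA1) hzcl

lemma DET_aux (hSAT : Stmt_SATD) {Λ e E : ℕ} {M M' : Matroid (Fin n)} {𝒵 : Set (Set (Fin n))}
    (hE : M.E = Set.univ) (hE' : M'.E = Set.univ) (heE : e ^ 2 ≤ E)
    (hex' : Exc Λ e M' (s + 1)) (hZ' : 𝒵 ⊆ YM Λ M' (s + 1))
    (ht : trunc M s = trunc M' s) (h1 : Lg Λ M s = Lg Λ M' s)
    (h2 : Lg Λ M (s + 1) = Lg Λ M' (s + 1))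
    (hUS : US E 𝒵 (DN Λ M s) = US E 𝒵 (DN Λ M' s)) (hDG : DG Λ M s = DG Λ M' s)
    (hB2 : B2 Λ M s = B2 Λ M' s) {X : Set (Fin n)} (hX : X.ncard = s + 1)
    (hdep : ¬ M.Indep X) : ¬ M'.Indep X := by
  by_cases hgen : Gen M s X
  · obtain ⟨hhyp, hXcl, hhas⟩ := closure_of_gen hE hX hdep hgen
    by_cases hc : M.closure X ∈ Coh Λ M s
    · rcases hc with hc | ⟨G, hG, G', hG', hne, hPG, hPG'⟩
      · rw [h1] at hc
        exact dep_of_subset_hyp hc.1 hXcl hX
      · intro hind
        rw [h2] at hG hG'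
        apply hne
        have hrk : rk M' X = s + 1 := by rw [indep_iff_rk.1 hind, hX]
        rw [hG.1.eq_closure hE' (hXcl.trans hPG) hrk.ge,
          hG'.1.eq_closure hE' (hXcl.trans hPG') hrk.ge]
    · have hNC : M.closure X ∈ NC Λ M s := ⟨hhyp, hhas, hc⟩
      have hst := star_spec hhas
      have hXR : X ⊆ Rec (trunc M' s) s (star M s (M.closure X)) := by
        rw [← ht]
        exact hXcl.trans (subset_rec hst)
      by_cases hcard : (star M s (M.closure X)).ncard = s + 1
      · by_cases hg : M.closure X ∈ NCn Λ M s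
        · have hD : star M s (M.closure X) ∈ DN Λ M s := ⟨_, hg, hcard, rfl⟩
          by_cases hcz : cnz 𝒵 (star M s (M.closure X)) ≤ E
          · have hmem : star M s (M.closure X) ∈ US E 𝒵 (DN Λ M s) := ⟨hD, hcz⟩
            rw [hUS] at hmem
            obtain ⟨⟨P', hP', -, hEq⟩, -⟩ := hmem
            rw [hEq] at hXR
            exact dep_of_subset_hyp hP'.1.1
              (hXR.trans (rec_subset hE' hP'.1.1 (star_spec hP'.1.2.1))) hX
          · have hdepD : ¬ M'.Indep (star M s (M.closure X)) := by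
              intro hind
              have h3 := hSAT n (s + 1) Λ e M' 𝒵 (star M s (M.closure X)) hE' hex' hZ' hind hcard
              omega
            have hgenD : Gen M' s (star M s (M.closure X)) := by
              rw [← gen_trunc, ← ht, gen_trunc]
              exact hst.2.2.1
            obtain ⟨hh', hsub', -⟩ := closure_of_gen hE' hcard hdepD hgenD
            exact dep_of_subset_hyp hh' (hXR.trans (DET_rec hE' hh' hsub' hst.2.1 hgenD)) hX
        · have hg' : M.closure X ∈ NCg Λ M s := by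
            refine ⟨hNC, ?_⟩
            by_contra hcon
            apply hg
            refine ⟨hNC, fun G hG hPG => ?_⟩
            by_contra hlt
            exact hcon ⟨G, hG, hPG, not_le.1 hlt⟩
          have hD : star M s (M.closure X) ∈ DG Λ M s := ⟨_, hg', hcard, rfl⟩
          rw [hDG] at hD
          obtain ⟨P', hP', -, hEq⟩ := hD
          rw [hEq] at hXR
          exact dep_of_subset_hyp hP'.1.1
            (hXR.trans (rec_subset hE' hP'.1.1 (star_spec hP'.1.2.1))) hX
      · have hD : star M s (M.closure X) ∈ B2 Λ M s := ⟨_, hNC, hcard, rfl⟩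
        rw [hB2] at hD
        obtain ⟨P', hP', -, hEq⟩ := hD
        rw [hEq] at hXR
        exact dep_of_subset_hyp hP'.1 (hXR.trans (rec_subset hE' hP'.1 (star_spec hP'.2.1))) hX
  · rw [← gen_trunc, ht, gen_trunc] at hgen
    exact dep_of_not_gen hgen

lemma DET_trunc_eq {M M' : Matroid (Fin n)} (hE : M.E = Set.univ) (hE' : M'.E = Set.univ)
    (h : ∀ I : Set (Fin n), I.ncard ≤ s → (M.Indep I ↔ M'.Indep I)) :
    trunc M s = trunc M' s := by
  refine Matroid.ext_indep ?_ ?_
  · change M.E = M'.E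
    rw [hE, hE']
  · intro I _
    rw [trunc_indep, trunc_indep]
    exact and_congr_left fun hI => h I hI

/-- DET -/
theorem p_DET (hSAT : Stmt_SATD) : Stmt_DET := by
  intro n s Λ e E M M' 𝒵 hE hE' heE hex hex' hZ hZ' ht h1 h2 hUS hDG hB2
  refine DET_trunc_eq hE hE' ?_
  intro I hI
  rcases Nat.lt_or_ge I.ncard (s + 1) with hlt | hge
  · exact indep_congr_of_trunc ht (by omega)
  · have hX : I.ncard = s + 1 := by omega
    rw [← not_iff_not]
    exact ⟨DET_aux hSAT hE hE' heE hex' hZ' ht h1 h2 hUS hDG hB2 hX,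
      DET_aux hSAT hE' hE heE hex hZ ht.symm h1.symm h2.symm hUS.symm hDG.symm hB2.symm hX⟩

end Pool.F3LT
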