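import Pool.Agent.Work.MP_f3d170_lt.Interface

/-! # MP_f3d170_co, linear threshold: block DNP -/

set_option autoImplicit false

open Set Matroid Nat
open Pool.Agent.Work.MP_f3d170_co_h45
open Pool.Agent.Work.MP_f3d170_co_helper60
open Pool.Agent.Work.MP_f3d170_co_helper60b (trunc Gen IsHyp HasGen star StarSet Rec IsPart
  star_spec IsHyp.eq_closure)
open Pool.Agent.Work.MP_f3d170_co_helper44

namespace Pool.F3LT

variable {n s Λ : ℕ} {M : Matroid (Fin n)}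

private lemma DNP_sub (hE : M.E = Set.univ) {P S : Set (Fin n)} (hP : P ∈ NC Λ M s)
    (hS : S ⊆ star M s P) (hSc : S.ncard = s) : M.Indep S ∧ P = M.closure S := by
  have hst := star_spec hP.2.1
  have hSind : M.Indep S := hst.2.2.1 S hS hSc
  have hrk : rk M S = s := by rw [indep_iff_rk.1 hSind, hSc]
  exact ⟨hSind, IsHyp.eq_closure hE hP.1 (hS.trans hst.1) hrk.ge⟩

private lemma DNP_eq (hE : M.E = Set.univ) {P P' : Set (Fin n)} (hP : P ∈ NC Λ M s)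
    (hP' : P' ∈ NC Λ M s) (h : s ≤ (star M s P ∩ star M s P').ncard) : P = P' := by
  obtain ⟨S, hS, hSc⟩ := Set.exists_subset_card_eq h
  rw [(DNP_sub hE hP (hS.trans Set.inter_subset_left) hSc).2,
    (DNP_sub hE hP' (hS.trans Set.inter_subset_right) hSc).2]

private lemma DNP_flat (hE : M.E = Set.univ) {P G : Set (Fin n)} {j : ℕ} (hP : P ∈ NC Λ M s)
    (hG : G ∈ Lg Λ M j) (h : star M s P ⊆ G) : P ⊆ G := by
  have hst := star_spec hP.2.1
  obtain ⟨S, hS, hSc⟩ := Set.exists_subset_card_eq (s := star M s P) (n := s)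
    (by have := hst.2.1; omega)
  rw [(DNP_sub hE hP hS hSc).2, ← hG.1.1]
  exact M.closure_subset_closure (hS.trans h)

/-- DNP. -/
theorem p_DNP : Stmt_DNP := by
  intro n s Λ M hE
  refine ⟨?_, ?_, ?_, ?_, ?_, ⟨?_, ?_⟩, ?_⟩
  · rintro _ ⟨P, hP, hc, rfl⟩
    refine ⟨hc, fun G hG hDG => hP.2 G hG (DNP_flat hE hP.1 hG hDG), ?_⟩
    intro G hG G' hG' h h'
    by_contra hne
    apply hP.1.2.2
    exact Or.inr ⟨G, hG, G', hG', hne, DNP_flat hE hP.1 hG h, DNP_flat hE hP.1 hG' h'⟩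
  · rintro _ ⟨P, hP, hc, rfl⟩
    obtain ⟨G, hG, hPG, hn⟩ := hP.2
    exact ⟨hc, G, hG, hn, (star_spec hP.1.2.1).1.trans hPG⟩
  · rintro _ ⟨P, hP, hc, rfl⟩ _ ⟨P', hP', hc', rfl⟩ hne
    by_contra hcon
    push Not at hcon
    exact hne (by rw [DNP_eq hE hP.1 hP'.1 hcon])
  · rintro _ ⟨P, hP, hc, rfl⟩ _ ⟨P', hP', hc', rfl⟩ hne
    by_contra hcon
    push Not at hcon
    exact hne (by rw [DNP_eq hE hP.1 hP'.1 hcon])
  · refine (Set.ncard_le_ncard (t := star M s '' NCn Λ M s) ?_ (Set.toFinite _)).trans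
      (Set.ncard_image_le (Set.toFinite _))
    rintro _ ⟨P, hP, hc, rfl⟩
    exact ⟨P, hP, rfl⟩
  · rintro _ ⟨P, hP, hc, rfl⟩
    exact (star_spec hP.2.1).2.1
  · rintro _ ⟨P, hP, hc, rfl⟩ _ ⟨P', hP', hc', rfl⟩ hcard
    rw [DNP_eq hE hP hP' hcard]
  · refine (Set.ncard_le_ncard
      (t := star M s '' {P | P ∈ NC Λ M s ∧ (star M s P).ncard ≠ s + 1}) ?_
      (Set.toFinite _)).trans (Set.ncard_image_le (Set.toFinite _))
    rintro _ ⟨P, hP, hc, rfl⟩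
    exact ⟨P, ⟨hP, hc⟩, rfl⟩

end Pool.F3LT
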