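import Pool.Agent.Work.MP_f3d170_lt.Interface
import Pool.Agent.Work.MP_f3d170_co_helper44.TFIN

/-! Block FINS (helper79): many circuits, with sums instead of a uniform bound (copy of `TFIN.lean`
of helper99). -/

set_option autoImplicit false

open Set Matroid Nat
open Pool.Agent.Work.MP_f3d170_co_h45
open Pool.Agent.Work.MP_f3d170_co_helper60
open Pool.Agent.Work.MP_f3d170_co_helper60b
open Pool.Agent.Work.MP_f3d170_co_helper44

namespace Pool.F3LT

open Classical in
open TFIN in
theorem p_FINS : Stmt_FINS := by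
  intro n s Λ M
  obtain ⟨M, hE, hMr⟩ := M
  simp only
  have hru : rk M Set.univ = s + 1 := by
    rw [← M.eRk_univ_eq, ← coe_rk] at hMr
    exact_mod_cast hMr
  set R := Rm (trunc M s) s (Lg Λ M s) with hR
  set U := (Finset.univ : Finset (Fin n)).powersetCard (s + 2) with hU
  set A0 := U.filter (fun S : Finset (Fin n) => M.IsCircuit (S : Set (Fin n))) with hA0
  set A1 := U.filter (fun S : Finset (Fin n) => ∃ X ⊆ (S : Set (Fin n)), X ∈ R) with hA1
  set A2 := U.filter (fun S : Finset (Fin n) => (¬ ∃ X ⊆ (S : Set (Fin n)), X ∈ R) ∧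
    rk M (S : Set (Fin n)) = s) with hA2
  set A3 := U.filter (fun S : Finset (Fin n) => (¬ ∃ X ⊆ (S : Set (Fin n)), X ∈ R) ∧
    rk M (S : Set (Fin n)) = s + 1 ∧ ¬ M.IsCircuit (S : Set (Fin n))) with hA3
  have hcardU : U.card = n.choose (s + 2) := by
    rw [hU, Finset.card_powersetCard, Finset.card_univ, Fintype.card_fin]
  have hmemU : ∀ S, S ∈ U ↔ S.card = s + 2 := by
    intro S
    rw [hU, Finset.mem_powersetCard]
    exact ⟨fun h => h.2, fun h => ⟨Finset.subset_univ _, h⟩⟩
  have hcover : U ⊆ A0 ∪ (A1 ∪ (A2 ∪ A3)) := by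
    intro S hS
    simp only [Finset.mem_union, hA0, hA1, hA2, hA3, Finset.mem_filter]
    by_cases h0 : M.IsCircuit (S : Set (Fin n))
    · exact Or.inl ⟨hS, h0⟩
    by_cases h1 : ∃ X ⊆ (S : Set (Fin n)), X ∈ R
    · exact Or.inr (Or.inl ⟨hS, h1⟩)
    have h2 : (S : Set (Fin n)).ncard = s + 2 := by
      rw [Set.ncard_coe_finset]; exact (hmemU S).1 hS
    have h3 := rk_ge h2 h1
    have h4 := rk_mono M (Set.subset_univ (S : Set (Fin n)))
    rw [hru] at h4
    rcases (show rk M (S : Set (Fin n)) = s ∨ rk M (S : Set (Fin n)) = s + 1 by omega) with h5 | h5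
    · exact Or.inr (Or.inr (Or.inl ⟨hS, h1, h5⟩))
    · exact Or.inr (Or.inr (Or.inr ⟨hS, h1, h5, h0⟩))
  have hsum : n.choose (s + 2) ≤ A0.card + (A1.card + (A2.card + A3.card)) := by
    rw [← hcardU]
    refine (Finset.card_le_card hcover).trans ((Finset.card_union_le _ _).trans
      (Nat.add_le_add_left ((Finset.card_union_le _ _).trans
        (Nat.add_le_add_left (Finset.card_union_le _ _) _)) _))
  have h0 : A0.card ≤ numCircuits M := by
    have := card_filter_le (n := n) (fun X => M.IsCircuit X) (s + 2)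
    exact this
  have h1 : A1.card ≤ (n - (s + 1)) * R.ncard := by
    set R' := ((Finset.univ : Finset (Fin n)).powersetCard (s + 1)).filter
      (fun X : Finset (Fin n) => (X : Set (Fin n)) ∈ R) with hR'
    have hR'c : R'.card ≤ R.ncard := by
      have := card_filter_le (n := n) (fun X => X ∈ R) (s + 1)
      exact this
    have hsub : A1 ⊆ R'.biUnion (fun X => (Finset.univ \ X).image (fun a => insert a X)) := by
      intro S hS
      rw [hA1, Finset.mem_filter] at hS
      obtain ⟨hSU, X, hXS, hXR⟩ := hS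
      obtain ⟨X', rfl⟩ : ∃ J' : Finset (Fin n), (J' : Set (Fin n)) = X :=
        ⟨X.toFinset, by simp⟩
      rw [Finset.coe_subset] at hXS
      have hXc : X'.card = s + 1 := by
        have := hXR.1
        rwa [Set.ncard_coe_finset] at this
      have h1 : (S \ X').card = 1 := by
        rw [Finset.card_sdiff_of_subset hXS, (hmemU S).1 hSU, hXc]
        omega
      obtain ⟨a, ha⟩ := Finset.card_eq_one.1 h1
      have ha' : a ∈ S \ X' := by rw [ha]; simp
      rw [Finset.mem_sdiff] at ha'
      rw [Finset.mem_biUnion]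
      refine ⟨X', ?_, ?_⟩
      · rw [hR', Finset.mem_filter, Finset.mem_powersetCard]
        exact ⟨⟨Finset.subset_univ _, hXc⟩, hXR⟩
      · rw [Finset.mem_image]
        refine ⟨a, Finset.mem_sdiff.2 ⟨Finset.mem_univ _, ha'.2⟩, ?_⟩
        apply Finset.eq_of_subset_of_card_le
        · exact Finset.insert_subset ha'.1 hXS
        · rw [Finset.card_insert_of_notMem ha'.2, (hmemU S).1 hSU, hXc]
    refine (Finset.card_le_card hsub).trans ?_
    refine (Finset.card_biUnion_le_card_mul _ _ (n - (s + 1)) ?_).trans ?_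
    · intro X hX
      rw [hR', Finset.mem_filter, Finset.mem_powersetCard] at hX
      refine Finset.card_image_le.trans ?_
      rw [Finset.card_sdiff_of_subset (Finset.subset_univ _), Finset.card_univ, Fintype.card_fin,
        hX.1.2]
    · rw [mul_comm]
      exact Nat.mul_le_mul_left _ hR'c
  -- the good independent sets
  set J := JS Λ M s with hJ
  have hJm : ∀ I : Finset (Fin n), I ∈ J ↔ I.card = s ∧ M.Indep (I : Set (Fin n)) ∧
      bn M s (M.closure (I : Set (Fin n))) < Λ := by
    intro I
    rw [hJ, JS, Finset.mem_filter, Finset.mem_powersetCard]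
    exact ⟨fun h => ⟨h.1.2, h.2⟩, fun h => ⟨⟨Finset.subset_univ _, h.1⟩, h.2⟩⟩
  have hJe : ∀ I : Finset (Fin n),
      ((M.closure (I : Set (Fin n)) \ (I : Set (Fin n))).toFinset).card =
        xc M (I : Set (Fin n)) := by
    intro I
    rw [← Set.ncard_eq_toFinset_card']
    rfl
  have h2 : A2.card ≤ ∑ I ∈ J, xc M (I : Set (Fin n)) ^ 2 := by
    have hsub : A2 ⊆ J.biUnion (fun I =>
        (((M.closure (I : Set (Fin n)) \ (I : Set (Fin n))).toFinset) ×ˢ
          ((M.closure (I : Set (Fin n)) \ (I : Set (Fin n))).toFinset)).image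
            (fun p => insert p.1 (insert p.2 I))) := by
      intro S hS
      rw [hA2, Finset.mem_filter] at hS
      obtain ⟨I, x, z, hI1, hI2, hI3, hx, hz, hSe⟩ := typeA hE ((hmemU S).1 hS.1) hS.2.2 hS.2.1
      rw [Finset.mem_biUnion]
      refine ⟨I, ?_, ?_⟩
      · rw [hJm]
        exact ⟨hI1, hI2, hI3⟩
      · rw [Finset.mem_image]
        refine ⟨(x, z), ?_, hSe.symm⟩
        rw [Finset.mem_product, Set.mem_toFinset, Set.mem_toFinset]
        exact ⟨hx, hz⟩
    refine (Finset.card_le_card hsub).trans ?_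
    refine Finset.card_biUnion_le.trans (Finset.sum_le_sum ?_)
    intro I _
    refine Finset.card_image_le.trans ?_
    rw [Finset.card_product, sq, hJe I]
  have h3 : (s + 1) * A3.card ≤ ∑ I ∈ J, xc M (I : Set (Fin n)) * (n - s) := by
    set Q : Finset (Fin n) → Finset (Fin n × Fin n) := fun S => (S ×ˢ S).filter (fun p =>
      p.1 ≠ p.2 ∧ M.Indep ((((S.erase p.1).erase p.2 : Finset (Fin n))) : Set (Fin n)) ∧
      p.1 ∈ M.closure ((((S.erase p.1).erase p.2 : Finset (Fin n))) : Set (Fin n)) ∧
      bn M s (M.closure ((((S.erase p.1).erase p.2 : Finset (Fin n))) : Set (Fin n))) < Λ) with hQ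
    have hlow : (s + 1) * A3.card ≤ (A3.sigma Q).card := by
      rw [Finset.card_sigma, mul_comm, ← smul_eq_mul]
      apply Finset.card_nsmul_le_sum
      intro S hS
      rw [hA3, Finset.mem_filter] at hS
      exact pairs hE ((hmemU S).1 hS.1) hS.2.2.1 hS.2.2.2 hS.2.1
    refine hlow.trans ?_
    have hup : (A3.sigma Q).card ≤ (J.sigma (fun I =>
        ((M.closure (I : Set (Fin n)) \ (I : Set (Fin n))).toFinset) ×ˢ
          (Finset.univ \ I))).card := by
      refine Finset.card_le_card_of_injOn (fun t => ⟨(t.1.erase t.2.1).erase t.2.2, t.2⟩) ?_ ?_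
      · rintro ⟨S, x, z⟩ ht
        rw [Finset.mem_coe, Finset.mem_sigma] at ht
        obtain ⟨hS, hq⟩ := ht
        simp only at hS hq
        rw [hQ, Finset.mem_filter, Finset.mem_product] at hq
        obtain ⟨⟨hx, hz⟩, hxz, hI, hxI, hb⟩ := hq
        simp only at hx hz hxz hI hxI hb
        rw [hA3, Finset.mem_filter] at hS
        have hSc := (hmemU S).1 hS.1
        rw [Finset.mem_coe, Finset.mem_sigma]
        simp only
        rw [Finset.mem_product, Set.mem_toFinset, Finset.mem_sdiff]
        refine ⟨?_, ⟨hxI, ?_⟩, Finset.mem_univ _, ?_⟩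
        · rw [hJm]
          refine ⟨?_, hI, hb⟩
          rw [Finset.card_erase_of_mem (Finset.mem_erase.2 ⟨hxz.symm, hz⟩),
            Finset.card_erase_of_mem hx, hSc]
          omega
        · simp
        · simp
      · rintro ⟨S, x, z⟩ ht ⟨S', x', z'⟩ ht' h
        rw [Finset.mem_coe, Finset.mem_sigma] at ht ht'
        simp only at ht ht' h
        replace ht := ht.2
        replace ht' := ht'.2
        rw [hQ, Finset.mem_filter, Finset.mem_product] at ht ht'
        rw [Sigma.mk.injEq] at h
        obtain ⟨h1, h2⟩ := h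
        have h3 := eq_of_heq h2
        rw [Prod.mk.injEq] at h3
        obtain ⟨rfl, rfl⟩ := h3
        have h4 : S = insert x (insert z ((S.erase x).erase z)) := by
          rw [Finset.insert_erase (Finset.mem_erase.2 ⟨ht.2.1.symm, ht.1.2⟩),
            Finset.insert_erase ht.1.1]
        have h5 : S' = insert x (insert z ((S'.erase x).erase z)) := by
          rw [Finset.insert_erase (Finset.mem_erase.2 ⟨ht'.2.1.symm, ht'.1.2⟩),
            Finset.insert_erase ht'.1.1]
        have h6 : S = S' := by rw [h4, h5, h1]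
        subst h6
        rfl
    refine hup.trans ?_
    rw [Finset.card_sigma]
    refine Finset.sum_le_sum ?_
    intro I hI
    rw [Finset.card_product, hJe I, Finset.card_sdiff_of_subset (Finset.subset_univ _),
      Finset.card_univ, Fintype.card_fin, ((hJm I).1 hI).1]
  calc (s + 1) * n.choose (s + 2) ≤ (s + 1) * (A0.card + (A1.card + (A2.card + A3.card))) :=
        Nat.mul_le_mul_left _ hsum
    _ = (s + 1) * A0.card + (s + 1) * A1.card + ((s + 1) * A2.card + (s + 1) * A3.card) := by ring
    _ ≤ (s + 1) * numCircuits M + (s + 1) * ((n - (s + 1)) * R.ncard) +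
        ((s + 1) * (∑ I ∈ J, xc M (I : Set (Fin n)) ^ 2) +
          ∑ I ∈ J, xc M (I : Set (Fin n)) * (n - s)) := by gcongr
    _ = _ := by rw [Finset.mul_sum, ← Finset.sum_add_distrib, mul_assoc]

end Pool.F3LT
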