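import Pool.Agent.Work.MP_f3d170_lt.Interface

set_option autoImplicit false

/-! # Block GIE (MP_f3d170_co, linear upper threshold) -/

open Set Matroid Nat
open Pool.Agent.Work.MP_f3d170_co_h45
open Pool.Agent.Work.MP_f3d170_co_helper60
open Pool.Agent.Work.MP_f3d170_co_helper60b (trunc Gen IsHyp HasGen star StarSet Rec IsPart)
open Pool.Agent.Work.MP_f3d170_co_helper44

namespace Pool.F3LT

/-- the replacements of `x` inside a set `G` -/
theorem GIE_aux {n j : ℕ} (hj : 1 ≤ j) (h10 : 10 * j ≤ n) (𝒰 : Set (Set (Fin n)))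
    (G X : Set (Fin n)) (x : Fin n) (hx : x ∈ X) (hX : X.ncard = j) (hXG : X ⊆ G)
    (hG : n < 2 * G.ncard) (h𝒰 : ∀ Y : Set (Fin n), Y.ncard = j → Y ⊆ G → Y ∈ 𝒰) :
    2 * n ≤ 5 * {z | z ∉ X \ {x} ∧ insert z (X \ {x}) ∈ 𝒰}.ncard := by
  have h1 : (X \ {x}).ncard + 1 = j := by
    rw [← hX]
    exact Set.ncard_sdiff_singleton_add_one hx (Set.toFinite _)
  have h2 : G \ (X \ {x}) ⊆ {z | z ∉ X \ {x} ∧ insert z (X \ {x}) ∈ 𝒰} := by
    rintro z ⟨hzG, hz⟩
    refine ⟨hz, h𝒰 _ ?_ ?_⟩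
    · rw [Set.ncard_insert_of_notMem hz (Set.toFinite _), h1]
    · intro w hw
      rcases hw with rfl | hw
      · exact hzG
      · exact hXG hw.1
  have h3 := Set.ncard_le_ncard h2 (Set.toFinite _)
  have h4 : (G \ (X \ {x})).ncard + (X \ {x}).ncard = G.ncard :=
    Set.ncard_sdiff_add_ncard_of_subset (fun w hw => hXG hw.1) (Set.toFinite _)
  omega

theorem p_GIE : Stmt_GIE := by
  intro n j Λ M hj h10
  refine ⟨?_, ?_⟩
  · rintro X ⟨hX, G, hG, hGn, hXG⟩ x hx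
    exact GIE_aux hj h10 _ G X x hx hX hXG hGn fun Y hY hYG => ⟨hY, G, hG, hGn, hYG⟩
  · intro X hX x hx
    refine GIE_aux hj h10 _ Set.univ X x hx hX (Set.subset_univ _) ?_ fun Y hY _ => hY
    rw [Set.ncard_univ, Nat.card_eq_fintype_card, Fintype.card_fin]
    omega

end Pool.F3LT
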