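import Pool.Agent.Work.MP_f3d170_lt.Interface

set_option autoImplicit false

/-! # GRD: greedy choice -/

open Set Matroid Nat

namespace Pool.F3LT

theorem GRD_cnz {n : ℕ} (𝒵 : Set (Set (Fin n))) (Y D : Set (Fin n)) (hY : Y ∉ 𝒵) :
    (D ⊆ Y → cnz (insert Y 𝒵) D = cnz 𝒵 D + 1) ∧ (¬ D ⊆ Y → cnz (insert Y 𝒵) D = cnz 𝒵 D) := by
  constructor
  · intro h
    unfold cnz
    have e : {Y' | Y' ∈ insert Y 𝒵 ∧ D ⊆ Y'} = insert Y {Y' | Y' ∈ 𝒵 ∧ D ⊆ Y'} := by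
      ext Y'
      simp only [mem_setOf_eq, mem_insert_iff]
      constructor
      · rintro ⟨h1 | h1, h2⟩
        · exact Or.inl h1
        · exact Or.inr ⟨h1, h2⟩
      · rintro (h1 | ⟨h1, h2⟩)
        · exact ⟨Or.inl h1, by rw [h1]; exact h⟩
        · exact ⟨Or.inr h1, h2⟩
    rw [e, Set.ncard_insert_of_notMem (fun h1 => hY h1.1) (Set.toFinite _)]
  · intro h
    unfold cnz
    congr 1
    ext Y'
    simp only [mem_setOf_eq, mem_insert_iff]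
    constructor
    · rintro ⟨h1 | h1, h2⟩
      · exact absurd (by rw [← h1]; exact h2) h
      · exact ⟨h1, h2⟩
    · rintro ⟨h1, h2⟩
      exact ⟨Or.inr h1, h2⟩

theorem p_GRD : Stmt_GRD := by
  classical
  intro n E σ 𝓨 𝓓
  obtain ⟨F, hF⟩ : ∃ F : Finset (Set (Fin n)), F = (Set.toFinite 𝓓).toFinset := ⟨_, rfl⟩
  have hFc : F.card = 𝓓.ncard := by
    rw [hF, Set.ncard_eq_toFinset_card 𝓓 (Set.toFinite 𝓓)]
  have hFm : ∀ D, D ∈ F ↔ D ∈ 𝓓 := by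
    intro D
    rw [hF, Set.Finite.mem_toFinset]
  obtain ⟨𝒵, h𝒵, hmax⟩ := Set.exists_max_image {𝒵 : Set (Set (Fin n)) | 𝒵 ⊆ 𝓨}
    (fun 𝒵 => ((∑ D ∈ F, min (cnz 𝒵 D) (E + 1) : ℕ) : ℤ) - σ * 𝒵.ncard) (Set.toFinite _)
    ⟨∅, Set.empty_subset _⟩
  refine ⟨𝒵, h𝒵, ?_, ?_⟩
  · have h0 := hmax ∅ (Set.empty_subset _)
    have h1 : ∑ D ∈ F, min (cnz 𝒵 D) (E + 1) ≤ (E + 1) * 𝓓.ncard := by
      calc ∑ D ∈ F, min (cnz 𝒵 D) (E + 1) ≤ ∑ _D ∈ F, (E + 1) :=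
            Finset.sum_le_sum fun D _ => min_le_right _ _
        _ = (E + 1) * 𝓓.ncard := by
            rw [Finset.sum_const, hFc, smul_eq_mul, mul_comm]
    have h2 : (0 : ℤ) ≤ ((∑ D ∈ F, min (cnz (∅ : Set (Set (Fin n))) D) (E + 1) : ℕ) : ℤ) :=
      Int.natCast_nonneg _
    rw [Set.ncard_empty] at h0
    have h3 : ((∑ D ∈ F, min (cnz 𝒵 D) (E + 1) : ℕ) : ℤ) ≤ (((E + 1) * 𝓓.ncard : ℕ) : ℤ) := by
      exact_mod_cast h1
    have h4 : ((σ * 𝒵.ncard : ℕ) : ℤ) ≤ (((E + 1) * 𝓓.ncard : ℕ) : ℤ) := by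
      rw [Nat.cast_mul]
      simp only [Nat.cast_zero, mul_zero, sub_zero] at h0
      linarith
    exact_mod_cast h4
  · intro Y hY hYZ
    have h0 := hmax (insert Y 𝒵) (Set.insert_subset hY h𝒵)
    rw [Set.ncard_insert_of_notMem hYZ (Set.toFinite _)] at h0
    have h1 : ∀ D ∈ F, min (cnz (insert Y 𝒵) D) (E + 1) =
        min (cnz 𝒵 D) (E + 1) + if (cnz 𝒵 D ≤ E ∧ D ⊆ Y) then 1 else 0 := by
      intro D _
      obtain ⟨ha, hb⟩ := GRD_cnz 𝒵 Y D hYZ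
      by_cases hD : D ⊆ Y
      · rw [ha hD]
        by_cases hE : cnz 𝒵 D ≤ E
        · rw [if_pos ⟨hE, hD⟩]
          omega
        · rw [if_neg (fun h => hE h.1)]
          omega
      · rw [hb hD, if_neg (fun h => hD h.2)]
        omega
    rw [Finset.sum_congr rfl h1, Finset.sum_add_distrib, ← Finset.card_filter] at h0
    have h2 : {D | D ∈ US E 𝒵 𝓓 ∧ D ⊆ Y}.ncard =
        (F.filter fun D => cnz 𝒵 D ≤ E ∧ D ⊆ Y).card := by
      rw [← Set.ncard_coe_finset]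
      congr 1
      ext D
      simp only [mem_setOf_eq, US, Finset.coe_filter, hFm]
      tauto
    rw [h2]
    push_cast at h0
    have h3 : (((F.filter fun D => cnz 𝒵 D ≤ E ∧ D ⊆ Y).card : ℕ) : ℤ) ≤ (σ : ℤ) := by
      linarith
    exact_mod_cast h3

end Pool.F3LT
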