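import Pool.Agent.Work.MP_f3d170_lt.Interface

/-!
# MP_f3d170_co, linear upper threshold: block HG2 (helper89), second moment
-/

set_option autoImplicit false

namespace Pool.F3LT.X_HG2

theorem cnt (n r : ℕ) (T : Finset (Fin n)) (hT : T.card ≤ r) :
    (((Finset.univ : Finset (Fin n)).powersetCard r).filter (fun X => T ⊆ X)).card
      = (n - T.card).choose (r - T.card) := by
  have h : ((Finset.univ : Finset (Fin n)).powersetCard r).filter (fun X => T ⊆ X)
      = ((Finset.univ \ T).powersetCard (r - T.card)).image (fun Y => T ∪ Y) := by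
    ext X
    simp only [Finset.mem_filter, Finset.mem_powersetCard, Finset.subset_univ, true_and,
      Finset.mem_image]
    constructor
    · rintro ⟨hX, hTX⟩
      refine ⟨X \ T, ⟨Finset.sdiff_subset_sdiff (Finset.subset_univ _) (Finset.Subset.refl _),
        ?_⟩, Finset.union_sdiff_of_subset hTX⟩
      rw [Finset.card_sdiff_of_subset hTX, hX]
    · rintro ⟨Y, ⟨hY, hYc⟩, rfl⟩
      refine ⟨?_, Finset.subset_union_left⟩
      have hd : Disjoint T Y := by
        rw [Finset.disjoint_left]
        intro z hz hz'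
        exact (Finset.mem_sdiff.mp (hY hz')).2 hz
      rw [Finset.card_union_of_disjoint hd, hYc]
      omega
  rw [h, Finset.card_image_of_injOn, Finset.card_powersetCard,
    Finset.card_sdiff_of_subset (Finset.subset_univ _), Finset.card_univ, Fintype.card_fin]
  intro Y hY Y' hY' he
  rw [Finset.mem_coe, Finset.mem_powersetCard] at hY hY'
  have hd : ∀ Z : Finset (Fin n), Z ⊆ Finset.univ \ T → (T ∪ Z) \ T = Z := by
    intro Z hZ
    ext z
    rw [Finset.mem_sdiff, Finset.mem_union]
    constructor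
    · rintro ⟨h1 | h1, h2⟩
      · exact absurd h1 h2
      · exact h1
    · intro hz
      exact ⟨Or.inr hz, (Finset.mem_sdiff.mp (hZ hz)).2⟩
  have he' : T ∪ Y = T ∪ Y' := he
  rw [← hd Y hY.1, ← hd Y' hY'.1, he']

theorem c1 (n r : ℕ) (hr : 1 ≤ r) (hn : 1 ≤ n) (b : Fin n) :
    n * (((Finset.univ : Finset (Fin n)).powersetCard r).filter (fun X => b ∈ X)).card
      = r * n.choose r := by
  have h := cnt n r {b} (by simpa using hr)
  have h2 : (((Finset.univ : Finset (Fin n)).powersetCard r).filter (fun X => b ∈ X))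
      = (((Finset.univ : Finset (Fin n)).powersetCard r).filter (fun X => {b} ⊆ X)) := by
    apply Finset.filter_congr
    intro X _
    rw [Finset.singleton_subset_iff]
  rw [h2, h, Finset.card_singleton]
  obtain ⟨m, rfl⟩ : ∃ m, n = m + 1 := ⟨n - 1, by omega⟩
  obtain ⟨k, rfl⟩ : ∃ k, r = k + 1 := ⟨r - 1, by omega⟩
  have := Nat.add_one_mul_choose_eq m k
  simp only [Nat.add_sub_cancel]
  rw [this, mul_comm]

theorem c2 (n r : ℕ) (hr : 1 ≤ r) (hn : 2 ≤ n) (b b' : Fin n) (hb : b ≠ b') :
    n * (n - 1) * (((Finset.univ : Finset (Fin n)).powersetCard r).filter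
      (fun X => b ∈ X ∧ b' ∈ X)).card = r * (r - 1) * n.choose r := by
  have h2 : (((Finset.univ : Finset (Fin n)).powersetCard r).filter
      (fun X => b ∈ X ∧ b' ∈ X))
      = (((Finset.univ : Finset (Fin n)).powersetCard r).filter (fun X => {b, b'} ⊆ X)) := by
    apply Finset.filter_congr
    intro X _
    rw [Finset.insert_subset_iff, Finset.singleton_subset_iff]
  rw [h2]
  rcases Nat.lt_or_ge r 2 with h | h
  · have hr1 : r = 1 := by omega
    subst hr1
    have h3 : (((Finset.univ : Finset (Fin n)).powersetCard 1).filter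
        (fun X => {b, b'} ⊆ X)) = ∅ := by
      rw [Finset.filter_eq_empty_iff]
      intro X hX hbX
      have h4 := Finset.card_le_card hbX
      rw [Finset.card_pair hb, (Finset.mem_powersetCard.mp hX).2] at h4
      omega
    rw [h3]
    simp
  · rw [cnt n r {b, b'} (by rw [Finset.card_pair hb]; exact h), Finset.card_pair hb]
    obtain ⟨m, rfl⟩ : ∃ m, n = m + 2 := ⟨n - 2, by omega⟩
    obtain ⟨k, rfl⟩ : ∃ k, r = k + 2 := ⟨r - 2, by omega⟩
    have e1 := Nat.add_one_mul_choose_eq m k
    have e2 := Nat.add_one_mul_choose_eq (m + 1) (k + 1)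
    simp only [Nat.add_sub_cancel]
    have h5 : m + 2 - 1 = m + 1 := rfl
    have h6 : k + 2 - 1 = k + 1 := rfl
    rw [h5, h6]
    calc (m + 2) * (m + 1) * m.choose k = (m + 2) * ((m + 1) * m.choose k) := by ring
      _ = (m + 2) * ((m + 1).choose (k + 1) * (k + 1)) := by rw [e1]
      _ = ((m + 1 + 1) * (m + 1).choose (k + 1)) * (k + 1) := by ring
      _ = ((m + 1 + 1).choose (k + 1 + 1) * (k + 1 + 1)) * (k + 1) := by rw [e2]
      _ = (k + 2) * (k + 1) * (m + 2).choose (k + 2) := by ring

theorem main (n r a θ : ℕ) (B : Finset (Fin n)) (hr : 1 ≤ r) (hrn : r ≤ n) (hθ : 1 ≤ θ)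
    (hB : B.card = a) (h4 : 4 * θ * n ≤ a * r) :
    n.choose r ≤ 8 * (((Finset.univ : Finset (Fin n)).powersetCard r).filter
      (fun X => θ ≤ (X ∩ B).card)).card := by
  have han : a ≤ n := by
    rw [← hB]
    exact (Finset.card_le_univ B).trans (by rw [Fintype.card_fin])
  have h4n : 4 * n ≤ a * r := le_trans (by nlinarith) h4
  have hn2 : 2 ≤ n := by
    by_contra hcon
    have : n = 1 := by omega
    subst this
    have : a * r ≤ 1 * 1 := Nat.mul_le_mul han hrn
    omega
  set S := (Finset.univ : Finset (Fin n)).powersetCard r with hS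
  have hSc : S.card = n.choose r := by
    rw [hS, Finset.card_powersetCard, Finset.card_univ, Fintype.card_fin]
  have hZ : ∀ X : Finset (Fin n), (X ∩ B).card = ∑ b ∈ B, if b ∈ X then 1 else 0 := by
    intro X
    rw [← Finset.card_filter, Finset.inter_comm, Finset.filter_mem_eq_inter]
  -- first moment
  have hm1 : n * ∑ X ∈ S, (X ∩ B).card = a * r * n.choose r := by
    have e1 : ∑ X ∈ S, (X ∩ B).card = ∑ b ∈ B, (S.filter (fun X => b ∈ X)).card := by
      simp_rw [hZ, Finset.card_filter]
      rw [Finset.sum_comm]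
    rw [e1, Finset.mul_sum, Finset.sum_congr rfl (fun b _ => c1 n r hr (by omega) b),
      Finset.sum_const, hB, smul_eq_mul]
    ring
  -- second moment
  have hm2 : n * n * ∑ X ∈ S, (X ∩ B).card ^ 2 ≤
      n * (a * r) * n.choose r + (a * r) ^ 2 * n.choose r := by
    have e1 : ∑ X ∈ S, (X ∩ B).card ^ 2
        = ∑ b ∈ B, ∑ b' ∈ B, (S.filter (fun X => b ∈ X ∧ b' ∈ X)).card := by
      have e2 : ∀ X : Finset (Fin n), (X ∩ B).card ^ 2
          = ∑ b ∈ B, ∑ b' ∈ B, if (b ∈ X ∧ b' ∈ X) then 1 else 0 := by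
        intro X
        rw [hZ, sq, Finset.sum_mul_sum]
        apply Finset.sum_congr rfl
        intro b _
        apply Finset.sum_congr rfl
        intro b' _
        by_cases h1 : b ∈ X
        · by_cases h2 : b' ∈ X
          · simp [h1, h2]
          · simp [h1, h2]
        · simp [h1]
      simp_rw [e2, Finset.card_filter]
      rw [Finset.sum_comm]
      apply Finset.sum_congr rfl
      intro b _
      rw [Finset.sum_comm]
    rw [e1, Finset.mul_sum]
    have e3 : ∀ b ∈ B, n * n * ∑ b' ∈ B, (S.filter (fun X => b ∈ X ∧ b' ∈ X)).card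
        ≤ n * r * n.choose r + a * r ^ 2 * n.choose r := by
      intro b hb
      rw [← Finset.add_sum_erase B _ hb]
      have e4 : (S.filter (fun X => b ∈ X ∧ b ∈ X)).card = (S.filter (fun X => b ∈ X)).card := by
        congr 1
        apply Finset.filter_congr
        intro X _
        exact and_self_iff
      rw [e4, mul_add]
      apply Nat.add_le_add
      · have e5 := c1 n r hr (by omega) b
        calc n * n * (S.filter (fun X => b ∈ X)).card
            = n * (n * (S.filter (fun X => b ∈ X)).card) := by ring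
          _ = n * (r * n.choose r) := by rw [hS, e5]
          _ ≤ n * r * n.choose r := by rw [mul_assoc]
      · have e6 : (n - 1) * (n * n * ∑ b' ∈ B.erase b,
            (S.filter (fun X => b ∈ X ∧ b' ∈ X)).card)
            = n * ((a - 1) * (r * (r - 1) * n.choose r)) := by
          have e7 : ∑ b' ∈ B.erase b, n * (n - 1) *
              (S.filter (fun X => b ∈ X ∧ b' ∈ X)).card
              = ∑ b' ∈ B.erase b, r * (r - 1) * n.choose r := by
            apply Finset.sum_congr rfl
            intro b' hb'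
            rw [hS]
            exact c2 n r hr hn2 b b' (fun h => (Finset.mem_erase.mp hb').1 h.symm)
          rw [Finset.sum_const, Finset.card_erase_of_mem hb, hB, smul_eq_mul,
            ← Finset.mul_sum] at e7
          rw [← e7]
          ring
        have e8 : n * (a - 1) ≤ a * (n - 1) := by
          rw [Nat.mul_sub, Nat.mul_sub, mul_one, mul_one, mul_comm a n]
          omega
        refine Nat.le_of_mul_le_mul_left (c := n - 1) ?_ (by omega)
        rw [e6]
        calc n * ((a - 1) * (r * (r - 1) * n.choose r))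
            = (n * (a - 1)) * (r * (r - 1) * n.choose r) := by ring
          _ ≤ (a * (n - 1)) * (r * r * n.choose r) :=
            Nat.mul_le_mul e8 (Nat.mul_le_mul_right _ (Nat.mul_le_mul_left _ (Nat.sub_le r 1)))
          _ = (n - 1) * (a * r ^ 2 * n.choose r) := by ring
    refine (Finset.sum_le_sum e3).trans ?_
    rw [Finset.sum_const, hB, smul_eq_mul]
    apply le_of_eq
    ring
  set Q := S.filter (fun X => θ ≤ (X ∩ B).card) with hQ
  have hsplit : ∑ X ∈ S, (X ∩ B).card
      = ∑ X ∈ Q, (X ∩ B).card + ∑ X ∈ S.filter (fun X => ¬ θ ≤ (X ∩ B).card),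
        (X ∩ B).card := by
    rw [hQ, Finset.sum_filter_add_sum_filter_not]
  have hR : ∑ X ∈ S.filter (fun X => ¬ θ ≤ (X ∩ B).card), (X ∩ B).card
      ≤ θ * n.choose r := by
    have e1 : ∑ X ∈ S.filter (fun X => ¬ θ ≤ (X ∩ B).card), (X ∩ B).card
        ≤ ∑ X ∈ S.filter (fun X => ¬ θ ≤ (X ∩ B).card), θ := by
      apply Finset.sum_le_sum
      intro X hX
      have := (Finset.mem_filter.mp hX).2
      omega
    rw [Finset.sum_const, smul_eq_mul, mul_comm] at e1
    refine e1.trans (Nat.mul_le_mul_left _ ?_)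
    rw [← hSc]
    exact Finset.card_filter_le _ _
  have hCS : (∑ X ∈ Q, (X ∩ B).card) ^ 2 ≤ Q.card * ∑ X ∈ Q, (X ∩ B).card ^ 2 :=
    sq_sum_le_card_mul_sum_sq
  have hQS : ∑ X ∈ Q, (X ∩ B).card ^ 2 ≤ ∑ X ∈ S, (X ∩ B).card ^ 2 :=
    Finset.sum_le_sum_of_subset (Finset.filter_subset _ _)
  -- arithmetic
  generalize (∑ X ∈ Q, (X ∩ B).card) = P at *
  generalize (∑ X ∈ S.filter (fun X => ¬ θ ≤ (X ∩ B).card), (X ∩ B).card) = R at *
  generalize (∑ X ∈ Q, (X ∩ B).card ^ 2) = S1 at *
  generalize (∑ X ∈ S, (X ∩ B).card ^ 2) = S2 at *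
  generalize (∑ X ∈ S, (X ∩ B).card) = W at *
  have hN : 0 < n.choose r := Nat.choose_pos hrn
  generalize n.choose r = N at *
  generalize Q.card = q at *
  have hx : 0 < a * r := by omega
  generalize a * r = x at *
  -- 3 x N ≤ 4 n P
  have f1 : 3 * (x * N) ≤ 4 * (n * P) := by
    have g1 : 4 * (n * R) ≤ x * N := by
      calc 4 * (n * R) ≤ 4 * (n * (θ * N)) := by gcongr
        _ = (4 * θ * n) * N := by ring
        _ ≤ x * N := Nat.mul_le_mul_right _ h4
    have g2 : n * P + n * R = x * N := by rw [← hm1, hsplit, mul_add]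
    omega
  -- 4 n² S2 ≤ 5 x² N
  have f2 : 4 * (n * n * S2) ≤ 5 * (x ^ 2 * N) := by
    have g1 : 4 * (n * x * N) ≤ x ^ 2 * N := by
      calc 4 * (n * x * N) = (4 * n) * (x * N) := by ring
        _ ≤ x * (x * N) := Nat.mul_le_mul_right _ h4n
        _ = x ^ 2 * N := by ring
    omega
  have f3 : 9 * (x ^ 2 * N) * N ≤ 20 * q * (x ^ 2 * N) := by
    calc 9 * (x ^ 2 * N) * N = (3 * (x * N)) ^ 2 := by ring
      _ ≤ (4 * (n * P)) ^ 2 := Nat.pow_le_pow_left f1 2
      _ = 16 * (n * n) * P ^ 2 := by ring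
      _ ≤ 16 * (n * n) * (q * S1) := Nat.mul_le_mul_left _ hCS
      _ ≤ 16 * (n * n) * (q * S2) := by gcongr
      _ = 4 * q * (4 * (n * n * S2)) := by ring
      _ ≤ 4 * q * (5 * (x ^ 2 * N)) := Nat.mul_le_mul_left _ f2
      _ = 20 * q * (x ^ 2 * N) := by ring
  have hpos : 0 < x ^ 2 * N := by positivity
  have f4 : 9 * N ≤ 20 * q := by
    refine Nat.le_of_mul_le_mul_left (c := x ^ 2 * N) ?_ hpos
    calc x ^ 2 * N * (9 * N) = 9 * (x ^ 2 * N) * N := by ring
      _ ≤ 20 * q * (x ^ 2 * N) := f3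
      _ = x ^ 2 * N * (20 * q) := by ring
  omega

end Pool.F3LT.X_HG2

namespace Pool.F3LT

theorem p_HG2 : Stmt_HG2 := by
  intro n r a θ B hr hrn hθ hB h4
  have hBf : (Set.toFinite B).toFinset.card = a := by
    rw [← hB, Set.ncard_eq_toFinset_card B (Set.toFinite B)]
  refine (X_HG2.main n r a θ (Set.toFinite B).toFinset hr hrn hθ hBf h4).trans
    (Nat.mul_le_mul_left _ ?_)
  rw [← Set.ncard_coe_finset, ← Set.ncard_image_of_injective _
    (Finset.coe_injective (α := Fin n))]
  refine Set.ncard_le_ncard ?_ (Set.toFinite _)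
  rintro _ ⟨X, hX, rfl⟩
  rw [Finset.mem_coe, Finset.mem_filter, Finset.mem_powersetCard] at hX
  refine ⟨?_, ?_⟩
  · rw [Set.ncard_coe_finset]
    exact hX.1.2
  · refine hX.2.trans (le_of_eq ?_)
    rw [← Set.ncard_coe_finset]
    congr 1
    rw [Finset.coe_inter, Set.Finite.coe_toFinset]

end Pool.F3LT
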