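import Pool.Agent.Work.MP_f3d170_lt.Interface

/-! # Block KKL (helper72): Kruskal-Katona in the form of Lovasz -/

set_option autoImplicit false

namespace Pool.F3LT

theorem KKL_aux (n t K : ℕ) (𝒜 : Finset (Finset (Fin n))) (ht : 2 ≤ t)
    (hs : (𝒜 : Set (Finset (Fin n))).Sized t) (hK : 𝒜.card < K.choose t) (hne : 𝒜.Nonempty) :
    ∃ k, t ≤ k ∧ k ≤ n ∧ k + 1 ≤ K ∧ k.choose t ≤ 𝒜.card ∧ 𝒜.card < (k + 1).choose t := by
  obtain ⟨A, hA⟩ := hne
  have hAt : A.card = t := hs hA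
  have htn : t ≤ n := by
    rw [← hAt]
    simpa using Finset.card_le_univ A
  have hpos : 1 ≤ 𝒜.card := Finset.card_pos.2 ⟨A, hA⟩
  have hPt : t.choose t ≤ 𝒜.card := by rw [Nat.choose_self]; exact hpos
  set k := Nat.findGreatest (fun k => k.choose t ≤ 𝒜.card) n with hk
  have hkP : k.choose t ≤ 𝒜.card :=
    Nat.findGreatest_spec (P := fun k => k.choose t ≤ 𝒜.card) htn hPt
  have htk : t ≤ k := Nat.le_findGreatest htn hPt
  have hkn : k ≤ n := Nat.findGreatest_le n
  refine ⟨k, htk, hkn, ?_, hkP, ?_⟩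
  · by_contra h
    have h1 : K ≤ k := by omega
    have h2 := Nat.choose_le_choose t h1
    omega
  · rcases Nat.lt_or_ge k n with h | h
    · by_contra h1
      have h2 := Nat.findGreatest_is_greatest (P := fun k => k.choose t ≤ 𝒜.card)
        (n := n) (k := k + 1) (by rw [← hk]; omega) (by omega)
      exact h2 (by omega)
    · have hkn' : k = n := by omega
      have h1 : 𝒜.card ≤ n.choose t := by simpa using hs.card_le
      obtain ⟨u, rfl⟩ : ∃ u, t = u + 1 := ⟨t - 1, by omega⟩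
      rw [hkn', Nat.choose_succ_succ']
      have h2 : 0 < n.choose u := Nat.choose_pos (by omega)
      omega

theorem p_KKL : Stmt_KKL := by
  intro n t K 𝒜 ht hs hK
  rcases Finset.eq_empty_or_nonempty 𝒜 with h0 | hne
  · subst h0
    simp
  obtain ⟨k, htk, hkn, hkK, hk1, hk2⟩ := KKL_aux n t K 𝒜 ht hs hK hne
  have e1 : k.choose (t - 1) ≤ (Finset.shadow 𝒜).card := by
    have := Finset.kruskal_katona_lovasz_form (i := 1) (by omega) htk hkn hs hk1
    simpa using this
  have e2 : k.choose (t - 2) ≤ (Finset.shadow (Finset.shadow 𝒜)).card := by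
    have := Finset.kruskal_katona_lovasz_form (i := 2) (by omega) htk hkn hs hk1
    simpa using this
  obtain ⟨u, rfl⟩ : ∃ u, t = u + 2 := ⟨t - 2, by omega⟩
  obtain ⟨k', rfl⟩ : ∃ k', k = k' + 1 := ⟨k - 1, by omega⟩
  have e1' : (k' + 1).choose (u + 1) ≤ (Finset.shadow 𝒜).card := e1
  have e2' : (k' + 1).choose u ≤ (Finset.shadow (Finset.shadow 𝒜)).card := e2
  have c1 : (k' + 1 + 1) * (k' + 1).choose (u + 1) = (k' + 1 + 1).choose (u + 2) * (u + 2) :=
    Nat.add_one_mul_choose_eq (k' + 1) (u + 1)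
  have c2 : (k' + 1) * k'.choose u = (k' + 1).choose (u + 1) * (u + 1) :=
    Nat.add_one_mul_choose_eq k' u
  have c3 : k'.choose u ≤ (k' + 1).choose u := Nat.choose_le_choose u (by omega)
  constructor
  · calc (u + 2) * 𝒜.card ≤ (u + 2) * (k' + 1 + 1).choose (u + 2) :=
          Nat.mul_le_mul_left _ hk2.le
      _ = (k' + 1 + 1) * (k' + 1).choose (u + 1) := by rw [c1, mul_comm]
      _ ≤ K * (Finset.shadow 𝒜).card := Nat.mul_le_mul hkK e1'
  · calc 𝒜.card ≤ 𝒜.card * ((u + 2) * (u + 1)) := Nat.le_mul_of_pos_right _ (by positivity)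
      _ ≤ (k' + 1 + 1).choose (u + 2) * ((u + 2) * (u + 1)) := Nat.mul_le_mul_right _ hk2.le
      _ = (k' + 1 + 1) * ((k' + 1).choose (u + 1) * (u + 1)) := by
          rw [← mul_assoc, ← c1, mul_assoc]
      _ = (k' + 1 + 1) * ((k' + 1) * k'.choose u) := by rw [c2]
      _ ≤ K * (K * (Finset.shadow (Finset.shadow 𝒜)).card) :=
          Nat.mul_le_mul hkK (Nat.mul_le_mul (by omega) (c3.trans e2'))
      _ = K ^ 2 * (Finset.shadow (Finset.shadow 𝒜)).card := by ring

end Pool.F3LT
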