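import Pool.Agent.Work.MP_f3d170_lt.Interface

set_option autoImplicit false

/-!
# MP_f3d170_co, linear upper threshold: block N8

Double counting of the pairs (set of rank `s - 1` with `s + 1` elements, flat of rank `s` containing
it).
-/

open Set Matroid Nat
open Pool.Agent.Work.MP_f3d170_co_h45
open Pool.Agent.Work.MP_f3d170_co_helper60
open Pool.Agent.Work.MP_f3d170_co_helper60b (trunc Gen IsHyp HasGen star StarSet Rec IsPart)
open Pool.Agent.Work.MP_f3d170_co_helper44

namespace Pool.F3LT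

variable {n : ℕ}

/-- A flat of rank `s` which contains a set of rank `s - 1` is spanned by it and one element. -/
lemma N8_exists {M : Matroid (Fin n)} (hE : M.E = Set.univ) {s : ℕ} {P X : Set (Fin n)}
    (hP : IsHyp M s P) (hs : 1 ≤ s) (hXP : X ⊆ P) (hX : rk M X = s - 1) :
    ∃ z : Fin n, M.closure (insert z X) = P := by
  have hne : ∃ z ∈ P, z ∉ M.closure X := by
    by_contra hcon
    push Not at hcon
    have h2 := rk_mono M (show P ⊆ M.closure X from hcon)
    rw [rk_closure, hX, hP.2] at h2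
    omega
  obtain ⟨z, hzP, hz⟩ := hne
  refine ⟨z, ?_⟩
  have hsub : insert z X ⊆ P := Set.insert_subset hzP hXP
  have hlt : rk M X < rk M (insert z X) := by
    by_contra hcon
    push Not at hcon
    have h3 := closure_eq_of_rk (Set.subset_insert z X) hcon
    apply hz
    rw [h3]
    exact M.mem_closure_of_mem (Set.mem_insert z X) (by rw [hE]; exact Set.subset_univ _)
  have h4 : rk M P ≤ rk M (insert z X) := by
    rw [hP.2]; omega
  rw [closure_eq_of_rk hsub h4, hP.1]

/-- A set of rank `s - 1` is in at most `n` flats of rank `s`. -/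
lemma N8_few {M : Matroid (Fin n)} (hE : M.E = Set.univ) {s : ℕ} {X : Set (Fin n)}
    (hs : 1 ≤ s) (hX : rk M X = s - 1) (𝒬 : Finset (Set (Fin n)))
    (hQ : ∀ P ∈ 𝒬, IsHyp M s P ∧ X ⊆ P) : 𝒬.card ≤ n := by
  classical
  have h1 : 𝒬 ⊆ (Finset.univ : Finset (Fin n)).image (fun z => M.closure (insert z X)) := by
    intro P hP
    obtain ⟨z, hz⟩ := N8_exists hE (hQ P hP).1 hs (hQ P hP).2 hX
    exact Finset.mem_image.2 ⟨z, Finset.mem_univ _, hz⟩
  calc 𝒬.card ≤ ((Finset.univ : Finset (Fin n)).image (fun z => M.closure (insert z X))).card :=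
        Finset.card_le_card h1
    _ ≤ (Finset.univ : Finset (Fin n)).card := Finset.card_image_le
    _ = n := by simp

/-- N8. -/
theorem p_N8 (hRPL : Stmt_RPL) : Stmt_N8 := by
  classical
  intro n s K Λ e M hE hs hExc heK heΛ hKs
  set F : Finset (Finset (Fin n)) :=
    (JS Λ M s).filter (fun I : Finset (Fin n) => 8 ≤ xc M (I : Set (Fin n))) with hF
  have hFmem : ∀ I ∈ F, M.Indep (I : Set (Fin n)) ∧ I.card = s ∧
      bn M s (M.closure (I : Set (Fin n))) < Λ ∧ 8 ≤ xc M (I : Set (Fin n)) := by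
    intro I hI
    rw [hF, Finset.mem_filter] at hI
    obtain ⟨h1, h2⟩ := hI
    unfold JS at h1
    rw [Finset.mem_filter, Finset.mem_powersetCard] at h1
    exact ⟨h1.2.1, h1.1.2, h1.2.2, h2⟩
  set cl : Finset (Fin n) → Set (Fin n) := fun I => M.closure (I : Set (Fin n)) with hcl
  set 𝒬 : Finset (Set (Fin n)) := F.image cl with hQ
  set 𝒲 : Finset (Set (Fin n)) :=
    (Finset.univ : Finset (Set (Fin n))).filter (fun X => X.ncard = s + 1 ∧ rk M X = s - 1)
    with hW
  have hQmem : ∀ P ∈ 𝒬, IsHyp M s P ∧ bn M s P < Λ ∧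
      ∃ t, P.ncard = s + t ∧ 8 ≤ t ∧ t ≤ e := by
    intro P hP
    rw [hQ, Finset.mem_image] at hP
    obtain ⟨I, hI, rfl⟩ := hP
    obtain ⟨hi, hc, hb, hx⟩ := hFmem I hI
    have hnc : (I : Set (Fin n)).ncard = s := by rw [Set.ncard_coe_finset, hc]
    have hrk : rk M (I : Set (Fin n)) = s := by rw [indep_iff_rk.1 hi, hnc]
    refine ⟨Pool.Agent.Work.MP_f3d170_co_helper60b.closure_isHyp hrk, hb,
      xc M (I : Set (Fin n)), ?_, hx, hExc _ hi hnc hb⟩
    have hsub : (I : Set (Fin n)) ⊆ M.closure (I : Set (Fin n)) :=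
      M.subset_closure _ hi.subset_ground
    have h1 := Set.ncard_sdiff_add_ncard_of_subset hsub (Set.toFinite _)
    rw [hnc] at h1
    show (M.closure (I : Set (Fin n))).ncard = s + (M.closure (I : Set (Fin n)) \ I).ncard
    omega
  -- the number of `I` with given closure
  have hfib : ∀ P ∈ 𝒬, (F.filter (fun I => cl I = P)).card ≤ bn M s P := by
    intro P _
    unfold bn
    have h1 : ((fun I : Finset (Fin n) => (I : Set (Fin n))) ''
        (↑(F.filter (fun I => cl I = P)) : Set (Finset (Fin n)))) ⊆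
        {I : Set (Fin n) | M.Indep I ∧ I.ncard = s ∧ I ⊆ P} := by
      rintro _ ⟨I, hI, rfl⟩
      rw [Finset.mem_coe, Finset.mem_filter] at hI
      obtain ⟨hi, hc, hb, hx⟩ := hFmem I hI.1
      refine ⟨hi, by show (I : Set (Fin n)).ncard = s; rw [Set.ncard_coe_finset, hc], ?_⟩
      rw [← hI.2]
      exact M.subset_closure _ hi.subset_ground
    have h2 := Set.ncard_le_ncard h1 (Set.toFinite _)
    rwa [Set.ncard_image_of_injective _ Finset.coe_injective, Set.ncard_coe_finset] at h2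
  have hRP : ∀ P ∈ 𝒬, s * bn M s P ≤
      2 * K ^ 2 * e * (𝒲.filter (fun X => X ⊆ P)).card := by
    intro P hP
    obtain ⟨hhyp, hb, t, ht, ht8, hte⟩ := hQmem P hP
    have h1 := hRPL n s t K Λ M P hE hs hhyp ht ht8 (by omega)
      ((Nat.mul_le_mul_right Λ hte).trans heΛ) hKs hb
    have h2 : {X : Set (Fin n) | X ⊆ P ∧ X.ncard = s + 1 ∧ rk M X = s - 1}.ncard ≤
        (𝒲.filter (fun X => X ⊆ P)).card := by
      rw [← Set.ncard_coe_finset]
      apply Set.ncard_le_ncard _ (Set.toFinite _)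
      rintro X ⟨hX1, hX2, hX3⟩
      rw [Finset.mem_coe, Finset.mem_filter, hW, Finset.mem_filter]
      exact ⟨⟨Finset.mem_univ _, hX2, hX3⟩, hX1⟩
    calc s * bn M s P ≤ 2 * K ^ 2 * t *
          {X : Set (Fin n) | X ⊆ P ∧ X.ncard = s + 1 ∧ rk M X = s - 1}.ncard := h1
      _ ≤ 2 * K ^ 2 * e * (𝒲.filter (fun X => X ⊆ P)).card := by gcongr
  have hcard : F.card = ∑ P ∈ 𝒬, (F.filter (fun I => cl I = P)).card :=
    Finset.card_eq_sum_card_fiberwise (fun I hI => Finset.mem_image_of_mem _ hI)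
  have hswap : ∑ P ∈ 𝒬, (𝒲.filter (fun X => X ⊆ P)).card =
      ∑ X ∈ 𝒲, (𝒬.filter (fun P => X ⊆ P)).card := by
    simp only [Finset.card_filter]
    exact Finset.sum_comm
  have hX𝒲 : ∀ X ∈ 𝒲, (𝒬.filter (fun P => X ⊆ P)).card ≤ n := by
    intro X hX
    rw [hW, Finset.mem_filter] at hX
    apply N8_few hE hs hX.2.2
    intro P hP
    rw [Finset.mem_filter] at hP
    exact ⟨(hQmem P hP.1).1, hP.2⟩
  have hRm : 𝒲.card ≤ (Rm (trunc M s) s ∅).ncard := by
    rw [← Set.ncard_coe_finset]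
    apply Set.ncard_le_ncard _ (Set.toFinite _)
    intro X hX
    rw [Finset.mem_coe, hW, Finset.mem_filter] at hX
    refine ⟨hX.2.1, Or.inr ?_⟩
    intro S hS hSc hind
    have h1 := (Pool.Agent.Work.MP_f3d170_co_helper60b.trunc_indep.1 hind).1
    have h2 := rk_mono M hS
    rw [indep_iff_rk.1 h1, hSc, hX.2.2] at h2
    omega
  calc s * F.card = ∑ P ∈ 𝒬, s * (F.filter (fun I => cl I = P)).card := by
        rw [hcard, Finset.mul_sum]
    _ ≤ ∑ P ∈ 𝒬, 2 * K ^ 2 * e * (𝒲.filter (fun X => X ⊆ P)).card := by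
        apply Finset.sum_le_sum
        intro P hP
        exact (Nat.mul_le_mul_left s (hfib P hP)).trans (hRP P hP)
    _ = 2 * K ^ 2 * e * ∑ X ∈ 𝒲, (𝒬.filter (fun P => X ⊆ P)).card := by
        rw [← Finset.mul_sum, hswap]
    _ ≤ 2 * K ^ 2 * e * ∑ X ∈ 𝒲, n := by
        apply Nat.mul_le_mul_left
        exact Finset.sum_le_sum hX𝒲
    _ = 2 * K ^ 2 * e * n * 𝒲.card := by
        rw [Finset.sum_const, smul_eq_mul]; ring
    _ ≤ 2 * K ^ 2 * e * n * (Rm (trunc M s) s ∅).ncard := Nat.mul_le_mul_left _ hRm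

end Pool.F3LT
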