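import Pool.Agent.Work.MP_f3d170_lt.Interface2

set_option autoImplicit false

/-!
# MP_f3d170_co, block NBJ: the bits of one level, second pass
-/

open Nat
open Pool.Agent.Work.MP_f3d170_co_helper44

namespace Pool.F3LT

/-- Powers of `l` are small. -/
theorem NBJ_pow (A : ℕ) : ∃ l0 : ℕ, ∀ l : ℕ, l0 ≤ l → A * l ^ 30 ≤ 2 ^ l := by
  have h := tendsto_pow_const_div_const_pow_of_one_lt 30 (show (1 : ℝ) < 2 by norm_num)
  have h2 : ∀ᶠ l : ℕ in Filter.atTop, (l : ℝ) ^ 30 / 2 ^ l < 1 / ((A : ℝ) + 1) :=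
    h.eventually (gt_mem_nhds (by positivity))
  obtain ⟨l0, hl0⟩ := Filter.eventually_atTop.1 h2
  refine ⟨l0, fun l hl => ?_⟩
  have h3 := hl0 l hl
  have hA : (0 : ℝ) < (A : ℝ) + 1 := by positivity
  rw [div_lt_div_iff₀ (by positivity) hA] at h3
  have h4 : (A : ℝ) * (l : ℝ) ^ 30 ≤ 2 ^ l := by
    have : (0 : ℝ) ≤ (l : ℝ) ^ 30 := by positivity
    nlinarith
  exact_mod_cast h4

/-- Doubling of the binomial coefficients. -/
theorem NBJ_dbl (n j d : ℕ) (h : 3 * (j + d) ≤ n) :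
    2 ^ d * n.choose j ≤ n.choose (j + d) := by
  induction d with
  | zero => simp
  | succ d ih =>
    have h1 := ih (by omega)
    have h2 := Nat.choose_succ_right_eq n (j + d)
    have h3 : 2 * (j + d + 1) ≤ n - (j + d) := by omega
    have h4 : 2 * n.choose (j + d) ≤ n.choose (j + d + 1) := by
      have h5 : n.choose (j + d) * (2 * (j + d + 1)) ≤ n.choose (j + d + 1) * (j + d + 1) := by
        rw [h2]; exact Nat.mul_le_mul_left _ h3
      have h6 : (2 * n.choose (j + d)) * (j + d + 1) ≤ n.choose (j + d + 1) * (j + d + 1) := by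
        calc (2 * n.choose (j + d)) * (j + d + 1) = n.choose (j + d) * (2 * (j + d + 1)) := by ring
          _ ≤ _ := h5
      exact Nat.le_of_mul_le_mul_right h6 (by omega)
    calc 2 ^ (d + 1) * n.choose j = 2 * (2 ^ d * n.choose j) := by ring
      _ ≤ 2 * n.choose (j + d) := Nat.mul_le_mul_left _ h1
      _ ≤ n.choose (j + d + 1) := h4

/-- The analytic core. -/
theorem NBJ_core (l L n j x y w : ℝ) (z a fg fn mg mn d : ℝ)
    (hl : 10 ≤ l) (hL0 : 0 ≤ L) (hL : L ≤ 3 * l) (hj : 10 ^ 7 * l ^ 28 ≤ j)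
    (hn : 2400 * j ≤ n) (hx0 : 0 ≤ x) (hy0 : 0 ≤ y) (hx : x ≤ 0.0101 * w) (hy : 2399 * y ≤ w)
    (hz : z ≤ x / l ^ 5 + 1) (ha : a ≤ 16 * l ^ 2 * x / j + 200 * y / j + 2)
    (hfg : fg ≤ (32 * y / j + 2) * (L + 1))
    (hd : d ≤ n * l ^ 26 + l ^ 12 * (j + 2)) (hd0 : 0 ≤ d)
    (hfn : fn ≤ (16 * x / j + 1 + (d + 1) * (64 * x / (j * n) + 1)) * (2 * L + 1))
    (hmg : mg ≤ 31.25 * y + 1) (hmn : mn ≤ 4 * x + 1) :
    9 * L * (z + a + fg + fn) + mg + mn ≤ w / 10 + n ^ 2 := by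
  have hl28 : (1 : ℝ) ≤ l ^ 28 := one_le_pow₀ (by linarith)
  have hjp : (0 : ℝ) < j := by nlinarith
  have hnp : (0 : ℝ) < n := by linarith
  have hlp : (0 : ℝ) < l := by linarith
  have hpow : ∀ a b : ℕ, a ≤ b → l ^ a ≤ l ^ b := fun a b hab =>
    pow_le_pow_right₀ (by linarith) hab
  -- l / j etc
  have hq : l ^ 28 / j ≤ 10⁻¹ ^ 7 := by
    rw [div_le_iff₀ hjp]
    have : (10⁻¹ : ℝ) ^ 7 * (10 ^ 7 * l ^ 28) = l ^ 28 := by ring
    nlinarith
  have hq2 : ∀ a : ℕ, a ≤ 28 → l ^ a / j ≤ 10⁻¹ ^ 7 := fun a ha =>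
    le_trans (div_le_div_of_nonneg_right (hpow a 28 ha) hjp.le) hq
  -- the parts times l
  have h1 : l * z ≤ 0.0001 * x + l ^ 28 := by
    have h5 : l * z ≤ l * (x / l ^ 5 + 1) := mul_le_mul_of_nonneg_left hz hlp.le
    have h6 : l * (x / l ^ 5 + 1) = x / l ^ 4 + l := by field_simp
    have h7 : x / l ^ 4 ≤ 0.0001 * x := by
      rw [div_le_iff₀ (by positivity)]
      have : (10 : ℝ) ^ 4 ≤ l ^ 4 := pow_le_pow_left₀ (by norm_num) hl 4
      nlinarith
    have h8 : l ≤ l ^ 28 := by simpa using hpow 1 28 (by norm_num)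
    linarith
  have h2 : l * a ≤ 0.0001 * x + 0.0001 * y + 2 * l ^ 28 := by
    have h5 : l * a ≤ l * (16 * l ^ 2 * x / j + 200 * y / j + 2) :=
      mul_le_mul_of_nonneg_left ha hlp.le
    have h6 : l * (16 * l ^ 2 * x / j + 200 * y / j + 2)
        = 16 * x * (l ^ 3 / j) + 200 * y * (l ^ 1 / j) + 2 * l := by
      field_simp
    have h7 := hq2 3 (by norm_num)
    have h8 := hq2 1 (by norm_num)
    have h9 : l ≤ l ^ 28 := by simpa using hpow 1 28 (by norm_num)
    have h10 : 16 * x * (l ^ 3 / j) ≤ 16 * x * 10⁻¹ ^ 7 :=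
      mul_le_mul_of_nonneg_left h7 (by positivity)
    have h11 : 200 * y * (l ^ 1 / j) ≤ 200 * y * 10⁻¹ ^ 7 :=
      mul_le_mul_of_nonneg_left h8 (by positivity)
    rw [h6] at h5
    norm_num at h10 h11
    norm_num at h5
    linarith
  have hL1 : L + 1 ≤ 4 * l := by linarith
  have hL2 : 2 * L + 1 ≤ 7 * l := by linarith
  have h3 : l * fg ≤ 0.0001 * y + 8 * l ^ 28 := by
    have h5 : fg ≤ (32 * y / j + 2) * (4 * l) :=
      le_trans hfg (mul_le_mul_of_nonneg_left hL1 (by positivity))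
    have h6 : l * fg ≤ l * ((32 * y / j + 2) * (4 * l)) := mul_le_mul_of_nonneg_left h5 hlp.le
    have h7 : l * ((32 * y / j + 2) * (4 * l)) = 128 * y * (l ^ 2 / j) + 8 * l ^ 2 := by
      field_simp; ring
    have h8 := hq2 2 (by norm_num)
    have h9 : 128 * y * (l ^ 2 / j) ≤ 128 * y * 10⁻¹ ^ 7 :=
      mul_le_mul_of_nonneg_left h8 (by positivity)
    have h10 := hpow 2 28 (by norm_num)
    norm_num at h9
    linarith
  have hd1 : d + 1 ≤ 2 * n * l ^ 26 := by
    have h5 := hpow 12 26 (by norm_num)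
    have h6 : (1 : ℝ) ≤ l ^ 26 := one_le_pow₀ (by linarith)
    have hj1 : (1 : ℝ) ≤ j := by nlinarith
    have h7 : l ^ 12 * (j + 2) ≤ l ^ 26 * (j + 2) := mul_le_mul_of_nonneg_right h5 (by linarith)
    nlinarith
  have h4 : l * fn ≤ 0.001 * x + 21 * n * l ^ 28 := by
    have h5 : fn ≤ (16 * x / j + 1 + (2 * n * l ^ 26) * (64 * x / (j * n) + 1)) * (7 * l) := by
      refine le_trans hfn ?_
      have h6 : 16 * x / j + 1 + (d + 1) * (64 * x / (j * n) + 1) ≤
          16 * x / j + 1 + (2 * n * l ^ 26) * (64 * x / (j * n) + 1) := by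
        have := mul_le_mul_of_nonneg_right hd1
          (show (0 : ℝ) ≤ 64 * x / (j * n) + 1 by positivity)
        linarith
      have h7 : (0 : ℝ) ≤ 16 * x / j + 1 + (2 * n * l ^ 26) * (64 * x / (j * n) + 1) := by
        positivity
      calc _ ≤ (16 * x / j + 1 + (2 * n * l ^ 26) * (64 * x / (j * n) + 1)) * (2 * L + 1) :=
            mul_le_mul_of_nonneg_right h6 (by linarith)
        _ ≤ _ := mul_le_mul_of_nonneg_left hL2 h7
    have h6 := mul_le_mul_of_nonneg_left h5 hlp.le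
    have h7 : l * ((16 * x / j + 1 + (2 * n * l ^ 26) * (64 * x / (j * n) + 1)) * (7 * l))
        = 112 * x * (l ^ 2 / j) + 7 * l ^ 2 + 896 * x * (l ^ 28 / j) + 14 * n * l ^ 28 := by
      field_simp; ring
    have h8 := hq2 2 (by norm_num)
    have h9 := hq2 28 (by norm_num)
    have h10 : 112 * x * (l ^ 2 / j) ≤ 112 * x * 10⁻¹ ^ 7 :=
      mul_le_mul_of_nonneg_left h8 (by positivity)
    have h11 : 896 * x * (l ^ 28 / j) ≤ 896 * x * 10⁻¹ ^ 7 :=
      mul_le_mul_of_nonneg_left h9 (by positivity)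
    have h12 : l ^ 2 ≤ n * l ^ 28 := by
      have h13 := hpow 2 28 (by norm_num)
      have hn1 : (1 : ℝ) ≤ n := by nlinarith
      nlinarith
    norm_num at h10 h11
    linarith
  have hn1 : (1 : ℝ) ≤ n := by nlinarith
  have hsum : l * (z + a + fg + fn) ≤ 0.0012 * x + 0.0002 * y + 32 * n * l ^ 28 := by
    have : l ^ 28 ≤ n * l ^ 28 := by nlinarith
    nlinarith
  have hbig : 1200 * (n * l ^ 28) ≤ n ^ 2 := by
    have h5 : 1200 * l ^ 28 ≤ n := by nlinarith
    nlinarith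
  have hmain : 9 * L * (z + a + fg + fn) ≤
      27 * (0.0012 * x + 0.0002 * y + 32 * n * l ^ 28) := by
    by_cases hneg : z + a + fg + fn ≤ 0
    · have h5 : 9 * L * (z + a + fg + fn) ≤ 0 :=
        mul_nonpos_of_nonneg_of_nonpos (by positivity) hneg
      have h6 : (0 : ℝ) ≤ 27 * (0.0012 * x + 0.0002 * y + 32 * n * l ^ 28) := by positivity
      linarith
    · push Not at hneg
      have h5 : 9 * L * (z + a + fg + fn) ≤ 9 * (3 * l) * (z + a + fg + fn) :=
        mul_le_mul_of_nonneg_right (by linarith) hneg.le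
      nlinarith
  have hn2 : (2 : ℝ) ≤ 300 * (n * l ^ 28) := by nlinarith
  nlinarith

/-- The facts about `N_j`, `N_r`, `v`. -/
theorem NBJ_bin (k r n v j : ℕ) (hr : 1 ≤ r) (hn : 200 * pH k * r ≤ n) (hh : 12 ≤ pH k)
    (hv : n.choose r ≤ (r + 1) * pH k * v) (hj1 : r / 2 + 2 ≤ j) (hj2 : j ≤ r - 1) :
    2399 * (2 ^ (r - 1 - j) * n.choose j) ≤ n.choose r ∧
      2399 * 100 * (2 ^ (r - 1 - j) * n.choose j) ≤ 2400 * j * v := by
  have hr2 : 2400 * r ≤ n := le_trans (by nlinarith) hn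
  have h1 : 2 ^ (r - 1 - j) * n.choose j ≤ n.choose (r - 1) := by
    have := NBJ_dbl n j (r - 1 - j) (by omega)
    rwa [show j + (r - 1 - j) = r - 1 by omega] at this
  have h2 := Nat.choose_succ_right_eq n (r - 1)
  rw [show r - 1 + 1 = r by omega] at h2
  have h3 : 2399 * n.choose (r - 1) ≤ n.choose r := by
    have h4 : (2399 * n.choose (r - 1)) * r ≤ n.choose r * r := by
      rw [h2]
      have : 2399 * r ≤ n - (r - 1) := by omega
      calc (2399 * n.choose (r - 1)) * r = n.choose (r - 1) * (2399 * r) := by ring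
        _ ≤ _ := Nat.mul_le_mul_left _ this
    exact Nat.le_of_mul_le_mul_right h4 (by omega)
  refine ⟨le_trans (Nat.mul_le_mul_left _ h1) h3, ?_⟩
  refine le_trans (Nat.mul_le_mul_left _ h1) ?_
  -- 2399 * 200 h r ≤ 2400 (n - (r-1))
  have h5 : 2399 * (200 * pH k * r) ≤ 2400 * (n - (r - 1)) := by
    have h6 : 2400 * (n - (r - 1)) ≥ 2400 * n - 2400 * r := by omega
    have h7 : 2399 * (200 * pH k * r) ≤ 2399 * n := Nat.mul_le_mul_left _ hn
    omega
  have h6 : (2399 * 100 * n.choose (r - 1)) * (pH k * r) ≤ (2400 * j * v) * (pH k * r) := by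
    calc (2399 * 100 * n.choose (r - 1)) * (pH k * r)
        ≤ n.choose (r - 1) * (2399 * (200 * pH k * r)) / 2 := by
          rw [Nat.le_div_iff_mul_le (by norm_num)]
          apply le_of_eq; ring
      _ ≤ n.choose (r - 1) * (2400 * (n - (r - 1))) / 2 :=
          Nat.div_le_div_right (Nat.mul_le_mul_left _ h5)
      _ = (1200 * (n.choose r * r) * 2) / 2 := by rw [h2]; congr 1; ring
      _ = 1200 * (n.choose r * r) := Nat.mul_div_cancel _ (by norm_num)
      _ ≤ 1200 * (((r + 1) * pH k * v) * r) := by gcongr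
      _ ≤ 1200 * (((2 * j) * pH k * v) * r) := by
          have : r + 1 ≤ 2 * j := by omega
          gcongr
      _ = (2400 * j * v) * (pH k * r) := by ring
  exact Nat.le_of_mul_le_mul_right h6 (by positivity)

theorem p_NBJ : Stmt_NBJ := by
  intro k hk C₁
  obtain ⟨l0, hl0⟩ := NBJ_pow (10 ^ 8 + 4 * C₁)
  refine ⟨2 ^ (l0 + 10), ?_⟩
  rintro r n ⟨hRr, hn1, hn2⟩ v hv hv' j hj1 hj2
  have hh : 12 ≤ pH k := by unfold pH; omega
  have hr1 : 1 ≤ r := le_trans Nat.one_le_two_pow hRr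
  have hll : l0 + 10 ≤ pl r := Nat.le_log_of_pow_le (by norm_num) hRr
  have hlr : 2 ^ pl r ≤ r := Nat.pow_log_le_self 2 (by omega)
  have hlr' : r < 2 ^ (pl r + 1) := Nat.lt_pow_succ_log_self (by norm_num) r
  have hp := hl0 (pl r) (by omega)
  have hr2 : 2400 * r ≤ n := le_trans (by nlinarith) hn1
  obtain ⟨hb1, hb2⟩ := NBJ_bin k r n v j hr1 hn1 hh hv hj1 hj2
  have hL : pL n ≤ 3 * pl r := by
    have h1 : n < 2 ^ (3 * pl r) := by
      have h2 : pl r ^ 3 ≤ pl r ^ 30 := Nat.pow_le_pow_right (by omega) (by norm_num)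
      have h3 : 4 * C₁ * pl r ^ 3 ≤ 2 ^ pl r := by
        refine le_trans ?_ hp
        calc 4 * C₁ * pl r ^ 3 ≤ (10 ^ 8 + 4 * C₁) * pl r ^ 3 :=
              Nat.mul_le_mul_right _ (by omega)
          _ ≤ _ := Nat.mul_le_mul_left _ h2
      have h5 : 1 ≤ 2 ^ pl r := Nat.one_le_two_pow
      have h6 : 2 * n ≤ 2 ^ pl r * r := by
        calc 2 * n ≤ 2 * (C₁ * r * pl r ^ 3) := Nat.mul_le_mul_left _ hn2
          _ ≤ 2 * (C₁ * r * pl r ^ 3) * 2 := by omega
          _ = (4 * C₁ * pl r ^ 3) * r := by ring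
          _ ≤ 2 ^ pl r * r := Nat.mul_le_mul_right _ h3
      have h7 : 2 ^ pl r * r < 2 ^ pl r * 2 ^ (pl r + 1) :=
        Nat.mul_lt_mul_of_pos_left hlr' (by positivity)
      have h8 : 2 ^ pl r * 2 ^ (pl r + 1) = 2 * 2 ^ (2 * pl r) := by ring
      have h9 : 2 ^ (2 * pl r) ≤ 2 ^ (3 * pl r) := Nat.pow_le_pow_right (by norm_num) (by omega)
      omega
    have h2 : Nat.log 2 n < 3 * pl r := Nat.log_lt_of_lt_pow (by omega) h1
    unfold pL; omega
  have hj3 : 10 ^ 7 * pl r ^ 28 ≤ j := by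
    have h2 : pl r ^ 28 ≤ pl r ^ 30 := Nat.pow_le_pow_right (by omega) (by norm_num)
    have h3 : 10 ^ 8 * pl r ^ 28 ≤ r := by
      refine le_trans ?_ (le_trans hp hlr)
      calc 10 ^ 8 * pl r ^ 28 ≤ (10 ^ 8 + 4 * C₁) * pl r ^ 28 :=
            Nat.mul_le_mul_right _ (by omega)
        _ ≤ _ := Nat.mul_le_mul_left _ h2
    omega
  have hjn : 2400 * j ≤ n := by omega
  have hj0 : 0 < j := by omega
  have hn0 : 0 < n := by omega
  have hNj : 0 < n.choose j := Nat.choose_pos (by omega)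
  have hNr : 0 < n.choose r := Nat.choose_pos (by omega)
  -- real numbers
  set D : ℕ := 2 ^ (r - 1 - j) with hD
  have hD0 : 0 < D := by positivity
  have rj : (0 : ℝ) < j := by exact_mod_cast hj0
  have rn : (0 : ℝ) < n := by exact_mod_cast hn0
  have rD : (0 : ℝ) < D := by exact_mod_cast hD0
  have rNj : (0 : ℝ) < n.choose j := by exact_mod_cast hNj
  have rNr : (0 : ℝ) < n.choose r := by exact_mod_cast hNr
  have rl : (10 : ℝ) ≤ pl r := by exact_mod_cast (show 10 ≤ pl r by omega)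
  have rlp : (0 : ℝ) < pl r := by linarith
  have rb1 : 2399 * ((D : ℝ) * n.choose j) ≤ n.choose r := by exact_mod_cast hb1
  have rb2 : 2399 * 100 * ((D : ℝ) * n.choose j) ≤ 2400 * j * v := by exact_mod_cast hb2
  have rv : (0 : ℝ) ≤ v := by positivity
  have key := NBJ_core (pl r : ℝ) (pL n : ℝ) (n : ℝ) (j : ℝ)
    ((n.choose j : ℝ) / (j * n)) ((n.choose j : ℝ) * v / (n.choose r * n)) ((v : ℝ) / (n * D))
    (zJ r n j : ℝ) (aJ r n v j : ℝ) (FG r n v j : ℝ) (FN r n j : ℝ) (mG r n v j : ℝ)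
    (mN n j : ℝ) (dJ r n j : ℝ) rl (by positivity) (by exact_mod_cast hL)
    (by exact_mod_cast hj3) (by exact_mod_cast hjn) (by positivity) (by positivity)
    ?_ ?_ ?_ ?_ ?_ ?_ (by positivity) ?_ ?_ ?_
  · have h1 : ((bitJ r n v j : ℕ) : ℝ) ≤ (v : ℝ) / (n * D) / 10 + (n : ℝ) ^ 2 := by
      unfold bitJ
      push_cast
      exact key
    have h2 : 10 * (n : ℝ) * D * (bitJ r n v j : ℝ) ≤ v + 10 * (n : ℝ) ^ 3 * D := by
      have h3 : 10 * (n : ℝ) * D * (bitJ r n v j : ℝ) ≤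
          10 * (n : ℝ) * D * ((v : ℝ) / (n * D) / 10 + (n : ℝ) ^ 2) :=
        mul_le_mul_of_nonneg_left h1 (by positivity)
      have h4 : 10 * (n : ℝ) * D * ((v : ℝ) / (n * D) / 10 + (n : ℝ) ^ 2)
          = v + 10 * (n : ℝ) ^ 3 * D := by
        field_simp
      linarith
    exact_mod_cast h2
  · -- x ≤ 0.0101 w
    rw [div_le_iff₀ (by positivity)]
    have : 0.0101 * ((v : ℝ) / (n * D)) * (j * n) = 0.0101 * (v * j) / D := by
      field_simp
    rw [this, le_div_iff₀ rD]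
    nlinarith [mul_nonneg rv rj.le]
  · -- 2399 y ≤ w
    rw [le_div_iff₀ (by positivity)]
    have : 2399 * ((n.choose j : ℝ) * v / (n.choose r * n)) * (n * D)
        = (2399 * (D * n.choose j)) * v / n.choose r := by
      field_simp
    rw [this, div_le_iff₀ rNr]
    nlinarith [mul_le_mul_of_nonneg_right rb1 rv]
  · -- z
    unfold zJ
    push_cast
    have h1 : ((n.choose j / (j * n * pl r ^ 5) : ℕ) : ℝ) ≤
        (n.choose j : ℝ) / ((j * n * pl r ^ 5 : ℕ) : ℝ) := Nat.cast_div_le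
    have h2 : (n.choose j : ℝ) / ((j * n * pl r ^ 5 : ℕ) : ℝ) =
        (n.choose j : ℝ) / (j * n) / (pl r : ℝ) ^ 5 := by
      push_cast; rw [div_div]
    linarith
  · -- a
    unfold aJ
    push_cast
    have h1 : ((16 * pl r ^ 2 * n.choose j / (j ^ 2 * n) : ℕ) : ℝ) ≤
        ((16 * pl r ^ 2 * n.choose j : ℕ) : ℝ) / ((j ^ 2 * n : ℕ) : ℝ) := Nat.cast_div_le
    have h2 : ((16 * pl r ^ 2 * n.choose j : ℕ) : ℝ) / ((j ^ 2 * n : ℕ) : ℝ) =
        16 * (pl r : ℝ) ^ 2 * ((n.choose j : ℝ) / (j * n)) / j := by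
      push_cast; field_simp
    have h3 : ((200 * v * n.choose j / (j * n * n.choose r) : ℕ) : ℝ) ≤
        ((200 * v * n.choose j : ℕ) : ℝ) / ((j * n * n.choose r : ℕ) : ℝ) := Nat.cast_div_le
    have h4 : ((200 * v * n.choose j : ℕ) : ℝ) / ((j * n * n.choose r : ℕ) : ℝ) =
        200 * ((n.choose j : ℝ) * v / (n.choose r * n)) / j := by
      push_cast; field_simp
    linarith
  · -- fg
    unfold FG
    push_cast
    have hg : ((gJ r n v j : ℕ) : ℝ) ≤ 25 * v * (n.choose j : ℝ) / (4 * n.choose r) := by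
      unfold gJ
      refine le_trans Nat.cast_div_le (le_of_eq ?_)
      push_cast; rfl
    have h1 : ((5 * gJ r n v j / (j * n) : ℕ) : ℝ) ≤
        ((5 * gJ r n v j : ℕ) : ℝ) / ((j * n : ℕ) : ℝ) := Nat.cast_div_le
    have h2 : ((5 * gJ r n v j : ℕ) : ℝ) / ((j * n : ℕ) : ℝ) ≤
        32 * ((n.choose j : ℝ) * v / (n.choose r * n)) / j := by
      push_cast
      rw [div_le_div_iff₀ (by positivity) rj]
      have h5 : 32 * ((n.choose j : ℝ) * v / (n.choose r * n)) * (j * n) =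
          32 * ((n.choose j : ℝ) * v / n.choose r) * j := by field_simp
      rw [h5]
      apply mul_le_mul_of_nonneg_right _ rj.le
      have h6 : 25 * v * (n.choose j : ℝ) / (4 * n.choose r) =
        25 / 4 * ((n.choose j : ℝ) * v / n.choose r) := by field_simp
      rw [h6] at hg
      have h7 : (0 : ℝ) ≤ (n.choose j : ℝ) * v / n.choose r := by positivity
      linarith
    have h3 : ((5 * gJ r n v j / (j * n) : ℕ) : ℝ) + 1 + 1 ≤
        32 * ((n.choose j : ℝ) * v / (n.choose r * n)) / j + 2 := by linarith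
    exact mul_le_mul_of_nonneg_right h3 (by positivity)
  · -- d
    unfold dJ pe ps pE pe
    push_cast
    apply le_of_eq; ring
  · -- fn
    unfold FN
    push_cast
    have h1 : ((16 * n.choose j / (j ^ 2 * n) : ℕ) : ℝ) ≤
        ((16 * n.choose j : ℕ) : ℝ) / ((j ^ 2 * n : ℕ) : ℝ) := Nat.cast_div_le
    have h2 : ((16 * n.choose j : ℕ) : ℝ) / ((j ^ 2 * n : ℕ) : ℝ) =
        16 * ((n.choose j : ℝ) / (j * n)) / j := by
      push_cast; field_simp
    have h3 : ((64 * n.choose j / (j ^ 2 * n ^ 2) : ℕ) : ℝ) ≤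
        ((64 * n.choose j : ℕ) : ℝ) / ((j ^ 2 * n ^ 2 : ℕ) : ℝ) := Nat.cast_div_le
    have h4 : ((64 * n.choose j : ℕ) : ℝ) / ((j ^ 2 * n ^ 2 : ℕ) : ℝ) =
        64 * ((n.choose j : ℝ) / (j * n)) / (j * n) := by
      push_cast; field_simp
    apply mul_le_mul_of_nonneg_right _ (by positivity)
    have h5 : ((dJ r n j : ℝ) + 1) * (((64 * n.choose j / (j ^ 2 * n ^ 2) : ℕ) : ℝ) + 1) ≤
        ((dJ r n j : ℝ) + 1) * (64 * ((n.choose j : ℝ) / (j * n)) / (j * n) + 1) :=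
      mul_le_mul_of_nonneg_left (by linarith) (by positivity)
    linarith
  · -- mg
    unfold mG
    push_cast
    have hg : ((gJ r n v j : ℕ) : ℝ) ≤ 25 * v * (n.choose j : ℝ) / (4 * n.choose r) := by
      unfold gJ
      refine le_trans Nat.cast_div_le (le_of_eq ?_)
      push_cast; rfl
    have h1 : ((5 * gJ r n v j / n : ℕ) : ℝ) ≤
        ((5 * gJ r n v j : ℕ) : ℝ) / ((n : ℕ) : ℝ) := Nat.cast_div_le
    have h2 : ((5 * gJ r n v j : ℕ) : ℝ) / ((n : ℕ) : ℝ) ≤
        31.25 * ((n.choose j : ℝ) * v / (n.choose r * n)) := by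
      push_cast
      rw [div_le_iff₀ rn]
      have h5 : 31.25 * ((n.choose j : ℝ) * v / (n.choose r * n)) * n =
          5 * (25 * v * (n.choose j : ℝ) / (4 * n.choose r)) := by
        field_simp; ring
      rw [h5]
      linarith
    linarith
  · -- mn
    unfold mN
    push_cast
    have h1 : ((4 * n.choose j / (j * n) : ℕ) : ℝ) ≤
        ((4 * n.choose j : ℕ) : ℝ) / ((j * n : ℕ) : ℝ) := Nat.cast_div_le
    have h2 : ((4 * n.choose j : ℕ) : ℝ) / ((j * n : ℕ) : ℝ) =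
        4 * ((n.choose j : ℝ) / (j * n)) := by
      push_cast; field_simp
    linarith

end Pool.F3LT
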