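import Pool.Agent.Work.MP_f3d170_lt.Interface2

set_option autoImplicit false

open Nat
open Pool.Agent.Work.MP_f3d170_co_helper44

namespace Pool.F3LT

theorem NBL_geo (n : ℕ) : ∀ e j : ℕ, 3 * (j + e) ≤ n → 2 ^ e * n.choose j ≤ n.choose (j + e) := by
  intro e
  induction e with
  | zero => intro j _; simp
  | succ e ih =>
    intro j hj
    have h1 := ih j (by omega)
    have h2 := Nat.choose_succ_right_eq n (j + e)
    have h3 : 2 * (j + e + 1) ≤ n - (j + e) := by omega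
    have h4 : (j + e + 1) * (2 * n.choose (j + e)) ≤ (j + e + 1) * n.choose (j + e + 1) := by
      calc (j + e + 1) * (2 * n.choose (j + e)) = n.choose (j + e) * (2 * (j + e + 1)) := by ring
        _ ≤ n.choose (j + e) * (n - (j + e)) := Nat.mul_le_mul_left _ h3
        _ = (j + e + 1) * n.choose (j + e + 1) := by rw [← h2]; ring
    have h5 := Nat.le_of_mul_le_mul_left h4 (by omega)
    calc 2 ^ (e + 1) * n.choose j = 2 * (2 ^ e * n.choose j) := by ring
      _ ≤ 2 * n.choose (j + e) := Nat.mul_le_mul_left _ h1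
      _ ≤ n.choose (j + (e + 1)) := h5

theorem NBL_pow : ∀ l : ℕ, 25 ≤ l → 16200 * (l + 1) ^ 2 ≤ 2 ^ l := by
  intro l hl
  induction l, hl using Nat.le_induction with
  | base => norm_num
  | succ l hl ih =>
    have h1 : (l + 1 + 1) ^ 2 ≤ 2 * (l + 1) ^ 2 := by nlinarith
    calc 16200 * (l + 1 + 1) ^ 2 ≤ 16200 * (2 * (l + 1) ^ 2) := Nat.mul_le_mul_left _ h1
      _ = 2 * (16200 * (l + 1) ^ 2) := by ring
      _ ≤ 2 * 2 ^ l := Nat.mul_le_mul_left _ ih
      _ = 2 ^ (l + 1) := by ring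

theorem NBL_log (C₁ r n : ℕ) (hC : C₁ ≤ r) (hr : 2 ^ 25 ≤ r) (hn : n ≤ C₁ * r * pl r ^ 3)
    (hn0 : n ≠ 0) : 648 * pL n ^ 2 ≤ r := by
  have hr0 : r ≠ 0 := by
    have : 0 < 2 ^ 25 := by norm_num
    omega
  have hl : 25 ≤ Nat.log 2 r := Nat.le_log_of_pow_le (by norm_num) hr
  have hl1 : 2 ^ Nat.log 2 r ≤ r := Nat.pow_log_le_self 2 hr0
  have hl2 : r < 2 ^ (Nat.log 2 r + 1) := Nat.lt_pow_succ_log_self (by norm_num) r
  have hl3 : pl r ≤ r := Nat.log_le_self 2 r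
  have h1 : n ≤ r ^ 5 := by
    calc n ≤ C₁ * r * pl r ^ 3 := hn
      _ ≤ r * r * r ^ 3 := Nat.mul_le_mul (Nat.mul_le_mul_right _ hC) (Nat.pow_le_pow_left hl3 3)
      _ = r ^ 5 := by ring
  have h2 : n < 2 ^ (5 * (Nat.log 2 r + 1)) := by
    calc n ≤ r ^ 5 := h1
      _ < (2 ^ (Nat.log 2 r + 1)) ^ 5 := Nat.pow_lt_pow_left hl2 (by norm_num)
      _ = 2 ^ (5 * (Nat.log 2 r + 1)) := by rw [← pow_mul]; ring_nf
  have h3 : Nat.log 2 n < 5 * (Nat.log 2 r + 1) := Nat.log_lt_of_lt_pow hn0 h2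
  have h4 : pL n ≤ 5 * (Nat.log 2 r + 1) := h3
  calc 648 * pL n ^ 2 ≤ 648 * (5 * (Nat.log 2 r + 1)) ^ 2 :=
        Nat.mul_le_mul_left _ (Nat.pow_le_pow_left h4 2)
    _ = 16200 * (Nat.log 2 r + 1) ^ 2 := by ring
    _ ≤ 2 ^ Nat.log 2 r := NBL_pow _ hl
    _ ≤ r := hl1

theorem NBL_core (n r i L a b A B Cc : ℕ) (hr : 0 < r) (hL : 1 ≤ L) (hLr : 648 * L ^ 2 ≤ r)
    (hri : r ≤ 2 * i) (hab : n * a ≤ 2 * (i + 1) * b)
    (hA : A * ((i + 1) * (i + 2)) ≤ 4 * a) (hB : B * ((i + 1) * n) ≤ 5 * b)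
    (hC : Cc * n ≤ 5 * b) :
    2 * (n * (9 * L * ((A + 1) + (B + 1 + 1) * (L + 1)) + (Cc + 1))) ≤ 11 * b + 2 * n * r := by
  have h1 : n * A * (i + 2) ≤ 8 * b := by
    have h : (i + 1) * (n * A * (i + 2)) ≤ (i + 1) * (8 * b) := by
      calc (i + 1) * (n * A * (i + 2)) = n * (A * ((i + 1) * (i + 2))) := by ring
        _ ≤ n * (4 * a) := Nat.mul_le_mul_left _ hA
        _ = 4 * (n * a) := by ring
        _ ≤ 4 * (2 * (i + 1) * b) := Nat.mul_le_mul_left _ hab
        _ = (i + 1) * (8 * b) := by ring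
    exact Nat.le_of_mul_le_mul_left h (by omega)
  have h2 : r * (n * A) ≤ 16 * b := by
    calc r * (n * A) ≤ (2 * (i + 2)) * (n * A) := Nat.mul_le_mul_right _ (by omega)
      _ = 2 * (n * A * (i + 2)) := by ring
      _ ≤ 2 * (8 * b) := Nat.mul_le_mul_left _ h1
      _ = 16 * b := by ring
  have h3 : r * (n * B) ≤ 10 * b := by
    calc r * (n * B) ≤ (2 * (i + 1)) * (n * B) := Nat.mul_le_mul_right _ (by omega)
      _ = 2 * (B * ((i + 1) * n)) := by ring
      _ ≤ 2 * (5 * b) := Nat.mul_le_mul_left _ hB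
      _ = 10 * b := by ring
  have hL2 : L ≤ L ^ 2 := by nlinarith
  have key : r * (2 * (n * (9 * L * ((A + 1) + (B + 1 + 1) * (L + 1)) + (Cc + 1)))) ≤
      r * (11 * b + 2 * n * r) := by
    calc r * (2 * (n * (9 * L * ((A + 1) + (B + 1 + 1) * (L + 1)) + (Cc + 1))))
        = 18 * L * (r * (n * A)) + 18 * L * (L + 1) * (r * (n * B)) + 2 * r * (Cc * n)
          + 2 * r * n * (9 * L * (3 + 2 * L) + 1) := by ring
      _ ≤ 18 * L * (16 * b) + 18 * L * (L + 1) * (10 * b) + 2 * r * (5 * b)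
          + 2 * r * n * (9 * L * (3 + 2 * L) + 1) := by
        gcongr
      _ = b * (18 * (26 * L + 10 * L ^ 2)) + 10 * r * b
          + 2 * r * n * (27 * L + 18 * L ^ 2 + 1) := by ring
      _ ≤ b * (648 * L ^ 2) + 10 * r * b + 2 * r * n * (648 * L ^ 2) := by
        have e1 : 18 * (26 * L + 10 * L ^ 2) ≤ 648 * L ^ 2 := by omega
        have e2 : 27 * L + 18 * L ^ 2 + 1 ≤ 648 * L ^ 2 := by omega
        gcongr
      _ ≤ b * r + 10 * r * b + 2 * r * n * r := by gcongr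
      _ = r * (11 * b + 2 * n * r) := by ring
  exact Nat.le_of_mul_le_mul_left key hr

theorem p_NBL : Stmt_NBL := by
  intro k hk C₁
  refine ⟨max C₁ (2 ^ 25), ?_⟩
  rintro r n ⟨hR, hrn, hn⟩ i hi1 hi2
  have hC : C₁ ≤ r := le_trans (le_max_left _ _) hR
  have hr : 2 ^ 25 ≤ r := le_trans (le_max_right _ _) hR
  have hr' : 33554432 ≤ r := by simpa using hr
  have hpH : 12 ≤ pH k := by unfold pH; omega
  have hrn' : 2400 * r ≤ n := by
    calc 2400 * r ≤ 200 * pH k * r := Nat.mul_le_mul_right _ (by omega)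
      _ ≤ n := hrn
  have hn0 : n ≠ 0 := by omega
  have hL := NBL_log C₁ r n hC hr hn hn0
  have hL1 : 1 ≤ pL n := by unfold pL; omega
  -- facts on binomials
  have f1 : 2 ^ (r - 2 - i) * n.choose (i + 1) ≤ n.choose (r - 1) := by
    have h := NBL_geo n (r - 2 - i) (i + 1) (by omega)
    rwa [show i + 1 + (r - 2 - i) = r - 1 by omega] at h
  have f2 : 2399 * n.choose (r - 1) ≤ n.choose r := by
    have h := Nat.choose_succ_right_eq n (r - 1)
    rw [show r - 1 + 1 = r by omega] at h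
    have h1 : 2399 * r ≤ n - (r - 1) := by omega
    have h2 : r * (2399 * n.choose (r - 1)) ≤ r * n.choose r := by
      calc r * (2399 * n.choose (r - 1)) = n.choose (r - 1) * (2399 * r) := by ring
        _ ≤ n.choose (r - 1) * (n - (r - 1)) := Nat.mul_le_mul_left _ h1
        _ = r * n.choose r := by rw [← h]; ring
    exact Nat.le_of_mul_le_mul_left h2 (by omega)
  have f3 : n * n.choose i ≤ 2 * (i + 1) * n.choose (i + 1) := by
    have h := Nat.choose_succ_right_eq n i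
    have h1 : n ≤ 2 * (n - i) := by omega
    calc n * n.choose i ≤ 2 * (n - i) * n.choose i := Nat.mul_le_mul_right _ h1
      _ = 2 * (n.choose i * (n - i)) := by ring
      _ = 2 * (n.choose (i + 1) * (i + 1)) := by rw [h]
      _ = 2 * (i + 1) * n.choose (i + 1) := by ring
  have hcore := NBL_core n r i (pL n) (n.choose i) (n.choose (i + 1))
    (4 * n.choose i / ((i + 1) * (i + 2))) (5 * n.choose (i + 1) / ((i + 1) * n))
    (5 * n.choose (i + 1) / n) (by omega) hL1 hL (by omega) f3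
    (Nat.div_mul_le_self _ _) (Nat.div_mul_le_self _ _) (Nat.div_mul_le_self _ _)
  have hb : 2 * (n * bitL n i) ≤ 11 * n.choose (i + 1) + 2 * n * r := hcore
  calc 300 * n * 2 ^ (r - 2 - i) * bitL n i = 150 * 2 ^ (r - 2 - i) * (2 * (n * bitL n i)) := by
        ring
    _ ≤ 150 * 2 ^ (r - 2 - i) * (11 * n.choose (i + 1) + 2 * n * r) := Nat.mul_le_mul_left _ hb
    _ = 1650 * (2 ^ (r - 2 - i) * n.choose (i + 1)) + 300 * (n * r) * 2 ^ (r - 2 - i) := by ring
    _ ≤ 1650 * n.choose (r - 1) + 300 * n ^ 3 * 2 ^ (r - 2 - i) := by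
      have e1 : n * r ≤ n ^ 3 := by
        calc n * r ≤ n * n := Nat.mul_le_mul_left _ (by omega)
          _ = n * n * 1 := by ring
          _ ≤ n * n * n := Nat.mul_le_mul_left _ (by omega)
          _ = n ^ 3 := by ring
      gcongr
    _ ≤ 2399 * n.choose (r - 1) + 300 * n ^ 3 * 2 ^ (r - 2 - i) := by gcongr; norm_num
    _ ≤ n.choose r + 300 * n ^ 3 * 2 ^ (r - 2 - i) := by gcongr

end Pool.F3LT
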