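import Pool.Agent.Work.MP_f3d170_lt.B_NCN2

/-!
# MP_f3d170_co, linear upper threshold: block NCG2 (helper89)
-/

set_option autoImplicit false

open Set Matroid Nat
open Pool.Agent.Work.MP_f3d170_co_h45
open Pool.Agent.Work.MP_f3d170_co_helper60
open Pool.Agent.Work.MP_f3d170_co_helper60b (trunc Gen IsHyp HasGen star StarSet Rec IsPart
  star_spec)
open Pool.Agent.Work.MP_f3d170_co_helper44

namespace Pool.F3LT

open X_NCN2 Classical
open Pool.Agent.Work.MP_f3d170_co_helper44.helper90 (dcount)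

theorem p_NCG2 : Stmt_NCG2 := by
  intro n s Λ M hE h8 hst
  have hA : ∀ P ∈ {P | P ∈ NCg Λ M s ∧ (star M s P).ncard ≠ s + 1},
      star M s P ⊆ P ∧ (star M s P).ncard = s + 2 ∧ Gen M s (star M s P) := by
    intro P hP
    have h1 := star_spec hP.1.1.2.1
    have h2 := hst P hP.1.1
    have h3 := h1.2.1
    have h4 := hP.2
    exact ⟨h1.1, by omega, h1.2.2.1⟩
  have hexG : ∀ P : Set (Fin n), ∃ G : Set (Fin n), P ∈ NCg Λ M s →
      G ∈ Lg Λ M (s + 1) ∧ P ⊆ G ∧ n < 2 * G.ncard := by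
    intro P
    by_cases hP : P ∈ NCg Λ M s
    · obtain ⟨G, h1, h2, h3⟩ := hP.2
      exact ⟨G, fun _ => ⟨h1, h2, h3⟩⟩
    · exact ⟨∅, fun h => absurd h hP⟩
  choose G hG using hexG
  have hmain := dcount ({P | P ∈ NCg Λ M s ∧ (star M s P).ncard ≠ s + 1}).toFinset
    (fun P => (G P \ P).toFinset ×ˢ (star M s P).toFinset.offDiag)
    (Gi Λ M (s + 1) (s + 1)).toFinset
    (fun I => (Set.toFinite I).toFinset ×ˢ (Finset.univ : Finset Bool))
    ((s + 2) * (s + 1) * n) ((s + 1) * 2) 8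
    (by
      intro P hP
      rw [Set.mem_toFinset] at hP
      rw [Finset.card_product, Finset.offDiag_card, ← Set.ncard_eq_toFinset_card',
        ← Set.ncard_eq_toFinset_card', (hA P hP).2.1]
      have h1 := h8 P hP.1.1
      have h2 := hG P hP.1
      have h3 := Set.ncard_sdiff_add_ncard_of_subset h2.2.1 (Set.toFinite _)
      have h4 : n ≤ 8 * (G P \ P).ncard := by omega
      have h5 : (s + 2) * (s + 2) - (s + 2) = (s + 2) * (s + 1) := by
        rw [Nat.sub_eq_iff_eq_add (Nat.le_mul_self (s + 2))]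
        ring
      rw [h5]
      calc (s + 2) * (s + 1) * n ≤ (s + 2) * (s + 1) * (8 * (G P \ P).ncard) :=
            Nat.mul_le_mul_left _ h4
        _ = 8 * ((G P \ P).ncard * ((s + 2) * (s + 1))) := by ring)
    (by
      intro I hI
      rw [Set.mem_toFinset] at hI
      rw [Finset.card_product, ← Set.ncard_eq_toFinset_card, Finset.card_univ,
        Fintype.card_bool, hI.1])
    (fun P b => insert b.1 ((star M s P \ {b.2.1}) \ {b.2.2}))
    (fun _ b => (b.1, decide (b.2.1 < b.2.2)))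
    (by
      rintro P hP ⟨y, u, x⟩ hb
      rw [Finset.mem_product, Finset.mem_offDiag, Set.mem_toFinset, Set.mem_toFinset,
        Set.mem_toFinset] at hb
      rw [Set.mem_toFinset] at hP
      obtain ⟨hy, hu, hx, hux⟩ := hb
      simp only at hx hy hu hux
      have h1 := hA P hP
      have h2 := hG P hP.1
      have hyA : y ∉ star M s P := fun h => hy.2 (h1.1 h)
      rw [Set.mem_toFinset, Finset.mem_product, Set.Finite.mem_toFinset]
      refine ⟨⟨?_, G P, h2.1, h2.2.2, ?_⟩, Set.mem_insert _ _, Finset.mem_univ _⟩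
      · simp only
        rw [Set.ncard_insert_of_notMem (fun h => hyA h.1.1) (Set.toFinite _),
          card_two h1.2.1 hu hx hux]
      · intro z hz
        rcases hz with rfl | hz
        · exact hy.1
        · exact h2.2.1 (h1.1 hz.1.1))
    (by
      rintro P hP ⟨y, u, x⟩ hb P' hP' ⟨y', u', x'⟩ hb' h h'
      rw [Finset.mem_product, Finset.mem_offDiag, Set.mem_toFinset, Set.mem_toFinset,
        Set.mem_toFinset] at hb hb'
      rw [Set.mem_toFinset] at hP hP'
      simp only [Prod.mk.injEq] at h h' hb hb'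
      obtain ⟨h', h''⟩ := h'
      subst h'
      obtain ⟨h3, h4, h5⟩ := key2 hE hP.1.1.1 hP'.1.1.1 (hA P hP) (hA P' hP') hb.2.1
        hb.2.2.1 hb.2.2.2 hb'.2.1 hb'.2.2.1 hb'.2.2.2 hb.1.2 hb'.1.2 h h''
      subst h4
      subst h5
      exact ⟨h3, rfl⟩)
  rw [← Set.ncard_eq_toFinset_card', ← Set.ncard_eq_toFinset_card'] at hmain
  refine Nat.le_of_mul_le_mul_left (c := s + 1) ?_ (Nat.succ_pos s)
  calc (s + 1) * ((s + 2) * n * {P | P ∈ NCg Λ M s ∧ (star M s P).ncard ≠ s + 1}.ncard)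
      = (s + 2) * (s + 1) * n *
        {P | P ∈ NCg Λ M s ∧ (star M s P).ncard ≠ s + 1}.ncard := by ring
    _ ≤ 8 * ((s + 1) * 2 * (Gi Λ M (s + 1) (s + 1)).ncard) := hmain
    _ = (s + 1) * (16 * (Gi Λ M (s + 1) (s + 1)).ncard) := by ring

end Pool.F3LT
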