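import Pool.Agent.Work.MP_f3d170_lt.Interface

/-!
# MP_f3d170_co, linear upper threshold: block NCN2 (helper89)
-/

set_option autoImplicit false

open Set Matroid Nat
open Pool.Agent.Work.MP_f3d170_co_h45
open Pool.Agent.Work.MP_f3d170_co_helper60
open Pool.Agent.Work.MP_f3d170_co_helper60b (trunc Gen IsHyp HasGen star StarSet Rec IsPart
  star_spec)
open Pool.Agent.Work.MP_f3d170_co_helper44

namespace Pool.F3LT.X_NCN2

variable {n s : ℕ}

theorem gen_sub {M : Matroid (Fin n)} {A D : Set (Fin n)} (h : Gen M s A) (hD : D ⊆ A) :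
    Gen M s D := fun S hS hSc => h S (hS.trans hD) hSc

theorem card_two {A : Set (Fin n)} (hA : A.ncard = s + 2) {u x : Fin n} (hu : u ∈ A)
    (hx : x ∈ A) (hux : u ≠ x) : ((A \ {u}) \ {x}).ncard = s := by
  have hx' : x ∈ A \ {u} := ⟨hx, fun h => hux h.symm⟩
  rw [Set.ncard_sdiff_singleton_of_mem hx', Set.ncard_sdiff_singleton_of_mem hu, hA]
  omega

/-- the key of the injectivity -/
theorem key2 {M : Matroid (Fin n)} (hE : M.E = Set.univ) {P P' : Set (Fin n)}
    {A : Set (Fin n) → Set (Fin n)} (hP : IsHyp M s P) (hP' : IsHyp M s P')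
    (hA : A P ⊆ P ∧ (A P).ncard = s + 2 ∧ Gen M s (A P))
    (hA' : A P' ⊆ P' ∧ (A P').ncard = s + 2 ∧ Gen M s (A P')) {u u' x x' y : Fin n}
    (hu : u ∈ A P) (hx : x ∈ A P) (hux : u ≠ x) (hu' : u' ∈ A P') (hx' : x' ∈ A P')
    (hux' : u' ≠ x') (hy : y ∉ P) (hy' : y ∉ P')
    (h : insert y ((A P \ {u}) \ {x}) = insert y ((A P' \ {u'}) \ {x'}))
    (hlt : decide (u < x) = decide (u' < x')) : P = P' ∧ u = u' ∧ x = x' := by
  have h1 : (A P \ {u}) \ {x} = (A P' \ {u'}) \ {x'} := by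
    have e1 : insert y ((A P \ {u}) \ {x}) \ {y} = (A P \ {u}) \ {x} := by
      rw [Set.insert_sdiff_of_mem _ (Set.mem_singleton y), Set.sdiff_singleton_eq_self]
      exact fun h => hy (hA.1 h.1.1)
    have e2 : insert y ((A P' \ {u'}) \ {x'}) \ {y} = (A P' \ {u'}) \ {x'} := by
      rw [Set.insert_sdiff_of_mem _ (Set.mem_singleton y), Set.sdiff_singleton_eq_self]
      exact fun h => hy' (hA'.1 h.1.1)
    rw [← e1, ← e2, h]
  have h2 : P = P' := by
    have hc := card_two hA.2.1 hu hx hux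
    have hi : M.Indep ((A P \ {u}) \ {x}) :=
      hA.2.2 _ (Set.sdiff_subset.trans Set.sdiff_subset) hc
    have hr : s ≤ rk M ((A P \ {u}) \ {x}) := by rw [indep_iff_rk.1 hi, hc]
    rw [hP.eq_closure hE ((Set.sdiff_subset.trans Set.sdiff_subset).trans hA.1) hr]
    rw [h1] at hr ⊢
    rw [← hP'.eq_closure hE ((Set.sdiff_subset.trans Set.sdiff_subset).trans hA'.1) hr]
  subst h2
  have hmem : ∀ z ∈ A P, ∀ a b : Fin n, z ∉ (A P \ {a}) \ {b} → z = a ∨ z = b := by
    intro z hz a b hn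
    by_contra hcon
    push Not at hcon
    exact hn ⟨⟨hz, hcon.1⟩, hcon.2⟩
  have m1 : u = u' ∨ u = x' := hmem u hu u' x' (by rw [← h1]; exact fun h => h.1.2 rfl)
  have m2 : x = u' ∨ x = x' := hmem x hx u' x' (by rw [← h1]; exact fun h => h.2 rfl)
  have hlt' : u < x ↔ u' < x' := by simpa using hlt
  rcases m1 with m1 | m1
  · rcases m2 with m2 | m2
    · exact absurd (m1.trans m2.symm) hux
    · exact ⟨rfl, m1, m2⟩
  · rcases m2 with m2 | m2
    · exfalso
      rw [m1, m2] at hlt'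
      rcases lt_or_gt_of_ne hux' with h3 | h3
      · exact absurd (hlt'.2 h3) (not_lt.2 h3.le)
      · exact absurd (hlt'.1 h3) (not_lt.2 h3.le)
    · exact absurd (m1.trans m2.symm) hux

end Pool.F3LT.X_NCN2

namespace Pool.F3LT

open X_NCN2 Classical
open Pool.Agent.Work.MP_f3d170_co_helper44.helper90 (dcount card_sets circ_D YY YY_card bn_YY)

theorem p_NCN2 : Stmt_NCN2 := by
  intro n s Λ q M hE h8 hst hM
  have hA : ∀ P ∈ {P | P ∈ NCn Λ M s ∧ (star M s P).ncard ≠ s + 1},
      star M s P ⊆ P ∧ (star M s P).ncard = s + 2 ∧ Gen M s (star M s P) := by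
    intro P hP
    have h1 := star_spec hP.1.1.2.1
    have h2 := hst P hP.1.1
    have h3 := h1.2.1
    have h4 := hP.2
    exact ⟨h1.1, by omega, h1.2.2.1⟩
  obtain ⟨XX, hXX⟩ : ∃ XX : Set (Fin n) → Fin n → Fin n → Set (Fin n), XX = fun P y u =>
    {x | x ∈ star M s P \ {u} ∧ (QQ M (insert y ((star M s P \ {u}) \ {x}))).ncard ≤ q} :=
    ⟨_, rfl⟩
  have hDc : ∀ P ∈ {P | P ∈ NCn Λ M s ∧ (star M s P).ncard ≠ s + 1}, ∀ u ∈ star M s P,
      star M s P \ {u} ⊆ P ∧ (star M s P \ {u}).ncard = s + 1 ∧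
        Gen M s (star M s P \ {u}) := by
    intro P hP u hu
    have h1 := hA P hP
    refine ⟨Set.sdiff_subset.trans h1.1, ?_, gen_sub h1.2.2 Set.sdiff_subset⟩
    rw [Set.ncard_sdiff_singleton_of_mem hu, h1.2.1]
    omega
  have hXc : ∀ P ∈ {P | P ∈ NCn Λ M s ∧ (star M s P).ncard ≠ s + 1}, ∀ y ∈ YY Λ M s P,
      ∀ u ∈ star M s P, s + 1 ≤ 2 * (XX P y u).ncard := by
    intro P hP y hy u hu
    have h1 := hDc P hP u hu
    rw [hXX]
    exact hM P (star M s P \ {u}) y hP.1.1.1 h1.1 h1.2.1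
      (circ_D hE hP.1.1.1 h1.1 h1.2.1 h1.2.2) hy.1 (bn_YY hE hP.1.1.1 hy)
  have hmain := dcount ({P | P ∈ NCn Λ M s ∧ (star M s P).ncard ≠ s + 1}).toFinset
    (fun P => (YY Λ M s P).toFinset.sigma
      (fun y => (star M s P).toFinset.sigma (fun u => (XX P y u).toFinset)))
    ({I : Set (Fin n) | I.ncard = s + 1 ∧ (QQ M I).ncard ≤ q}).toFinset
    (fun I => (QQ M I).toFinset ×ˢ (Finset.univ : Finset Bool))
    ((s + 2) * (s + 1) * n) (2 * q) 4
    (by
      intro P hP
      rw [Set.mem_toFinset] at hP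
      rw [Finset.card_sigma]
      have h1 : ∑ y ∈ (YY Λ M s P).toFinset, (s + 2) * (s + 1) ≤
          ∑ y ∈ (YY Λ M s P).toFinset,
            2 * ((star M s P).toFinset.sigma (fun u => (XX P y u).toFinset)).card := by
        refine Finset.sum_le_sum fun y hy => ?_
        rw [Set.mem_toFinset] at hy
        rw [Finset.card_sigma, Finset.mul_sum]
        have h2 : ∑ u ∈ (star M s P).toFinset, (s + 1) ≤
            ∑ u ∈ (star M s P).toFinset, 2 * (XX P y u).toFinset.card := by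
          refine Finset.sum_le_sum fun u hu => ?_
          rw [Set.mem_toFinset] at hu
          rw [← Set.ncard_eq_toFinset_card']
          exact hXc P hP y hy u hu
        rw [Finset.sum_const, smul_eq_mul, ← Set.ncard_eq_toFinset_card', (hA P hP).2.1] at h2
        exact h2
      rw [Finset.sum_const, smul_eq_mul, ← Finset.mul_sum, ← Set.ncard_eq_toFinset_card'] at h1
      have h2 := YY_card hP.1 (h8 P hP.1.1)
      calc (s + 2) * (s + 1) * n ≤ (s + 2) * (s + 1) * (2 * (YY Λ M s P).ncard) :=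
            Nat.mul_le_mul_left _ h2
        _ = 2 * ((YY Λ M s P).ncard * ((s + 2) * (s + 1))) := by ring
        _ ≤ 2 * (2 * ∑ y ∈ (YY Λ M s P).toFinset,
            ((star M s P).toFinset.sigma (fun u => (XX P y u).toFinset)).card) :=
          Nat.mul_le_mul_left _ h1
        _ = 4 * ∑ y ∈ (YY Λ M s P).toFinset,
            ((star M s P).toFinset.sigma (fun u => (XX P y u).toFinset)).card := by ring)
    (by
      intro I hI
      rw [Set.mem_toFinset] at hI
      rw [Finset.card_product, ← Set.ncard_eq_toFinset_card', Finset.card_univ,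
        Fintype.card_bool]
      have := hI.2
      omega)
    (fun P b => insert b.1 ((star M s P \ {b.2.1}) \ {b.2.2}))
    (fun _ b => (b.1, decide (b.2.1 < b.2.2)))
    (by
      rintro P hP ⟨y, u, x⟩ hb
      rw [Finset.mem_sigma, Finset.mem_sigma, Set.mem_toFinset, Set.mem_toFinset,
        Set.mem_toFinset] at hb
      rw [Set.mem_toFinset] at hP
      obtain ⟨hy, hu, hx⟩ := hb
      simp only at hx hy hu
      rw [hXX] at hx
      have h1 := hDc P hP u hu
      have hyD : y ∉ star M s P \ {u} := fun h => hy.1 (h1.1 h)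
      rw [Set.mem_toFinset, Finset.mem_product, Set.mem_toFinset]
      refine ⟨⟨?_, hx.2⟩, ⟨Set.mem_insert _ _, x, ?_, ?_⟩, Finset.mem_univ _⟩
      · rw [Set.ncard_insert_of_notMem (fun h => hyD h.1) (Set.toFinite _),
          Set.ncard_sdiff_singleton_of_mem hx.1, h1.2.1]
        omega
      · rintro (h | h)
        · have h : x = y := h
          apply hyD
          rw [← h]
          exact hx.1
        · exact h.2 rfl
      · simp only
        rw [Set.insert_sdiff_of_mem _ (Set.mem_singleton y), Set.sdiff_singleton_eq_self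
          (fun h => hyD h.1), Set.insert_sdiff_singleton, Set.insert_eq_of_mem hx.1]
        exact circ_D hE hP.1.1.1 h1.1 h1.2.1 h1.2.2)
    (by
      rintro P hP ⟨y, u, x⟩ hb P' hP' ⟨y', u', x'⟩ hb' h h'
      rw [Finset.mem_sigma, Finset.mem_sigma, Set.mem_toFinset, Set.mem_toFinset,
        Set.mem_toFinset] at hb hb'
      rw [Set.mem_toFinset] at hP hP'
      rw [hXX] at hb hb'
      simp only [Prod.mk.injEq] at h h' hb hb'
      obtain ⟨h', h''⟩ := h'
      subst h'
      obtain ⟨h3, h4, h5⟩ := key2 hE hP.1.1.1 hP'.1.1.1 (hA P hP) (hA P' hP') hb.2.1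
        hb.2.2.1.1 (fun h => hb.2.2.1.2 h.symm) hb'.2.1 hb'.2.2.1.1
        (fun h => hb'.2.2.1.2 h.symm) hb.1.1 hb'.1.1 h h''
      subst h4
      subst h5
      exact ⟨h3, rfl⟩)
  rw [← Set.ncard_eq_toFinset_card', ← Set.ncard_eq_toFinset_card'] at hmain
  have h5 : {I : Set (Fin n) | I.ncard = s + 1 ∧ (QQ M I).ncard ≤ q}.ncard ≤
      n.choose (s + 1) := by
    rw [← card_sets n (s + 1)]
    exact Set.ncard_le_ncard (fun I hI => hI.1) (Set.toFinite _)
  calc (s + 2) * (s + 1) * n * _ ≤ 4 * (2 * q * _) := hmain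
    _ ≤ 4 * (2 * q * n.choose (s + 1)) := Nat.mul_le_mul_left _ (Nat.mul_le_mul_left _ h5)
    _ = 8 * q * n.choose (s + 1) := by ring

end Pool.F3LT
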