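import Pool.Agent.Work.MP_f3d170_lt.Interface2
import Mathlib.Analysis.SpecificLimits.Normed

/-!
# Block NUA2 (helper63)
-/

set_option autoImplicit false

open Nat
open Pool.Agent.Work.MP_f3d170_co_helper44

namespace Pool.F3LT

theorem NUA2_exp (A d : ℕ) : ∃ l0, ∀ l, l0 ≤ l → A * l ^ d ≤ 2 ^ l := by
  have h := tendsto_pow_const_div_const_pow_of_one_lt d (r := (2 : ℝ)) (by norm_num)
  have h2 : ∀ᶠ n : ℕ in Filter.atTop, (n : ℝ) ^ d / 2 ^ n < 1 / (A + 1) :=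
    h.eventually_lt_const (by positivity)
  obtain ⟨l0, hl0⟩ := Filter.eventually_atTop.1 h2
  refine ⟨l0, fun l hl => ?_⟩
  have h3 := hl0 l hl
  rw [div_lt_div_iff₀ (by positivity) (by positivity)] at h3
  have h4 : (A : ℝ) * (l : ℝ) ^ d ≤ 2 ^ l := by
    have : (0 : ℝ) ≤ (l : ℝ) ^ d := by positivity
    nlinarith
  exact_mod_cast h4

theorem NUA2_exp' (A d c : ℕ) (hc : 0 < c) : ∃ l0, ∀ l, l0 ≤ l → A * l ^ d ≤ 2 ^ (l / c) := by
  obtain ⟨l0, hl0⟩ := NUA2_exp (A * (2 * c) ^ d) d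
  refine ⟨c * (l0 + 1), fun l hl => ?_⟩
  have h1 : l0 + 1 ≤ l / c := (Nat.le_div_iff_mul_le hc).2 (by rw [mul_comm]; exact hl)
  have h2 : l ≤ 2 * c * (l / c) := by
    have h3 : l < c * (l / c + 1) := by
      have := Nat.lt_mul_div_succ l hc
      exact this
    have h4 : c * (l / c + 1) ≤ 2 * c * (l / c) := by
      have : c * 1 ≤ c * (l / c) := Nat.mul_le_mul_left _ (by omega)
      nlinarith
    omega
  calc A * l ^ d ≤ A * (2 * c * (l / c)) ^ d :=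
        Nat.mul_le_mul_left _ (Nat.pow_le_pow_left h2 d)
    _ = A * (2 * c) ^ d * (l / c) ^ d := by rw [mul_pow]; ring
    _ ≤ 2 ^ (l / c) := hl0 _ (by omega)

/-- Simple facts. -/
theorem NUA2_numA {k r n : ℕ} (h12 : 60 ≤ r) (hn : 200 * pH k * r ≤ n)
    (hmain : 48 * 10 ^ 4 * pH k * pL n ≤ r) : NumA k r n := by
  have hh : 12 ≤ pH k ∨ pH k = 6 := by unfold pH; omega
  have hh6 : 6 ≤ pH k := by omega
  have hL1 : 1 ≤ pL n := by unfold pL; omega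
  have h8 : 8 * r ≤ n :=
    le_trans (Nat.mul_le_mul_right _ (by omega)) hn
  have h3k : 3 * (k + 1) * r ≤ n :=
    le_trans (Nat.mul_le_mul_right _ (by unfold pH; omega)) hn
  have hc : r ≤ 2 * (r / 2 + 2) := by omega
  have hn2 : n < 2 ^ pL n := by
    unfold pL
    exact Nat.lt_pow_succ_log_self (by norm_num) n
  refine ⟨h8, h3k, by omega, ?_, ?_, ?_, ?_, ?_, ?_⟩
  · -- lam3
    have e1 : 6 * (r / 2 + 4).choose 3 = (r / 2 + 4) * (r / 2 + 3) * (r / 2 + 2) := by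
      have e2 := Nat.descFactorial_eq_factorial_mul_choose (r / 2 + 4) 3
      have e3 : (r / 2 + 4).descFactorial 3 = (r / 2 + 4) * (r / 2 + 3) * (r / 2 + 2) := by
        simp only [Nat.descFactorial_succ, Nat.descFactorial_zero]
        have e4 : r / 2 + 4 - 2 = r / 2 + 2 := by omega
        have e5 : r / 2 + 4 - 1 = r / 2 + 3 := by omega
        rw [e4, e5]
        simp
        ring
      rw [e3] at e2
      have e6 : Nat.factorial 3 = 6 := rfl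
      rw [e6] at e2
      exact e2.symm
    have e2 : r ^ 3 ≤ 8 * (r / 2 + 2) ^ 3 := by
      calc r ^ 3 ≤ (2 * (r / 2 + 2)) ^ 3 := Nat.pow_le_pow_left hc 3
        _ = 8 * (r / 2 + 2) ^ 3 := by ring
    have e3 : (r / 2 + 2) ^ 3 ≤ (r / 2 + 4) * (r / 2 + 3) * (r / 2 + 2) := by
      calc (r / 2 + 2) ^ 3 = (r / 2 + 2) * (r / 2 + 2) * (r / 2 + 2) := by ring
        _ ≤ (r / 2 + 4) * (r / 2 + 3) * (r / 2 + 2) :=
          Nat.mul_le_mul_right _ (Nat.mul_le_mul (by omega) (by omega))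
    have e4 : r ^ 3 ≤ 48 * (r / 2 + 4).choose 3 := by
      calc r ^ 3 ≤ 8 * (r / 2 + 2) ^ 3 := e2
        _ ≤ 8 * ((r / 2 + 4) * (r / 2 + 3) * (r / 2 + 2)) := Nat.mul_le_mul_left _ e3
        _ = 48 * (r / 2 + 4).choose 3 := by rw [← e1]; ring
    have e5 : 48 * pLam k r n ≤ r ^ 3 := by
      unfold pLam
      calc 48 * (10 ^ 4 * pH k * r ^ 2 * pL n) = (48 * 10 ^ 4 * pH k * pL n) * r ^ 2 := by ring
        _ ≤ r * r ^ 2 := Nat.mul_le_mul_right _ hmain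
        _ = r ^ 3 := by ring
    have e6 := e5.trans e4
    exact Nat.le_of_mul_le_mul_left e6 (by norm_num)
  · -- lam2
    have e1 : 10 ^ 4 * pH k * pL n ≤ n := by
      calc 10 ^ 4 * pH k * pL n ≤ 48 * 10 ^ 4 * pH k * pL n :=
            Nat.mul_le_mul_right _ (Nat.mul_le_mul_right _ (by norm_num))
        _ ≤ r := hmain
        _ ≤ n := by omega
    have e2 : pLam k r n ≤ n ^ 3 := by
      unfold pLam
      calc 10 ^ 4 * pH k * r ^ 2 * pL n = (10 ^ 4 * pH k * pL n) * r ^ 2 := by ring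
        _ ≤ n * n ^ 2 := Nat.mul_le_mul e1 (Nat.pow_le_pow_left (by omega) 2)
        _ = n ^ 3 := by ring
    calc pLam k r n ≤ n ^ 3 := e2
      _ ≤ (2 ^ pL n) ^ 3 := Nat.pow_le_pow_left hn2.le 3
      _ = 2 ^ (3 * pL n) := by rw [← pow_mul]; congr 1; ring
  · -- h60
    have e1 : 120 * pL n ≤ r := by
      calc 120 * pL n ≤ 48 * 10 ^ 4 * pH k * pL n := by
            apply Nat.mul_le_mul_right
            have : 48 * 10 ^ 4 * 6 ≤ 48 * 10 ^ 4 * pH k := Nat.mul_le_mul_left _ hh6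
            omega
        _ ≤ r := hmain
    omega
  · -- lamm
    have e1 : r ^ 2 ≤ 4 * (r / 2 + 2) ^ 2 := by
      calc r ^ 2 ≤ (2 * (r / 2 + 2)) ^ 2 := Nat.pow_le_pow_left hc 2
        _ = 4 * (r / 2 + 2) ^ 2 := by ring
    have e2 : 2 * (pm k n).choose 2 = pm k n * (pm k n - 1) := by
      rw [Nat.choose_two_right, Nat.mul_div_cancel' (Nat.even_mul_pred_self _).two_dvd]
    have e3 : 2 ≤ pm k n := by
      unfold pm
      have e4 : 1 ≤ pH k * pL n := Nat.mul_pos (by omega) hL1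
      have e5 : 9 * 10 ^ 5 * (pH k * pL n) = 9 * 10 ^ 5 * pH k * pL n := by ring
      rw [← e5]
      omega
    have e4 : pm k n ≤ 2 * (pm k n).choose 2 := by
      rw [e2]
      exact Nat.le_mul_of_pos_right _ (by omega)
    have e5 : 2 * (5 * 10 ^ 4 * pH k * pL n) * 4 ≤ pm k n := by
      unfold pm
      calc 2 * (5 * 10 ^ 4 * pH k * pL n) * 4 = 40 * 10 ^ 4 * (pH k * pL n) := by ring
        _ ≤ 9 * 10 ^ 5 * (pH k * pL n) := Nat.mul_le_mul_right _ (by norm_num)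
        _ = 9 * 10 ^ 5 * pH k * pL n := by ring
    have e6 : 2 * 4 * (5 * pLam k r n) ≤ 2 * 4 * ((r / 2 + 2) ^ 2 * (pm k n).choose 2) := by
      unfold pLam
      calc 2 * 4 * (5 * (10 ^ 4 * pH k * r ^ 2 * pL n)) =
          (2 * (5 * 10 ^ 4 * pH k * pL n) * 4) * r ^ 2 := by ring
        _ ≤ (2 * (pm k n).choose 2) * (4 * (r / 2 + 2) ^ 2) := Nat.mul_le_mul (e5.trans e4) e1
        _ = 2 * 4 * ((r / 2 + 2) ^ 2 * (pm k n).choose 2) := by ring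
    exact Nat.le_of_mul_le_mul_left e6 (by norm_num)
  · -- hLs
    unfold pLs
    rw [Nat.one_le_div_iff (Nat.factorial_pos _)]
    calc 30 ! ≤ 30 ^ 30 := Nat.factorial_le_pow 30
      _ ≤ (r / 2 + 1) ^ 30 := Nat.pow_le_pow_left (by omega) 30
  · -- hn2
    have e1 : (r + 1) * pH k ≤ 4 * n := by
      calc (r + 1) * pH k ≤ (2 * r) * pH k := Nat.mul_le_mul_right _ (by omega)
        _ = 4 * (3 * (k + 1) * r) := by unfold pH; ring
        _ ≤ 4 * n := Nat.mul_le_mul_left _ h3k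
    calc (r + 1) * pH k ≤ 4 * n := e1
      _ ≤ n * n := Nat.mul_le_mul_right _ (by omega)
      _ = n ^ 2 := by ring

theorem NUA2_choose {l : ℕ} (hl : 56 ≤ l) {A : ℕ}
    (h : A * (2 ^ 7 * 5040) ≤ 2 ^ (l / 4)) : A * 2 ^ (2 * l) ≤ (2 ^ (l / 3)).choose 7 := by
  set K : ℕ := 2 ^ (l / 3) with hK
  have hK12 : 12 ≤ K := by
    have : 2 ^ 4 ≤ K := Nat.pow_le_pow_right (by norm_num) (by omega)
    omega
  have h1 : (K + 1 - 7) ^ 7 ≤ 7 ! * K.choose 7 := by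
    have := Nat.pow_le_choose 7 K (α := ℚ)
    have h2 : ((K + 1 - 7 : ℕ) : ℚ) ^ 7 ≤ (7 ! : ℕ) * (K.choose 7 : ℕ) := by
      rw [div_le_iff₀ (by positivity)] at this
      linarith
    exact_mod_cast h2
  have h2 : K ≤ 2 * (K + 1 - 7) := by omega
  have h3 : K ^ 7 ≤ 2 ^ 7 * (5040 * K.choose 7) := by
    calc K ^ 7 ≤ (2 * (K + 1 - 7)) ^ 7 := Nat.pow_le_pow_left h2 7
      _ = 2 ^ 7 * (K + 1 - 7) ^ 7 := by rw [mul_pow]
      _ ≤ 2 ^ 7 * (7 ! * K.choose 7) := Nat.mul_le_mul_left _ h1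
      _ = 2 ^ 7 * (5040 * K.choose 7) := by
          have : 7 ! = 5040 := by decide
          rw [this]
  have h4 : 2 ^ (2 * l) * 2 ^ (l / 4) ≤ K ^ 7 := by
    rw [hK, ← pow_mul, ← pow_add]
    exact Nat.pow_le_pow_right (by norm_num) (by omega)
  have h5 : (2 ^ 7 * 5040) * (A * 2 ^ (2 * l)) ≤ (2 ^ 7 * 5040) * K.choose 7 := by
    calc (2 ^ 7 * 5040) * (A * 2 ^ (2 * l)) = 2 ^ (2 * l) * (A * (2 ^ 7 * 5040)) := by ring
      _ ≤ 2 ^ (2 * l) * 2 ^ (l / 4) := Nat.mul_le_mul_left _ h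
      _ ≤ K ^ 7 := h4
      _ ≤ 2 ^ 7 * (5040 * K.choose 7) := h3
      _ = (2 ^ 7 * 5040) * K.choose 7 := by ring
  exact Nat.le_of_mul_le_mul_left h5 (by norm_num)

theorem NUA2_numB {k C₁ r n l : ℕ} (hl : l = pl r) (h60 : 60 ≤ l)
    (hl0 : 40 * C₁ ≤ l) (hl1 : 9 + 27 * 10 ^ 5 * pH k ≤ l)
    (hn : 200 * pH k * r ≤ n) (hn1 : n ≤ C₁ * r * pl r ^ 3)
    (hlo : 2 ^ l ≤ r) (hup : r < 2 ^ (l + 1)) (hL : pL n ≤ 3 * l)
    (hp6 : 2 * l ^ 6 ≤ 2 ^ (l / 3)) (hp5 : l ^ 5 ≤ 2 ^ l)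
    (hp7 : 12 * 10 ^ 4 * pH k * l ^ 7 * (2 ^ 7 * 5040) ≤ 2 ^ (l / 4)) : NumB k r n := by
  have hh6 : 6 ≤ pH k := by unfold pH; omega
  have hr1 : 1 ≤ r := le_trans Nat.one_le_two_pow hlo
  have hq : 3 * pL n + pm k n ≤ l ^ 2 := by
    calc 3 * pL n + pm k n = (3 + 9 * 10 ^ 5 * pH k) * pL n := by unfold pm; ring
      _ ≤ (3 + 9 * 10 ^ 5 * pH k) * (3 * l) := Nat.mul_le_mul_left _ hL
      _ = (9 + 27 * 10 ^ 5 * pH k) * l := by ring
      _ ≤ l * l := Nat.mul_le_mul_right _ hl1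
      _ = l ^ 2 := by ring
  rw [← hl] at hn1
  refine ⟨?_, ?_, ?_, ?_, ?_, ?_, ?_, ?_, ?_, ?_⟩
  · -- hfl
    unfold pe
    rw [← hl]
    calc 4 * (3 * pL n + 1) * n ≤ 4 * (3 * (3 * l) + 1) * (C₁ * r * l ^ 3) := by
          apply Nat.mul_le_mul _ hn1
          apply Nat.mul_le_mul_left
          have := Nat.mul_le_mul_left 3 hL
          omega
      _ ≤ (40 * l) * (C₁ * r * l ^ 3) := Nat.mul_le_mul_right _ (by omega)
      _ = (40 * C₁) * (l ^ 4 * r) := by ring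
      _ ≤ l * (l ^ 4 * r) := Nat.mul_le_mul_right _ hl0
      _ = 1 * (l ^ 5 * r) := by ring
      _ ≤ l * (l ^ 5 * r) := Nat.mul_le_mul_right _ (by omega)
      _ = l ^ 6 * r := by ring
  · rw [← hl]; exact hq
  · unfold pE pe
    rw [← hl]
    have h1 : 1 ≤ l ^ 12 := Nat.one_le_pow _ _ (by omega)
    calc ((l ^ 6) ^ 2 + 1) * (4 * (3 * pL n + pm k n))
        ≤ (2 * l ^ 12) * (4 * l ^ 2) := by
          apply Nat.mul_le_mul
          · have : (l ^ 6) ^ 2 = l ^ 12 := by ring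
            rw [this]; omega
          · exact Nat.mul_le_mul_left _ hq
      _ = 8 * l ^ 14 := by ring
      _ ≤ l * l ^ 14 := Nat.mul_le_mul_right _ (by omega)
      _ = l ^ 15 := by ring
  · unfold ps
    rw [← hl]
    exact Nat.one_le_pow _ _ (by omega)
  · unfold pe pK
    rw [← hl]
    exact hp6
  · unfold pe pK pLam
    rw [← hl]
    have h1 : r ^ 2 ≤ 4 * 2 ^ (2 * l) := by
      calc r ^ 2 ≤ (2 ^ (l + 1)) ^ 2 := Nat.pow_le_pow_left hup.le 2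
        _ = 4 * 2 ^ (2 * l) := by ring
    refine le_trans ?_ (NUA2_choose (by omega) hp7)
    calc l ^ 6 * (10 ^ 4 * pH k * r ^ 2 * pL n)
        ≤ l ^ 6 * (10 ^ 4 * pH k * (4 * 2 ^ (2 * l)) * (3 * l)) := by
          apply Nat.mul_le_mul_left
          exact Nat.mul_le_mul (Nat.mul_le_mul_left _ h1) hL
      _ = (12 * 10 ^ 4 * pH k * l ^ 7) * 2 ^ (2 * l) := by ring
  · unfold pK
    rw [← hl]
    have h1 : 2 * 2 ^ (l / 3) ≤ 2 ^ (l - 1) := by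
      calc 2 * 2 ^ (l / 3) = 2 ^ (l / 3 + 1) := by ring
        _ ≤ 2 ^ (l - 1) := Nat.pow_le_pow_right (by norm_num) (by omega)
    have h2 : 2 * 2 ^ (l - 1) = 2 ^ l := by
      rw [mul_comm, ← pow_succ]
      congr 1
      omega
    have h3 : 1 ≤ 2 ^ (l - 1) := Nat.one_le_two_pow
    omega
  · unfold pL
    have h1 : 2 ≤ n := by
      have : 200 * 6 * 1 ≤ 200 * pH k * r := Nat.mul_le_mul (Nat.mul_le_mul_left _ hh6) hr1
      omega
    have h2 : 1 ≤ Nat.log 2 n := Nat.le_log_of_pow_le (by norm_num) (by simpa using h1)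
    omega
  · rw [← hl]
    have h1 : 1 * r ≤ 200 * pH k * r := Nat.mul_le_mul_right _ (by omega)
    omega
  · have h1 : 20 * r ≤ 200 * pH k * r := Nat.mul_le_mul_right _ (by omega)
    omega

theorem p_NUA2 : Stmt_NUA2 := by
  intro k hk C₁
  obtain ⟨a1, ha1⟩ := NUA2_exp C₁ 3
  obtain ⟨a2, ha2⟩ := NUA2_exp (48 * 10 ^ 4 * pH k * 3) 1
  obtain ⟨a3, ha3⟩ := NUA2_exp' 2 6 3 (by norm_num)
  obtain ⟨a4, ha4⟩ := NUA2_exp 1 5
  obtain ⟨a5, ha5⟩ := NUA2_exp' (12 * 10 ^ 4 * pH k * (2 ^ 7 * 5040)) 7 4 (by norm_num)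
  obtain ⟨M, hM⟩ : ∃ M, M = a1 + a2 + a3 + a4 + a5 + 60 + 40 * C₁ +
    (9 + 27 * 10 ^ 5 * pH k) := ⟨_, rfl⟩
  refine ⟨2 ^ M, ?_⟩
  rintro r n ⟨h1, h2, h3⟩
  obtain ⟨l, hl⟩ : ∃ l, l = pl r := ⟨_, rfl⟩
  have hr0 : r ≠ 0 := by
    have : 1 ≤ 2 ^ M := Nat.one_le_two_pow
    omega
  have hlM : M ≤ l := by
    rw [hl]
    exact Nat.le_log_of_pow_le (by norm_num) h1
  have hlo : 2 ^ l ≤ r := by
    rw [hl]
    exact Nat.pow_log_le_self 2 hr0
  have hup : r < 2 ^ (l + 1) := by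
    rw [hl]
    exact Nat.lt_pow_succ_log_self (by norm_num) r
  have hn0 : n ≠ 0 := by
    have : 0 < 200 * pH k * r := by
      have : 0 < pH k := by unfold pH; omega
      positivity
    omega
  have hnup : n < 2 ^ (3 * l) := by
    have e1 := ha1 l (by omega)
    calc n ≤ C₁ * r * pl r ^ 3 := h3
      _ = (C₁ * l ^ 3) * r := by rw [← hl]; ring
      _ ≤ 2 ^ l * r := Nat.mul_le_mul_right _ e1
      _ < 2 ^ l * 2 ^ (l + 1) := Nat.mul_lt_mul_of_pos_left hup (by positivity)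
      _ = 2 ^ (2 * l + 1) := by ring
      _ ≤ 2 ^ (3 * l) := Nat.pow_le_pow_right (by norm_num) (by omega)
  have hL : pL n ≤ 3 * l := by
    unfold pL
    exact Nat.log_lt_of_lt_pow hn0 hnup
  constructor
  · apply NUA2_numA _ h2
    · have e1 := ha2 l (by omega)
      calc 48 * 10 ^ 4 * pH k * pL n ≤ 48 * 10 ^ 4 * pH k * (3 * l) :=
            Nat.mul_le_mul_left _ hL
        _ = 48 * 10 ^ 4 * pH k * 3 * l ^ 1 := by ring
        _ ≤ 2 ^ l := e1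
        _ ≤ r := hlo
    · have e1 : l < 2 ^ l := Nat.lt_two_pow_self
      omega
  · refine NUA2_numB hl (by omega) (by omega) (by omega) h2 h3 hlo hup hL
      (ha3 l (by omega)) ?_ ?_
    · have e1 := ha4 l (by omega)
      simpa using e1
    · have e1 := ha5 l (by omega)
      calc 12 * 10 ^ 4 * pH k * l ^ 7 * (2 ^ 7 * 5040)
          = 12 * 10 ^ 4 * pH k * (2 ^ 7 * 5040) * l ^ 7 := by ring
        _ ≤ 2 ^ (l / 4) := e1

end Pool.F3LT
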