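import Pool.Agent.Work.MP_f3d170_lt.Interface2

set_option autoImplicit false

/-! # MP_f3d170_co, LINEAR upper threshold, block NUF2 (first pass) -/

open Nat
open Pool.Agent.Work.MP_f3d170_co_helper44

namespace Pool.F3LT

namespace X_NUF2

open h13

/-- `P r n` holds in the range for large `r`. -/
def Ev (k C₁ : ℕ) (P : ℕ → ℕ → Prop) : Prop := ∃ R, ∀ r n, Rg2 k C₁ R r n → P r n

lemma Rg2_mono {k C₁ R R' r n : ℕ} (h : Rg2 k C₁ R r n) (hR : R' ≤ R) : Rg2 k C₁ R' r n :=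
  ⟨hR.trans h.1, h.2⟩

lemma Ev_and {k C₁ : ℕ} {P Q : ℕ → ℕ → Prop} (hP : Ev k C₁ P) (hQ : Ev k C₁ Q) :
    Ev k C₁ (fun r n => P r n ∧ Q r n) := by
  obtain ⟨C, hC⟩ := hP
  obtain ⟨D, hD⟩ := hQ
  exact ⟨max C D, fun r n h =>
    ⟨hC r n (Rg2_mono h (le_max_left _ _)), hD r n (Rg2_mono h (le_max_right _ _))⟩⟩

lemma ev_r (k C₁ D : ℕ) : Ev k C₁ (fun r _ => D ≤ r) := ⟨D, fun _ _ h => h.1⟩

lemma up {k C₁ R r n : ℕ} (h : Rg2 k C₁ R r n) (hr : 1 ≤ r) : n ≤ (2 * r * (C₁ + 1)) ^ 24 := by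
  have h1 := h.2.2
  have h2 : pl r ≤ r := Nat.log_le_self 2 r
  calc n ≤ C₁ * r * pl r ^ 3 := h1
    _ ≤ (C₁ + 1) * r * r ^ 3 := by gcongr; omega
    _ = (C₁ + 1) * (r ^ 4) := by ring
    _ ≤ (C₁ + 1) ^ 4 * (2 * r) ^ 4 := by
        apply Nat.mul_le_mul
        · exact Nat.le_self_pow (by norm_num) _
        · exact Nat.pow_le_pow_left (by omega) 4
    _ = (2 * r * (C₁ + 1)) ^ 4 := by rw [← mul_pow]; ring
    _ ≤ (2 * r * (C₁ + 1)) ^ 24 :=
        Nat.pow_le_pow_right (by positivity) (by norm_num)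

lemma ev_poly (k C₁ D p : ℕ) : Ev k C₁ (fun r n => D * pL n ^ p ≤ r) := by
  obtain ⟨N, hN⟩ := log_poly (D * (24 * (C₁ + 4)) ^ p) p
  refine ⟨max 2 (2 ^ N), fun r n h => ?_⟩
  have hr2 : 2 ≤ r := (le_max_left _ _).trans h.1
  have hrN : 2 ^ N ≤ r := (le_max_right _ _).trans h.1
  have h1 := L_le hr2 (up h (by omega))
  have h2 : N ≤ Nat.log 2 r := (Nat.le_log_iff_pow_le (by norm_num) (by omega)).2 hrN
  calc D * pL n ^ p ≤ D * (24 * (C₁ + 4) * Nat.log 2 r) ^ p := by gcongr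
    _ = D * (24 * (C₁ + 4)) ^ p * Nat.log 2 r ^ p := by rw [mul_pow]; ring
    _ ≤ 2 ^ Nat.log 2 r := hN _ h2
    _ ≤ r := Nat.pow_log_le_self 2 (by omega)

/-- The numerical facts. -/
structure SFact (k r n : ℕ) : Prop where
  hr : 12 ≤ r
  h3r : 3 * r ≤ n
  hh : 2 * pH k ≤ r
  hLn : 30 * pL n + 2 ≤ n
  hLam : pLam k r n ≤ 2 ^ (3 * pL n)
  hLs : 640 * n * r ≤ pLs r
  h2 : 320 * (pL n + 4) * r ≤ 2 ^ (r - 1 - r / 2)
  h6 : 31027200 * r ≤ n ^ 2

lemma ev_SFact (k C₁ : ℕ) (hk : 1 ≤ k) : Ev k C₁ (SFact k) := by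
  obtain ⟨N, hN⟩ := s_c k
  have E : Ev k C₁ (fun r n => 13000 ≤ r ∧ N ≤ r ∧ 2 * pH k ≤ r ∧
      10 ^ 4 * pH k * pL n ^ 1 ≤ r ∧ 640 * (2 * (C₁ + 1)) ^ 24 * 30 ! * 2 ^ 30 ≤ r ∧
      1 * pL n ^ 1 ≤ r ∧ Rg2 k C₁ 1 r n) :=
    Ev_and (ev_r k C₁ _) (Ev_and (ev_r k C₁ _) (Ev_and (ev_r k C₁ _) (Ev_and (ev_poly k C₁ _ _)
      (Ev_and (ev_r k C₁ _) (Ev_and (ev_poly k C₁ _ _) ⟨1, fun _ _ h => h⟩)))))
  obtain ⟨C, hC⟩ := E
  refine ⟨C, fun r n hR => ?_⟩
  obtain ⟨hr, hrN, hh, hL1, hrc, hLr, hRg⟩ := hC r n hR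
  have hL := one_le_L n
  have hnL := lt_L n
  rw [pow_one] at hL1 hLr
  rw [one_mul] at hLr
  have hup := up hRg (by omega)
  have hh12 : 12 ≤ pH k := by unfold pH; omega
  have hn : 2400 * r ≤ n := by
    calc 2400 * r = 200 * 12 * r := by ring
      _ ≤ 200 * pH k * r := by gcongr
      _ ≤ n := hRg.2.1
  refine ⟨by omega, by omega, hh, by omega, ?_, ?_, ?_, ?_⟩
  · unfold pLam
    have e1 : r ≤ 2 ^ pL n := by omega
    calc 10 ^ 4 * pH k * r ^ 2 * pL n = (10 ^ 4 * pH k * pL n) * r ^ 2 := by ring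
      _ ≤ 2 ^ pL n * (2 ^ pL n) ^ 2 :=
          Nat.mul_le_mul (hL1.trans e1) (Nat.pow_le_pow_left e1 2)
      _ = 2 ^ (3 * pL n) := by rw [← pow_succ', ← pow_mul, mul_comm]
  · unfold pLs
    rw [Nat.le_div_iff_mul_le (Nat.factorial_pos 30)]
    have e1 : r ≤ 2 * (r / 2 + 1) := by omega
    have e2 : 2 ^ 30 * (640 * n * r * 30 !) ≤ 2 ^ 30 * (r / 2 + 1) ^ 30 := by
      calc 2 ^ 30 * (640 * n * r * 30 !)
          ≤ 2 ^ 30 * (640 * (2 * r * (C₁ + 1)) ^ 24 * r * 30 !) := by gcongr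
        _ = (640 * (2 * (C₁ + 1)) ^ 24 * 30 ! * 2 ^ 30) * r ^ 25 := by
            generalize 30 ! = F
            ring
        _ ≤ r * r ^ 25 := Nat.mul_le_mul_right _ hrc
        _ = r ^ 26 := by ring
        _ ≤ r ^ 30 := Nat.pow_le_pow_right (by omega) (by norm_num)
        _ ≤ (2 * (r / 2 + 1)) ^ 30 := Nat.pow_le_pow_left e1 30
        _ = 2 ^ 30 * (r / 2 + 1) ^ 30 := by rw [mul_pow]
    exact Nat.le_of_mul_le_mul_left e2 (by positivity)
  · calc 320 * (pL n + 4) * r ≤ 320 * (5 * r) * r := by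
          gcongr
          omega
      _ = 400 * 4 * r ^ 2 * 1 := by ring
      _ ≤ 400 * pH k * r ^ 2 * r := by
          gcongr <;> omega
      _ = 400 * pH k * r ^ 3 := by ring
      _ ≤ _ := hN r hrN
  · have e1 : 13000 ≤ n := by omega
    calc 31027200 * r ≤ 2400 * r * 13000 := by omega
      _ ≤ n * n := Nat.mul_le_mul hn e1
      _ = n ^ 2 := by ring

lemma core {h n r L N Y W X Λ Λs A1 A2 m1 c' B : ℕ}
    (hr : 12 ≤ r) (hL : 1 ≤ L) (hh : 2 * h ≤ r) (hrn : 3 * r ≤ n) (hLn : L ≤ n)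
    (hLam : Λ = 10 ^ 4 * h * r ^ 2 * L) (hh0 : 0 < h)
    (hLs : 640 * n * r ≤ Λs)
    (h2 : 320 * (L + 4) * r ≤ 2 ^ c')
    (h6 : 31027200 * r ≤ n ^ 2)
    (hY : Y * n ≤ 2 * r * N) (hW : 2 ^ c' * W ≤ Y) (hX : X ≤ 2 * W)
    (hA1 : Λ * A1 ≤ 2 * Y) (hA2 : Λs * A2 ≤ 2 * Y)
    (hB : 300 * n * B ≤ 2 * N + 300 * n ^ 3 * m1)
    (hm1 : m1 ≤ r) (hN5 : n ^ 5 ≤ 3840 * N) :
    (2 * h + n * L + (L + 4) * (X + 1 + 2 * n + 2) +
      (35 * L * (A1 + m1) + 2 * n * (A2 + m1)) + B) * (8 * n) ≤ N := by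
  have hn1 : 1 ≤ n := by omega
  have hLam0 : 0 < Λ := by rw [hLam]; positivity
  have hLs0 : 0 < Λs := lt_of_lt_of_le (by positivity) hLs
  have t1 : 10 * (8 * n * (35 * L * A1)) ≤ N := by
    have e : Λ * (10 * (8 * n * (35 * L * A1))) ≤ Λ * N := by
      calc Λ * (10 * (8 * n * (35 * L * A1))) = 2800 * L * n * (Λ * A1) := by ring
        _ ≤ 2800 * L * n * (2 * Y) := Nat.mul_le_mul_left _ hA1
        _ = 5600 * L * (Y * n) := by ring
        _ ≤ 5600 * L * (2 * r * N) := Nat.mul_le_mul_left _ hY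
        _ = (11200 * (r * L)) * N := by ring
        _ ≤ (20000 * (r * L)) * N := by gcongr; norm_num
        _ = (10 ^ 4 * 1 * (2 * r) * L) * N := by ring
        _ ≤ Λ * N := by
            rw [hLam]
            have e3 : 2 * r ≤ r ^ 2 := by nlinarith
            gcongr
            omega
    exact Nat.le_of_mul_le_mul_left e hLam0
  have t2 : 10 * (8 * n * (2 * n * A2)) ≤ N := by
    have e : Λs * (10 * (8 * n * (2 * n * A2))) ≤ Λs * N := by
      calc Λs * (10 * (8 * n * (2 * n * A2))) = 160 * n ^ 2 * (Λs * A2) := by ring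
        _ ≤ 160 * n ^ 2 * (2 * Y) := Nat.mul_le_mul_left _ hA2
        _ = 320 * n * (Y * n) := by ring
        _ ≤ 320 * n * (2 * r * N) := Nat.mul_le_mul_left _ hY
        _ = (640 * n * r) * N := by ring
        _ ≤ Λs * N := Nat.mul_le_mul_right _ hLs
    exact Nat.le_of_mul_le_mul_left e hLs0
  have t4 : 10 * (8 * n * ((L + 4) * X)) ≤ N := by
    have e : 2 ^ c' * (10 * (8 * n * ((L + 4) * X))) ≤ 2 ^ c' * N := by
      calc 2 ^ c' * (10 * (8 * n * ((L + 4) * X)))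
          ≤ 2 ^ c' * (10 * (8 * n * ((L + 4) * (2 * W)))) := by gcongr
        _ = 160 * n * (L + 4) * (2 ^ c' * W) := by ring
        _ ≤ 160 * n * (L + 4) * Y := Nat.mul_le_mul_left _ hW
        _ = 160 * (L + 4) * (Y * n) := by ring
        _ ≤ 160 * (L + 4) * (2 * r * N) := Nat.mul_le_mul_left _ hY
        _ = (320 * (L + 4) * r) * N := by ring
        _ ≤ 2 ^ c' * N := Nat.mul_le_mul_right _ h2
    exact Nat.le_of_mul_le_mul_left e (by positivity)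
  have hvb : 8080 * n ^ 3 * r ≤ N := by
    have e : 3840 * (8080 * n ^ 3 * r) ≤ 3840 * N := by
      calc 3840 * (8080 * n ^ 3 * r) = n ^ 3 * (31027200 * r) := by ring
        _ ≤ n ^ 3 * n ^ 2 := Nat.mul_le_mul_left _ h6
        _ = n ^ 5 := by ring
        _ ≤ 3840 * N := hN5
    exact Nat.le_of_mul_le_mul_left e (by norm_num)
  have f0 : n * r * L ≤ n ^ 2 * r := by
    calc n * r * L ≤ n * r * n := by gcongr
      _ = n ^ 2 * r := by ring
  have e0 : 2 * h + n * L + (L + 4) * (1 + 2 * n + 2) + 35 * L * m1 + 2 * n * m1 ≤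
      100 * (n * r * L) := by
    have f1 : n ≤ n * r * L := by
      calc n = n * 1 * 1 := by ring
        _ ≤ n * r * L := by gcongr; omega
    have f2 : n * L ≤ n * r * L := by
      calc n * L = n * 1 * L := by ring
        _ ≤ n * r * L := by gcongr; omega
    have f3 : (L + 4) * (1 + 2 * n + 2) ≤ 25 * (n * L) := by
      have g1 : (L + 4) ≤ 5 * L := by omega
      have g2 : 1 + 2 * n + 2 ≤ 5 * n := by omega
      calc (L + 4) * (1 + 2 * n + 2) ≤ 5 * L * (5 * n) := Nat.mul_le_mul g1 g2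
        _ = _ := by ring
    have f4 : 35 * L * m1 ≤ 35 * (n * r * L) := by
      calc 35 * L * m1 ≤ 35 * L * r := by gcongr
        _ = 35 * (1 * r * L) := by ring
        _ ≤ 35 * (n * r * L) := by gcongr
    have f5 : 2 * n * m1 ≤ 2 * (n * r * L) := by
      calc 2 * n * m1 ≤ 2 * n * r := by gcongr
        _ = 2 * (n * r * 1) := by ring
        _ ≤ 2 * (n * r * L) := by gcongr
    omega
  have t5 : 10 * (8 * n * (2 * h + n * L + (L + 4) * (1 + 2 * n + 2) + 35 * L * m1 +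
      2 * n * m1)) ≤ 8000 * (n ^ 3 * r) := by
    calc 10 * (8 * n * (2 * h + n * L + (L + 4) * (1 + 2 * n + 2) + 35 * L * m1 + 2 * n * m1))
        ≤ 10 * (8 * n * (100 * (n ^ 2 * r))) := by
          have := e0.trans (Nat.mul_le_mul_left 100 f0)
          gcongr
      _ = 8000 * (n ^ 3 * r) := by ring
  have t6 : 300 * (8 * n * B) ≤ 16 * N + 2400 * (n ^ 3 * r) := by
    calc 300 * (8 * n * B) = 8 * (300 * n * B) := by ring
      _ ≤ 8 * (2 * N + 300 * n ^ 3 * m1) := Nat.mul_le_mul_left _ hB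
      _ ≤ 8 * (2 * N + 300 * n ^ 3 * r) := by gcongr
      _ = 16 * N + 2400 * (n ^ 3 * r) := by ring
  have hvb' : 8080 * (n ^ 3 * r) ≤ N := by rw [← mul_assoc]; exact hvb
  have e : (2 * h + n * L + (L + 4) * (X + 1 + 2 * n + 2) +
      (35 * L * (A1 + m1) + 2 * n * (A2 + m1)) + B) * (8 * n) =
      8 * n * (35 * L * A1) + 8 * n * (2 * n * A2) + 8 * n * ((L + 4) * X) +
      8 * n * (2 * h + n * L + (L + 4) * (1 + 2 * n + 2) + 35 * L * m1 + 2 * n * m1) +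
      8 * n * B := by ring
  rw [e]
  omega

/-- the sum of the bits of all steps -/
lemma sum_bits {n r c N : ℕ} (b : ℕ → ℕ)
    (hb : ∀ i, c + 1 ≤ i → i ≤ r - 2 →
      300 * n * 2 ^ (r - 2 - i) * b i ≤ N + 300 * n ^ 3 * 2 ^ (r - 2 - i)) :
    300 * n * ∑ i ∈ Finset.Icc (c + 1) (r - 2), b i ≤
      2 * N + 300 * n ^ 3 * (Finset.Icc (c + 1) (r - 2)).card := by
  have h1 : ∀ i ∈ Finset.Icc (c + 1) (r - 2), 300 * n * b i ≤
      N / 2 ^ (r - 2 - i) + 300 * n ^ 3 := by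
    intro i hi
    rw [Finset.mem_Icc] at hi
    have h2 := hb i hi.1 hi.2
    have h3 : (300 * n * b i - 300 * n ^ 3) * 2 ^ (r - 2 - i) ≤ N := by
      rw [Nat.sub_mul]
      have e1 : 300 * n * b i * 2 ^ (r - 2 - i) = 300 * n * 2 ^ (r - 2 - i) * b i := by ring
      rw [e1]
      omega
    have h4 := (Nat.le_div_iff_mul_le (by positivity)).2 h3
    omega
  have h5 : ∑ i ∈ Finset.Icc (c + 1) (r - 2), N / 2 ^ (r - 2 - i) ≤ 2 * N := by
    have h6 : ∑ i ∈ Finset.Icc (c + 1) (r - 2), N / 2 ^ (r - 2 - i) =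
        ∑ d ∈ (Finset.Icc (c + 1) (r - 2)).image (fun i => r - 2 - i), N / 2 ^ d := by
      rw [Finset.sum_image]
      intro x hx y hy hxy
      rw [Finset.mem_coe, Finset.mem_Icc] at hx hy
      have hxy' : r - 2 - x = r - 2 - y := hxy
      omega
    rw [h6]
    calc ∑ d ∈ (Finset.Icc (c + 1) (r - 2)).image (fun i => r - 2 - i), N / 2 ^ d
        ≤ ∑ d ∈ Finset.range (r + 1), N / 2 ^ d := by
          apply Finset.sum_le_sum_of_subset
          intro d hd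
          rw [Finset.mem_image] at hd
          obtain ⟨i, _, rfl⟩ := hd
          rw [Finset.mem_range]
          omega
      _ ≤ N * 2 / (2 - 1) := Nat.geom_sum_le (le_refl 2) N (r + 1)
      _ = 2 * N := by rw [Nat.div_one, mul_comm]
  calc 300 * n * ∑ i ∈ Finset.Icc (c + 1) (r - 2), b i
      = ∑ i ∈ Finset.Icc (c + 1) (r - 2), 300 * n * b i := by rw [Finset.mul_sum]
    _ ≤ ∑ i ∈ Finset.Icc (c + 1) (r - 2), (N / 2 ^ (r - 2 - i) + 300 * n ^ 3) :=
        Finset.sum_le_sum h1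
    _ = ∑ i ∈ Finset.Icc (c + 1) (r - 2), N / 2 ^ (r - 2 - i) +
        300 * n ^ 3 * (Finset.Icc (c + 1) (r - 2)).card := by
        rw [Finset.sum_add_distrib, Finset.sum_const, smul_eq_mul, mul_comm (Finset.card _)]
    _ ≤ _ := Nat.add_le_add_right h5 _

end X_NUF2

open X_NUF2 h13 in
/-- NUF2: first pass. -/
theorem p_NUF2 (hNBL : Stmt_NBL) : Stmt_NUF2 := by
  intro k hk C₁
  obtain ⟨C, hC⟩ := ev_SFact k C₁ hk
  obtain ⟨D, hD⟩ := hNBL k hk C₁
  refine ⟨max C D, fun r n hR => ?_⟩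
  have F := hC r n (Rg2_mono hR (le_max_left _ _))
  have hbit := hD r n (Rg2_mono hR (le_max_right _ _))
  have hL := one_le_L n
  have hnL := lt_L n
  have hr := F.hr
  have h3r := F.h3r
  set L := pL n with hLd
  set c := r / 2 with hc
  set Λ := pLam k r n with hΛ
  set Λs := pLs r with hΛs
  set h := pH k with hhd
  set N := n.choose r with hNd
  have hh0 : 0 < h := by rw [hhd]; unfold pH; omega
  -- the three sums
  set I := Finset.Icc (c + 1) (r - 2) with hI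
  set A1 := ∑ j ∈ I, n.choose j / Λ with hA1
  set A2 := ∑ j ∈ I, n.choose j / Λs with hA2
  set B := ∑ j ∈ I, bitL n j with hBd
  have hmono : n.choose (r - 2) ≤ n.choose (r - 1) := choose_mono' (by omega) (by omega)
  have hS : ∑ j ∈ I, n.choose j ≤ 2 * n.choose (r - 1) := by
    have := choose_sum_Icc (n := n) (a := c + 1) (m := r - 2) (by omega)
    rw [← hI] at this
    omega
  have bA1 : Λ * A1 ≤ 2 * n.choose (r - 1) := by
    rw [hA1, Finset.mul_sum]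
    refine le_trans (Finset.sum_le_sum fun j _ => ?_) hS
    exact Nat.mul_div_le _ _
  have bA2 : Λs * A2 ≤ 2 * n.choose (r - 1) := by
    rw [hA2, Finset.mul_sum]
    refine le_trans (Finset.sum_le_sum fun j _ => ?_) hS
    exact Nat.mul_div_le _ _
  have bB : 300 * n * B ≤ 2 * N + 300 * n ^ 3 * I.card := sum_bits (bitL n) hbit
  have hW : 2 ^ (r - 1 - c) * n.choose c ≤ n.choose (r - 1) := choose_pow (by omega) (by omega)
  have hX : 2 * n.choose c / (c + 1) ≤ 2 * n.choose c := Nat.div_le_self _ _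
  have hY := choose_pred (n := n) (r := r) (by omega) (by omega)
  have hN5 := choose_five (n := n) (r := r) (by omega) (by omega)
  have hLn := F.hLn
  rw [← hLd] at hLn
  have key := core (h := h) (n := n) (r := r) (L := L) (N := N) (Y := n.choose (r - 1))
    (W := n.choose c) (X := 2 * n.choose c / (c + 1)) (Λ := Λ) (Λs := Λs)
    (A1 := A1) (A2 := A2) (m1 := I.card) (c' := r - 1 - c) (B := B)
    hr hL F.hh h3r (by omega) rfl hh0 F.hLs F.h2 F.h6 hY hW hX bA1 bA2 bB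
    (by rw [hI, Nat.card_Icc]; omega) hN5
  have hle := (Nat.le_div_iff_mul_le (by omega : 0 < 8 * n)).2 key
  -- the bits
  have hLam2 : 3 * (Λ * n ^ 30) ≤ 2 ^ (35 * L) := by
    calc 3 * (Λ * n ^ 30) ≤ 2 ^ 2 * (2 ^ (3 * L) * (2 ^ L) ^ 30) := by
          have e1 := F.hLam
          gcongr
          norm_num
      _ = 2 ^ (2 + 33 * L) := by rw [← pow_mul, ← pow_add, ← pow_add]; congr 1; ring
      _ ≤ 2 ^ (35 * L) := Nat.pow_le_pow_right (by norm_num) (by omega)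
  have hLs2 : 3 * (Λs * 2 ^ n) ≤ 2 ^ (2 * n) := by
    have e1 : Λs ≤ 2 ^ (30 * L) := by
      calc Λs ≤ (r / 2 + 1) ^ 30 := Nat.div_le_self _ _
        _ ≤ (2 ^ L) ^ 30 := Nat.pow_le_pow_left (by omega) 30
        _ = 2 ^ (30 * L) := by rw [← pow_mul, mul_comm]
    calc 3 * (Λs * 2 ^ n) ≤ 2 ^ 2 * (2 ^ (30 * L) * 2 ^ n) := by
          gcongr
          norm_num
      _ = 2 ^ (2 + 30 * L + n) := by rw [← pow_add, ← pow_add]; congr 1; ring
      _ ≤ 2 ^ (2 * n) := Nat.pow_le_pow_right (by norm_num) (by omega)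
  have P1 : ∏ j ∈ I, LK n Λ Λs j ≤ 2 ^ (35 * L * (A1 + I.card) + 2 * n * (A2 + I.card)) := by
    calc ∏ j ∈ I, LK n Λ Λs j
        ≤ ∏ j ∈ I, 2 ^ (35 * L * (n.choose j / Λ + 1) + 2 * n * (n.choose j / Λs + 1)) := by
          refine Finset.prod_le_prod (fun _ _ => Nat.zero_le _) fun j _ => ?_
          unfold LK
          calc (3 * (Λ * n ^ 30)) ^ (n.choose j / Λ + 1) *
                (3 * (Λs * 2 ^ n)) ^ (n.choose j / Λs + 1)
              ≤ (2 ^ (35 * L)) ^ (n.choose j / Λ + 1) * (2 ^ (2 * n)) ^ (n.choose j / Λs + 1) :=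
                Nat.mul_le_mul (Nat.pow_le_pow_left hLam2 _) (Nat.pow_le_pow_left hLs2 _)
            _ = _ := by rw [← pow_mul, ← pow_mul, ← pow_add]
      _ = 2 ^ (∑ j ∈ I, (35 * L * (n.choose j / Λ + 1) + 2 * n * (n.choose j / Λs + 1))) :=
          Finset.prod_pow_eq_pow_sum _ _ _
      _ = _ := by
          congr 1
          rw [Finset.sum_add_distrib, ← Finset.mul_sum, ← Finset.mul_sum, Finset.sum_add_distrib,
            Finset.sum_add_distrib, Finset.sum_const, smul_eq_mul, mul_one]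
  have P2 : ∏ j ∈ I, (LK n Λ Λs j * 2 ^ bitL n j) ≤
      2 ^ (35 * L * (A1 + I.card) + 2 * n * (A2 + I.card)) * 2 ^ B := by
    rw [Finset.prod_mul_distrib, Finset.prod_pow_eq_pow_sum]
    exact Nat.mul_le_mul_right _ P1
  have Q1 : 2 * h ≤ 2 ^ (2 * h) := Nat.lt_two_pow_self.le
  have Q2 : n ! ≤ 2 ^ (n * L) := fact_le_pow_L n
  unfold lowC
  calc 2 * h * n ! *
      (2 ^ ((L + 4) * (2 * n.choose c / (c + 1) + 1 + 2 * n + 2)) *
        ∏ j ∈ I, (LK n Λ Λs j * 2 ^ bitL n j))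
      ≤ 2 ^ (2 * h) * 2 ^ (n * L) *
      (2 ^ ((L + 4) * (2 * n.choose c / (c + 1) + 1 + 2 * n + 2)) *
        (2 ^ (35 * L * (A1 + I.card) + 2 * n * (A2 + I.card)) * 2 ^ B)) := by
        gcongr
    _ = 2 ^ (2 * h + n * L + (L + 4) * (2 * n.choose c / (c + 1) + 1 + 2 * n + 2) +
      (35 * L * (A1 + I.card) + 2 * n * (A2 + I.card)) + B) := by
        rw [← pow_add, ← pow_add, ← pow_add, ← pow_add]
        congr 1
        ring
    _ ≤ 2 ^ (n.choose r / (8 * n)) := Nat.pow_le_pow_right (by norm_num) hle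

end Pool.F3LT
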