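import Pool.Agent.Work.MP_f3d170_lt.Interface2
import Pool.Agent.Work.MP_f3d170_co_helper44.TNUMB13
import Pool.Agent.Work.MP_f3d170_co_helper44.TNUMF

/-!
# MP_f3d170_co, linear threshold, block NUS2 (helper38, after `TNUMS.lean`)
-/

set_option autoImplicit false

open Nat
open Pool.Agent.Work.MP_f3d170_co_helper44
open Pool.Agent.Work.MP_f3d170_co_helper44.h13

namespace Pool.F3LT

namespace X_NUS2

/-- The numerical facts used for NUS2. -/
structure SF (k r n : ℕ) : Prop where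
  hr : 12 ≤ r
  h3r : 3 * r ≤ n
  hh : 2 * pH k ≤ r
  hLn : 100 * pL n + 2 ≤ n
  hLam : pLam k r n ≤ 2 ^ (3 * pL n)
  hLs : 160 * n * r ^ 2 * pH k ≤ pLs r
  h2 : 80 * (pL n + 4) * r ^ 2 * pH k ≤ 2 ^ (r - 1 - r / 2)
  h3 : 3840 * (r + 1) * pH k * (20 * n ^ 3 * r) ≤ n ^ 5

lemma s_c (k : ℕ) : ∃ N, ∀ r, N ≤ r → 400 * pH k * r ^ 3 ≤ 2 ^ (r - 1 - r / 2) := by
  obtain ⟨N, hN⟩ := log_poly (400 * pH k * 64) 3
  refine ⟨2 * N + 4, fun r hr => ?_⟩
  set c' := r - 1 - r / 2 with hc'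
  have h1 : N ≤ c' := by omega
  have h2 : r ≤ 4 * c' := by omega
  calc 400 * pH k * r ^ 3 ≤ 400 * pH k * (4 * c') ^ 3 := by gcongr
    _ = 400 * pH k * 64 * c' ^ 3 := by ring
    _ ≤ 2 ^ c' := hN _ h1

lemma lpoly (D p : ℕ) : ∃ R, ∀ r, R ≤ r → D * pl r ^ p ≤ r := by
  obtain ⟨N, hN⟩ := log_poly D p
  refine ⟨2 ^ N, fun r hr => ?_⟩
  have h1 : N ≤ Nat.log 2 r := Nat.le_log_of_pow_le (by norm_num) hr
  have h0 : r ≠ 0 := by
    have := Nat.one_le_two_pow (n := N)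
    omega
  exact (hN _ h1).trans (Nat.pow_log_le_self 2 h0)

lemma ev_SF (k C₁ : ℕ) : ∃ R, ∀ r n, Rg2 k C₁ R r n → SF k r n := by
  obtain ⟨N, hN⟩ := s_c k
  obtain ⟨R1, hR1⟩ := lpoly C₁ 3
  obtain ⟨R2, hR2⟩ := lpoly (4 * 10 ^ 4 * pH k) 1
  refine ⟨12 + N + R1 + R2 + 2 * pH k + 160 * pH k * 30 ! * 2 ^ 30, fun r n hR => ?_⟩
  obtain ⟨hRr, hrn, hup⟩ := hR
  have hL := one_le_L n
  have hnL := lt_L n
  have hh6 : 6 ≤ pH k := by unfold pH; omega
  generalize hF : (30 ! : ℕ) = F at hRr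
  have hr12 : 12 ≤ r := by omega
  have h1 := hR1 r (by omega)
  have h2 := hR2 r (by omega)
  rw [pow_one] at h2
  have hnr : n ≤ r ^ 2 := by
    calc n ≤ C₁ * r * pl r ^ 3 := hup
      _ = r * (C₁ * pl r ^ 3) := by ring
      _ ≤ r * r := Nat.mul_le_mul_left _ h1
      _ = r ^ 2 := by ring
  have hl1 : 1 ≤ pl r := by
    unfold pl
    exact Nat.le_log_of_pow_le (by norm_num) (by omega)
  have hn0 : n ≠ 0 := by
    intro h0
    rw [h0] at hrn
    have : 0 < 200 * pH k * r := by positivity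
    omega
  have hL2 : pL n ≤ 2 * pl r + 2 := by
    have e1 : r < 2 ^ (pl r + 1) := Nat.lt_pow_succ_log_self (by norm_num) r
    have e2 : n < 2 ^ (2 * pl r + 2) := by
      calc n ≤ r ^ 2 := hnr
        _ < (2 ^ (pl r + 1)) ^ 2 := Nat.pow_lt_pow_left e1 (by norm_num)
        _ = 2 ^ (2 * pl r + 2) := by rw [← pow_mul]; congr 1; ring
    have e3 := Nat.log_lt_of_lt_pow hn0 e2
    unfold pL
    omega
  have hL4 : pL n ≤ 4 * pl r := by omega
  have hL1 : 10 ^ 4 * pH k * pL n ≤ r := by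
    calc 10 ^ 4 * pH k * pL n ≤ 10 ^ 4 * pH k * (4 * pl r) := Nat.mul_le_mul_left _ hL4
      _ = 4 * 10 ^ 4 * pH k * pl r := by ring
      _ ≤ r := h2
  have hLr : 10 ^ 4 * pL n ≤ r := by
    calc 10 ^ 4 * pL n = 10 ^ 4 * 1 * pL n := by ring
      _ ≤ 10 ^ 4 * pH k * pL n := by gcongr; omega
      _ ≤ r := hL1
  have hrn3 : 1200 * r ≤ n := by
    calc 1200 * r = 200 * 6 * r := by ring
      _ ≤ 200 * pH k * r := by gcongr
      _ ≤ n := hrn
  refine ⟨hr12, by omega, by omega, by omega, ?_, ?_, ?_, ?_⟩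
  · unfold pLam
    have e1 : r ≤ 2 ^ pL n := by omega
    calc 10 ^ 4 * pH k * r ^ 2 * pL n = (10 ^ 4 * pH k * pL n) * r ^ 2 := by ring
      _ ≤ 2 ^ pL n * (2 ^ pL n) ^ 2 :=
          Nat.mul_le_mul (hL1.trans e1) (Nat.pow_le_pow_left e1 2)
      _ = 2 ^ (3 * pL n) := by rw [← pow_succ', ← pow_mul, mul_comm]
  · unfold pLs
    rw [Nat.le_div_iff_mul_le (Nat.factorial_pos 30), hF]
    have e1 : r ≤ 2 * (r / 2 + 1) := by omega
    have hrc : 160 * pH k * F * 2 ^ 30 ≤ r := by omega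
    have e2 : 2 ^ 30 * (160 * n * r ^ 2 * pH k * F) ≤ 2 ^ 30 * (r / 2 + 1) ^ 30 := by
      calc 2 ^ 30 * (160 * n * r ^ 2 * pH k * F)
          ≤ 2 ^ 30 * (160 * r ^ 2 * r ^ 2 * pH k * F) := by gcongr
        _ = (160 * pH k * F * 2 ^ 30) * r ^ 4 := by ring
        _ ≤ r * r ^ 4 := Nat.mul_le_mul_right _ hrc
        _ = r ^ 5 := by ring
        _ ≤ r ^ 30 := Nat.pow_le_pow_right (by omega) (by norm_num)
        _ ≤ (2 * (r / 2 + 1)) ^ 30 := Nat.pow_le_pow_left e1 30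
        _ = 2 ^ 30 * (r / 2 + 1) ^ 30 := by rw [mul_pow]
    exact Nat.le_of_mul_le_mul_left e2 (by positivity)
  · calc 80 * (pL n + 4) * r ^ 2 * pH k ≤ 80 * (5 * r) * r ^ 2 * pH k := by
          gcongr
          omega
      _ = 400 * pH k * r ^ 3 := by ring
      _ ≤ _ := hN r (by omega)
  · have e1 : r + 1 ≤ 2 * r := by omega
    have e2 : (200 * pH k * r) ^ 2 ≤ n ^ 2 := Nat.pow_le_pow_left hrn 2
    calc 3840 * (r + 1) * pH k * (20 * n ^ 3 * r)
        ≤ 3840 * (2 * r) * pH k * (20 * n ^ 3 * r) := by gcongr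
      _ = (153600 * (1 * (pH k * r ^ 2))) * n ^ 3 := by ring
      _ ≤ (40000 * (pH k * (pH k * r ^ 2))) * n ^ 3 := by
          apply Nat.mul_le_mul_right
          have e3 : 6 * (pH k * r ^ 2) ≤ pH k * (pH k * r ^ 2) := Nat.mul_le_mul_right _ hh6
          omega
      _ = (200 * pH k * r) ^ 2 * n ^ 3 := by ring
      _ ≤ n ^ 2 * n ^ 3 := Nat.mul_le_mul_right _ e2
      _ = n ^ 5 := by ring

lemma core {h n r L N Y W X Λ Λs v A1 A2 B m1 m2 c' : ℕ}
    (hr : 12 ≤ r) (hL : 1 ≤ L) (hh : 2 * h ≤ r) (hrn : 3 * r ≤ n) (hLn : 100 * L ≤ n)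
    (hv0 : N ≤ (r + 1) * h * v)
    (hLam : Λ = 10 ^ 4 * h * r ^ 2 * L) (hh0 : 0 < h)
    (hLs : 160 * n * r ^ 2 * h ≤ Λs)
    (h2 : 80 * (L + 4) * r ^ 2 * h ≤ 2 ^ c')
    (h3 : 3840 * (r + 1) * h * (20 * n ^ 3 * r) ≤ n ^ 5)
    (hY : Y * n ≤ 2 * r * N) (hW : 2 ^ c' * W ≤ Y) (hX : X ≤ 2 * W)
    (hA1 : Λ * A1 ≤ 2 * Y) (hA2 : Λs * A2 ≤ 2 * Y)
    (hB : 10 * n * B ≤ 2 * v + 10 * n ^ 3 * m2)
    (hm1 : m1 ≤ r) (hm2 : m2 ≤ r) (hN5 : n ^ 5 ≤ 3840 * N) :
    (2 * h + n * L + (n + 1) + (L + 4) * (X + 1 + 2 * n + 2) +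
      (35 * L * (A1 + m1) + 2 * n * (A2 + m1)) + B) * n ≤ v := by
  have hn1 : 1 ≤ n := by omega
  have hr1 : r + 1 ≤ 2 * r := by omega
  have hYv : Y * n ≤ 4 * r ^ 2 * h * v := by
    calc Y * n ≤ 2 * r * N := hY
      _ ≤ 2 * r * ((r + 1) * h * v) := Nat.mul_le_mul_left _ hv0
      _ ≤ 2 * r * ((2 * r) * h * v) := by gcongr
      _ = _ := by ring
  have hLam0 : 0 < Λ := by rw [hLam]; positivity
  have hLs0 : 0 < Λs := lt_of_lt_of_le (by positivity) hLs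
  have t1 : 10 * n * (35 * L * A1) ≤ v := by
    have e : Λ * (10 * n * (35 * L * A1)) ≤ Λ * v := by
      calc Λ * (10 * n * (35 * L * A1)) = 350 * L * n * (Λ * A1) := by ring
        _ ≤ 350 * L * n * (2 * Y) := Nat.mul_le_mul_left _ hA1
        _ = 700 * L * (Y * n) := by ring
        _ ≤ 700 * L * (4 * r ^ 2 * h * v) := Nat.mul_le_mul_left _ hYv
        _ = (2800 * h * r ^ 2 * L) * v := by ring
        _ ≤ Λ * v := by
            rw [hLam]
            gcongr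
            norm_num
    exact Nat.le_of_mul_le_mul_left e hLam0
  have t2 : 10 * n * (2 * n * A2) ≤ v := by
    have e : Λs * (10 * n * (2 * n * A2)) ≤ Λs * v := by
      calc Λs * (10 * n * (2 * n * A2)) = 20 * n ^ 2 * (Λs * A2) := by ring
        _ ≤ 20 * n ^ 2 * (2 * Y) := Nat.mul_le_mul_left _ hA2
        _ = 40 * n * (Y * n) := by ring
        _ ≤ 40 * n * (4 * r ^ 2 * h * v) := Nat.mul_le_mul_left _ hYv
        _ = (160 * n * r ^ 2 * h) * v := by ring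
        _ ≤ Λs * v := Nat.mul_le_mul_right _ hLs
    exact Nat.le_of_mul_le_mul_left e hLs0
  have t4 : 10 * n * ((L + 4) * X) ≤ v := by
    have e : 2 ^ c' * (10 * n * ((L + 4) * X)) ≤ 2 ^ c' * v := by
      calc 2 ^ c' * (10 * n * ((L + 4) * X)) ≤ 2 ^ c' * (10 * n * ((L + 4) * (2 * W))) := by gcongr
        _ = 20 * n * (L + 4) * (2 ^ c' * W) := by ring
        _ ≤ 20 * n * (L + 4) * Y := Nat.mul_le_mul_left _ hW
        _ = 20 * (L + 4) * (Y * n) := by ring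
        _ ≤ 20 * (L + 4) * (4 * r ^ 2 * h * v) := Nat.mul_le_mul_left _ hYv
        _ = (80 * (L + 4) * r ^ 2 * h) * v := by ring
        _ ≤ 2 ^ c' * v := Nat.mul_le_mul_right _ h2
    exact Nat.le_of_mul_le_mul_left e (by positivity)
  have hvb : 20 * n ^ 3 * r ≤ v := by
    have e : (3840 * (r + 1) * h) * (20 * n ^ 3 * r) ≤ (3840 * (r + 1) * h) * v := by
      calc (3840 * (r + 1) * h) * (20 * n ^ 3 * r) ≤ n ^ 5 := h3
        _ ≤ 3840 * N := hN5
        _ ≤ 3840 * ((r + 1) * h * v) := Nat.mul_le_mul_left _ hv0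
        _ = _ := by ring
    exact Nat.le_of_mul_le_mul_left e (by positivity)
  have t5 : 10 * n * (2 * h + n * L + (n + 1) + (L + 4) * (1 + 2 * n + 2) + 35 * L * m1 +
      2 * n * m1) ≤ 10 * n ^ 3 * r := by
    have e0 : 2 * h + n * L + (n + 1) + (L + 4) * (1 + 2 * n + 2) + 35 * L * m1 +
      2 * n * m1 ≤ 100 * (n * r * L) := by
      have f1 : n ≤ n * r * L := by
        calc n = n * 1 * 1 := by ring
          _ ≤ n * r * L := by gcongr; omega
      have f2 : n * L ≤ n * r * L := by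
        calc n * L = n * 1 * L := by ring
          _ ≤ n * r * L := by gcongr; omega
      have f3 : (L + 4) * (1 + 2 * n + 2) ≤ 25 * (n * L) := by
        have g1 : (L + 4) ≤ 5 * L := by omega
        have g2 : 1 + 2 * n + 2 ≤ 5 * n := by omega
        calc (L + 4) * (1 + 2 * n + 2) ≤ 5 * L * (5 * n) := Nat.mul_le_mul g1 g2
          _ = _ := by ring
      have f4 : 35 * L * m1 ≤ 35 * (n * r * L) := by
        calc 35 * L * m1 ≤ 35 * L * r := by gcongr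
          _ = 35 * (1 * r * L) := by ring
          _ ≤ 35 * (n * r * L) := by gcongr
      have f5 : 2 * n * m1 ≤ 2 * (n * r * L) := by
        calc 2 * n * m1 ≤ 2 * n * r := by gcongr
          _ = 2 * (n * r * 1) := by ring
          _ ≤ 2 * (n * r * L) := by gcongr
      omega
    calc 10 * n * (2 * h + n * L + (n + 1) + (L + 4) * (1 + 2 * n + 2) + 35 * L * m1 +
      2 * n * m1) ≤ 10 * n * (100 * (n * r * L)) := Nat.mul_le_mul_left _ e0
      _ = 10 * n ^ 2 * r * (100 * L) := by ring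
      _ ≤ 10 * n ^ 2 * r * n := Nat.mul_le_mul_left _ hLn
      _ = 10 * n ^ 3 * r := by ring
  have t6 : 10 * n ^ 3 * m2 ≤ 10 * n ^ 3 * r := Nat.mul_le_mul_left _ hm2
  have e : 10 * ((2 * h + n * L + (n + 1) + (L + 4) * (X + 1 + 2 * n + 2) +
      (35 * L * (A1 + m1) + 2 * n * (A2 + m1)) + B) * n) =
      10 * n * (35 * L * A1) + 10 * n * (2 * n * A2) + 10 * n * B +
      10 * n * ((L + 4) * X) + 10 * n * (2 * h + n * L + (n + 1) + (L + 4) * (1 + 2 * n + 2) +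
      35 * L * m1 + 2 * n * m1) := by ring
  have e20 : 20 * n ^ 3 * r = 10 * n ^ 3 * r + 10 * n ^ 3 * r := by ring
  omega

lemma bits {n r v a : ℕ} (f : ℕ → ℕ) (hr : 1 ≤ r)
    (hf : ∀ j, a ≤ j → j ≤ r - 1 →
      10 * n * 2 ^ (r - 1 - j) * f j ≤ v + 10 * n ^ 3 * 2 ^ (r - 1 - j)) :
    10 * n * ∑ j ∈ Finset.Icc a (r - 1), f j ≤
      2 * v + 10 * n ^ 3 * (Finset.Icc a (r - 1)).card := by
  have h1 : ∀ j ∈ Finset.Icc a (r - 1), 10 * n * f j ≤ v / 2 ^ (r - 1 - j) + 10 * n ^ 3 := by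
    intro j hj
    rw [Finset.mem_Icc] at hj
    have h2 := hf j hj.1 hj.2
    have h3 : (10 * n * f j - 10 * n ^ 3) * 2 ^ (r - 1 - j) ≤ v := by
      rw [Nat.sub_mul]
      have h4 : 10 * n * f j * 2 ^ (r - 1 - j) = 10 * n * 2 ^ (r - 1 - j) * f j := by ring
      rw [h4]
      omega
    have h4 := (Nat.le_div_iff_mul_le (by positivity)).2 h3
    omega
  have h5 : ∑ j ∈ Finset.Icc a (r - 1), v / 2 ^ (r - 1 - j) ≤ 2 * v := by
    calc ∑ j ∈ Finset.Icc a (r - 1), v / 2 ^ (r - 1 - j)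
        ≤ ∑ j ∈ Finset.range r, v / 2 ^ (r - 1 - j) := by
          apply Finset.sum_le_sum_of_subset
          intro j hj
          rw [Finset.mem_Icc] at hj
          rw [Finset.mem_range]
          omega
      _ = ∑ j ∈ Finset.range r, v / 2 ^ j := Finset.sum_range_reflect (fun j => v / 2 ^ j) r
      _ ≤ v * 2 / (2 - 1) := Nat.geom_sum_le le_rfl v r
      _ = 2 * v := by omega
  rw [Finset.mul_sum]
  calc ∑ j ∈ Finset.Icc a (r - 1), 10 * n * f j
      ≤ ∑ j ∈ Finset.Icc a (r - 1), (v / 2 ^ (r - 1 - j) + 10 * n ^ 3) := Finset.sum_le_sum h1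
    _ = ∑ j ∈ Finset.Icc a (r - 1), v / 2 ^ (r - 1 - j) +
        10 * n ^ 3 * (Finset.Icc a (r - 1)).card := by
        rw [Finset.sum_add_distrib, Finset.sum_const, smul_eq_mul]
        ring
    _ ≤ _ := by omega

end X_NUS2

open X_NUS2 in
/-- NUS2 (helper38): second pass. -/
theorem p_NUS2 (hNBJ : Stmt_NBJ) : Stmt_NUS2 := by
  intro k hk C₁
  obtain ⟨R1, hR1⟩ := ev_SF k C₁
  obtain ⟨R2, hR2⟩ := hNBJ k hk C₁
  refine ⟨R1 + R2, fun r n hR v hv1 hv2 => ?_⟩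
  have hRa : Rg2 k C₁ R1 r n := ⟨by have := hR.1; omega, hR.2⟩
  have hRb : Rg2 k C₁ R2 r n := ⟨by have := hR.1; omega, hR.2⟩
  have F := hR1 r n hRa
  have hbits := hR2 r n hRb v hv1 hv2
  have hL := one_le_L n
  have hnL := lt_L n
  have hr := F.hr
  have h3r := F.h3r
  have hB := bits (a := r / 2 + 2) (fun j => bitJ r n v j) (by omega) hbits
  set L := pL n with hLd
  set c := r / 2 with hc
  set Λ := pLam k r n with hΛ
  set Λs := pLs r with hΛs
  set h := pH k with hhd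
  set N := n.choose r with hNd
  have hh0 : 0 < h := by rw [hhd]; unfold pH; omega
  -- the three sums
  set A1 := ∑ j ∈ Finset.Icc (c + 1) (r - 1), n.choose j / Λ with hA1
  set A2 := ∑ j ∈ Finset.Icc (c + 1) (r - 1), n.choose j / Λs with hA2
  set B := ∑ j ∈ Finset.Icc (c + 2) (r - 1), bitJ r n v j with hBd
  have hS : ∀ a, ∑ j ∈ Finset.Icc a (r - 1), n.choose j ≤ 2 * n.choose (r - 1) :=
    fun a => choose_sum_Icc (by omega)
  have bA1 : Λ * A1 ≤ 2 * n.choose (r - 1) := by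
    rw [hA1, Finset.mul_sum]
    refine le_trans (Finset.sum_le_sum fun j _ => ?_) (hS (c + 1))
    exact Nat.mul_div_le _ _
  have bA2 : Λs * A2 ≤ 2 * n.choose (r - 1) := by
    rw [hA2, Finset.mul_sum]
    refine le_trans (Finset.sum_le_sum fun j _ => ?_) (hS (c + 1))
    exact Nat.mul_div_le _ _
  have hW : 2 ^ (r - 1 - c) * n.choose c ≤ n.choose (r - 1) := choose_pow (by omega) (by omega)
  have hX : 2 * n.choose c / (c + 1) ≤ 2 * n.choose c := Nat.div_le_self _ _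
  have hY := choose_pred (n := n) (r := r) (by omega) (by omega)
  have hN5 := choose_five (n := n) (r := r) (by omega) (by omega)
  have hLn := F.hLn
  rw [← hLd] at hLn
  have key := core (h := h) (n := n) (r := r) (L := L) (N := N) (Y := n.choose (r - 1))
    (W := n.choose c) (X := 2 * n.choose c / (c + 1)) (Λ := Λ) (Λs := Λs) (v := v)
    (A1 := A1) (A2 := A2) (B := B) (m1 := (Finset.Icc (c + 1) (r - 1)).card)
    (m2 := (Finset.Icc (c + 2) (r - 1)).card) (c' := r - 1 - c)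
    hr hL F.hh h3r (by omega) hv1 rfl hh0 F.hLs F.h2 F.h3 hY hW hX bA1 bA2 hB
    (by rw [Nat.card_Icc]; omega) (by rw [Nat.card_Icc]; omega) hN5
  have hle := (Nat.le_div_iff_mul_le (by omega : 0 < n)).2 key
  -- the bits
  have hLam2 : 3 * (Λ * n ^ 30) ≤ 2 ^ (35 * L) := by
    calc 3 * (Λ * n ^ 30) ≤ 2 ^ 2 * (2 ^ (3 * L) * (2 ^ L) ^ 30) := by
          have e1 := F.hLam
          gcongr
          norm_num
      _ = 2 ^ (2 + 33 * L) := by rw [← pow_mul, ← pow_add, ← pow_add]; congr 1; ring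
      _ ≤ 2 ^ (35 * L) := Nat.pow_le_pow_right (by norm_num) (by omega)
  have hLs2 : 3 * (Λs * 2 ^ n) ≤ 2 ^ (2 * n) := by
    have e1 : Λs ≤ 2 ^ (30 * L) := by
      calc Λs ≤ (r / 2 + 1) ^ 30 := Nat.div_le_self _ _
        _ ≤ (2 ^ L) ^ 30 := Nat.pow_le_pow_left (by omega) 30
        _ = 2 ^ (30 * L) := by rw [← pow_mul, mul_comm]
    calc 3 * (Λs * 2 ^ n) ≤ 2 ^ 2 * (2 ^ (30 * L) * 2 ^ n) := by
          gcongr
          norm_num
      _ = 2 ^ (2 + 30 * L + n) := by rw [← pow_add, ← pow_add]; congr 1; ring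
      _ ≤ 2 ^ (2 * n) := Nat.pow_le_pow_right (by norm_num) (by omega)
  have P1 : ∏ j ∈ Finset.Icc (c + 1) (r - 1), LK n Λ Λs j ≤
      2 ^ (35 * L * (A1 + (Finset.Icc (c + 1) (r - 1)).card) +
        2 * n * (A2 + (Finset.Icc (c + 1) (r - 1)).card)) := by
    calc ∏ j ∈ Finset.Icc (c + 1) (r - 1), LK n Λ Λs j
        ≤ ∏ j ∈ Finset.Icc (c + 1) (r - 1),
          2 ^ (35 * L * (n.choose j / Λ + 1) + 2 * n * (n.choose j / Λs + 1)) := by
          refine Finset.prod_le_prod (fun _ _ => Nat.zero_le _) fun j _ => ?_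
          unfold LK
          calc (3 * (Λ * n ^ 30)) ^ (n.choose j / Λ + 1) *
                (3 * (Λs * 2 ^ n)) ^ (n.choose j / Λs + 1)
              ≤ (2 ^ (35 * L)) ^ (n.choose j / Λ + 1) * (2 ^ (2 * n)) ^ (n.choose j / Λs + 1) :=
                Nat.mul_le_mul (Nat.pow_le_pow_left hLam2 _) (Nat.pow_le_pow_left hLs2 _)
            _ = _ := by rw [← pow_mul, ← pow_mul, ← pow_add]
      _ = 2 ^ (∑ j ∈ Finset.Icc (c + 1) (r - 1),
          (35 * L * (n.choose j / Λ + 1) + 2 * n * (n.choose j / Λs + 1))) :=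
          Finset.prod_pow_eq_pow_sum _ _ _
      _ = _ := by
          congr 1
          rw [Finset.sum_add_distrib, ← Finset.mul_sum, ← Finset.mul_sum, Finset.sum_add_distrib,
            Finset.sum_add_distrib, Finset.sum_const, smul_eq_mul, mul_one]
  have P2 : ∏ j ∈ Finset.Icc (c + 2) (r - 1), 2 ^ bitJ r n v j = 2 ^ B :=
    Finset.prod_pow_eq_pow_sum _ _ _
  have Q1 : 2 * h ≤ 2 ^ (2 * h) := Nat.lt_two_pow_self.le
  have Q2 : n ! ≤ 2 ^ (n * L) := fact_le_pow_L n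
  have Q3 : N + 1 ≤ 2 ^ (n + 1) := by
    have e1 : N ≤ 2 ^ n := Nat.choose_le_two_pow n r
    have e2 : 1 ≤ 2 ^ n := Nat.one_le_two_pow
    rw [pow_succ]
    omega
  unfold sideC
  calc 2 * h * n ! * (N + 1) *
      (2 ^ ((L + 4) * (2 * n.choose c / (c + 1) + 1 + 2 * n + 2)) *
        (∏ j ∈ Finset.Icc (c + 1) (r - 1), LK n Λ Λs j) *
        ∏ j ∈ Finset.Icc (c + 2) (r - 1), 2 ^ bitJ r n v j)
      ≤ 2 ^ (2 * h) * 2 ^ (n * L) * 2 ^ (n + 1) *
      (2 ^ ((L + 4) * (2 * n.choose c / (c + 1) + 1 + 2 * n + 2)) *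
        2 ^ (35 * L * (A1 + (Finset.Icc (c + 1) (r - 1)).card) +
        2 * n * (A2 + (Finset.Icc (c + 1) (r - 1)).card)) *
        2 ^ B) := by
        rw [P2]
        gcongr
    _ = 2 ^ (2 * h + n * L + (n + 1) + (L + 4) * (2 * n.choose c / (c + 1) + 1 + 2 * n + 2) +
      (35 * L * (A1 + (Finset.Icc (c + 1) (r - 1)).card) +
        2 * n * (A2 + (Finset.Icc (c + 1) (r - 1)).card)) + B) := by
        rw [← pow_add, ← pow_add, ← pow_add, ← pow_add, ← pow_add]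
        congr 1
        ring
    _ ≤ 2 ^ (v / n) := Nat.pow_le_pow_right (by norm_num) hle

end Pool.F3LT
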