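import Pool.Agent.Work.MP_f3d170_lt.Interface2

set_option autoImplicit false

/-!
# MP_f3d170_co, linear upper threshold: block NUT2 (numerics of typical matroids)
-/

open Nat
open Pool.Agent.Work.MP_f3d170_co_helper44

namespace Pool.F3LT

/-- A power of `l` is at most `2 ^ (l / 3)` for large `l`. -/
lemma NUT2_pow (A m : ℕ) : ∃ L0, ∀ l, L0 ≤ l → A * l ^ m ≤ 2 ^ (l / 3) := by
  have h := tendsto_pow_const_div_const_pow_of_one_lt m (show (1 : ℝ) < 2 by norm_num)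
  have hpos : (0 : ℝ) < 1 / ((A : ℝ) * 5 ^ m + 1) := by positivity
  obtain ⟨N, hN⟩ := Filter.eventually_atTop.1 (h.eventually (gt_mem_nhds hpos))
  refine ⟨3 * (N + 1), fun l hl => ?_⟩
  have hq : N ≤ l / 3 := by omega
  have hl5 : l ≤ 5 * (l / 3) := by omega
  have h3 := hN (l / 3) hq
  rw [div_lt_div_iff₀ (by positivity) (by positivity)] at h3
  have h4 : (A : ℝ) * (l : ℝ) ^ m ≤ 2 ^ (l / 3) := by
    have h5 : (l : ℝ) ^ m ≤ (5 * ((l / 3 : ℕ) : ℝ)) ^ m := by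
      apply pow_le_pow_left₀ (by positivity)
      exact_mod_cast hl5
    have h6 : (0 : ℝ) ≤ ((l / 3 : ℕ) : ℝ) ^ m := by positivity
    calc (A : ℝ) * (l : ℝ) ^ m ≤ A * (5 * ((l / 3 : ℕ) : ℝ)) ^ m := by gcongr
      _ = ((l / 3 : ℕ) : ℝ) ^ m * (A * 5 ^ m) := by rw [mul_pow]; ring
      _ ≤ 2 ^ (l / 3) := by nlinarith
  exact_mod_cast h4

/-- The first term. -/
lemma NUT2_a {r d v c N Np : ℕ} (hN1 : (r + 1) * Np = d * N) (hv : (r + 1) * (2 * c) * v ≤ N) :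
    2 * (c * (r * d * v)) ≤ r * Np := by
  have h1 : (r + 1) * (2 * (c * (r * d * v))) ≤ (r + 1) * (r * Np) := by
    calc (r + 1) * (2 * (c * (r * d * v))) = r * d * ((r + 1) * (2 * c) * v) := by ring
      _ ≤ r * d * N := Nat.mul_le_mul_left _ hv
      _ = r * (d * N) := by ring
      _ = (r + 1) * (r * Np) := by rw [← hN1]; ring
  exact Nat.le_of_mul_le_mul_left h1 (Nat.succ_pos r)

/-- The second term. -/
lemma NUT2_b {r d c N Np Ns : ℕ} (hN1 : (r + 1) * Np = d * N) (hN2 : r * N = (d + 1) * Ns)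
    (h64 : 64 * c * (r + 1) ≤ d) (h49 : 49 * r ≤ d + 1) :
    8 * (c * (Ns * (49 * r + 7 * (d + 1)))) ≤ r * Np := by
  have h1 : (r + 1) * (8 * (c * (Ns * (49 * r + 7 * (d + 1))))) ≤ (r + 1) * (r * Np) := by
    calc (r + 1) * (8 * (c * (Ns * (49 * r + 7 * (d + 1)))))
        ≤ (r + 1) * (8 * (c * (Ns * (8 * (d + 1))))) := by
          have h2 : 49 * r + 7 * (d + 1) ≤ 8 * (d + 1) := by omega
          gcongr
      _ = (64 * c * (r + 1)) * ((d + 1) * Ns) := by ring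
      _ ≤ d * ((d + 1) * Ns) := Nat.mul_le_mul_right _ h64
      _ = r * (d * N) := by rw [← hN2]; ring
      _ = (r + 1) * (r * Np) := by rw [← hN1]; ring
  exact Nat.le_of_mul_le_mul_left h1 (Nat.succ_pos r)

/-- The third term. -/
lemma NUT2_c {r s d n v c e K N Np N8 : ℕ} (hN1 : (r + 1) * Np = d * N)
    (hv : (r + 1) * (2 * c) * v ≤ N) (hN8 : s * N8 ≤ 2 * K ^ 2 * e * n * v)
    (he : 1 ≤ e) (hrn : r ≤ n) (hdn : d + 1 ≤ n) (hnd : n ≤ 2 * d) (hrs : r ≤ 2 * s)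
    (hs : 1 ≤ s) (hK : 64 * K ^ 2 * e ^ 3 * n ≤ r ^ 2) :
    8 * (c * (N8 * (r * e ^ 2 + e * (d + 1)))) ≤ r * Np := by
  have h0 : r * e ^ 2 + e * (d + 1) ≤ 2 * e ^ 2 * n := by
    have h1 : r * e ^ 2 ≤ n * e ^ 2 := Nat.mul_le_mul_right _ hrn
    have h2 : e * (d + 1) ≤ e ^ 2 * n := Nat.mul_le_mul (by nlinarith) hdn
    nlinarith
  have h1 : 16 * K ^ 2 * e ^ 3 * n ^ 2 ≤ s * r * d := by
    have h2 : 4 * (16 * K ^ 2 * e ^ 3 * n ^ 2) ≤ 4 * (s * r * d) := by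
      calc 4 * (16 * K ^ 2 * e ^ 3 * n ^ 2) = (64 * K ^ 2 * e ^ 3 * n) * n := by ring
        _ ≤ r ^ 2 * n := Nat.mul_le_mul_right _ hK
        _ = r * r * n := by ring
        _ ≤ r * (2 * s) * (2 * d) := by gcongr
        _ = 4 * (s * r * d) := by ring
    omega
  have h3 : (s * (r + 1)) * (8 * (c * (N8 * (r * e ^ 2 + e * (d + 1))))) ≤
      (s * (r + 1)) * (r * Np) := by
    calc (s * (r + 1)) * (8 * (c * (N8 * (r * e ^ 2 + e * (d + 1)))))
        ≤ (s * (r + 1)) * (8 * (c * (N8 * (2 * e ^ 2 * n)))) := by gcongr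
      _ = (16 * c * (r + 1) * e ^ 2 * n) * (s * N8) := by ring
      _ ≤ (16 * c * (r + 1) * e ^ 2 * n) * (2 * K ^ 2 * e * n * v) := by gcongr
      _ = (16 * K ^ 2 * e ^ 3 * n ^ 2) * ((r + 1) * (2 * c) * v) := by ring
      _ ≤ (s * r * d) * N := Nat.mul_le_mul h1 hv
      _ = s * r * (d * N) := by ring
      _ = (s * (r + 1)) * (r * Np) := by rw [← hN1]; ring
  exact Nat.le_of_mul_le_mul_left h3 (Nat.mul_pos hs (Nat.succ_pos r))

/-- NUT2. -/
theorem p_NUT2 : Stmt_NUT2 := by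
  intro k hk C₁
  obtain ⟨L0, hL0⟩ := NUT2_pow (64 * C₁) 21
  refine ⟨2 ^ (L0 + 1), ?_⟩
  rintro r n ⟨hRr, hnr, hnC⟩ v N₈ hv hN8
  have hr2 : 2 ≤ r := by
    calc 2 = 2 ^ 1 := by norm_num
      _ ≤ 2 ^ (L0 + 1) := Nat.pow_le_pow_right (by norm_num) (by omega)
      _ ≤ r := hRr
  have hlL : L0 + 1 ≤ pl r := by
    unfold pl
    exact Nat.le_log_of_pow_le (by norm_num) hRr
  have hrl : 2 ^ pl r ≤ r := Nat.pow_log_le_self 2 (by omega)
  have hpH : pH k = 2 * (3 * (k + 1)) := by unfold pH; ring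
  rw [hpH] at hv hnr
  obtain ⟨c, hc⟩ : ∃ c, c = 3 * (k + 1) := ⟨_, rfl⟩
  rw [← hc] at hv hnr ⊢
  have hc6 : 6 ≤ c := by omega
  have hn400 : 400 * (c * r) ≤ n := by
    calc 400 * (c * r) = 200 * (2 * c) * r := by ring
      _ ≤ n := hnr
  have hcr : 6 * r ≤ c * r := Nat.mul_le_mul_right r hc6
  have hcr2 : 64 * c * (r + 1) ≤ 128 * (c * r) := by
    calc 64 * c * (r + 1) ≤ 64 * c * (2 * r) := by gcongr; omega
      _ = 128 * (c * r) := by ring
  obtain ⟨d, hd⟩ : ∃ d, d = n - r := ⟨_, rfl⟩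
  have hd1 : n - (r - 1) = d + 1 := by omega
  rw [hd1, ← hd]
  have hN1 : (r + 1) * n.choose (r + 1) = d * n.choose r := by
    have h := Nat.choose_succ_right_eq n r
    rw [hd, mul_comm, h, mul_comm]
  have hN2 : r * n.choose r = (d + 1) * n.choose (r - 1) := by
    have h := Nat.choose_succ_right_eq n (r - 1)
    rw [show r - 1 + 1 = r by omega, hd1] at h
    rw [mul_comm, h, mul_comm]
  have he : 1 ≤ pe r := by
    unfold pe
    exact Nat.one_le_pow _ _ (by omega)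
  have hK : 64 * pK r ^ 2 * pe r ^ 3 * n ≤ r ^ 2 := by
    unfold pK pe
    calc 64 * (2 ^ (pl r / 3)) ^ 2 * (pl r ^ 6) ^ 3 * n
        ≤ 64 * (2 ^ (pl r / 3)) ^ 2 * (pl r ^ 6) ^ 3 * (C₁ * r * pl r ^ 3) := by gcongr
      _ = r * ((64 * C₁ * pl r ^ 21) * (2 ^ (pl r / 3)) ^ 2) := by ring
      _ ≤ r * (2 ^ (pl r / 3) * (2 ^ (pl r / 3)) ^ 2) := by
          have := hL0 (pl r) (by omega)
          gcongr
      _ = r * 2 ^ (3 * (pl r / 3)) := by
          rw [pow_mul']; ring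
      _ ≤ r * 2 ^ pl r := by
          apply Nat.mul_le_mul_left
          exact Nat.pow_le_pow_right (by norm_num) (by omega)
      _ ≤ r * r := Nat.mul_le_mul_left _ hrl
      _ = r ^ 2 := by ring
  have hA := NUT2_a hN1 hv.le
  have hB := NUT2_b (c := c) hN1 hN2 (by omega) (by omega)
  have hD := NUT2_c hN1 hv.le hN8 he (by omega) (by omega) (by omega) (by omega) (by omega) hK
  rw [mul_add, mul_add]
  omega

end Pool.F3LT
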