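import Pool.Agent.Work.MP_f3d170_lt.Interface

/-!
# Block SATD: an independent `j`-set lies in at most `e²` of the listed `(j+2)`-sets
-/

set_option autoImplicit false

open Set Matroid Nat
open Pool.Agent.Work.MP_f3d170_co_h45
open Pool.Agent.Work.MP_f3d170_co_helper60
open Pool.Agent.Work.MP_f3d170_co_helper60b
open Pool.Agent.Work.MP_f3d170_co_helper44

namespace Pool.F3LT

theorem p_SATD : Stmt_SATD := by
  intro n j Λ e M 𝒵 X hE hExc hZ hX hXj
  have hrX : rk M X = j := by rw [indep_iff_rk.1 hX, hXj]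
  have hcl : ∀ Y ∈ 𝒵, X ⊆ Y → Y ⊆ M.closure X := by
    intro Y hY hXY
    obtain ⟨-, hY2, -⟩ := hZ hY
    rw [closure_eq_of_rk hXY (by rw [hrX, hY2])]
    exact M.subset_closure Y (by rw [hE]; exact Set.subset_univ _)
  rcases Set.eq_empty_or_nonempty {Y | Y ∈ 𝒵 ∧ X ⊆ Y} with h0 | ⟨Y0, hY0, hXY0⟩
  · unfold cnz
    rw [h0, Set.ncard_empty]
    exact Nat.zero_le _
  · have hsm : bn M j (M.closure X) < Λ := by
      by_contra hcon
      push Not at hcon
      exact (hZ hY0).2.2 (M.closure X) ⟨closure_isHyp hrX, hcon⟩ (hcl Y0 hY0 hXY0)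
    have hC := hExc X hX hXj hsm
    have hsub : {Y | Y ∈ 𝒵 ∧ X ⊆ Y} ⊆ (fun p : Fin n × Fin n => X ∪ {p.1, p.2}) ''
        ((M.closure X \ X) ×ˢ (M.closure X \ X)) := by
      rintro Y ⟨hY, hXY⟩
      have h1 := Set.ncard_sdiff_add_ncard_of_subset hXY (Set.toFinite Y)
      rw [(hZ hY).1, hXj] at h1
      have h2 : (Y \ X).ncard = 2 := by omega
      obtain ⟨a, b, -, hab⟩ := Set.ncard_eq_two.1 h2
      have ha : a ∈ Y \ X := by rw [hab]; simp
      have hb : b ∈ Y \ X := by rw [hab]; simp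
      refine ⟨(a, b), ⟨⟨hcl Y hY hXY ha.1, ha.2⟩, ⟨hcl Y hY hXY hb.1, hb.2⟩⟩, ?_⟩
      show X ∪ {a, b} = Y
      rw [← hab]
      exact Set.union_sdiff_cancel hXY
    unfold cnz
    calc {Y | Y ∈ 𝒵 ∧ X ⊆ Y}.ncard ≤ ((fun p : Fin n × Fin n => X ∪ {p.1, p.2}) ''
          ((M.closure X \ X) ×ˢ (M.closure X \ X))).ncard :=
          Set.ncard_le_ncard hsub (Set.toFinite _)
      _ ≤ ((M.closure X \ X) ×ˢ (M.closure X \ X)).ncard := Set.ncard_image_le (Set.toFinite _)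
      _ = (M.closure X \ X).ncard * (M.closure X \ X).ncard := Set.ncard_prod
      _ ≤ e * e := Nat.mul_le_mul hC hC
      _ = e ^ 2 := by ring

end Pool.F3LT
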