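import Pool.Agent.Work.MP_f3d170_lt.Interface

set_option autoImplicit false

open Set Matroid Nat
open Pool.Agent.Work.MP_f3d170_co_h45
open Pool.Agent.Work.MP_f3d170_co_helper60
open Pool.Agent.Work.MP_f3d170_co_helper60b (trunc Gen IsHyp HasGen star StarSet Rec IsPart)
open Pool.Agent.Work.MP_f3d170_co_helper44

namespace Pool.F3LT

/-- Counting lemma: if `g M` is in a set with at most `K` members which depends only on `f M`, then
`(f, g)` has at most `K` times as many values as `f`. -/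
lemma STEP2_fibre {α β γ : Type*} {𝒞 : Set α} (h𝒞 : 𝒞.Finite) (f : α → β) (g : α → γ)
    (W : β → Set γ) (K : ℕ) (hfin : ∀ b, (W b).Finite) (hW : ∀ M ∈ 𝒞, g M ∈ W (f M))
    (hK : ∀ M ∈ 𝒞, (W (f M)).ncard ≤ K) :
    ((fun M => (f M, g M)) '' 𝒞).ncard ≤ (f '' 𝒞).ncard * K := by
  classical
  have hF : ((fun M => (f M, g M)) '' 𝒞).Finite := h𝒞.image _
  have hf : (f '' 𝒞).Finite := h𝒞.image _
  rw [Set.ncard_eq_toFinset_card _ hF, Set.ncard_eq_toFinset_card _ hf]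
  have h1 := Finset.card_le_mul_card_image (f := fun p : β × γ => p.1) hF.toFinset K (by
    intro b hb
    rw [Finset.mem_image] at hb
    obtain ⟨p, hp, rfl⟩ := hb
    rw [Set.Finite.mem_toFinset] at hp
    obtain ⟨M, hM, rfl⟩ := hp
    have h2 : (hF.toFinset.filter (fun p : β × γ => p.1 = f M)) ⊆
        (hfin (f M)).toFinset.image (fun c => (f M, c)) := by
      intro p hp
      rw [Finset.mem_filter, Set.Finite.mem_toFinset] at hp
      obtain ⟨⟨M', hM', rfl⟩, h3⟩ := hp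
      rw [Finset.mem_image]
      refine ⟨g M', ?_, ?_⟩
      · rw [Set.Finite.mem_toFinset]
        have h4 := hW M' hM'
        have h5 : f M' = f M := h3
        rw [h5] at h4
        exact h4
      · have h5 : f M' = f M := h3
        simp only [h5]
    refine (Finset.card_le_card h2).trans (Finset.card_image_le.trans ?_)
    rw [← Set.ncard_eq_toFinset_card _ (hfin (f M))]
    exact hK M hM)
  have h2 : hF.toFinset.image (fun p : β × γ => p.1) ⊆ hf.toFinset := by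
    intro b hb
    rw [Finset.mem_image] at hb
    obtain ⟨p, hp, rfl⟩ := hb
    rw [Set.Finite.mem_toFinset] at hp
    obtain ⟨M, hM, rfl⟩ := hp
    rw [Set.Finite.mem_toFinset]
    exact ⟨M, hM, rfl⟩
  calc hF.toFinset.card ≤ K * (hF.toFinset.image (fun p : β × γ => p.1)).card := h1
    _ ≤ K * hf.toFinset.card := Nat.mul_le_mul_left _ (Finset.card_le_card h2)
    _ = hf.toFinset.card * K := Nat.mul_comm _ _

lemma STEP2_dg {n : ℕ} {s : ℕ} {𝒟 : Set (Set (Fin n))} (h1 : ∀ D ∈ 𝒟, D.ncard = s + 1)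
    (h2 : ∀ D ∈ 𝒟, ∀ D' ∈ 𝒟, D ≠ D' → (D ∩ D').ncard < s) :
    ∀ x ∈ 𝒟, dg (R1 (s + 1)) 𝒟 x = 0 := by
  intro x hx
  have h3 : {w | w ∈ 𝒟 ∧ R1 (s + 1) x w} = ∅ := by
    rw [Set.eq_empty_iff_forall_notMem]
    rintro w ⟨hw, hR⟩
    have hR' : (x ∩ w).ncard + 1 = s + 1 := hR
    by_cases hxw : x = w
    · subst hxw
      rw [Set.inter_self, h1 x hx] at hR'
      omega
    · have := h2 x hx w hw hxw
      omega
  unfold dg
  rw [h3, Set.ncard_empty]

theorem p_STEP2 (hGRD : Stmt_GRD) (hDNP : Stmt_DNP) (hYDG : Stmt_YDG) (hDET : Stmt_DET) :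
    Stmt_STEP2 := by
  classical
  intro n s c Λ Λs e E σ B z a KN KG 𝒞 hn hs hcs hΛ hΛs hfact hB hσ heE hz ha hKN hE hExc hstar
    hNCn hB2 hKG
  obtain ⟨code, hcode, hinj⟩ := stmt_CODE n s hs
  have h𝒞fin : 𝒞.Finite := Set.toFinite _
  choose Z hZ1 hZ2 hZ3 using fun M : Matroid (Fin n) => hGRD n E σ (YM Λ M (s + 1)) (DN Λ M s)
  -- the data
  let f : Matroid (Fin n) → Matroid (Fin n) × Set (Set (Fin n)) := fun M => (trunc M s, Lg Λ M s)
  let g1 : Matroid (Fin n) → (Matroid (Fin n) × Set (Set (Fin n))) × Set (Set (Fin n)) :=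
    fun M => (f M, Lg Λ M (s + 1))
  let g2 : Matroid (Fin n) → ((Matroid (Fin n) × Set (Set (Fin n))) × Set (Set (Fin n))) ×
      Set (Set (Fin n)) := fun M => (g1 M, Z M)
  let g3 : Matroid (Fin n) → (((Matroid (Fin n) × Set (Set (Fin n))) × Set (Set (Fin n))) ×
      Set (Set (Fin n))) × Set (Set (Fin n)) := fun M => (g2 M, US E (Z M) (DN Λ M s))
  let g4 : Matroid (Fin n) → ((((Matroid (Fin n) × Set (Set (Fin n))) × Set (Set (Fin n))) ×
      Set (Set (Fin n))) × Set (Set (Fin n))) × Set (Set (Fin n)) := fun M => (g3 M, DG Λ M s)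
  -- the first two parts of the data
  have h1 : (g1 '' 𝒞).ncard ≤ (f '' 𝒞).ncard * LK n Λ Λs (s + 1) :=
    stmt_LC n (s + 1) c Λ Λs _ f 𝒞 hn (by omega) hΛ hΛs hfact hE (by
      intro M _ M' _ hfM
      have h2 : trunc M s = trunc M' s := congrArg Prod.fst hfM
      rw [← trunc_trunc M hcs, ← trunc_trunc M' hcs, h2])
  -- the saturated sets
  have hU1 : ({Y : Set (Fin n) | Y.ncard = s + 3}).ncard ≤ z * B := by
    rw [ncard_powersetCard_univ]; exact hz
  have h2 : (g2 '' 𝒞).ncard ≤ (g1 '' 𝒞).ncard * (3 * B) ^ z := by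
    refine STEP2_fibre h𝒞fin g1 Z
      (fun _ => {𝒮 | 𝒮 ⊆ {Y : Set (Fin n) | Y.ncard = s + 3} ∧ 𝒮.ncard ≤ z}) _
      (fun _ => Set.toFinite _) ?_ ?_
    · intro M hM
      refine ⟨?_, ?_⟩
      · intro Y hY
        exact (hZ1 M hY).1
      · have h3 := hZ2 M
        have h4 := (hDNP n s Λ M (hE M hM)).2.2.2.2.1
        have h5 := hNCn M hM
        have h6 : σ * (Z M).ncard ≤ σ * z :=
          h3.trans ((Nat.mul_le_mul_left _ h4).trans h5)
        exact Nat.le_of_mul_le_mul_left h6 hσ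
    · intro M hM
      exact stmt_CNT (Set (Fin n)) _ z B (Set.toFinite _) hB hU1
  -- the unsaturated circuits
  have h3 : (g3 '' 𝒞).ncard ≤ (g2 '' 𝒞).ncard * KN := by
    refine STEP2_fibre h𝒞fin g2 (fun M => US E (Z M) (DN Λ M s))
      (fun b => FamN n (s + 1) (n * e * σ + E * (s + 3)) b.1.2) _
      (fun _ => Set.toFinite _) ?_ ?_
    · intro M hM
      obtain ⟨d1, d2, d3, d4, d5, d6, d7⟩ := hDNP n s Λ M (hE M hM)
      have hsub : US E (Z M) (DN Λ M s) ⊆ DN Λ M s := fun D hD => hD.1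
      refine ⟨hsub.trans d1, ?_, ?_⟩
      · refine STEP2_dg (fun D hD => (d1 (hsub hD)).1) ?_
        intro D hD D' hD' hne
        exact d3 D (hsub hD) D' (hsub hD') hne
      · exact hYDG n s Λ e E σ M (Z M) (hE M hM) (by omega) (hExc M hM) (hZ1 M) (hZ3 M)
    · intro M hM
      exact hKN _
  -- the circuits in the giants
  have h4 : (g4 '' 𝒞).ncard ≤ (g3 '' 𝒞).ncard * KG := by
    refine STEP2_fibre h𝒞fin g3 (fun M => DG Λ M s)
      (fun b => FamU (s + 1) {Y : Set (Fin n) | Y.ncard = s + 1 ∧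
        ∃ G ∈ b.1.1.2, n < 2 * G.ncard ∧ Y ⊆ G}) _
      (fun _ => Set.toFinite _) ?_ ?_
    · intro M hM
      obtain ⟨d1, d2, d3, d4, d5, d6, d7⟩ := hDNP n s Λ M (hE M hM)
      exact ⟨d2, STEP2_dg (fun D hD => (d2 hD).1) d4⟩
    · intro M hM
      exact hKG M hM
  -- the other blocks
  have hU2 : ({Y : Set (Fin n) | Y.ncard = s + 1}).ncard ≤ a * B := by
    rw [ncard_powersetCard_univ]; exact ha
  have h5 : ((fun M => (g4 M, code (B2 Λ M s))) '' 𝒞).ncard ≤ (g4 '' 𝒞).ncard * (3 * B) ^ a := by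
    refine STEP2_fibre h𝒞fin g4 (fun M => code (B2 Λ M s))
      (fun _ => {𝒮 | 𝒮 ⊆ {Y : Set (Fin n) | Y.ncard = s + 1} ∧ 𝒮.ncard ≤ a}) _
      (fun _ => Set.toFinite _) ?_ ?_
    · intro M hM
      obtain ⟨d1, d2, d3, d4, d5, d6, d7⟩ := hDNP n s Λ M (hE M hM)
      obtain ⟨c1, c2, c3⟩ := hcode _ d6
      refine ⟨fun Y hY => c1 Y hY, ?_⟩
      have h6 := c3 (by
        rintro A ⟨P, hP, hne, rfl⟩
        exact hstar M hM P hP)
      have h7 := hB2 M hM
      calc (code (B2 Λ M s)).ncard ≤ 2 * (B2 Λ M s).ncard := h6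
        _ ≤ 2 * {P | P ∈ NC Λ M s ∧ (star M s P).ncard ≠ s + 1}.ncard :=
            Nat.mul_le_mul_left _ d7
        _ ≤ a := h7
    · intro M hM
      exact stmt_CNT (Set (Fin n)) _ a B (Set.toFinite _) hB hU2
  -- the determined map
  have h6 := ncard_image_le_of_determined h𝒞fin (fun M => (g4 M, code (B2 Λ M s)))
    (fun M => (trunc M (s + 1), Lg Λ M (s + 1))) (by
      intro M hM M' hM' hG
      have e4 : g4 M = g4 M' := congrArg Prod.fst hG
      have e5 : code (B2 Λ M s) = code (B2 Λ M' s) := congrArg Prod.snd hG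
      have e3 : g3 M = g3 M' := congrArg Prod.fst e4
      have eDG : DG Λ M s = DG Λ M' s := congrArg Prod.snd e4
      have e2 : g2 M = g2 M' := congrArg Prod.fst e3
      have eUS : US E (Z M) (DN Λ M s) = US E (Z M') (DN Λ M' s) := congrArg Prod.snd e3
      have e1 : g1 M = g1 M' := congrArg Prod.fst e2
      have eZ : Z M = Z M' := congrArg Prod.snd e2
      have e0 : f M = f M' := congrArg Prod.fst e1
      have eL' : Lg Λ M (s + 1) = Lg Λ M' (s + 1) := congrArg Prod.snd e1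
      have eT : trunc M s = trunc M' s := congrArg Prod.fst e0
      have eL : Lg Λ M s = Lg Λ M' s := congrArg Prod.snd e0
      have eB : B2 Λ M s = B2 Λ M' s :=
        hinj _ _ (hDNP n s Λ M (hE M hM)).2.2.2.2.2.1 (hDNP n s Λ M' (hE M' hM')).2.2.2.2.2.1 e5
      rw [← eZ] at eUS
      have key := hDET n s Λ e E M M' (Z M) (hE M hM) (hE M' hM') heE (hExc M hM) (hExc M' hM')
        (hZ1 M) (by rw [eZ]; exact hZ1 M') eT eL eL' eUS eDG eB
      simp only [key, eL'])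
  calc ((fun M => (trunc M (s + 1), Lg Λ M (s + 1))) '' 𝒞).ncard
      ≤ ((fun M => (g4 M, code (B2 Λ M s))) '' 𝒞).ncard := h6
    _ ≤ (g4 '' 𝒞).ncard * (3 * B) ^ a := h5
    _ ≤ ((g3 '' 𝒞).ncard * KG) * (3 * B) ^ a := Nat.mul_le_mul_right _ h4
    _ ≤ (((g2 '' 𝒞).ncard * KN) * KG) * (3 * B) ^ a :=
        Nat.mul_le_mul_right _ (Nat.mul_le_mul_right _ h3)
    _ ≤ ((((g1 '' 𝒞).ncard * (3 * B) ^ z) * KN) * KG) * (3 * B) ^ a :=
        Nat.mul_le_mul_right _ (Nat.mul_le_mul_right _ (Nat.mul_le_mul_right _ h2))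
    _ ≤ (((((f '' 𝒞).ncard * LK n Λ Λs (s + 1)) * (3 * B) ^ z) * KN) * KG) * (3 * B) ^ a :=
        Nat.mul_le_mul_right _ (Nat.mul_le_mul_right _ (Nat.mul_le_mul_right _
          (Nat.mul_le_mul_right _ h1)))
    _ = (f '' 𝒞).ncard *
      (LK n Λ Λs (s + 1) * (3 * B) ^ z * (3 * B) ^ a * KN * KG) := by ring

end Pool.F3LT
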