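import Pool.Agent.Work.MP_f3d170_lt.Interface

/-! Block STEPL. -/

set_option autoImplicit false

open Set Matroid Nat
open Pool.Agent.Work.MP_f3d170_co_h45
open Pool.Agent.Work.MP_f3d170_co_helper60
open Pool.Agent.Work.MP_f3d170_co_helper60b (trunc Gen IsHyp HasGen star StarSet Rec IsPart
  trunc_eRank)
open Pool.Agent.Work.MP_f3d170_co_helper44

namespace Pool.F3LT

/-- the number of blocks with `s + 2` elements -/
lemma STEPL_card {n s : ℕ} {𝒲 : Set (Set (Fin n))} (h : IsPart s 𝒲)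
    (h2 : ∀ P ∈ 𝒲, P.ncard = s + 2) : (s + 1) * (s + 2) * 𝒲.ncard ≤ 2 * n.choose s := by
  classical
  have h3 := part_sum h
  have h4 : ∑ P ∈ 𝒲.toFinite.toFinset, P.ncard.choose s = 𝒲.ncard * (s + 2).choose s := by
    have e1 : ∀ P ∈ 𝒲.toFinite.toFinset, P.ncard.choose s = (s + 2).choose s := by
      intro P hP
      rw [h2 P ((Set.Finite.mem_toFinset _).1 hP)]
    rw [Finset.sum_congr rfl e1, Finset.sum_const, smul_eq_mul,
      Set.ncard_eq_toFinset_card 𝒲 𝒲.toFinite]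
  rw [h4] at h3
  have h5 : 2 * (s + 2).choose s = (s + 1) * (s + 2) := by
    rw [Nat.choose_symm_of_eq_add (show s + 2 = s + 2 from rfl), Nat.choose_two_right,
      Nat.two_mul_div_two_of_even (Nat.even_mul_pred_self _)]
    have : s + 2 - 1 = s + 1 := by omega
    rw [this, Nat.mul_comm]
  calc (s + 1) * (s + 2) * 𝒲.ncard = 2 * (𝒲.ncard * (s + 2).choose s) := by rw [← h5]; ring
    _ ≤ 2 * n.choose s := Nat.mul_le_mul_left _ h3

/-- a subfamily of a partition -/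
lemma STEPL_sub {n s : ℕ} {𝒲 𝒲' : Set (Set (Fin n))} (h : IsPart s 𝒲) (h' : 𝒲' ⊆ 𝒲) :
    IsPart s 𝒲' :=
  ⟨fun P hP => h.1 P (h' hP), fun P hP Q hQ hc => h.2 P (h' hP) Q (h' hQ) hc⟩

/-- the blocks with `s + 1` elements -/
def STEPL_B1 {n : ℕ} (Λ s : ℕ) (T : Matroid (Fin n)) : Set (Set (Fin n)) :=
  {A | A ∈ Bk T s (Lg Λ T s) ∧ A.ncard = s + 1}

/-- the other blocks -/
def STEPL_B2 {n : ℕ} (Λ s : ℕ) (T : Matroid (Fin n)) : Set (Set (Fin n)) :=
  {A | A ∈ Bk T s (Lg Λ T s) ∧ A.ncard ≠ s + 1}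

lemma STEPL_union {n : ℕ} (Λ s : ℕ) (T : Matroid (Fin n)) :
    STEPL_B1 Λ s T ∪ STEPL_B2 Λ s T = Bk T s (Lg Λ T s) := by
  ext A
  constructor
  · rintro (h | h)
    · exact h.1
    · exact h.1
  · intro h
    by_cases hA : A.ncard = s + 1
    · exact Or.inl ⟨h, hA⟩
    · exact Or.inr ⟨h, hA⟩

lemma STEPL_famU {n : ℕ} (Λ s : ℕ) {T : Matroid (Fin n)} (hE : T.E = Set.univ) :
    STEPL_B1 Λ s T ∈ FamU (s + 1) {X : Set (Fin n) | X.ncard = s + 1} := by
  refine ⟨fun A hA => hA.2, fun x hx => ?_⟩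
  unfold dg
  have h0 : {w | w ∈ STEPL_B1 Λ s T ∧ R1 (s + 1) x w} = ∅ := by
    rw [Set.eq_empty_iff_forall_notMem]
    rintro w ⟨hw, hR⟩
    have h1 : (x ∩ w).ncard + 1 = s + 1 := hR
    have h2 := (isPart_Bk hE (Lg Λ T s)).2 x hx.1 w hw.1 (by omega)
    rw [← h2, Set.inter_self] at h1
    have h3 := hx.2
    omega
  rw [h0, Set.ncard_empty]

theorem p_STEPL : Stmt_STEPL := by
  classical
  intro n s c Λ Λs B a K₁ hn hs hcs hΛ hΛs hfact hB hΛ3 hNs hNs1 hK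
  obtain ⟨code, hcode, hinj⟩ := stmt_CODE n s hs
  set 𝒞 : Set (Matroid (Fin n)) := LowU n (s + 1) with h𝒞
  have hE : ∀ M ∈ 𝒞, M.E = Set.univ := fun M hM => hM.1
  -- the first part of the data
  have h1 := stmt_LC n s c Λ Λs _ (fun M => trunc M s) 𝒞 hn (by omega) hΛ hΛs hfact hE (by
    intro M _ M' _ hfM
    have h2 : trunc M s = trunc M' s := hfM
    rw [← trunc_trunc M hcs, ← trunc_trunc M' hcs, h2])
  have h2 : ((fun M => trunc M s) '' 𝒞).ncard ≤ (LowU n s).ncard := by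
    refine Set.ncard_le_ncard ?_ (Set.toFinite _)
    rintro _ ⟨M, hM, rfl⟩
    exact ⟨hM.1, trunc_eRank M⟩
  set g : Matroid (Fin n) → Matroid (Fin n) × Set (Set (Fin n)) :=
    fun M => (trunc M s, Lg Λ M s) with hg
  -- the families of the codes
  set U : Set (Set (Fin n)) := {Y | Y.ncard = s + 1} with hU
  have hUc : U.ncard ≤ a * B := by
    rw [hU, ncard_powersetCard_univ]; exact hNs1
  have h4 := stmt_CNT (Set (Fin n)) U a B (Set.toFinite _) hB hUc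
  set 𝒲 : Set (Set (Set (Fin n))) := {𝒮 | 𝒮 ⊆ U ∧ 𝒮.ncard ≤ a} with h𝒲
  have hp2 : ∀ M ∈ 𝒞, IsPart s (STEPL_B2 Λ s M) := fun M hM =>
    STEPL_sub (isPart_Bk (hE M hM) (Lg Λ M s)) fun A hA => hA.1
  have hsz : ∀ M ∈ 𝒞, ∀ P ∈ STEPL_B2 Λ s M, P.ncard = s + 2 := by
    intro M hM P hP
    have e1 := (hp2 M hM).1 P hP
    have e2 := hP.2
    obtain ⟨Q, hQ, hQL, hgen, rfl⟩ := hP.1
    have e3 : bn M s Q < Λ := by
      by_contra hcon
      exact hQL ⟨hQ, not_lt.1 hcon⟩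
    have e4 := stmt_N1 n s Λ M Q (hE M hM) hQ hgen e3 hΛ3
    omega
  have hmem : ∀ M ∈ 𝒞, (g M, (STEPL_B1 Λ s M, code (STEPL_B2 Λ s M))) ∈
      (g '' 𝒞) ×ˢ ((FamU (s + 1) {X : Set (Fin n) | X.ncard = s + 1}) ×ˢ 𝒲) := by
    intro M hM
    refine ⟨⟨M, hM, rfl⟩, STEPL_famU Λ s (hE M hM), ?_, ?_⟩
    · intro Y hY
      exact (hcode _ (hp2 M hM)).1 Y hY
    · have h6 := (hcode _ (hp2 M hM)).2.2 (fun P hP => (hsz M hM P hP).le)
      have h7 := STEPL_card (hp2 M hM) (hsz M hM)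
      have h8 : 2 * (STEPL_B2 Λ s M).ncard ≤ a := by
        have h9 : (s + 1) * (s + 2) * (2 * (STEPL_B2 Λ s M).ncard) ≤ (s + 1) * (s + 2) * a := by
          calc (s + 1) * (s + 2) * (2 * (STEPL_B2 Λ s M).ncard)
              = 2 * ((s + 1) * (s + 2) * (STEPL_B2 Λ s M).ncard) := by ring
            _ ≤ 2 * (2 * n.choose s) := Nat.mul_le_mul_left _ h7
            _ = 4 * n.choose s := by ring
            _ ≤ a * ((s + 1) * (s + 2)) := hNs
            _ = (s + 1) * (s + 2) * a := by ring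
        exact Nat.le_of_mul_le_mul_left h9 (by positivity)
      exact h6.trans h8
  have hinjD : Set.InjOn (fun M => (g M, (STEPL_B1 Λ s M, code (STEPL_B2 Λ s M)))) 𝒞 := by
    intro T hT T' hT' h
    simp only [Prod.mk.injEq, hg] at h
    obtain ⟨⟨ht, hL⟩, hb1, hb2⟩ := h
    have hb2' := hinj _ _ (hp2 T hT) (hp2 T' hT') hb2
    have hb : Bk T s (Lg Λ T s) = Bk T' s (Lg Λ T' s) := by
      rw [← STEPL_union, ← STEPL_union, hb1, hb2']
    refine Matroid.ext_indep (by rw [hE T hT, hE T' hT']) ?_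
    intro I _
    rcases Nat.lt_trichotomy I.ncard (s + 1) with hlt | heq | hgt
    · exact indep_congr_of_trunc ht (by omega)
    · rw [← not_iff_not, dep_iff_Bk (hE T hT) (𝓖 := Lg Λ T s) (fun P hP => hP.1) heq,
        dep_iff_Bk (hE T' hT') (𝓖 := Lg Λ T' s) (fun P hP => hP.1) heq, ht, hb, hL]
    · constructor
      · intro hI
        have := ncard_le_of_eRank hT.2 hI
        omega
      · intro hI
        have := ncard_le_of_eRank hT'.2 hI
        omega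
  have h5 := Set.ncard_le_ncard_of_injOn _ hmem hinjD (Set.toFinite _)
  rw [Set.ncard_prod, Set.ncard_prod] at h5
  calc 𝒞.ncard ≤ (g '' 𝒞).ncard *
        ((FamU (s + 1) {X : Set (Fin n) | X.ncard = s + 1}).ncard * 𝒲.ncard) := h5
    _ ≤ ((LowU n s).ncard * LK n Λ Λs s) * (K₁ * (3 * B) ^ a) :=
        Nat.mul_le_mul (h1.trans (Nat.mul_le_mul_right _ h2)) (Nat.mul_le_mul hK h4)
    _ = (LowU n s).ncard * (LK n Λ Λs s * (3 * B) ^ a * K₁) := by ring

end Pool.F3LT
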