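import Pool.Agent.Work.MP_f3d170_lt.Interface

set_option autoImplicit false

/-! # MP_f3d170_co, LINEAR upper threshold, block SUP1 -/

namespace Pool.F3LT

namespace X_SUP1

variable {n j : ℕ}

open Classical in
/-- the members of the family as a finset -/
noncomputable def AF (A : Set (Set (Fin n))) : Finset (Set (Fin n)) :=
  Finset.univ.filter (fun X => X ∈ A)

theorem mem_AF {A : Set (Set (Fin n))} {X : Set (Fin n)} : X ∈ AF A ↔ X ∈ A := by
  simp [AF]

theorem AF_card (A : Set (Set (Fin n))) : (AF A).card = A.ncard := by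
  rw [← Set.ncard_coe_finset]
  congr 1
  ext X
  rw [Finset.mem_coe, mem_AF]

/-- the pairs -/
abbrev Pr (n : ℕ) : Type := Set (Fin n) × Fin n

/-- the image of a pair -/
def img (t : Pr n) : Set (Fin n) := t.1 \ {t.2}

open Classical in
/-- the flags of a family -/
noncomputable def Fl (A : Set (Set (Fin n))) : Finset (Pr n) :=
  Finset.univ.filter fun t => t.1 ∈ A ∧ t.2 ∈ t.1

theorem mem_Fl {A : Set (Set (Fin n))} {t : Pr n} : t ∈ Fl A ↔ (t.1 ∈ A ∧ t.2 ∈ t.1) := by
  simp [Fl]

open Classical in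
theorem Fl_card {A : Set (Set (Fin n))} (hA : ∀ X ∈ A, X.ncard = j) :
    (Fl A).card = j * A.ncard := by
  have h1 : (Fl A).card = ∑ X ∈ AF A, ((Fl A).filter (fun t => t.1 = X)).card :=
    Finset.card_eq_sum_card_fiberwise (fun t ht => by
      rw [Finset.mem_coe] at ht ⊢
      exact mem_AF.2 (mem_Fl.1 ht).1)
  have h2 : ∀ X ∈ AF A, ((Fl A).filter (fun t => t.1 = X)).card = j := by
    intro X hX
    rw [mem_AF] at hX
    have h4 : X.ncard = j := hA X hX
    have h5 : (Fl A).filter (fun t => t.1 = X) =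
        (X.toFinset).image (fun x => ((X, x) : Pr n)) := by
      ext t
      rw [Finset.mem_filter, mem_Fl, Finset.mem_image]
      constructor
      · rintro ⟨⟨g1, g2⟩, g3⟩
        refine ⟨t.2, ?_, ?_⟩
        · rw [Set.mem_toFinset, ← g3]
          exact g2
        · rw [← g3]
      · rintro ⟨x, g1, rfl⟩
        rw [Set.mem_toFinset] at g1
        exact ⟨⟨hX, g1⟩, rfl⟩
    rw [h5, Finset.card_image_of_injective, ← Set.ncard_eq_toFinset_card', h4]
    intro x y hxy
    exact congrArg Prod.snd hxy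
  rw [h1, Finset.sum_congr rfl h2, Finset.sum_const, AF_card, smul_eq_mul, mul_comm]

open Classical in
/-- the shadow -/
noncomputable def Sh (U : Set (Set (Fin n))) : Finset (Set (Fin n)) := (Fl U).image img

open Classical in
/-- the shadow is small -/
theorem Sh_card {U : Set (Set (Fin n))} (hU : ∀ X ∈ U, X.ncard = j) (hE : ExtP n U) :
    2 * n * (Sh U).card ≤ 5 * (j * U.ncard) := by
  have h1 : (Fl U).card = ∑ S ∈ Sh U, ((Fl U).filter (fun t => img t = S)).card :=
    Finset.card_eq_sum_card_fiberwise (fun t ht => by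
      rw [Finset.mem_coe] at ht ⊢
      exact Finset.mem_image_of_mem _ ht)
  have h2 : ∀ S ∈ Sh U, 2 * n ≤ 5 * ((Fl U).filter (fun t => img t = S)).card := by
    intro S hS
    obtain ⟨t, ht, rfl⟩ := Finset.mem_image.1 hS
    obtain ⟨g1, g2⟩ := mem_Fl.1 ht
    refine (hE t.1 g1 t.2 g2).trans (Nat.mul_le_mul_left _ ?_)
    rw [Set.ncard_eq_toFinset_card']
    apply Finset.card_le_card_of_injOn (fun z => ((insert z (img t), z) : Pr n))
    · intro z hz
      rw [Finset.mem_coe, Set.mem_toFinset] at hz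
      obtain ⟨hz1, hz2⟩ := hz
      rw [Finset.mem_coe, Finset.mem_filter, mem_Fl]
      refine ⟨⟨hz2, Set.mem_insert _ _⟩, ?_⟩
      exact Set.insert_diff_self_of_notMem hz1
    · intro z _ z' _ h
      exact congrArg Prod.snd h
  rw [← Fl_card hU, h1, Finset.mul_sum, mul_comm (2 * n), ← smul_eq_mul, ← Finset.sum_const]
  exact Finset.sum_le_sum h2

open Classical in
/-- pairs of flags with the same image -/
noncomputable def QP (A : Set (Set (Fin n))) : Finset (Pr n × Pr n) :=
  ((Fl A) ×ˢ (Fl A)).filter (fun p => img p.1 = img p.2)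

open Classical in
theorem cauchy {A U : Set (Set (Fin n))} (hA : A ⊆ U) :
    (Fl A).card ^ 2 ≤ (Sh U).card * (QP A).card := by
  have hm : ∀ t ∈ Fl A, img t ∈ Sh U := by
    intro t ht
    obtain ⟨g1, g2⟩ := mem_Fl.1 ht
    exact Finset.mem_image_of_mem _ (mem_Fl.2 ⟨hA g1, g2⟩)
  have h1 : (Fl A).card = ∑ I ∈ Sh U, ((Fl A).filter (fun t => img t = I)).card :=
    Finset.card_eq_sum_card_fiberwise (fun t ht => by
      rw [Finset.mem_coe] at ht ⊢
      exact hm t ht)
  have h2 : (QP A).card = ∑ I ∈ Sh U, ((Fl A).filter (fun t => img t = I)).card ^ 2 := by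
    have h3 : (QP A).card = ∑ I ∈ Sh U, ((QP A).filter (fun p => img p.1 = I)).card :=
      Finset.card_eq_sum_card_fiberwise (fun p hp => by
        rw [Finset.mem_coe, QP, Finset.mem_filter, Finset.mem_product] at hp
        rw [Finset.mem_coe]
        exact hm _ hp.1.1)
    rw [h3]
    apply Finset.sum_congr rfl
    intro I _
    have h4 : (QP A).filter (fun p => img p.1 = I) =
        ((Fl A).filter (fun t => img t = I)) ×ˢ ((Fl A).filter (fun t => img t = I)) := by
      ext p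
      rw [Finset.mem_filter, QP, Finset.mem_filter, Finset.mem_product, Finset.mem_product,
        Finset.mem_filter, Finset.mem_filter]
      constructor
      · rintro ⟨⟨⟨g1, g2⟩, g3⟩, g4⟩
        exact ⟨⟨g1, g4⟩, g2, g3.symm.trans g4⟩
      · rintro ⟨⟨g1, g4⟩, g2, g3⟩
        exact ⟨⟨⟨g1, g2⟩, g4.trans g3.symm⟩, g4⟩
    rw [h4, Finset.card_product, sq]
  rw [h1, h2]
  exact sq_sum_le_card_mul_sum_sq

/-- two different members with the same flag image -/
theorem pair {X X' : Set (Fin n)} {x x' : Fin n} (hX : X.ncard = j) (hX' : X'.ncard = j)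
    (hx : x ∈ X) (hx' : x' ∈ X') (hI : X \ {x} = X' \ {x'}) (hne : X ≠ X') :
    X ∩ X' = X \ {x} ∧ x ∉ X' := by
  have h1 : x ∉ X' := by
    intro h
    apply hne
    have h2 : X ⊆ X' := by
      intro u hu
      by_cases hux : u = x
      · exact hux ▸ h
      · have h3 : u ∈ X \ {x} := ⟨hu, hux⟩
        rw [hI] at h3
        exact h3.1
    exact Set.eq_of_subset_of_ncard_le h2 (by omega) (Set.toFinite _)
  refine ⟨?_, h1⟩
  ext u
  constructor
  · rintro ⟨g1, g2⟩
    exact ⟨g1, fun h => h1 (h ▸ g2)⟩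
  · intro g
    refine ⟨g.1, ?_⟩
    rw [hI] at g
    exact g.1

open Classical in
theorem QP_card {A : Set (Set (Fin n))} (hj : 1 ≤ j) (hA : ∀ X ∈ A, X.ncard = j) :
    (QP A).card ≤ j * A.ncard + ∑ X ∈ AF A, dg (R1 j) A X := by
  have h1 : (QP A).card = ((QP A).filter (fun p => p.1 = p.2)).card +
      ((QP A).filter (fun p => ¬ p.1 = p.2)).card :=
    (Finset.card_filter_add_card_filter_not _).symm
  have h2 : ((QP A).filter (fun p => p.1 = p.2)).card ≤ j * A.ncard := by
    rw [← Fl_card hA]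
    apply Finset.card_le_card_of_injOn (fun p => p.1)
    · intro p hp
      rw [Finset.mem_coe, Finset.mem_filter, QP, Finset.mem_filter, Finset.mem_product] at hp
      exact hp.1.1.1
    · intro p hp q hq h
      rw [Finset.mem_coe, Finset.mem_filter] at hp hq
      have h' : p.1 = q.1 := h
      exact Prod.ext h' (by rw [← hp.2, ← hq.2, h'])
  have h3 : ((QP A).filter (fun p => ¬ p.1 = p.2)).card ≤ ∑ X ∈ AF A, dg (R1 j) A X := by
    have h4 : ∑ X ∈ AF A, dg (R1 j) A X =
        ((AF A).sigma (fun X => AF {w | w ∈ A ∧ R1 j X w})).card := by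
      rw [Finset.card_sigma]
      apply Finset.sum_congr rfl
      intro X _
      rw [AF_card]
      rfl
    rw [h4]
    have key : ∀ p : Pr n × Pr n, p ∈ (QP A).filter (fun p => ¬ p.1 = p.2) →
        p.1.1 ∈ A ∧ p.2.1 ∈ A ∧ p.1.2 ∈ p.1.1 ∧ p.2.2 ∈ p.2.1 ∧
          p.1.1 \ {p.1.2} = p.2.1 \ {p.2.2} ∧ p.1.1 ≠ p.2.1 := by
      intro p hp
      rw [Finset.mem_filter, QP, Finset.mem_filter, Finset.mem_product, mem_Fl, mem_Fl] at hp
      obtain ⟨⟨⟨⟨a1, a2⟩, a3, a4⟩, a5⟩, a6⟩ := hp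
      refine ⟨a1, a3, a2, a4, a5, ?_⟩
      intro h
      apply a6
      refine Prod.ext h ?_
      by_contra hne
      have h5 : p.1.2 ∈ p.2.1 \ {p.2.2} := ⟨h ▸ a2, hne⟩
      have h6 : p.1.2 ∈ p.1.1 \ {p.1.2} := by
        have : p.1.1 \ {p.1.2} = p.2.1 \ {p.2.2} := a5
        rw [this]
        exact h5
      exact h6.2 rfl
    apply Finset.card_le_card_of_injOn
      (fun p => (⟨p.1.1, p.2.1⟩ : (_ : Set (Fin n)) × Set (Fin n)))
    · intro p hp
      rw [Finset.mem_coe] at hp
      obtain ⟨a1, a2, a3, a4, a5, a6⟩ := key p hp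
      rw [Finset.mem_coe, Finset.mem_sigma, mem_AF, mem_AF]
      refine ⟨a1, a2, ?_⟩
      obtain ⟨b1, -⟩ := pair (hA _ a1) (hA _ a2) a3 a4 a5 a6
      unfold R1
      simp only
      rw [b1, Set.ncard_diff_singleton_add_one a3 (Set.toFinite _), hA _ a1]
    · intro p hp q hq h
      rw [Finset.mem_coe] at hp hq
      obtain ⟨a1, a2, a3, a4, a5, a6⟩ := key p hp
      obtain ⟨c1, c2, c3, c4, c5, c6⟩ := key q hq
      simp only [Sigma.mk.injEq, heq_eq_eq] at h
      obtain ⟨e1, e2⟩ := h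
      have b1 := (pair (hA _ a1) (hA _ a2) a3 a4 a5 a6)
      have b2 := (pair (hA _ a2) (hA _ a1) a4 a3 a5.symm a6.symm)
      have d1 := (pair (hA _ c1) (hA _ c2) c3 c4 c5 c6)
      have d2 := (pair (hA _ c2) (hA _ c1) c4 c3 c5.symm c6.symm)
      have f1 : p.1.2 = q.1.2 := by
        by_contra hne
        have g1 : p.1.2 ∈ q.1.1 \ {q.1.2} := ⟨e1 ▸ a3, hne⟩
        rw [← d1.1, ← e1, ← e2] at g1
        exact b1.2 g1.2
      have f2 : p.2.2 = q.2.2 := by
        by_contra hne
        have g1 : p.2.2 ∈ q.2.1 \ {q.2.2} := ⟨e2 ▸ a4, hne⟩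
        rw [← d2.1, ← e1, ← e2] at g1
        exact b2.2 g1.2
      exact Prod.ext (Prod.ext e1 f1) (Prod.ext e2 f2)
  omega

end X_SUP1

open X_SUP1 in
theorem p_SUP1 : Stmt_SUP1 := by
  intro n j U A hn hj hU hE hA hne hbig
  by_contra hcon
  push Not at hcon
  have hAj : ∀ X ∈ A, X.ncard = j := fun X hX => hU X (hA hX)
  have h1 := Sh_card hU hE
  have h2 := cauchy hA
  have h3 := QP_card hj hAj
  rw [Fl_card hAj] at h2
  have hApos : 0 < A.ncard := (Set.ncard_pos (Set.toFinite _)).2 hne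
  have h4 : 5 * U.ncard * ∑ X ∈ AF A, dg (R1 j) A X < j * n * A.ncard * A.ncard := by
    rw [Finset.mul_sum, ← AF_card A, mul_comm _ (AF A).card, ← smul_eq_mul (AF A).card,
      ← Finset.sum_const]
    apply Finset.sum_lt_sum_of_nonempty
    · rw [← Finset.card_pos, AF_card]
      exact hApos
    · intro X hX
      rw [AF_card]
      exact hcon X (mem_AF.1 hX)
  set D := ∑ X ∈ AF A, dg (R1 j) A X
  set a := A.ncard
  set u := U.ncard
  set s := (Sh U).card
  set q := (QP A).card
  have h5 : 2 * n * (j * a) ^ 2 ≤ 5 * (j * u) * (j * a + D) := by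
    calc 2 * n * (j * a) ^ 2 ≤ 2 * n * (s * q) := Nat.mul_le_mul_left _ h2
      _ = 2 * n * s * q := by ring
      _ ≤ 5 * (j * u) * (j * a + D) := Nat.mul_le_mul h1 h3
  have h6 : 5 * (j * u) * (j * a + D) < 2 * n * (j * a) ^ 2 := by
    have e1 : 5 * (j * u) * (j * a + D) = j * (j * (5 * u) * a + 5 * u * D) := by ring
    have e2 : 2 * n * (j * a) ^ 2 = j * (j * (n * a) * a + j * n * a * a) := by ring
    rw [e1, e2]
    apply Nat.mul_lt_mul_of_pos_left _ (by omega)
    have e3 : j * (5 * u) * a ≤ j * (n * a) * a :=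
      Nat.mul_le_mul_right _ (Nat.mul_le_mul_left _ hbig)
    omega
  omega

end Pool.F3LT
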