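import Pool.Agent.Work.MP_f3d170_lt.Interface

set_option autoImplicit false

/-! # MP_f3d170_co, LINEAR upper threshold, block SUP2 -/

namespace Pool.F3LT

namespace X_SUP2

open Pool.Agent.Work.MP_f3d170_co_helper44

variable {n j : ℕ}

/-- the allowed new elements -/
def YY (𝓖 : Set (Set (Fin n))) (X : Set (Fin n)) : Set (Fin n) :=
  {y | y ∉ X ∧ ∀ G ∈ 𝓖, X ⊆ G → y ∉ G}

theorem YY_card {𝓖 : Set (Set (Fin n))} {X : Set (Fin n)} (hj : 2 * j ≤ n)
    (hX : X ∈ Un n j 𝓖) : n ≤ 2 * (YY 𝓖 X).ncard := by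
  have h1 := Set.ncard_add_ncard_compl (YY 𝓖 X)
  rw [Nat.card_eq_fintype_card, Fintype.card_fin] at h1
  obtain ⟨hc, hG, hu⟩ := hX
  have h2 : 2 * ((YY 𝓖 X)ᶜ).ncard ≤ n := by
    by_cases hex : ∃ G ∈ 𝓖, X ⊆ G
    · obtain ⟨G, hGm, hXG⟩ := hex
      have h3 : (YY 𝓖 X)ᶜ ⊆ G := by
        intro y hy
        by_contra hyG
        apply hy
        refine ⟨fun hyX => hyG (hXG hyX), fun G' hG' hXG' hyG' => ?_⟩
        rw [hu G hGm G' hG' hXG hXG'] at hyG
        exact hyG hyG'
      have h4 := Set.ncard_le_ncard h3 (Set.toFinite G)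
      have h5 := hG G hGm hXG
      omega
    · have h3 : (YY 𝓖 X)ᶜ ⊆ X := by
        intro y hy
        by_contra hyX
        apply hy
        exact ⟨hyX, fun G' hG' hXG' => absurd ⟨G', hG', hXG'⟩ hex⟩
      have h4 := Set.ncard_le_ncard h3 (Set.toFinite X)
      omega
  omega

/-- the triples -/
abbrev Tr (n : ℕ) : Type := Set (Fin n) × Fin n × Fin n

/-- the image of a triple -/
def img (t : Tr n) : Set (Fin n) := insert t.2.2 (t.1 \ {t.2.1})

open Classical in
/-- the members of the family as a finset -/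
noncomputable def AF (A : Set (Set (Fin n))) : Finset (Set (Fin n)) :=
  Finset.univ.filter (fun X => X ∈ A)

theorem mem_AF {A : Set (Set (Fin n))} {X : Set (Fin n)} : X ∈ AF A ↔ X ∈ A := by
  simp [AF]

theorem AF_card (A : Set (Set (Fin n))) : (AF A).card = A.ncard := by
  rw [← Set.ncard_coe_finset]
  congr 1
  ext X
  rw [Finset.mem_coe, mem_AF]

open Classical in
/-- admissible triples -/
noncomputable def Adm (𝓖 A : Set (Set (Fin n))) : Finset (Tr n) :=
  Finset.univ.filter fun t => t.1 ∈ A ∧ t.2.1 ∈ t.1 ∧ t.2.2 ∈ YY 𝓖 t.1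

theorem mem_Adm {𝓖 A : Set (Set (Fin n))} {t : Tr n} :
    t ∈ Adm 𝓖 A ↔ (t.1 ∈ A ∧ t.2.1 ∈ t.1 ∧ t.2.2 ∈ YY 𝓖 t.1) := by
  simp [Adm]

open Classical in
theorem Adm_card {𝓖 A : Set (Set (Fin n))} (hj : 2 * j ≤ n) (hA : A ⊆ Un n j 𝓖) :
    j * n * A.ncard ≤ 2 * (Adm 𝓖 A).card := by
  have h1 : (Adm 𝓖 A).card = ∑ X ∈ AF A, ((Adm 𝓖 A).filter (fun t => t.1 = X)).card :=
    Finset.card_eq_sum_card_fiberwise (fun t ht => by
      rw [Finset.mem_coe] at ht ⊢
      exact mem_AF.2 (mem_Adm.1 ht).1)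
  have h2 : ∀ X ∈ AF A, j * n ≤ 2 * ((Adm 𝓖 A).filter (fun t => t.1 = X)).card := by
    intro X hX
    rw [mem_AF] at hX
    have h3 := YY_card hj (hA hX)
    have h4 : X.ncard = j := (hA hX).1
    have h5 : X.toFinset.card * (YY 𝓖 X).toFinset.card ≤
        ((Adm 𝓖 A).filter (fun t => t.1 = X)).card := by
      rw [← Finset.card_product]
      apply Finset.card_le_card_of_injOn (fun p => ((X, p.1, p.2) : Tr n))
      · intro p hp
        rw [Finset.mem_coe, Finset.mem_product, Set.mem_toFinset, Set.mem_toFinset] at hp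
        rw [Finset.mem_coe, Finset.mem_filter, mem_Adm]
        exact ⟨⟨hX, hp.1, hp.2⟩, rfl⟩
      · intro p _ q _ hpq
        simp only [Prod.mk.injEq, true_and] at hpq
        exact Prod.ext hpq.1 hpq.2
    rw [← Set.ncard_eq_toFinset_card', ← Set.ncard_eq_toFinset_card', h4] at h5
    calc j * n ≤ j * (2 * (YY 𝓖 X).ncard) := Nat.mul_le_mul_left _ h3
      _ = 2 * (j * (YY 𝓖 X).ncard) := by ring
      _ ≤ _ := Nat.mul_le_mul_left _ h5
  rw [h1, Finset.mul_sum, ← AF_card A, mul_comm, ← smul_eq_mul, ← Finset.sum_const]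
  exact Finset.sum_le_sum h2

/-- images of admissible triples have `j` elements -/
theorem img_card {𝓖 A : Set (Set (Fin n))} (hA : A ⊆ Un n j 𝓖) {t : Tr n} (ht : t ∈ Adm 𝓖 A) :
    (img t).ncard = j := by
  obtain ⟨h1, h2, h3⟩ := mem_Adm.1 ht
  have h4 : t.1.ncard = j := (hA h1).1
  unfold img
  rw [Set.ncard_insert_of_notMem (fun h => h3.1 h.1) (Set.toFinite _),
    Set.ncard_diff_singleton_add_one h2 (Set.toFinite _), h4]

open Classical in
/-- pairs with the same image -/
noncomputable def QQ' (𝓖 A : Set (Set (Fin n))) : Finset (Tr n × Tr n) :=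
  ((Adm 𝓖 A) ×ˢ (Adm 𝓖 A)).filter (fun p => img p.1 = img p.2)

open Classical in
theorem cauchy {𝓖 A : Set (Set (Fin n))} (hA : A ⊆ Un n j 𝓖) :
    (Adm 𝓖 A).card ^ 2 ≤ n.choose j * (QQ' 𝓖 A).card := by
  set P : Finset (Set (Fin n)) := AF {I | I.ncard = j} with hP
  have hPc : P.card = n.choose j := by rw [hP, AF_card, ncard_level]
  have h1 : (Adm 𝓖 A).card = ∑ I ∈ P, ((Adm 𝓖 A).filter (fun t => img t = I)).card :=
    Finset.card_eq_sum_card_fiberwise (fun t ht => by
      rw [Finset.mem_coe] at ht ⊢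
      rw [hP, mem_AF]
      exact img_card hA ht)
  have h2 : (QQ' 𝓖 A).card = ∑ I ∈ P, ((Adm 𝓖 A).filter (fun t => img t = I)).card ^ 2 := by
    have h3 : (QQ' 𝓖 A).card = ∑ I ∈ P, ((QQ' 𝓖 A).filter (fun p => img p.1 = I)).card :=
      Finset.card_eq_sum_card_fiberwise (fun p hp => by
        rw [Finset.mem_coe, QQ', Finset.mem_filter, Finset.mem_product] at hp
        rw [Finset.mem_coe, hP, mem_AF]
        exact img_card hA hp.1.1)
    rw [h3]
    apply Finset.sum_congr rfl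
    intro I _
    have h4 : (QQ' 𝓖 A).filter (fun p => img p.1 = I) =
        ((Adm 𝓖 A).filter (fun t => img t = I)) ×ˢ ((Adm 𝓖 A).filter (fun t => img t = I)) := by
      ext p
      rw [Finset.mem_filter, QQ', Finset.mem_filter, Finset.mem_product, Finset.mem_product,
        Finset.mem_filter, Finset.mem_filter]
      constructor
      · rintro ⟨⟨⟨g1, g2⟩, g3⟩, g4⟩
        exact ⟨⟨g1, g4⟩, g2, g3.symm.trans g4⟩
      · rintro ⟨⟨g1, g4⟩, g2, g3⟩
        exact ⟨⟨⟨g1, g2⟩, g4.trans g3.symm⟩, g4⟩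
    rw [h4, Finset.card_product, sq]
  rw [h1, h2, ← hPc]
  exact sq_sum_le_card_mul_sum_sq

/-! ### The structure of a pair -/

section
variable {X X' : Set (Fin n)} {x y x' y' : Fin n}

theorem s1 (hI : insert y (X \ {x}) = insert y' (X' \ {x'})) (hy : y ∉ X) {u : Fin n}
    (hu : u ∈ X) (hu' : u ∉ X') : u = x ∨ u = y' := by
  by_cases hux : u = x
  · exact Or.inl hux
  · right
    have h1 : u ∈ insert y' (X' \ {x'}) := by
      rw [← hI]
      exact Or.inr ⟨hu, hux⟩
    rcases h1 with h1 | h1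
    · exact h1
    · exact absurd h1.1 hu'

theorem s2 (hI : insert y (X \ {x}) = insert y' (X' \ {x'})) (hx : x ∈ X) (hy : y ∉ X)
    (hxx : x ≠ x') : x ∉ X' := by
  intro h
  have h1 : x ∈ insert y (X \ {x}) := by
    rw [hI]
    exact Or.inr ⟨h, hxx⟩
  rcases h1 with h1 | h1
  · exact hy (h1 ▸ hx)
  · exact h1.2 rfl

theorem s3 (hI : insert y (X \ {x}) = insert y' (X' \ {x'})) (hyy : y ≠ y') :
    y ∈ X' ∧ y ≠ x' := by
  have h1 : y ∈ insert y' (X' \ {x'}) := by
    rw [← hI]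
    exact Or.inl rfl
  rcases h1 with h1 | h1
  · exact absurd h1 hyy
  · exact ⟨h1.1, h1.2⟩

theorem s4 (hI : insert y (X \ {x}) = insert y (X' \ {x})) (hx : x ∈ X) (hx' : x ∈ X')
    (hy : y ∉ X) (hy' : y ∉ X') : X = X' := by
  ext u
  constructor
  · intro hu
    by_contra hu'
    rcases s1 hI hy hu hu' with h | h
    · exact hu' (h ▸ hx')
    · exact hy (h ▸ hu)
  · intro hu
    by_contra hu'
    rcases s1 hI.symm hy' hu hu' with h | h
    · exact hu' (h ▸ hx)
    · exact hy' (h ▸ hu)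

end

/-- the type of a pair in `QQ'` -/
theorem types {𝓖 A : Set (Set (Fin n))} (hA : A ⊆ Un n j 𝓖) {X X' : Set (Fin n)}
    {x y x' y' : Fin n} (hX : X ∈ A) (hX' : X' ∈ A) (hx : x ∈ X) (hx' : x' ∈ X')
    (hy : y ∈ YY 𝓖 X) (hy' : y' ∈ YY 𝓖 X')
    (hI : insert y (X \ {x}) = insert y' (X' \ {x'})) :
    (X = X' ∧ x = x' ∧ y = y') ∨
    (x = x' ∧ y ≠ y' ∧ X \ X' = {y'} ∧ X' \ X = {y}) ∨
    (x ≠ x' ∧ y = y' ∧ X \ X' = {x} ∧ X' \ X = {x'}) ∨
    (x ≠ x' ∧ y ≠ y' ∧ x ≠ y' ∧ x' ≠ y ∧ X \ X' = {x, y'} ∧ X' \ X = {x', y}) := by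
  by_cases hxx : x = x'
  · by_cases hyy : y = y'
    · subst hxx hyy
      exact Or.inl ⟨s4 hI hx hx' hy.1 hy'.1, rfl, rfl⟩
    · right
      left
      refine ⟨hxx, hyy, ?_, ?_⟩
      · apply Set.Subset.antisymm
        · rintro u ⟨hu, hu'⟩
          rcases s1 hI hy.1 hu hu' with h | h
          · exact absurd (by rw [h, hxx]; exact hx') hu'
          · exact h
        · rintro u rfl
          exact ⟨(s3 hI.symm (Ne.symm hyy)).1, hy'.1⟩
      · apply Set.Subset.antisymm
        · rintro u ⟨hu, hu'⟩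
          rcases s1 hI.symm hy'.1 hu hu' with h | h
          · exact absurd (by rw [h, ← hxx]; exact hx) hu'
          · exact h
        · rintro u rfl
          exact ⟨(s3 hI hyy).1, hy.1⟩
  · by_cases hyy : y = y'
    · right
      right
      left
      refine ⟨hxx, hyy, ?_, ?_⟩
      · apply Set.Subset.antisymm
        · rintro u ⟨hu, hu'⟩
          rcases s1 hI hy.1 hu hu' with h | h
          · exact h
          · exact absurd (by rw [hyy, ← h]; exact hu) hy.1
        · rintro u rfl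
          exact ⟨hx, s2 hI hx hy.1 hxx⟩
      · apply Set.Subset.antisymm
        · rintro u ⟨hu, hu'⟩
          rcases s1 hI.symm hy'.1 hu hu' with h | h
          · exact h
          · exact absurd (by rw [← hyy, ← h]; exact hu) hy'.1
        · rintro u rfl
          exact ⟨hx', s2 hI.symm hx' hy'.1 (Ne.symm hxx)⟩
    · right
      right
      right
      refine ⟨hxx, hyy, (s3 hI.symm (Ne.symm hyy)).2.symm, (s3 hI hyy).2.symm, ?_, ?_⟩
      · apply Set.Subset.antisymm
        · rintro u ⟨hu, hu'⟩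
          rcases s1 hI hy.1 hu hu' with h | h
          · exact Or.inl h
          · exact Or.inr h
        · rintro u (rfl | rfl)
          · exact ⟨hx, s2 hI hx hy.1 hxx⟩
          · exact ⟨(s3 hI.symm (Ne.symm hyy)).1, hy'.1⟩
      · apply Set.Subset.antisymm
        · rintro u ⟨hu, hu'⟩
          rcases s1 hI.symm hy'.1 hu hu' with h | h
          · exact Or.inl h
          · exact Or.inr h
        · rintro u (rfl | rfl)
          · exact ⟨hx', s2 hI.symm hx' hy'.1 (Ne.symm hxx)⟩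
          · exact ⟨(s3 hI hyy).1, hy.1⟩

open Classical in
/-- the pairs of members in a relation -/
noncomputable def EE (A : Set (Set (Fin n))) (R : Set (Fin n) → Set (Fin n) → Prop) :
    Finset (Set (Fin n) × Set (Fin n)) :=
  ((AF A) ×ˢ (AF A)).filter (fun p => R p.1 p.2)

open Classical in
theorem EE_card (A : Set (Set (Fin n))) (R : Set (Fin n) → Set (Fin n) → Prop) :
    (EE A R).card = ∑ X ∈ AF A, dg R A X := by
  unfold EE
  rw [Finset.card_filter, Finset.sum_product]
  apply Finset.sum_congr rfl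
  intro X _
  rw [← Finset.card_filter]
  unfold dg
  rw [← Set.ncard_coe_finset]
  congr 1
  ext W
  rw [Finset.mem_coe, Finset.mem_filter, mem_AF]
  rfl

theorem mem_QQ {𝓖 A : Set (Set (Fin n))} {p : Tr n × Tr n} (hp : p ∈ QQ' 𝓖 A) :
    (p.1.1 ∈ A ∧ p.1.2.1 ∈ p.1.1 ∧ p.1.2.2 ∈ YY 𝓖 p.1.1) ∧
    (p.2.1 ∈ A ∧ p.2.2.1 ∈ p.2.1 ∧ p.2.2.2 ∈ YY 𝓖 p.2.1) ∧ img p.1 = img p.2 := by
  rw [QQ', Finset.mem_filter, Finset.mem_product] at hp
  exact ⟨mem_Adm.1 hp.1.1, mem_Adm.1 hp.1.2, hp.2⟩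

theorem types' {𝓖 A : Set (Set (Fin n))} (hA : A ⊆ Un n j 𝓖) {p : Tr n × Tr n}
    (hp : p ∈ QQ' 𝓖 A) :
    (p.1 = p.2) ∨
    (p.1.2.1 = p.2.2.1 ∧ p.1.2.2 ≠ p.2.2.2 ∧ p.1.1 \ p.2.1 = {p.2.2.2} ∧
      p.2.1 \ p.1.1 = {p.1.2.2}) ∨
    (p.1.2.1 ≠ p.2.2.1 ∧ p.1.2.2 = p.2.2.2 ∧ p.1.1 \ p.2.1 = {p.1.2.1} ∧
      p.2.1 \ p.1.1 = {p.2.2.1}) ∨
    (p.1.2.1 ≠ p.2.2.1 ∧ p.1.2.2 ≠ p.2.2.2 ∧ p.1.2.1 ≠ p.2.2.2 ∧ p.2.2.1 ≠ p.1.2.2 ∧
      p.1.1 \ p.2.1 = {p.1.2.1, p.2.2.2} ∧ p.2.1 \ p.1.1 = {p.2.2.1, p.1.2.2}) := by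
  obtain ⟨⟨h1, h2, h3⟩, ⟨h4, h5, h6⟩, h7⟩ := mem_QQ hp
  rcases types hA h1 h4 h2 h5 h3 h6 h7 with h | h | h | h
  · exact Or.inl (Prod.ext h.1 (Prod.ext h.2.1 h.2.2))
  · exact Or.inr (Or.inl h)
  · exact Or.inr (Or.inr (Or.inl h))
  · exact Or.inr (Or.inr (Or.inr h))

theorem type4 {𝓖 A : Set (Set (Fin n))} (hA : A ⊆ Un n j 𝓖) {p : Tr n × Tr n}
    (hp : p ∈ QQ' 𝓖 A) (hx : p.1.2.1 ≠ p.2.2.1) (hy : p.1.2.2 ≠ p.2.2.2) :
    p.1.2.1 ≠ p.2.2.2 ∧ p.2.2.1 ≠ p.1.2.2 ∧
      p.1.1 \ p.2.1 = {p.1.2.1, p.2.2.2} ∧ p.2.1 \ p.1.1 = {p.2.2.1, p.1.2.2} := by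
  rcases types' hA hp with h | h | h | h
  · exact absurd (by rw [h]) hx
  · exact absurd h.1 hx
  · exact absurd h.2.1 hy
  · exact h.2.2

open Classical in
theorem bound {𝓖 A : Set (Set (Fin n))} (hj2 : 2 ≤ j) (hA : A ⊆ Un n j 𝓖) :
    (QQ' 𝓖 A).card ≤ (Adm 𝓖 A).card + n * (EE A (R1 j)).card + 4 * (EE A (R2 j 𝓖)).card := by
  set Q0 := (QQ' 𝓖 A).filter (fun p => p.1 = p.2) with hQ0
  set Q1 := (QQ' 𝓖 A).filter (fun p => p.1 ≠ p.2 ∧
    (p.1.2.1 = p.2.2.1 ∨ p.1.2.2 = p.2.2.2)) with hQ1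
  set Q2 := (QQ' 𝓖 A).filter (fun p => p.1.2.1 ≠ p.2.2.1 ∧ p.1.2.2 ≠ p.2.2.2) with hQ2
  have hcov : QQ' 𝓖 A ⊆ Q0 ∪ Q1 ∪ Q2 := by
    intro p hp
    rw [Finset.mem_union, Finset.mem_union, hQ0, hQ1, hQ2, Finset.mem_filter, Finset.mem_filter,
      Finset.mem_filter]
    by_cases h1 : p.1 = p.2
    · exact Or.inl (Or.inl ⟨hp, h1⟩)
    · by_cases h2 : p.1.2.1 = p.2.2.1 ∨ p.1.2.2 = p.2.2.2
      · exact Or.inl (Or.inr ⟨hp, h1, h2⟩)
      · rw [not_or] at h2
        exact Or.inr ⟨hp, h2⟩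
  have hle := (Finset.card_le_card hcov).trans (Finset.card_union_le _ _)
  have hle2 := Finset.card_union_le Q0 Q1
  have c0 : Q0.card ≤ (Adm 𝓖 A).card := by
    apply Finset.card_le_card_of_injOn (fun p => p.1)
    · intro p hp
      rw [Finset.mem_coe, hQ0, Finset.mem_filter] at hp
      rw [Finset.mem_coe]
      exact mem_Adm.2 (mem_QQ hp.1).1
    · intro p hp q hq hpq
      rw [Finset.mem_coe, hQ0, Finset.mem_filter] at hp hq
      have hpq' : p.1 = q.1 := hpq
      exact Prod.ext hpq' (by rw [← hp.2, hpq', hq.2])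
  have c1 : Q1.card ≤ n * (EE A (R1 j)).card := by
    apply Finset.card_le_mul_card_image_of_maps_to (f := fun p => (p.1.1, p.2.1))
    · intro p hp
      rw [hQ1, Finset.mem_filter] at hp
      obtain ⟨hp, hne, hor⟩ := hp
      obtain ⟨g1, g2, _⟩ := mem_QQ hp
      rw [EE, Finset.mem_filter, Finset.mem_product, mem_AF, mem_AF]
      refine ⟨⟨g1.1, g2.1⟩, ?_⟩
      have h4 : p.1.1.ncard = j := (hA g1.1).1
      have h5 := Set.ncard_inter_add_ncard_diff_eq_ncard p.1.1 p.2.1
      change (p.1.1 ∩ p.2.1).ncard + 1 = j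
      rcases types' hA hp with h | h | h | h
      · exact absurd h hne
      · rw [h.2.2.1, Set.ncard_singleton] at h5
        omega
      · rw [h.2.2.1, Set.ncard_singleton] at h5
        omega
      · rcases hor with h' | h'
        · exact absurd h' h.1
        · exact absurd h' h.2.1
    · intro b _
      refine le_of_le_of_eq ?_ (Finset.card_fin n)
      apply Finset.card_le_card_of_injOn
        (fun p => if p.1.2.1 = p.2.2.1 then p.1.2.1 else p.1.2.2)
      · intro p _
        exact Finset.mem_univ _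
      · intro p hp q hq hpq
        rw [Finset.mem_coe, Finset.mem_filter, hQ1, Finset.mem_filter] at hp hq
        obtain ⟨⟨hp, hpn, hpo⟩, hpb⟩ := hp
        obtain ⟨⟨hq, hqn, hqo⟩, hqb⟩ := hq
        have hX : p.1.1 = q.1.1 := (congrArg Prod.fst hpb).trans (congrArg Prod.fst hqb).symm
        have hX' : p.2.1 = q.2.1 := (congrArg Prod.snd hpb).trans (congrArg Prod.snd hqb).symm
        obtain ⟨gp1, gp2, _⟩ := mem_QQ hp
        obtain ⟨gq1, gq2, _⟩ := mem_QQ hq
        rcases types' hA hp with h | h | h | h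
        · exact absurd h hpn
        · rcases types' hA hq with h' | h' | h' | h'
          · exact absurd h' hqn
          · simp only [h.1, h'.1, if_true] at hpq
            have e1 : p.2.2.2 = q.2.2.2 := by
              have e := h.2.2.1
              rw [hX, hX', h'.2.2.1] at e
              exact (Set.singleton_eq_singleton_iff.1 e).symm
            have e2 : p.1.2.2 = q.1.2.2 := by
              have e := h.2.2.2
              rw [hX, hX', h'.2.2.2] at e
              exact (Set.singleton_eq_singleton_iff.1 e).symm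
            exact Prod.ext (Prod.ext hX (Prod.ext (by rw [h.1, h'.1, hpq]) e2))
              (Prod.ext hX' (Prod.ext hpq e1))
          · exfalso
            simp only [h.1, if_true, h'.1, if_false] at hpq
            apply gq1.2.2.1
            rw [← hpq, ← h.1, ← hX]
            exact gp1.2.1
          · rcases hqo with h'' | h''
            · exact absurd h'' h'.1
            · exact absurd h'' h'.2.1
        · rcases types' hA hq with h' | h' | h' | h'
          · exact absurd h' hqn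
          · exfalso
            simp only [h.1, if_false, h'.1, if_true] at hpq
            apply gp1.2.2.1
            rw [hpq, ← h'.1, hX]
            exact gq1.2.1
          · simp only [h.1, h'.1, if_false] at hpq
            have e1 : p.1.2.1 = q.1.2.1 := by
              have e := h.2.2.1
              rw [hX, hX', h'.2.2.1] at e
              exact (Set.singleton_eq_singleton_iff.1 e).symm
            have e2 : p.2.2.1 = q.2.2.1 := by
              have e := h.2.2.2
              rw [hX, hX', h'.2.2.2] at e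
              exact (Set.singleton_eq_singleton_iff.1 e).symm
            exact Prod.ext (Prod.ext hX (Prod.ext e1 hpq))
              (Prod.ext hX' (Prod.ext e2 (by rw [← h.2.1, ← h'.2.1, hpq])))
          · rcases hqo with h'' | h''
            · exact absurd h'' h'.1
            · exact absurd h'' h'.2.1
        · rcases hpo with h'' | h''
          · exact absurd h'' h.1
          · exact absurd h'' h.2.1
  have c2 : Q2.card ≤ 4 * (EE A (R2 j 𝓖)).card := by
    apply Finset.card_le_mul_card_image_of_maps_to (f := fun p => (p.1.1, p.2.1))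
    · intro p hp
      rw [hQ2, Finset.mem_filter] at hp
      obtain ⟨hp, hxx, hyy⟩ := hp
      obtain ⟨g1, g2, _⟩ := mem_QQ hp
      rw [EE, Finset.mem_filter, Finset.mem_product, mem_AF, mem_AF]
      refine ⟨⟨g1.1, g2.1⟩, ?_⟩
      have h4 : p.1.1.ncard = j := (hA g1.1).1
      have h5 := Set.ncard_inter_add_ncard_diff_eq_ncard p.1.1 p.2.1
      rcases types' hA hp with h | h | h | h
      · exact absurd (by rw [h]) hxx
      · exact absurd h.1 hxx
      · exact absurd h.2.1 hyy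
      · rw [h.2.2.2.2.1, Set.ncard_pair h.2.2.1] at h5
        have h6 : (p.1.1 ∩ p.2.1).ncard + 2 = j := by omega
        refine ⟨h6, ?_⟩
        intro G hG hsub
        have hy : p.1.2.2 ∈ p.2.1 := by
          have e : p.1.2.2 ∈ p.2.1 \ p.1.1 := by
            rw [h.2.2.2.2.2]
            exact Or.inr rfl
          exact e.1
        exact g1.2.2.2 G hG (Set.subset_union_left.trans hsub) (hsub (Or.inr hy))
    · intro b _
      by_cases hne : ((Q2.filter (fun p => (p.1.1, p.2.1) = b))).Nonempty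
      · obtain ⟨r, hr⟩ := hne
        rw [Finset.mem_filter, hQ2, Finset.mem_filter] at hr
        obtain ⟨⟨hr, hrx, hry⟩, hrb⟩ := hr
        obtain ⟨r1, r2, r3, r4⟩ := type4 hA hr hrx hry
        have e1 : (b.1 \ b.2).ncard = 2 := by
          rw [← hrb]
          change (r.1.1 \ r.2.1).ncard = 2
          rw [r3, Set.ncard_pair r1]
        have e2 : (b.2 \ b.1).ncard = 2 := by
          rw [← hrb]
          change (r.2.1 \ r.1.1).ncard = 2
          rw [r4, Set.ncard_pair r2]
        have e3 : (Q2.filter (fun p => (p.1.1, p.2.1) = b)).card ≤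
            ((b.1 \ b.2).toFinset ×ˢ (b.2 \ b.1).toFinset).card := by
          apply Finset.card_le_card_of_injOn (fun p => (p.1.2.1, p.1.2.2))
          · intro p hp
            rw [Finset.mem_coe, Finset.mem_filter, hQ2, Finset.mem_filter] at hp
            obtain ⟨⟨hp, hpx, hpy⟩, hpb⟩ := hp
            obtain ⟨p1, p2, p3, p4⟩ := type4 hA hp hpx hpy
            rw [Finset.mem_coe, Finset.mem_product, Set.mem_toFinset, Set.mem_toFinset, ← hpb]
            change p.1.2.1 ∈ p.1.1 \ p.2.1 ∧ p.1.2.2 ∈ p.2.1 \ p.1.1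
            rw [p3, p4]
            exact ⟨Or.inl rfl, Or.inr rfl⟩
          · intro p hp q hq hpq
            rw [Finset.mem_coe, Finset.mem_filter, hQ2, Finset.mem_filter] at hp hq
            obtain ⟨⟨hp, hpx, hpy⟩, hpb⟩ := hp
            obtain ⟨⟨hq, hqx, hqy⟩, hqb⟩ := hq
            have hX : p.1.1 = q.1.1 := (congrArg Prod.fst hpb).trans (congrArg Prod.fst hqb).symm
            have hX' : p.2.1 = q.2.1 := (congrArg Prod.snd hpb).trans (congrArg Prod.snd hqb).symm
            obtain ⟨p1, p2, p3, p4⟩ := type4 hA hp hpx hpy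
            obtain ⟨q1, q2, q3, q4⟩ := type4 hA hq hqx hqy
            have hx : p.1.2.1 = q.1.2.1 := congrArg Prod.fst hpq
            have hy : p.1.2.2 = q.1.2.2 := congrArg Prod.snd hpq
            have f1 : p.2.2.2 = q.2.2.2 := by
              have g : p.2.2.2 ∈ p.1.1 \ p.2.1 := by
                rw [p3]
                exact Or.inr rfl
              rw [hX, hX', q3] at g
              rcases g with g | g
              · exact absurd (hx.trans g.symm) p1
              · exact g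
            have f2 : p.2.2.1 = q.2.2.1 := by
              have g : p.2.2.1 ∈ p.2.1 \ p.1.1 := by
                rw [p4]
                exact Or.inl rfl
              rw [hX, hX', q4] at g
              rcases g with g | g
              · exact g
              · exact absurd (g.trans hy.symm) p2
            exact Prod.ext (Prod.ext hX (Prod.ext hx hy)) (Prod.ext hX' (Prod.ext f2 f1))
        rw [Finset.card_product, ← Set.ncard_eq_toFinset_card', ← Set.ncard_eq_toFinset_card',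
          e1, e2] at e3
        exact e3
      · rw [Finset.not_nonempty_iff_eq_empty] at hne
        rw [hne]
        simp
  omega

end X_SUP2

open X_SUP2 in
theorem p_SUP2 : Stmt_SUP2 := by
  intro n j 𝓖 A hj2 hjn hA hne hN
  by_contra hcon
  push Not at hcon
  obtain ⟨X0, hX0⟩ := hne
  have hneF : (AF A).Nonempty := ⟨X0, mem_AF.2 hX0⟩
  have h1 : 16 * n.choose j * (EE A (R1 j)).card < A.ncard * (j ^ 2 * n * A.ncard) := by
    rw [EE_card, Finset.mul_sum, ← AF_card A, ← smul_eq_mul ((AF A).card), ← Finset.sum_const]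
    apply Finset.sum_lt_sum_of_nonempty hneF
    intro X hX
    rw [AF_card]
    exact (hcon X (mem_AF.1 hX)).1
  have h2 : 64 * n.choose j * (EE A (R2 j 𝓖)).card < A.ncard * (j ^ 2 * n ^ 2 * A.ncard) := by
    rw [EE_card, Finset.mul_sum, ← AF_card A, ← smul_eq_mul ((AF A).card), ← Finset.sum_const]
    apply Finset.sum_lt_sum_of_nonempty hneF
    intro X hX
    rw [AF_card]
    exact (hcon X (mem_AF.1 hX)).2
  have h3 := Adm_card hjn hA
  have h4 := cauchy hA
  have h5 := bound hj2 hA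
  generalize (Adm 𝓖 A).card = T at h3 h4 h5
  generalize (QQ' 𝓖 A).card = Q at h4 h5
  generalize (EE A (R1 j)).card = D1 at h1 h5
  generalize (EE A (R2 j 𝓖)).card = D2 at h2 h5
  generalize n.choose j = N at *
  generalize A.ncard = k at *
  have hn : 1 ≤ n := by omega
  have g1 : T ^ 2 ≤ N * (T + n * D1 + 4 * D2) := h4.trans (Nat.mul_le_mul_left _ h5)
  have g2 : 2 * N ≤ T := by omega
  have g3 : 2 * N * T ≤ T * T := Nat.mul_le_mul_right _ g2
  have g4 : n * (16 * N * D1) ≤ n * (k * (j ^ 2 * n * k)) := Nat.mul_le_mul_left _ h1.le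
  have g5 : (j * n * k) * (j * n * k) ≤ (2 * T) * (2 * T) := Nat.mul_le_mul h3 h3
  nlinarith

end Pool.F3LT
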