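import Pool.Agent.Work.MP_f3d170_lt.Interface

set_option autoImplicit false

/-! # MP_f3d170_co, linear threshold: the block YDG (helper88) -/

open Set Matroid Nat
open Pool.Agent.Work.MP_f3d170_co_h45
open Pool.Agent.Work.MP_f3d170_co_helper60
open Pool.Agent.Work.MP_f3d170_co_helper60b (trunc Gen IsHyp HasGen star StarSet Rec IsPart
  star_spec closure_isHyp)
open Pool.Agent.Work.MP_f3d170_co_helper44

namespace Pool.F3LT

variable {n : ℕ}

theorem YDG_union {α β : Type} [Finite α] [Finite β] (A : Set α) (f : α → Set β) (c : ℕ)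
    (h : ∀ a ∈ A, (f a).ncard ≤ c) : (⋃ a ∈ A, f a).ncard ≤ A.ncard * c := by
  classical
  refine Set.Finite.induction_on_subset A (Set.toFinite A) ?_ ?_
  · simp
  · intro a B haA hBA haB ih
    rw [Set.biUnion_insert, Set.ncard_insert_of_notMem haB (Set.toFinite _)]
    have h1 := Set.ncard_union_le (f a) (⋃ x ∈ B, f x)
    have h2 := h a haA
    nlinarith

/-- the facts about a member of `DN` -/
theorem YDG_dn {Λ s : ℕ} {M : Matroid (Fin n)} {D : Set (Fin n)} (hD : D ∈ DN Λ M s) :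
    ∃ P, IsHyp M s P ∧ D ⊆ P ∧ D.ncard = s + 1 ∧ Gen M s D ∧ D = star M s P := by
  obtain ⟨P, hP, hc, rfl⟩ := hD
  have h1 := star_spec hP.1.2.1
  exact ⟨P, hP.1.1, h1.1, hc, h1.2.2.1, rfl⟩

/-- the members of `DN` in a set with `s + 3` elements -/
theorem YDG_few {Λ s : ℕ} {M : Matroid (Fin n)}
    (h3 : ∀ D ∈ DN Λ M s, ∀ D' ∈ DN Λ M s, D ≠ D' → (D ∩ D').ncard < s) {Y : Set (Fin n)}
    (hY : Y.ncard = s + 3) : {D | D ∈ DN Λ M s ∧ D ⊆ Y}.ncard ≤ s + 3 := by
  classical
  have hex : ∀ D, D ∈ DN Λ M s ∧ D ⊆ Y → ∃ x, x ∈ Y \ D := by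
    rintro D ⟨h1, h2⟩
    obtain ⟨P, -, -, hc, -⟩ := YDG_dn h1
    have h4 := Set.ncard_sdiff_add_ncard_of_subset h2 (Set.toFinite _)
    have h5 : (Y \ D).Nonempty := by
      rw [← Set.ncard_pos (Set.toFinite _)]
      omega
    exact h5
  rcases Y.eq_empty_or_nonempty with rfl | ⟨y₀, hy₀⟩
  · simp at hY
  · let f : Set (Fin n) → Fin n := fun D =>
      if h : D ∈ DN Λ M s ∧ D ⊆ Y then (hex D h).choose else y₀
    have hf : ∀ D, D ∈ DN Λ M s → D ⊆ Y → f D ∈ Y \ D := by
      intro D h1 h2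
      have e : f D = (hex D ⟨h1, h2⟩).choose := dif_pos ⟨h1, h2⟩
      rw [e]
      exact (hex D ⟨h1, h2⟩).choose_spec
    rw [← hY]
    refine Set.ncard_le_ncard_of_injOn f ?_ ?_ (Set.toFinite _)
    · rintro D ⟨h1, h2⟩
      exact (hf D h1 h2).1
    · rintro D ⟨h1, h2⟩ D' ⟨h1', h2'⟩ he
      by_contra hne
      have h4 := h3 D h1 D' h1' hne
      obtain ⟨P, -, -, hc, -⟩ := YDG_dn h1
      obtain ⟨P', -, -, hc', -⟩ := YDG_dn h1'
      have h5 := hf D h1 h2
      have h6 := hf D' h1' h2'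
      rw [← he] at h6
      have h7 : D ∪ D' ⊆ Y \ {f D} := by
        rintro x (hx | hx)
        · refine ⟨h2 hx, ?_⟩
          rintro rfl
          exact h5.2 hx
        · refine ⟨h2' hx, ?_⟩
          intro e
          rw [Set.mem_singleton_iff] at e
          rw [e] at hx
          exact h6.2 hx
      have h8 := Set.ncard_le_ncard h7 (Set.toFinite _)
      have h9 := Set.ncard_sdiff_singleton_add_one h5.1 (Set.toFinite _)
      have h10 := Set.ncard_union_add_ncard_inter D D' (Set.toFinite _) (Set.toFinite _)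
      omega

theorem p_YDG : Stmt_DNP → Stmt_YDG := by
  classical
  intro hDNP n s Λ e E σ M 𝒵 hE hs hExc h𝒵 hσ D hD
  obtain ⟨-, -, hint, -⟩ := hDNP n s Λ M hE
  obtain ⟨hDN, hDE⟩ := hD
  obtain ⟨P, hP, hDP, hDc, hDg, hDs⟩ := YDG_dn hDN
  have hDne : D.Nonempty := by
    rw [← Set.ncard_pos (Set.toFinite _)]
    omega
  obtain ⟨x₀, hx₀⟩ := hDne
  -- the basis of `P`
  have hIc : (D \ {x₀}).ncard = s := by
    have := Set.ncard_sdiff_singleton_add_one hx₀ (Set.toFinite _)
    omega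
  have hIi : M.Indep (D \ {x₀}) := hDg _ Set.sdiff_subset hIc
  have hIP : P = M.closure (D \ {x₀}) := by
    apply hP.eq_closure hE (Set.sdiff_subset.trans hDP)
    rw [indep_iff_rk.1 hIi, hIc]
  let I : Fin n → Set (Fin n) := fun z => insert z (D \ {x₀})
  let Tz : Fin n → Set (Fin n) := fun z =>
    if (M.closure (I z) \ I z).ncard ≤ e then M.closure (I z) \ I z else ∅
  let Q : Set (Fin n) → Set (Set (Fin n)) := fun Y =>
    {D' | D' ∈ US E 𝒵 (DN Λ M s) ∧ D' ⊆ Y ∧ Y ∈ YM Λ M (s + 1) ∧ Y ∉ 𝒵}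
  have hTz : ∀ z, (Tz z).ncard ≤ e := by
    intro z
    show (if (M.closure (I z) \ I z).ncard ≤ e then M.closure (I z) \ I z else ∅).ncard ≤ e
    split_ifs with h
    · exact h
    · simp
  have hQ : ∀ Y, (Q Y).ncard ≤ σ := by
    intro Y
    by_cases h : Y ∈ YM Λ M (s + 1) ∧ Y ∉ 𝒵
    · refine (Set.ncard_le_ncard ?_ (Set.toFinite _)).trans (hσ Y h.1 h.2)
      rintro D' ⟨h1, h2, -⟩
      exact ⟨h1, h2⟩
    · have : Q Y = ∅ := by
        rw [Set.eq_empty_iff_forall_notMem]
        rintro D' ⟨-, -, h3, h4⟩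
        exact h ⟨h3, h4⟩
      rw [this]
      simp
  have hsub : {w | w ∈ US E 𝒵 (DN Λ M s) ∧ R2 (s + 1) (Lg Λ M (s + 1)) D w} ⊆
      (⋃ z ∈ (Set.univ : Set (Fin n)), ⋃ w ∈ Tz z, Q (insert z (insert w D))) ∪
      (⋃ Y ∈ {Y | Y ∈ 𝒵 ∧ D ⊆ Y}, {D' | D' ∈ DN Λ M s ∧ D' ⊆ Y}) := by
    rintro D' ⟨hD', hR1, hR2⟩
    obtain ⟨P', hP', hDP', hDc', hDg', hDs'⟩ := YDG_dn hD'.1
    by_cases hZ : D ∪ D' ∈ 𝒵
    · right
      rw [Set.mem_iUnion₂]
      exact ⟨D ∪ D', ⟨hZ, Set.subset_union_left⟩, hD'.1, Set.subset_union_right⟩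
    left
    have hc1 : (D ∪ D').ncard = s + 3 := by
      have := Set.ncard_union_add_ncard_inter D D' (Set.toFinite _) (Set.toFinite _)
      omega
    have hc2 : (D' \ D).ncard = 2 := by
      have h1 : (D' \ (D ∩ D')).ncard + (D ∩ D').ncard = D'.ncard :=
        Set.ncard_sdiff_add_ncard_of_subset Set.inter_subset_right (Set.toFinite _)
      have h2 : D' \ (D ∩ D') = D' \ D := by
        ext x
        simp only [Set.mem_sdiff, Set.mem_inter_iff]
        tauto
      rw [h2] at h1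
      omega
    obtain ⟨z, w, hzw, hzw'⟩ := Set.ncard_eq_two.1 hc2
    have hz : z ∈ D' \ D := by
      rw [hzw']
      exact Set.mem_insert _ _
    have hw : w ∈ D' \ D := by
      rw [hzw']
      exact Set.mem_insert_of_mem _ rfl
    -- `D ∩ D' + z`
    have hz0 : z ∉ D ∩ D' := fun h => hz.2 h.1
    have hSc : (insert z (D ∩ D')).ncard = s := by
      rw [Set.ncard_insert_of_notMem hz0 (Set.toFinite _)]
      omega
    have hSD' : insert z (D ∩ D') ⊆ D' := by
      rintro x (rfl | hx)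
      · exact hz.1
      · exact hx.2
    have hSi : M.Indep (insert z (D ∩ D')) := hDg' _ hSD' hSc
    have hSrk : rk M (insert z (D ∩ D')) = s := by rw [indep_iff_rk.1 hSi, hSc]
    have hP'S : P' = M.closure (insert z (D ∩ D')) :=
      hP'.eq_closure hE (hSD'.trans hDP') hSrk.ge
    have hzP : z ∉ P := by
      intro hzP
      have hPS : P = M.closure (insert z (D ∩ D')) := by
        refine hP.eq_closure hE ?_ hSrk.ge
        rintro x (rfl | hx)
        · exact hzP
        · exact hDP hx.1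
      have e1 : D = D' := by rw [hDs, hDs', hPS, hP'S]
      rw [← e1, Set.inter_self] at hR1
      omega
    -- the set `I z`
    have hzI : z ∉ D \ {x₀} := fun h => hz.2 h.1
    have hIzi : M.Indep (I z) := by
      show M.Indep (insert z (D \ {x₀}))
      rw [hIi.insert_indep_iff_of_notMem hzI]
      exact ⟨by rw [hE]; trivial, by rw [← hIP]; exact hzP⟩
    have hIzc : (I z).ncard = s + 1 := by
      show (insert z (D \ {x₀})).ncard = s + 1
      rw [Set.ncard_insert_of_notMem hzI (Set.toFinite _), hIc]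
    have hzcl : z ∈ M.closure (I z) :=
      M.subset_closure (I z) (by rw [hE]; exact Set.subset_univ _) (Set.mem_insert _ _)
    have hPcl : P ⊆ M.closure (I z) := by
      rw [hIP]
      exact M.closure_subset_closure (Set.subset_insert _ _)
    have hD'cl : D' ⊆ M.closure (I z) := by
      refine hDP'.trans ?_
      rw [hP'S]
      have h1 : insert z (D ∩ D') ⊆ M.closure (I z) := by
        rintro x (rfl | hx)
        · exact hzcl
        · exact hPcl (hDP hx.1)
      exact (M.closure_subset_closure h1).trans (M.closure_closure _).subset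
    have hYcl : D ∪ D' ⊆ M.closure (I z) := Set.union_subset (hDP.trans hPcl) hD'cl
    have hIzY : I z ⊆ D ∪ D' := by
      rintro x (rfl | hx)
      · exact Or.inr hz.1
      · exact Or.inl hx.1
    have hIrk : rk M (I z) = s + 1 := by rw [indep_iff_rk.1 hIzi, hIzc]
    have hYrk : rk M (D ∪ D') = s + 1 := by
      apply le_antisymm
      · rw [← hIrk]
        exact rk_le_of_subset_closure hYcl
      · rw [← hIrk]
        exact rk_mono M hIzY
    have hYM : D ∪ D' ∈ YM Λ M (s + 1) := ⟨by rw [hc1], hYrk, hR2⟩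
    have hbn : bn M (s + 1) (M.closure (I z)) < Λ := by
      by_contra hcon
      push Not at hcon
      exact hR2 _ ⟨closure_isHyp hIrk, hcon⟩ hYcl
    have hex := hExc (I z) hIzi hIzc hbn
    have hwT : w ∈ Tz z := by
      have e1 : Tz z = M.closure (I z) \ I z := if_pos hex
      rw [e1]
      refine ⟨hD'cl hw.1, ?_⟩
      rintro (h | h)
      · exact hzw h.symm
      · exact hw.2 h.1
    have hY : insert z (insert w D) = D ∪ D' := by
      ext x
      simp only [Set.mem_insert_iff, Set.mem_union]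
      constructor
      · rintro (rfl | rfl | h)
        · exact Or.inr hz.1
        · exact Or.inr hw.1
        · exact Or.inl h
      · rintro (h | h)
        · exact Or.inr (Or.inr h)
        · by_cases hxD : x ∈ D
          · exact Or.inr (Or.inr hxD)
          · have h1 : x ∈ D' \ D := ⟨h, hxD⟩
            rw [hzw'] at h1
            rcases h1 with h1 | h1
            · exact Or.inl h1
            · exact Or.inr (Or.inl h1)
    rw [Set.mem_iUnion₂]
    refine ⟨z, Set.mem_univ _, ?_⟩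
    rw [Set.mem_iUnion₂]
    refine ⟨w, hwT, ?_⟩
    rw [hY]
    exact ⟨hD', Set.subset_union_right, hYM, hZ⟩
  unfold dg
  refine (Set.ncard_le_ncard hsub (Set.toFinite _)).trans ((Set.ncard_union_le _ _).trans ?_)
  apply Nat.add_le_add
  · have h1 := YDG_union (Set.univ : Set (Fin n))
      (fun z => ⋃ w ∈ Tz z, Q (insert z (insert w D))) (e * σ) (by
        intro z _
        refine (YDG_union (Tz z) (fun w => Q (insert z (insert w D))) σ
          (fun w _ => hQ _)).trans ?_
        exact Nat.mul_le_mul_right _ (hTz z))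
    rw [Set.ncard_univ, Nat.card_fin] at h1
    rw [mul_assoc]
    exact h1
  · have h1 := YDG_union {Y | Y ∈ 𝒵 ∧ D ⊆ Y} (fun Y => {D' | D' ∈ DN Λ M s ∧ D' ⊆ Y}) (s + 3)
      (by
        rintro Y ⟨hY, -⟩
        exact YDG_few hint (h𝒵 hY).1)
    exact h1.trans (Nat.mul_le_mul_right _ hDE)

end Pool.F3LT
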