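import Pool.Agent.Work.MP_f3d170_lt.Asm2
import Pool.Agent.Work.MP_f3d170_lt.B_CONT
import Pool.Agent.Work.MP_f3d170_lt.B_SUP1
import Pool.Agent.Work.MP_f3d170_lt.B_SUP2
import Pool.Agent.Work.MP_f3d170_lt.B_GRD
import Pool.Agent.Work.MP_f3d170_lt.B_HG2
import Pool.Agent.Work.MP_f3d170_lt.B_KKL
import Pool.Agent.Work.MP_f3d170_lt.B_CFN
import Pool.Agent.Work.MP_f3d170_lt.B_CFG
import Pool.Agent.Work.MP_f3d170_lt.B_GIE
import Pool.Agent.Work.MP_f3d170_lt.B_FLJ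
import Pool.Agent.Work.MP_f3d170_lt.B_SATD
import Pool.Agent.Work.MP_f3d170_lt.B_DNP
import Pool.Agent.Work.MP_f3d170_lt.B_YDG
import Pool.Agent.Work.MP_f3d170_lt.B_DET
import Pool.Agent.Work.MP_f3d170_lt.B_NCN2
import Pool.Agent.Work.MP_f3d170_lt.B_NCG2
import Pool.Agent.Work.MP_f3d170_lt.B_STEP2
import Pool.Agent.Work.MP_f3d170_lt.B_STEPL
import Pool.Agent.Work.MP_f3d170_lt.B_FINS
import Pool.Agent.Work.MP_f3d170_lt.B_RPL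
import Pool.Agent.Work.MP_f3d170_lt.B_N8
import Pool.Agent.Work.MP_f3d170_lt.B_NUA2
import Pool.Agent.Work.MP_f3d170_lt.B_NBJ
import Pool.Agent.Work.MP_f3d170_lt.B_NBL
import Pool.Agent.Work.MP_f3d170_lt.B_NUF2
import Pool.Agent.Work.MP_f3d170_lt.B_NUS2
import Pool.Agent.Work.MP_f3d170_lt.B_NUT2

set_option autoImplicit false

/-! # The linear upper threshold: the theorem -/

open Pool.Agent.Work.MP_f3d170_co_h45

namespace Pool.F3LT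

theorem q_CFN : Stmt_CFN := p_CFN p_CONT p_SUP2
theorem q_CFG : Stmt_CFG := p_CFG p_CONT p_SUP1
theorem q_FLJ : Stmt_FLJ := p_FLJ p_HG2
theorem q_YDG : Stmt_YDG := p_YDG p_DNP
theorem q_DET : Stmt_DET := p_DET p_SATD
theorem q_STEP2 : Stmt_STEP2 := p_STEP2 p_GRD p_DNP q_YDG q_DET
theorem q_N8 : Stmt_N8 := p_N8 (p_RPL p_KKL)
theorem q_NUF2 : Stmt_NUF2 := p_NUF2 p_NBL
theorem q_NUS2 : Stmt_NUS2 := p_NUS2 p_NBJ

/-- More circuits than bases for `n` at least a constant times `r`. -/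
theorem main (k : ℕ) (hk : 1 ≤ k) :
    ∃ R C, ∀ r n, 3 ≤ r → ((R ≤ r ∧ 1200 * (k + 1) * r ≤ n) ∨ C * r ≤ n ∨
        (2 * r * (k + 1)) ^ 24 ≤ n) →
      ∀ 𝒩 : Finset (RankMatroid n r), IsTransversal 𝒩 →
        ∑ M ∈ 𝒩, numBases M.1 < ∑ M ∈ 𝒩, numCircuits M.1 ∧
        k ^ 2 * (n * ∑ M ∈ 𝒩, numBases M.1) ≤
          (k + 1) ^ 2 * ((r + 1) * ∑ M ∈ 𝒩, numCircuits M.1) :=
  Asm_main (Asm_ratio q_CFN q_CFG p_GIE q_FLJ p_NCN2 p_NCG2 q_STEP2 p_STEPL p_FINS q_N8 p_NUA2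
    q_NUF2 q_NUS2 p_NUT2) k hk

end Pool.F3LT
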