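import Pool.Agent.Work.MP_f3d170_lt.Interface2

set_option autoImplicit false

/-! # Assembly of the linear upper threshold (over the blocks) -/

open Set Matroid Nat
open Pool.Agent.Work.MP_f3d170_co_h45
open Pool.Agent.Work.MP_f3d170_co_helper60
open Pool.Agent.Work.MP_f3d170_co_helper60b (trunc Gen IsHyp HasGen star StarSet Rec IsPart
  closure_isHyp trunc_eRank trunc_indep main_final)
open Pool.Agent.Work.MP_f3d170_co_helper44

namespace Pool.F3LT

variable {n : ℕ}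

/-! ### Small arithmetic -/

lemma Asm_conv {n : ℕ} (hL : 2 ≤ pL n) (F : ℕ) : (3 * n ^ 8) ^ F ≤ 2 ^ (9 * pL n * F) := by
  have h1 : n < 2 ^ pL n := Nat.lt_pow_succ_log_self (by norm_num) n
  have h3 : 3 ≤ 2 ^ pL n :=
    le_trans (by norm_num) (Nat.pow_le_pow_right (by norm_num : 0 < 2) hL)
  have h2 : 3 * n ^ 8 ≤ 2 ^ (9 * pL n) := by
    calc 3 * n ^ 8 ≤ 2 ^ pL n * (2 ^ pL n) ^ 8 :=
          Nat.mul_le_mul h3 (Nat.pow_le_pow_left h1.le 8)
      _ = 2 ^ (9 * pL n) := by rw [← pow_mul, ← pow_add]; congr 1; ring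
  calc (3 * n ^ 8) ^ F ≤ (2 ^ (9 * pL n)) ^ F := Nat.pow_le_pow_left h2 F
    _ = _ := by rw [← pow_mul]

lemma Asm_lt_mul (a b : ℕ) (hb : 0 < b) : a ≤ b * (a / b + 1) :=
  (Nat.lt_mul_div_succ a hb).le

lemma Asm_z {j n N q E l x : ℕ} (hj : 1 ≤ j) (hn : 1 ≤ n) (hl : 1 ≤ l)
    (hx : j * n * x ≤ 4 * q * N) (hq : (E + 1) * (4 * q) ≤ l ^ 15) :
    (E + 1) * x ≤ l ^ 20 * (N / (j * n * l ^ 5) + 1) := by
  have h1 := Asm_lt_mul N (j * n * l ^ 5) (by positivity)
  set z := N / (j * n * l ^ 5) + 1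
  have h2 : (j * n) * ((E + 1) * x) ≤ (j * n) * (l ^ 20 * z) := by
    calc (j * n) * ((E + 1) * x) = (E + 1) * (j * n * x) := by ring
      _ ≤ (E + 1) * (4 * q * N) := Nat.mul_le_mul_left _ hx
      _ = ((E + 1) * (4 * q)) * N := by ring
      _ ≤ l ^ 15 * (j * n * l ^ 5 * z) := Nat.mul_le_mul hq h1
      _ = _ := by ring
  exact Nat.le_of_mul_le_mul_left h2 (by positivity)

lemma Asm_a {j n N Nr q l v g x y : ℕ} (hj : 1 ≤ j) (hn : 1 ≤ n) (hNr : 1 ≤ Nr)
    (hx : (j + 1) * j * n * x ≤ 8 * q * N) (hq : q ≤ l ^ 2)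
    (hy : (j + 1) * n * y ≤ 16 * g) (hg : 4 * g * Nr ≤ 25 * v * N) :
    2 * (x + y) ≤ 16 * l ^ 2 * N / (j ^ 2 * n) + 200 * v * N / (j * n * Nr) + 2 := by
  have h1 : 2 * x ≤ 16 * l ^ 2 * N / (j ^ 2 * n) := by
    rw [Nat.le_div_iff_mul_le (by positivity)]
    calc 2 * x * (j ^ 2 * n) = 2 * (j * j * n * x) := by ring
      _ ≤ 2 * ((j + 1) * j * n * x) := by gcongr; omega
      _ ≤ 2 * (8 * q * N) := Nat.mul_le_mul_left _ hx
      _ ≤ 2 * (8 * l ^ 2 * N) := by gcongr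
      _ = _ := by ring
  have h2 : 2 * y ≤ 200 * v * N / (j * n * Nr) := by
    rw [Nat.le_div_iff_mul_le (by positivity)]
    calc 2 * y * (j * n * Nr) = 2 * Nr * (j * n * y) := by ring
      _ ≤ 2 * Nr * ((j + 1) * n * y) := by gcongr; omega
      _ ≤ 2 * Nr * (16 * g) := Nat.mul_le_mul_left _ hy
      _ = 8 * (4 * g * Nr) := by ring
      _ ≤ 8 * (25 * v * N) := Nat.mul_le_mul_left _ hg
      _ = _ := by ring
  omega

/-! ### First pass: the number of matroids of rank at most `r - 1` -/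

theorem low_step (hCFG : Stmt_CFG) (hGIE : Stmt_GIE) (hSTEPL : Stmt_STEPL) {k r n : ℕ}
    (hA : NumA k r n) (hB : NumB k r n) (i : ℕ) (h1 : r / 2 + 1 ≤ i) (h2 : i + 2 ≤ r) :
    (LowU n (i + 1)).ncard ≤ (LowU n i).ncard *
      (LK n (pLam k r n) (pLs r) i * 2 ^ bitL n i) := by
  have a1 := hA.h8
  have a2 := hA.hr
  have b1 := hB.h20
  have hn : 1 ≤ n := by omega
  have hL := hB.hL
  have hnL : n < 2 ^ pL n := Nat.lt_pow_succ_log_self (by norm_num) n
  have hΛ1 : 1 ≤ pLam k r n := by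
    unfold pLam pH pL
    exact Nat.succ_le_of_lt (by positivity)
  have hn8 : 1 ≤ n ^ 8 := Nat.one_le_pow _ _ hn
  have hlv : {X : Set (Fin n) | X.ncard = i + 1}.ncard = n.choose (i + 1) := ncard_level n (i + 1)
  have hK : (FamU (i + 1) {X : Set (Fin n) | X.ncard = i + 1}).ncard ≤
      (3 * n ^ 8) ^ FL n (i + 1) * 2 ^ mL n (i + 1) := by
    refine hCFG n (i + 1) (n.choose (i + 1)) (mL n (i + 1))
      (5 * n.choose (i + 1) / ((i + 1) * n) + 1) (pL n) (FL n (i + 1)) (n ^ 8) _ hn (by omega)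
      (fun X hX => hX) (hGIE n (i + 1) 1 (Matroid.loopyOn Set.univ) (by omega) (by omega)).2
      hlv.le (Nat.le_add_left 1 _) (Nat.le_add_left 1 _) hn8 ?_ ?_ ?_ ?_ ?_
    · unfold mL
      exact Asm_lt_mul _ _ (by omega)
    · exact Asm_lt_mul _ _ (by positivity)
    · have h3 : 5 * n.choose (i + 1) ≤ n * mL n (i + 1) := by
        unfold mL
        exact Asm_lt_mul _ _ (by omega)
      have h4 : n * mL n (i + 1) ≤ 2 ^ pL n * mL n (i + 1) := Nat.mul_le_mul_right _ hnL.le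
      omega
    · unfold FL
      exact le_rfl
    · have h3 : 5 * n.choose (i + 1) ≤
          ((i + 1) * n) * (5 * n.choose (i + 1) / ((i + 1) * n) + 1) :=
        Asm_lt_mul _ _ (by positivity)
      have h4 : 5 * n.choose (i + 1) / ((i + 1) * n) + 1 ≤ FL n (i + 1) := by
        unfold FL
        nlinarith [Nat.zero_le (5 * n.choose (i + 1) / ((i + 1) * n)), Nat.zero_le (pL n)]
      calc n.choose (i + 1) ≤ 5 * n.choose (i + 1) := by omega
        _ ≤ _ := h3
        _ ≤ (n * n) * FL n (i + 1) := Nat.mul_le_mul (Nat.mul_le_mul_right _ (by omega)) h4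
        _ = FL n (i + 1) * n ^ 2 := by ring
        _ ≤ FL n (i + 1) * n ^ 8 :=
          Nat.mul_le_mul_left _ (Nat.pow_le_pow_right hn (by norm_num))
  have h3 := hSTEPL n i (r / 2) (pLam k r n) (pLs r) (n ^ 8) (aL n i) _ hn (by omega) (by omega)
    hΛ1 hA.hLs (pLs_spec r) hn8 (hA.lam3.trans (choose3_mono (by omega))) (by
      unfold aL
      exact (Asm_lt_mul _ _ (by positivity)).trans (le_of_eq (mul_comm _ _))) (by
      have h4 : 4 * n.choose i ≤ ((i + 1) * (i + 2)) * aL n i := by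
        unfold aL
        exact Asm_lt_mul _ _ (by positivity)
      have h5 : n.choose (i + 1) ≤ n.choose i * n := by
        have := Nat.choose_succ_right_eq n i
        calc n.choose (i + 1) ≤ n.choose (i + 1) * (i + 1) := Nat.le_mul_of_pos_right _ (by omega)
          _ = n.choose i * (n - i) := this
          _ ≤ _ := Nat.mul_le_mul_left _ (by omega)
      calc n.choose (i + 1) ≤ n.choose i * n := h5
        _ ≤ (4 * n.choose i) * n := Nat.mul_le_mul_right _ (by omega)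
        _ ≤ (((i + 1) * (i + 2)) * aL n i) * n := Nat.mul_le_mul_right _ h4
        _ ≤ ((n * n) * aL n i) * n := by
            refine Nat.mul_le_mul_right _ (Nat.mul_le_mul_right _ ?_)
            exact Nat.mul_le_mul (by omega) (by omega)
        _ = aL n i * n ^ 3 := by ring
        _ ≤ aL n i * n ^ 8 :=
          Nat.mul_le_mul_left _ (Nat.pow_le_pow_right hn (by norm_num))) hK
  refine h3.trans (Nat.mul_le_mul_left _ ?_)
  rw [mul_assoc]
  refine Nat.mul_le_mul_left _ ?_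
  calc (3 * n ^ 8) ^ aL n i * ((3 * n ^ 8) ^ FL n (i + 1) * 2 ^ mL n (i + 1))
      ≤ 2 ^ (9 * pL n * aL n i) * (2 ^ (9 * pL n * FL n (i + 1)) * 2 ^ mL n (i + 1)) :=
        Nat.mul_le_mul (Asm_conv hL _) (Nat.mul_le_mul_right _ (Asm_conv hL _))
    _ = 2 ^ bitL n i := by
        rw [← pow_add, ← pow_add]
        congr 1
        unfold bitL
        ring

theorem low_all (hCFG : Stmt_CFG) (hGIE : Stmt_GIE) (hSTEPL : Stmt_STEPL) {k r n : ℕ}
    (hA : NumA k r n) (hB : NumB k r n) :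
    (LowU n (r - 1)).ncard ≤ lowC k r n := by
  have a1 := hA.h8
  have a2 := hA.hr
  have key : ∀ d, r / 2 + 1 + d ≤ r - 1 → (LowU n (r / 2 + 1 + d)).ncard ≤
      (LowU n (r / 2 + 1)).ncard * ∏ i ∈ Finset.Ico (r / 2 + 1) (r / 2 + 1 + d),
        (LK n (pLam k r n) (pLs r) i * 2 ^ bitL n i) := by
    intro d
    induction d with
    | zero => intro _; simp
    | succ d ih =>
      intro hd
      have h1 := ih (by omega)
      have h2 := low_step hCFG hGIE hSTEPL hA hB (r / 2 + 1 + d) (by omega) (by omega)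
      rw [← add_assoc, Finset.prod_Ico_succ_top (by omega), ← mul_assoc]
      exact h2.trans (Nat.mul_le_mul_right _ h1)
  obtain ⟨d, hd⟩ : ∃ d, r - 1 = r / 2 + 1 + d := ⟨r - 1 - (r / 2 + 1), by omega⟩
  have h1 := key d hd.ge
  rw [← hd] at h1
  have h2 := lowU_half stmt_CRUDE (n := n) (r := r) a1 a2
  refine h1.trans ?_
  unfold lowC
  refine Nat.mul_le_mul h2 (le_of_eq ?_)
  congr 1
  ext i
  simp only [Finset.mem_Ico, Finset.mem_Icc]
  omega

/-- The matroids with many sets of rank at most `s - 1` are rare. -/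
theorem at0_rare2 (hCFG : Stmt_CFG) (hGIE : Stmt_GIE) (hSTEPL : Stmt_STEPL) {k s : ℕ}
    (hA : NumA k (s + 1) n) (hB : NumB k (s + 1) n)
    (hF : 2 * pH k * n ! * lowC k (s + 1) n ≤ 2 ^ (n.choose (s + 1) / (8 * n))) :
    pH k * n ! * (At0 n s).ncard ≤ Nat.card (RankMatroid n (s + 1)) := by
  have a1 := hA.h8
  have a2 := hA.hr
  set m := Nat.card (RankMatroid n (s + 1)) with hm
  have hm1 : 1 ≤ m := by
    have : Nonempty (RankMatroid n (s + 1)) := nonempty_rankMatroid (by omega)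
    exact Nat.card_pos
  set g := n.choose (s + 1) / (8 * n) with hg
  have hng : ∀ M ∈ At0 n s, n * g ≤ (Rm (trunc M s) s ((fun _ => ∅ :
      Matroid (Fin n) → Set (Set (Fin n))) M)).ncard := by
    intro M hM
    have h1 : 8 * n * g ≤ n.choose (s + 1) := Nat.mul_div_le _ _
    have h2 := hM.2
    show n * g ≤ (Rm (trunc M s) s ∅).ncard
    nlinarith
  have h1 := stmt_E4 n s g (fun _ => ∅) (At0 n s) (by omega) (fun M hM => hM.1)
    (fun M _ P hP => absurd hP (Set.notMem_empty _)) hng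
  have h2 : ((fun M => (trunc M s, (∅ : Set (Set (Fin n))))) '' (At0 n s)).ncard ≤
      (LowU n s).ncard := by
    refine Set.ncard_le_ncard_of_injOn (fun p => p.1) ?_ ?_ (lowU_finite _ _)
    · rintro _ ⟨M, hM, rfl⟩
      exact trunc_mem_lowU hM.1.1 s
    · rintro _ ⟨M, hM, rfl⟩ _ ⟨M', hM', rfl⟩ h
      simp only at h ⊢
      rw [h]
  have h3 : (LowU n s).ncard ≤ lowC k (s + 1) n := by
    have := low_all hCFG hGIE hSTEPL hA hB
    rwa [show s + 1 - 1 = s by omega] at this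
  set X := lowC k (s + 1) n with hX
  have h4 : (pH k * n ! * (At0 n s).ncard) * 2 ^ g ≤ m * 2 ^ g := by
    calc (pH k * n ! * (At0 n s).ncard) * 2 ^ g
        = pH k * n ! * ((At0 n s).ncard * 2 ^ g) := by ring
      _ ≤ pH k * n ! * (((fun M => (trunc M s, (∅ : Set (Set (Fin n))))) '' (At0 n s)).ncard *
          (m + 1)) := Nat.mul_le_mul_left _ h1
      _ ≤ pH k * n ! * (X * (m + 1)) :=
          Nat.mul_le_mul_left _ (Nat.mul_le_mul_right _ (h2.trans h3))
      _ ≤ pH k * n ! * (X * (2 * m)) := by gcongr; omega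
      _ = m * (2 * pH k * n ! * X) := by ring
      _ ≤ m * 2 ^ g := Nat.mul_le_mul_left _ hF
  exact Nat.le_of_mul_le_mul_right h4 (by positivity)

/-! ### Second pass -/

/-- The structure of one level for a matroid with few sets of rank at most `s - 1`. -/
theorem Asm_level (hFLJ : Stmt_FLJ) (hNCN2 : Stmt_NCN2) (hNCG2 : Stmt_NCG2) {k s' v : ℕ}
    (hA : NumA k (s' + 1) n) (hB : NumB k (s' + 1) n) (M : Matroid (Fin n))
    (hE : M.E = Set.univ)
    (h8 : 8 * (Rm (trunc M s') s' ∅).ncard < n.choose (s' + 1))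
    (hv : (Rm (trunc M s') s' (Lg (pLam k (s' + 1) n) M s')).ncard = v) (s : ℕ)
    (hs1 : (s' + 1) / 2 + 1 ≤ s) (hs2 : s + 1 ≤ s') :
    Exc (pLam k (s' + 1) n) (pe (s' + 1)) M (s + 1) ∧
    (∀ P ∈ NC (pLam k (s' + 1) n) M s, (star M s P).ncard ≤ s + 2) ∧
    (pE (s' + 1) + 1) * (NCn (pLam k (s' + 1) n) M s).ncard ≤
      ps (s' + 1) * zJ (s' + 1) n (s + 1) ∧
    2 * {P | P ∈ NC (pLam k (s' + 1) n) M s ∧ (star M s P).ncard ≠ s + 1}.ncard ≤
      aJ (s' + 1) n v (s + 1) ∧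
    (Gi (pLam k (s' + 1) n) M (s + 1) (s + 1)).ncard ≤ gJ (s' + 1) n v (s + 1) := by
  set Λ := pLam k (s' + 1) n with hΛ
  have a1 := hA.h8
  have a2 := hA.hr
  have a3 := hA.lam3
  have a4 := hA.lam2
  have a5 := hA.h60
  have a6 := hA.lamm
  have hNr : 1 ≤ n.choose (s' + 1) := Nat.choose_pos (by omega)
  have hnl : ∀ P ∈ NC Λ M s, IsHyp M s P ∧ HasGen M s P ∧ bn M s P < Λ := by
    rintro P ⟨h1, h2, h3⟩
    refine ⟨h1, h2, ?_⟩
    by_contra hcon
    exact h3 (Or.inl ⟨h1, not_lt.1 hcon⟩)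
  have h38 : ∀ P ∈ NC Λ M s, 8 * P.ncard ≤ 3 * n := by
    intro P hP
    obtain ⟨h1, h2, h3⟩ := hnl P hP
    exact stmt_P38 n s' s Λ (3 * pL n) M P hE a1 (by omega) a4 (by omega) h1 h3 h8
  have hst : ∀ P ∈ NC Λ M s, (star M s P).ncard ≤ s + 2 := by
    intro P hP
    obtain ⟨h1, h2, h3⟩ := hnl P hP
    exact stmt_N1 n s Λ M P hE h1 h2 h3 (a3.trans (choose3_mono (by omega)))
  have hmult : ∀ (F D : Set (Fin n)) (y : Fin n), IsHyp M s F → D ⊆ F → D.ncard = s + 1 →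
      M.IsCircuit D → y ∉ F → bn M (s + 1) (M.closure (insert y F)) < Λ →
      s + 1 ≤ 2 * {x | x ∈ D ∧ (QQ M (insert y (D \ {x}))).ncard ≤ 3 * pL n + pm k n}.ncard := by
    intro F D y hF hDF hDc hD hy hb
    have hFG : F ⊆ M.closure (insert y F) :=
      (Set.subset_insert _ _).trans (M.subset_closure _ (by rw [hE]; exact Set.subset_univ _))
    have hyG : y ∈ M.closure (insert y F) :=
      M.subset_closure _ (by rw [hE]; exact Set.subset_univ _) (Set.mem_insert _ _)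
    have hG : IsHyp M (s + 1) (M.closure (insert y F)) := by
      apply closure_isHyp
      have hyF : y ∉ M.closure F := by rw [hF.1]; exact hy
      have hyE : y ∈ M.E \ M.closure F := ⟨by rw [hE]; trivial, hyF⟩
      have h1 : M.eRk (insert y F) = M.eRk F + 1 := Matroid.eRk_insert_eq_add_one hyE
      have h2 : M.eRk F = (s : ℕ) := by rw [← coe_rk, hF.2]
      rw [h2, ← coe_rk] at h1
      exact_mod_cast h1
    refine stmt_MULT n s Λ (3 * pL n) (pm k n) M _ F D y hE hG hF hFG hDF hDc hD hyG hy hb a4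
      (by omega) ?_ (by omega)
    refine a6.trans (Nat.mul_le_mul_right _ (Nat.pow_le_pow_left (by omega) 2))
  have hGX := stmt_GX n s' (s + 1) Λ M hE (by omega) hs2 (by omega)
  rw [hv] at hGX
  refine ⟨?_, hst, ?_, ?_, ?_⟩
  · intro I hI hIc hb
    exact (hFLJ n s' (s + 1) Λ (3 * pL n) (pe (s' + 1)) M I hE (by omega) a4 hB.hfl h8 hI hIc
      hb).le
  · have hx := stmt_NCN n s Λ (3 * pL n + pm k n) M hE h38 hmult
    refine Asm_z (by omega) (by omega) ?_ hx hB.hz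
    have := hB.hs
    unfold ps at this
    by_contra hcon
    have h0 : pl (s' + 1) = 0 := by omega
    rw [h0] at this
    norm_num at this
  · have hx := hNCN2 n s Λ (3 * pL n + pm k n) M hE h38 hst hmult
    have hy := hNCG2 n s Λ M hE h38 hst
    have hsub : {P | P ∈ NC Λ M s ∧ (star M s P).ncard ≠ s + 1} ⊆
        {P | P ∈ NCn Λ M s ∧ (star M s P).ncard ≠ s + 1} ∪
          {P | P ∈ NCg Λ M s ∧ (star M s P).ncard ≠ s + 1} := by
      rintro P ⟨hP, hPs⟩
      by_cases h : ∀ G ∈ Lg Λ M (s + 1), P ⊆ G → 2 * G.ncard ≤ n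
      · exact Or.inl ⟨⟨hP, h⟩, hPs⟩
      · push Not at h
        obtain ⟨G, h1, h2, h3⟩ := h
        exact Or.inr ⟨⟨hP, G, h1, h2, h3⟩, hPs⟩
    have hle := (Set.ncard_le_ncard hsub (Set.toFinite _)).trans (Set.ncard_union_le _ _)
    have h9 := Asm_a (j := s + 1) (n := n) (l := pl (s' + 1)) (q := 3 * pL n + pm k n) (v := v)
      (by omega) (by omega) hNr hx hB.hq hy hGX
    unfold aJ
    omega
  · unfold gJ
    rw [Nat.le_div_iff_mul_le (Nat.mul_pos (by norm_num) hNr)]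
    calc (Gi Λ M (s + 1) (s + 1)).ncard * (4 * n.choose (s' + 1))
        = 4 * (Gi Λ M (s + 1) (s + 1)).ncard * n.choose (s' + 1) := by ring
      _ ≤ _ := hGX

/-- One step of the second pass. -/
theorem Asm_step (hCFN : Stmt_CFN) (hCFG : Stmt_CFG) (hGIE : Stmt_GIE) (hFLJ : Stmt_FLJ)
    (hNCN2 : Stmt_NCN2) (hNCG2 : Stmt_NCG2) (hSTEP2 : Stmt_STEP2) {k s' v : ℕ}
    (hA : NumA k (s' + 1) n) (hB : NumB k (s' + 1) n) (s : ℕ)
    (hs1 : (s' + 1) / 2 + 1 ≤ s) (hs2 : s + 1 ≤ s') :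
    ((fun M => (trunc M (s + 1), Lg (pLam k (s' + 1) n) M (s + 1))) '' (At1 k n s' v)).ncard ≤
      ((fun M => (trunc M s, Lg (pLam k (s' + 1) n) M s)) '' (At1 k n s' v)).ncard *
        (LK n (pLam k (s' + 1) n) (pLs (s' + 1)) (s + 1) * 2 ^ bitJ (s' + 1) n v (s + 1)) := by
  have a1 := hA.h8
  have a2 := hA.hr
  have b1 := hB.h20
  have hn : 1 ≤ n := by omega
  have hL := hB.hL
  have hnL : n < 2 ^ pL n := Nat.lt_pow_succ_log_self (by norm_num) n
  have hnL2 : n ^ 2 ≤ 2 ^ (2 * pL n) := by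
    calc n ^ 2 ≤ (2 ^ pL n) ^ 2 := Nat.pow_le_pow_left hnL.le 2
      _ = _ := by rw [← pow_mul, mul_comm]
  have hΛ1 : 1 ≤ pLam k (s' + 1) n := by
    unfold pLam pH pL
    exact Nat.succ_le_of_lt (by positivity)
  have hn8 : 1 ≤ n ^ 8 := Nat.one_le_pow _ _ hn
  have hl1 : 1 ≤ pl (s' + 1) := by
    have := hB.hs
    unfold ps at this
    by_contra hcon
    have h0 : pl (s' + 1) = 0 := by omega
    rw [h0] at this
    norm_num at this
  have hlev := fun M (hM : M ∈ At1 k n s' v) =>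
    Asm_level hFLJ hNCN2 hNCG2 hA hB M hM.1.1 hM.2.1 hM.2.2 s hs1 hs2
  set j := s + 1 with hj
  set Nj := n.choose j with hNj
  -- the number of families of the first kind
  have hKN : ∀ 𝓖 : Set (Set (Fin n)),
      (FamN n j (n * pe (s' + 1) * ps (s' + 1) + pE (s' + 1) * (s + 3)) 𝓖).ncard ≤
        (3 * n ^ 8) ^ FN (s' + 1) n j * 2 ^ mN n j := by
    intro 𝓖
    have e1 : dJ (s' + 1) n j = n * pe (s' + 1) * ps (s' + 1) + pE (s' + 1) * (s + 3) := by
      unfold dJ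
      rw [hj]
    rw [← e1]
    have hm : 4 * Nj ≤ (j * n) * mN n j := by
      unfold mN
      exact Asm_lt_mul _ _ (by positivity)
    have hh1 : 16 * Nj ≤ (j ^ 2 * n) * (16 * Nj / (j ^ 2 * n) + 1) :=
      Asm_lt_mul _ _ (by positivity)
    have hh2 : 64 * Nj ≤ (j ^ 2 * n ^ 2) * (64 * Nj / (j ^ 2 * n ^ 2) + 1) :=
      Asm_lt_mul _ _ (by positivity)
    refine hCFN n j (dJ (s' + 1) n j) (mN n j) (16 * Nj / (j ^ 2 * n) + 1)
      (64 * Nj / (j ^ 2 * n ^ 2) + 1) (2 * pL n) (FN (s' + 1) n j) (n ^ 8) 𝓖 (by omega)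
      (by omega) (Nat.le_add_left 1 _) (Nat.le_add_left 1 _) (Nat.le_add_left 1 _) hn8 hm hh1 hh2
      ?_ ?_ ?_
    · calc Nj ≤ 4 * Nj := by omega
        _ ≤ (j * n) * mN n j := hm
        _ ≤ (n * n) * mN n j := by
            refine Nat.mul_le_mul_right _ (Nat.mul_le_mul_right _ (by omega))
        _ = n ^ 2 * mN n j := by ring
        _ ≤ _ := Nat.mul_le_mul_right _ hnL2
    · unfold FN
      exact le_rfl
    · have h4 : 16 * Nj / (j ^ 2 * n) + 1 ≤ FN (s' + 1) n j := by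
        unfold FN
        rw [← hNj]
        generalize 16 * Nj / (j ^ 2 * n) = u
        generalize (dJ (s' + 1) n j + 1) * (64 * Nj / (j ^ 2 * n ^ 2) + 1) = w
        calc u + 1 ≤ (u + 1 + w) * 1 := by omega
          _ ≤ _ := Nat.mul_le_mul_left _ (by omega)
      calc Nj ≤ 16 * Nj := by omega
        _ ≤ _ := hh1
        _ ≤ (n ^ 2 * n) * FN (s' + 1) n j :=
            Nat.mul_le_mul (Nat.mul_le_mul_right _ (Nat.pow_le_pow_left (by omega) 2)) h4
        _ = FN (s' + 1) n j * n ^ 3 := by ring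
        _ ≤ _ := Nat.mul_le_mul_left _ (Nat.pow_le_pow_right hn (by norm_num))
  -- the number of families of the second kind
  have hKG : ∀ M ∈ At1 k n s' v, (FamU j (Gi (pLam k (s' + 1) n) M j j)).ncard ≤
      (3 * n ^ 8) ^ FG (s' + 1) n v j * 2 ^ mG (s' + 1) n v j := by
    intro M hM
    have hg := (hlev M hM).2.2.2.2
    set g := gJ (s' + 1) n v j with hgd
    have hm : 5 * g ≤ n * mG (s' + 1) n v j := by
      unfold mG
      rw [← hgd]
      exact Asm_lt_mul _ _ (by omega)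
    have hh : 5 * g ≤ (j * n) * (5 * g / (j * n) + 1) := Asm_lt_mul _ _ (by positivity)
    refine hCFG n j g (mG (s' + 1) n v j) (5 * g / (j * n) + 1) (pL n) (FG (s' + 1) n v j)
      (n ^ 8) _ hn (by omega) (fun X hX => hX.1) (hGIE n j _ M (by omega) (by omega)).1 hg
      (Nat.le_add_left 1 _) (Nat.le_add_left 1 _) hn8 hm hh ?_ ?_ ?_
    · have h4 : n * mG (s' + 1) n v j ≤ 2 ^ pL n * mG (s' + 1) n v j :=
        Nat.mul_le_mul_right _ hnL.le
      omega
    · unfold FG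
      rw [← hgd]
    · have h4 : 5 * g / (j * n) + 1 ≤ FG (s' + 1) n v j := by
        unfold FG
        rw [← hgd]
        generalize 5 * g / (j * n) = u
        calc u + 1 ≤ (u + 1 + 1) * 1 := by omega
          _ ≤ _ := Nat.mul_le_mul_left _ (by omega)
      calc g ≤ 5 * g := by omega
        _ ≤ _ := hh
        _ ≤ (n * n) * FG (s' + 1) n v j := Nat.mul_le_mul (Nat.mul_le_mul_right _ (by omega)) h4
        _ = FG (s' + 1) n v j * n ^ 2 := by ring
        _ ≤ _ := Nat.mul_le_mul_left _ (Nat.pow_le_pow_right hn (by norm_num))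
  have hz : n.choose (s + 3) ≤ zJ (s' + 1) n j * n ^ 8 := by
    have h1 : n.choose (s + 3) ≤ Nj * n ^ 2 := by
      have e1 := Nat.choose_succ_right_eq n (s + 2)
      have e2 := Nat.choose_succ_right_eq n (s + 1)
      have f1 : n.choose (s + 3) ≤ n.choose (s + 2) * n := by
        calc n.choose (s + 3) ≤ n.choose (s + 2 + 1) * (s + 2 + 1) :=
              Nat.le_mul_of_pos_right _ (by omega)
          _ = n.choose (s + 2) * (n - (s + 2)) := e1
          _ ≤ _ := Nat.mul_le_mul_left _ (by omega)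
      have f2 : n.choose (s + 2) ≤ n.choose (s + 1) * n := by
        calc n.choose (s + 2) ≤ n.choose (s + 1 + 1) * (s + 1 + 1) :=
              Nat.le_mul_of_pos_right _ (by omega)
          _ = n.choose (s + 1) * (n - (s + 1)) := e2
          _ ≤ _ := Nat.mul_le_mul_left _ (by omega)
      calc n.choose (s + 3) ≤ n.choose (s + 2) * n := f1
        _ ≤ (n.choose (s + 1) * n) * n := Nat.mul_le_mul_right _ f2
        _ = _ := by rw [hNj, hj]; ring
    have h2 : Nj ≤ (j * n * pl (s' + 1) ^ 5) * zJ (s' + 1) n j := by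
      unfold zJ
      exact Asm_lt_mul _ _ (by positivity)
    have h3 := hB.hl5
    calc n.choose (s + 3) ≤ Nj * n ^ 2 := h1
      _ ≤ ((j * n * pl (s' + 1) ^ 5) * zJ (s' + 1) n j) * n ^ 2 := Nat.mul_le_mul_right _ h2
      _ ≤ ((n * n * n) * zJ (s' + 1) n j) * n ^ 2 := by
          refine Nat.mul_le_mul_right _ (Nat.mul_le_mul_right _ ?_)
          exact Nat.mul_le_mul (Nat.mul_le_mul_right _ (by omega)) h3
      _ = zJ (s' + 1) n j * n ^ 5 := by ring
      _ ≤ _ := Nat.mul_le_mul_left _ (Nat.pow_le_pow_right hn (by norm_num))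
  have ha : n.choose (s + 1) ≤ aJ (s' + 1) n v j * n ^ 8 := by
    have h1 : 16 * pl (s' + 1) ^ 2 * Nj ≤
        (j ^ 2 * n) * (16 * pl (s' + 1) ^ 2 * Nj / (j ^ 2 * n) + 1) :=
      Asm_lt_mul _ _ (by positivity)
    have h2 : 16 * pl (s' + 1) ^ 2 * Nj / (j ^ 2 * n) + 1 ≤ aJ (s' + 1) n v j := by
      unfold aJ
      rw [← hNj]
      generalize 16 * pl (s' + 1) ^ 2 * Nj / (j ^ 2 * n) = u
      generalize 200 * v * Nj / (j * n * n.choose (s' + 1)) = w
      omega
    have h3 : Nj ≤ 16 * pl (s' + 1) ^ 2 * Nj := by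
      have : 1 ≤ 16 * pl (s' + 1) ^ 2 := Nat.succ_le_of_lt (by positivity)
      exact Nat.le_mul_of_pos_left _ (by omega)
    calc Nj ≤ _ := h3
      _ ≤ _ := h1
      _ ≤ (n ^ 2 * n) * aJ (s' + 1) n v j :=
          Nat.mul_le_mul (Nat.mul_le_mul_right _ (Nat.pow_le_pow_left (by omega) 2)) h2
      _ = aJ (s' + 1) n v j * n ^ 3 := by ring
      _ ≤ _ := Nat.mul_le_mul_left _ (Nat.pow_le_pow_right hn (by norm_num))
  have h3 := hSTEP2 n s ((s' + 1) / 2) (pLam k (s' + 1) n) (pLs (s' + 1)) (pe (s' + 1))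
    (pE (s' + 1)) (ps (s' + 1)) (n ^ 8) (zJ (s' + 1) n j) (aJ (s' + 1) n v j) _ _
    (At1 k n s' v) hn (by omega) (by omega) hΛ1 hA.hLs (pLs_spec (s' + 1)) hn8 hB.hs le_rfl hz ha
    hKN (fun M hM => hM.1.1) (fun M hM => (hlev M hM).1) (fun M hM => (hlev M hM).2.1)
    (fun M hM => (hlev M hM).2.2.1) (fun M hM => (hlev M hM).2.2.2.1) hKG
  refine h3.trans (Nat.mul_le_mul_left _ ?_)
  have e2 : 2 ^ bitJ (s' + 1) n v j = 2 ^ (9 * pL n * zJ (s' + 1) n j) *
      2 ^ (9 * pL n * aJ (s' + 1) n v j) *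
      (2 ^ (9 * pL n * FN (s' + 1) n j) * 2 ^ mN n j) *
      (2 ^ (9 * pL n * FG (s' + 1) n v j) * 2 ^ mG (s' + 1) n v j) := by
    rw [← pow_add, ← pow_add, ← pow_add, ← pow_add, ← pow_add]
    congr 1
    unfold bitJ
    ring
  rw [e2]
  rw [mul_assoc, mul_assoc, mul_assoc]
  refine Nat.mul_le_mul_left _ ?_
  rw [← mul_assoc, ← mul_assoc]
  exact Nat.mul_le_mul (Nat.mul_le_mul (Nat.mul_le_mul (Asm_conv hL _) (Asm_conv hL _))
    (Nat.mul_le_mul_right _ (Asm_conv hL _))) (Nat.mul_le_mul_right _ (Asm_conv hL _))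

end Pool.F3LT
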