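import Pool.Agent.Work.MP_f3d170_lt.Asm

set_option autoImplicit false

/-! # Assembly of the linear upper threshold, second part -/

open Set Matroid Nat
open Pool.Agent.Work.MP_f3d170_co_h45
open Pool.Agent.Work.MP_f3d170_co_helper60
open Pool.Agent.Work.MP_f3d170_co_helper60b (trunc Gen IsHyp HasGen star StarSet Rec IsPart
  closure_isHyp trunc_eRank trunc_indep main_final)
open Pool.Agent.Work.MP_f3d170_co_helper44

namespace Pool.F3LT

variable {n : ℕ}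

/-- The number of values of `(trunc, Lg)` for the class `At1`. -/
theorem Asm_side (hCFN : Stmt_CFN) (hCFG : Stmt_CFG) (hGIE : Stmt_GIE) (hFLJ : Stmt_FLJ)
    (hNCN2 : Stmt_NCN2) (hNCG2 : Stmt_NCG2) (hSTEP2 : Stmt_STEP2) {k s' v : ℕ}
    (hA : NumA k (s' + 1) n) (hB : NumB k (s' + 1) n) :
    ((fun M => (trunc M s', Lg (pLam k (s' + 1) n) M s')) '' (At1 k n s' v)).ncard ≤
      sideC k (s' + 1) n v := by
  have a1 := hA.h8
  have a2 := hA.hr
  have hn : 1 ≤ n := by omega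
  have hΛ1 : 1 ≤ pLam k (s' + 1) n := by
    unfold pLam pH pL
    exact Nat.succ_le_of_lt (by positivity)
  set c := (s' + 1) / 2 with hc
  set Λ := pLam k (s' + 1) n with hΛ
  have hlow := lowU_half stmt_CRUDE (n := n) (r := s' + 1) a1 a2
  rw [← hc] at hlow
  have key : ∀ d, c + 1 + d ≤ s' →
      ((fun M => (trunc M (c + 1 + d), Lg Λ M (c + 1 + d))) '' (At1 k n s' v)).ncard ≤
        (LowU n (c + 1)).ncard *
          (∏ j ∈ Finset.Icc (c + 1) (c + 1 + d), LK n Λ (pLs (s' + 1)) j) *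
          ∏ j ∈ Finset.Icc (c + 2) (c + 1 + d), 2 ^ bitJ (s' + 1) n v j := by
    intro d
    induction d with
    | zero =>
      intro _
      have h1 := stmt_LC n (c + 1) c Λ (pLs (s' + 1)) (Matroid (Fin n))
        (fun M => trunc M (c + 1)) (At1 k n s' v) hn (by omega) hΛ1 hA.hLs (pLs_spec (s' + 1))
        (fun M hM => hM.1.1) (by
          intro M _ M' _ h
          have h' : trunc M (c + 1) = trunc M' (c + 1) := h
          rw [← trunc_trunc44 M (Nat.le_succ c), ← trunc_trunc44 M' (Nat.le_succ c)]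
          show trunc (trunc M (c + 1)) c = trunc (trunc M' (c + 1)) c
          rw [h'])
      have h2 : ((fun M => trunc M (c + 1)) '' (At1 k n s' v)).ncard ≤
          (LowU n (c + 1)).ncard := by
        refine Set.ncard_le_ncard ?_ (lowU_finite _ _)
        rintro _ ⟨M, hM, rfl⟩
        exact trunc_mem_lowU hM.1.1 _
      have e1 : Finset.Icc (c + 2) (c + 1 + 0) = ∅ := by
        apply Finset.Icc_eq_empty; omega
      have e2 : Finset.Icc (c + 1) (c + 1 + 0) = {c + 1} := by simp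
      rw [e1, e2, Finset.prod_empty, Finset.prod_singleton, mul_one]
      exact h1.trans (Nat.mul_le_mul_right _ h2)
    | succ d ih =>
      intro hd
      have ih' := ih (by omega)
      have h1 := Asm_step (n := n) (v := v) hCFN hCFG hGIE hFLJ hNCN2 hNCG2 hSTEP2 hA hB
        (c + 1 + d) (by omega) (by omega)
      have e1 : ∏ j ∈ Finset.Icc (c + 1) (c + 1 + (d + 1)), LK n Λ (pLs (s' + 1)) j =
          (∏ j ∈ Finset.Icc (c + 1) (c + 1 + d), LK n Λ (pLs (s' + 1)) j) *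
            LK n Λ (pLs (s' + 1)) (c + 1 + d + 1) := by
        rw [← add_assoc, ← Finset.prod_Icc_succ_top (by omega)]
      have e2 : ∏ j ∈ Finset.Icc (c + 2) (c + 1 + (d + 1)), 2 ^ bitJ (s' + 1) n v j =
          (∏ j ∈ Finset.Icc (c + 2) (c + 1 + d), 2 ^ bitJ (s' + 1) n v j) *
            2 ^ bitJ (s' + 1) n v (c + 1 + d + 1) := by
        rw [← add_assoc, ← Finset.prod_Icc_succ_top (by omega)]
      rw [e1, e2]
      refine h1.trans ((Nat.mul_le_mul_right _ ih').trans (le_of_eq ?_))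
      ring
  obtain ⟨d, hd⟩ : ∃ d, s' = c + 1 + d := ⟨s' - (c + 1), by omega⟩
  have h1 := key d hd.ge
  rw [← hd] at h1
  refine h1.trans ?_
  unfold sideC
  rw [show s' + 1 - 1 = s' by omega, ← hc]
  exact Nat.mul_le_mul_right _ (Nat.mul_le_mul_right _ hlow)

/-- The class `At1` is rare. -/
theorem Asm_at1 (hCFN : Stmt_CFN) (hCFG : Stmt_CFG) (hGIE : Stmt_GIE) (hFLJ : Stmt_FLJ)
    (hNCN2 : Stmt_NCN2) (hNCG2 : Stmt_NCG2) (hSTEP2 : Stmt_STEP2) {k s v : ℕ}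
    (hA : NumA k (s + 1) n) (hB : NumB k (s + 1) n)
    (hS : 2 * pH k * n ! * (n.choose (s + 1) + 1) * sideC k (s + 1) n v ≤ 2 ^ (v / n)) :
    pH k * n ! * (n.choose (s + 1) + 1) * (At1 k n s v).ncard ≤
      Nat.card (RankMatroid n (s + 1)) := by
  have a1 := hA.h8
  have a2 := hA.hr
  have hside := Asm_side (v := v) hCFN hCFG hGIE hFLJ hNCN2 hNCG2 hSTEP2 hA hB
  have hm1 : 1 ≤ Nat.card (RankMatroid n (s + 1)) := by
    have : Nonempty (RankMatroid n (s + 1)) := nonempty_rankMatroid (by omega)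
    exact Nat.card_pos
  have h1 := stmt_E4 n s (v / n) (fun M => Lg (pLam k (s + 1) n) M s) (At1 k n s v) (by omega)
    (fun M hM => hM.1) (fun M _ P hP => hP.1) (by
      intro M hM
      rw [hM.2.2]
      exact Nat.mul_div_le _ _)
  generalize sideC k (s + 1) n v = X at hS hside
  generalize ((fun M => (trunc M s, Lg (pLam k (s + 1) n) M s)) '' (At1 k n s v)).ncard = Y
    at h1 hside
  generalize (At1 k n s v).ncard = Z at h1 ⊢
  generalize Nat.card (RankMatroid n (s + 1)) = m at h1 hm1 ⊢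
  generalize n.choose (s + 1) = N at hS ⊢
  have hW : 0 < 2 ^ (v / n) := by positivity
  generalize 2 ^ (v / n) = W at h1 hS hW
  have h4 : (pH k * n ! * (N + 1) * Z) * W ≤ m * W := by
    calc (pH k * n ! * (N + 1) * Z) * W
        = pH k * n ! * (N + 1) * (Z * W) := by ring
      _ ≤ pH k * n ! * (N + 1) * (Y * (m + 1)) := Nat.mul_le_mul_left _ h1
      _ ≤ pH k * n ! * (N + 1) * (X * (m + 1)) :=
          Nat.mul_le_mul_left _ (Nat.mul_le_mul_right _ hside)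
      _ ≤ pH k * n ! * (N + 1) * (X * (2 * m)) := by
          refine Nat.mul_le_mul_left _ (Nat.mul_le_mul_left _ (by omega))
      _ = m * (2 * pH k * n ! * (N + 1) * X) := by ring
      _ ≤ m * W := Nat.mul_le_mul_left _ hS
  exact Nat.le_of_mul_le_mul_right h4 hW

/-- Typical matroids have almost all `(r+1)`-sets as circuits. -/
theorem Asm_typ (hFLJ : Stmt_FLJ) (hFINS : Stmt_FINS) (hN8 : Stmt_N8) {k s : ℕ}
    (hA : NumA k (s + 1) n) (hB : NumB k (s + 1) n)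
    (hT : ∀ v N₈, (s + 1 + 1) * pH k * v < n.choose (s + 1) →
      (s + 1 - 1) * N₈ ≤ 2 * pK (s + 1) ^ 2 * pe (s + 1) * n * v →
      3 * (k + 1) * ((s + 1) * (n - (s + 1)) * v +
        n.choose (s + 1 - 1) * (49 * (s + 1) + 7 * (n - (s + 1 - 1))) +
        N₈ * ((s + 1) * pe (s + 1) ^ 2 + pe (s + 1) * (n - (s + 1 - 1)))) ≤
          (s + 1) * n.choose (s + 1 + 1))
    (M : RankMatroid n (s + 1))
    (hM : (s + 1 + 1) * pH k * (Rm (trunc M.1 s) s (Lg (pLam k (s + 1) n) M.1 s)).ncard <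
      n.choose (s + 1)) :
    (3 * (k + 1)) * n.choose (s + 2) ≤ (3 * (k + 1)) * numCircuits M.1 + n.choose (s + 2) := by
  classical
  have a1 := hA.h8
  have a2 := hA.hr
  have hE := M.2.1
  set Λ := pLam k (s + 1) n with hΛ
  set v := (Rm (trunc M.1 s) s (Lg Λ M.1 s)).ncard with hv
  have hv0 : (Rm (trunc M.1 s) s ∅).ncard ≤ v := rm_mono _ _ _
  have h8 : 8 * (Rm (trunc M.1 s) s ∅).ncard < n.choose (s + 1) := by
    have h1 : 8 ≤ (s + 1 + 1) * pH k := by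
      unfold pH
      nlinarith
    calc 8 * (Rm (trunc M.1 s) s ∅).ncard ≤ (s + 1 + 1) * pH k * v := Nat.mul_le_mul h1 hv0
      _ < _ := hM
  have hex : Exc Λ (pe (s + 1)) M.1 s := by
    intro I hI hIc hb
    exact (hFLJ n s s Λ (3 * pL n) (pe (s + 1)) M.1 I hE (by omega) hA.lam2 hB.hfl h8 hI hIc
      hb).le
  have h1 := hFINS n s Λ M
  have h2 := hN8 n s (pK (s + 1)) Λ (pe (s + 1)) M.1 hE (by omega) hex hB.hK1 hB.hK2
    (by have := hB.hK3; omega)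
  set N₈ := ((JS Λ M.1 s).filter (fun I : Finset (Fin n) =>
    8 ≤ xc M.1 (I : Set (Fin n)))).card with hN₈
  have h3 := hT v N₈ hM (by
    rw [show s + 1 - 1 = s by omega]
    exact h2.trans (Nat.mul_le_mul_left _ hv0))
  rw [show s + 1 - 1 = s by omega] at h3
  -- the sum
  have hJc : (JS Λ M.1 s).card ≤ n.choose s := by
    unfold JS
    refine (Finset.card_le_card (Finset.filter_subset _ _)).trans ?_
    rw [Finset.card_powersetCard, Finset.card_univ, Fintype.card_fin]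
  have hJx : ∀ I ∈ JS Λ M.1 s, xc M.1 (I : Set (Fin n)) ≤ pe (s + 1) := by
    intro I hI
    unfold JS at hI
    rw [Finset.mem_filter, Finset.mem_powersetCard] at hI
    exact hex (I : Set (Fin n)) hI.2.1 (by rw [Set.ncard_coe_finset]; exact hI.1.2) hI.2.2
  have hsum : ∑ I ∈ JS Λ M.1 s, ((s + 1) * xc M.1 (I : Set (Fin n)) ^ 2 +
      xc M.1 (I : Set (Fin n)) * (n - s)) ≤
      n.choose s * (49 * (s + 1) + 7 * (n - s)) +
        N₈ * ((s + 1) * pe (s + 1) ^ 2 + pe (s + 1) * (n - s)) := by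
    rw [← Finset.sum_filter_add_sum_filter_not (JS Λ M.1 s)
      (fun I : Finset (Fin n) => 8 ≤ xc M.1 (I : Set (Fin n))), add_comm]
    refine Nat.add_le_add ?_ ?_
    · refine (Finset.sum_le_card_nsmul _ _ (49 * (s + 1) + 7 * (n - s)) ?_).trans ?_
      · intro I hI
        rw [Finset.mem_filter] at hI
        have h7 : xc M.1 (I : Set (Fin n)) ≤ 7 := by have := hI.2; omega
        calc (s + 1) * xc M.1 (I : Set (Fin n)) ^ 2 + xc M.1 (I : Set (Fin n)) * (n - s)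
            ≤ (s + 1) * 7 ^ 2 + 7 * (n - s) := by gcongr
          _ = _ := by ring
      · rw [smul_eq_mul]
        exact Nat.mul_le_mul_right _
          ((Finset.card_le_card (Finset.filter_subset _ _)).trans hJc)
    · refine (Finset.sum_le_card_nsmul _ _
        ((s + 1) * pe (s + 1) ^ 2 + pe (s + 1) * (n - s)) ?_).trans ?_
      · intro I hI
        rw [Finset.mem_filter] at hI
        have h7 := hJx I hI.1
        gcongr
      · rw [smul_eq_mul]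
  generalize ∑ I ∈ JS Λ M.1 s, ((s + 1) * xc M.1 (I : Set (Fin n)) ^ 2 +
      xc M.1 (I : Set (Fin n)) * (n - s)) = S at h1 hsum
  have e : s + 2 = s + 1 + 1 := rfl
  rw [e] at h1 ⊢
  generalize n.choose (s + 1 + 1) = N at h1 h3 ⊢
  generalize numCircuits M.1 = c at h1 ⊢
  set Y := (s + 1) * (n - (s + 1)) * v + n.choose s * (49 * (s + 1) + 7 * (n - s)) +
    N₈ * ((s + 1) * pe (s + 1) ^ 2 + pe (s + 1) * (n - s)) with hY
  have h4 : (s + 1) * N ≤ (s + 1) * c + Y := by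
    rw [hY]
    rw [← hv] at h1
    omega
  have h5 : (s + 1) * ((3 * (k + 1)) * N) ≤ (s + 1) * ((3 * (k + 1)) * c + N) := by
    calc (s + 1) * ((3 * (k + 1)) * N) = (3 * (k + 1)) * ((s + 1) * N) := by ring
      _ ≤ (3 * (k + 1)) * ((s + 1) * c + Y) := Nat.mul_le_mul_left _ h4
      _ = (s + 1) * ((3 * (k + 1)) * c) + 3 * (k + 1) * Y := by ring
      _ ≤ (s + 1) * ((3 * (k + 1)) * c) + (s + 1) * N := Nat.add_le_add_left h3 _
      _ = _ := by ring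
  exact Nat.le_of_mul_le_mul_left h5 (by omega)

/-- The ratio for all pairs in the range. -/
theorem Asm_ratio (hCFN : Stmt_CFN) (hCFG : Stmt_CFG) (hGIE : Stmt_GIE) (hFLJ : Stmt_FLJ)
    (hNCN2 : Stmt_NCN2) (hNCG2 : Stmt_NCG2) (hSTEP2 : Stmt_STEP2) (hSTEPL : Stmt_STEPL)
    (hFINS : Stmt_FINS) (hN8 : Stmt_N8) (hNUA : Stmt_NUA2) (hNUF : Stmt_NUF2)
    (hNUS : Stmt_NUS2) (hNUT : Stmt_NUT2) (k : ℕ) (hk : 1 ≤ k) (C₁ : ℕ) :
    ∃ R, ∀ r n, Rg2 k C₁ R r n → ∀ 𝒩 : Finset (RankMatroid n r), IsTransversal 𝒩 →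
      k ^ 2 * (n * ∑ M ∈ 𝒩, numBases M.1) ≤
        (k + 1) ^ 2 * ((r + 1) * ∑ M ∈ 𝒩, numCircuits M.1) := by
  obtain ⟨C1, h1⟩ := hNUA k hk C₁
  obtain ⟨C2, h2⟩ := hNUF k hk C₁
  obtain ⟨C3, h3⟩ := hNUS k hk C₁
  obtain ⟨C4, h4⟩ := hNUT k hk C₁
  refine ⟨C1 + C2 + C3 + C4 + 1, ?_⟩
  rintro r n ⟨hR1, hR2, hR3⟩ 𝒩 h𝒩
  obtain ⟨s, rfl⟩ : ∃ s, r = s + 1 := ⟨r - 1, by omega⟩
  obtain ⟨gA, gB⟩ := h1 _ _ ⟨by omega, hR2, hR3⟩
  have g2 := h2 _ _ ⟨by omega, hR2, hR3⟩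
  have g3 := h3 _ _ ⟨by omega, hR2, hR3⟩
  have g4 := h4 _ _ ⟨by omega, hR2, hR3⟩
  refine ratio_of gA ?_ ?_ h𝒩
  · refine atS_rare (at0_rare2 hCFG hGIE hSTEPL gA gB g2) ?_
    intro v hv1 hv2
    exact Asm_at1 hCFN hCFG hGIE hFLJ hNCN2 hNCG2 hSTEP2 gA gB (g3 v hv1 hv2)
  · intro M hM
    exact Asm_typ hFLJ hFINS hN8 gA gB g4 M hM

/-- From the ratio to the strict inequality. -/
theorem Asm_strict {k r n : ℕ} (hk : 1 ≤ k) (hr : 3 ≤ r) (h6 : 6 * r ≤ n)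
    {𝒩 : Finset (RankMatroid n r)} (h𝒩 : IsTransversal 𝒩)
    (h1 : k ^ 2 * (n * ∑ M ∈ 𝒩, numBases M.1) ≤
      (k + 1) ^ 2 * ((r + 1) * ∑ M ∈ 𝒩, numCircuits M.1)) :
    ∑ M ∈ 𝒩, numBases M.1 < ∑ M ∈ 𝒩, numCircuits M.1 := by
  have h2 := bases_pos (show r ≤ n by omega) h𝒩
  by_contra hcon
  push Not at hcon
  generalize ∑ M ∈ 𝒩, numBases M.1 = B at h1 h2 hcon
  generalize ∑ M ∈ 𝒩, numCircuits M.1 = D at h1 hcon
  have hk4 : (k + 1) ^ 2 ≤ 4 * k ^ 2 := by nlinarith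
  have h3 : (k ^ 2 * n) * B ≤ (k ^ 2 * (4 * (r + 1))) * B := by
    calc (k ^ 2 * n) * B = k ^ 2 * (n * B) := by ring
      _ ≤ (k + 1) ^ 2 * ((r + 1) * D) := h1
      _ ≤ (4 * k ^ 2) * ((r + 1) * B) :=
          Nat.mul_le_mul hk4 (Nat.mul_le_mul_left _ hcon)
      _ = _ := by ring
  have h4 := Nat.le_of_mul_le_mul_right h3 h2
  have h5 := Nat.le_of_mul_le_mul_left h4 (by positivity)
  omega

/-- The linear upper threshold. -/
theorem Asm_main (hratio : ∀ k : ℕ, 1 ≤ k → ∀ C₁ : ℕ, ∃ R, ∀ r n, Rg2 k C₁ R r n →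
      ∀ 𝒩 : Finset (RankMatroid n r), IsTransversal 𝒩 →
        k ^ 2 * (n * ∑ M ∈ 𝒩, numBases M.1) ≤
          (k + 1) ^ 2 * ((r + 1) * ∑ M ∈ 𝒩, numCircuits M.1)) (k : ℕ) (hk : 1 ≤ k) :
    ∃ R C, ∀ r n, 3 ≤ r → ((R ≤ r ∧ 1200 * (k + 1) * r ≤ n) ∨ C * r ≤ n ∨
        (2 * r * (k + 1)) ^ 24 ≤ n) →
      ∀ 𝒩 : Finset (RankMatroid n r), IsTransversal 𝒩 →
        ∑ M ∈ 𝒩, numBases M.1 < ∑ M ∈ 𝒩, numCircuits M.1 ∧
        k ^ 2 * (n * ∑ M ∈ 𝒩, numBases M.1) ≤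
          (k + 1) ^ 2 * ((r + 1) * ∑ M ∈ 𝒩, numCircuits M.1) := by
  obtain ⟨C₁, hC₁⟩ := Pool.Agent.Work.MP_f3d170_co_helper44.main k hk
  obtain ⟨R, hR⟩ := hratio k hk C₁
  have hbig : ∀ r n, 3 ≤ r → R ≤ r → 1200 * (k + 1) * r ≤ n →
      ∀ 𝒩 : Finset (RankMatroid n r), IsTransversal 𝒩 →
        ∑ M ∈ 𝒩, numBases M.1 < ∑ M ∈ 𝒩, numCircuits M.1 ∧
        k ^ 2 * (n * ∑ M ∈ 𝒩, numBases M.1) ≤
          (k + 1) ^ 2 * ((r + 1) * ∑ M ∈ 𝒩, numCircuits M.1) := by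
    intro r n hr hRr hn 𝒩 h𝒩
    by_cases hle : n ≤ C₁ * r * pl r ^ 3
    · have h1 := hR r n ⟨hRr, by
        have : 200 * pH k * r = 1200 * (k + 1) * r := by unfold pH; ring
        omega, hle⟩ 𝒩 h𝒩
      refine ⟨Asm_strict hk hr ?_ h𝒩 h1, h1⟩
      nlinarith
    · exact hC₁ r n hr (Or.inl (not_le.1 hle).le) 𝒩 h𝒩
  refine ⟨R, (2 * R * (k + 1)) ^ 24 + 1200 * (k + 1), ?_⟩
  intro r n hr hn 𝒩 h𝒩
  rcases hn with ⟨h1, h2⟩ | h | h
  · exact hbig r n hr h1 h2 𝒩 h𝒩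
  · by_cases hRr : R ≤ r
    · refine hbig r n hr hRr (le_trans ?_ h) 𝒩 h𝒩
      exact Nat.mul_le_mul_right _ (Nat.le_add_left _ _)
    · refine hC₁ r n hr (Or.inr (le_trans ?_ h)) 𝒩 h𝒩
      calc (2 * r * (k + 1)) ^ 24 ≤ (2 * R * (k + 1)) ^ 24 :=
            Nat.pow_le_pow_left (Nat.mul_le_mul_right _ (Nat.mul_le_mul_left _ (by omega))) 24
        _ ≤ (2 * R * (k + 1)) ^ 24 + 1200 * (k + 1) := Nat.le_add_right _ _
        _ ≤ _ := Nat.le_mul_of_pos_right _ (by omega)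
  · exact hC₁ r n hr (Or.inr h) 𝒩 h𝒩

end Pool.F3LT
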