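import Pool.Agent.Work.MP_f3d170_lt.Interface

set_option autoImplicit false

open Set Matroid Nat
open Pool.Agent.Work.MP_f3d170_co_h45
open Pool.Agent.Work.MP_f3d170_co_helper60
open Pool.Agent.Work.MP_f3d170_co_helper60b (trunc Gen IsHyp HasGen star StarSet Rec IsPart
  trunc_indep)
open Pool.Agent.Work.MP_f3d170_co_helper44

namespace Pool.F3LT

theorem p_FLJ (hHG : Stmt_HG2) : Stmt_FLJ := by
  classical
  intro n s j Λ ρ a M I hE hn hΛ ha hRm hI hIc hbn
  by_contra hcon
  push Not at hcon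
  obtain ⟨A, hA⟩ : ∃ A : Finset (Fin n), (A : Set (Fin n)) = M.closure I \ I :=
    ⟨(M.closure I \ I).toFinset, by simp⟩
  rw [← hA, Set.ncard_coe_finset] at hcon
  have h1 : (A.powerset.filter (fun J : Finset (Fin n) => M.Indep (J : Set (Fin n)))).card ≤
      bn M j (M.closure I) := by
    convert TFLAT.indep_le_bn hE hI hIc hA
  have h2 : 2 ^ rk M (A : Set (Fin n)) ≤
      (A.powerset.filter (fun J : Finset (Fin n) => M.Indep (J : Set (Fin n)))).card := by
    convert TFLAT.two_pow_le hE A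
  have h3 : rk M (A : Set (Fin n)) < ρ := by
    have : 2 ^ rk M (A : Set (Fin n)) < 2 ^ ρ := by omega
    exact (Nat.pow_lt_pow_iff_right (by norm_num)).1 this
  obtain ⟨B, hBA, hBa⟩ := Finset.exists_subset_card_eq hcon
  have h4 : rk M (B : Set (Fin n)) < ρ :=
    lt_of_le_of_lt (rk_mono M (Finset.coe_subset.2 hBA)) h3
  have h5 := hHG n (s + 1) a (ρ + 1) (B : Set (Fin n)) (by omega) hn (by omega)
    (by rw [Set.ncard_coe_finset, hBa]) ha
  have h6 : {X : Set (Fin n) | X.ncard = s + 1 ∧ ρ + 1 ≤ (X ∩ (B : Set (Fin n))).ncard} ⊆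
      Rm (trunc M s) s ∅ := by
    rintro X ⟨hX, hXB⟩
    refine ⟨hX, Or.inr ?_⟩
    intro S hSX hSc hSi
    have hSi' : M.Indep S := (trunc_indep.1 hSi).1
    have h7 : (S ∩ (B : Set (Fin n))).ncard ≤ rk M (B : Set (Fin n)) := by
      rw [← indep_iff_rk.1 (hSi'.subset Set.inter_subset_left)]
      exact rk_mono M Set.inter_subset_right
    have h8 : (X ∩ (B : Set (Fin n))).ncard ≤
        (S ∩ (B : Set (Fin n))).ncard + (X \ S).ncard := by
      refine (Set.ncard_le_ncard ?_ (Set.toFinite _)).trans (Set.ncard_union_le _ _)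
      rintro x ⟨hx, hxA⟩
      by_cases hxS : x ∈ S
      · exact Or.inl ⟨hxS, hxA⟩
      · exact Or.inr ⟨hx, hxS⟩
    have h9 := Set.ncard_sdiff_add_ncard_of_subset hSX (Set.toFinite _)
    omega
  have h7 := Set.ncard_le_ncard h6 (Set.toFinite _)
  omega

end Pool.F3LT
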