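import Pool.Agent.Work.MP_f3d170_lt.Interface

set_option autoImplicit false

/-! # MP_f3d170_co, linear threshold: the block RPL (helper88) -/

open Set Matroid Nat
open Pool.Agent.Work.MP_f3d170_co_h45
open Pool.Agent.Work.MP_f3d170_co_helper60
open Pool.Agent.Work.MP_f3d170_co_helper60b (trunc Gen IsHyp HasGen star StarSet Rec IsPart)
open Pool.Agent.Work.MP_f3d170_co_helper44

namespace Pool.F3LT

variable {n : ℕ}

open Classical in
/-- The `m`-subsets `A` of `P` with `rk (P \ A) = r`. -/
noncomputable def RPL_G (M : Matroid (Fin n)) (P : Set (Fin n)) (r m : ℕ) :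
    Finset (Finset (Fin n)) :=
  ((Finset.univ : Finset (Fin n)).powersetCard m).filter
    (fun A : Finset (Fin n) => (A : Set (Fin n)) ⊆ P ∧ rk M (P \ (A : Set (Fin n))) = r)

theorem RPL_mem {M : Matroid (Fin n)} {P : Set (Fin n)} {r m : ℕ} {A : Finset (Fin n)} :
    A ∈ RPL_G M P r m ↔ A.card = m ∧ (A : Set (Fin n)) ⊆ P ∧
      rk M (P \ (A : Set (Fin n))) = r := by
  classical
  unfold RPL_G
  simp only [Finset.mem_filter, Finset.mem_powersetCard, Finset.subset_univ, true_and]

theorem RPL_rk_insert (M : Matroid (Fin n)) (X : Set (Fin n)) (z : Fin n) :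
    rk M (insert z X) ≤ rk M X + 1 := by
  have h := M.eRk_insert_le_add_one z X
  rw [← coe_rk, ← coe_rk] at h
  exact_mod_cast h

/-- the members of `G` correspond to the complements -/
theorem RPL_compl (M : Matroid (Fin n)) {P : Set (Fin n)} {m k r : ℕ} (hP : P.ncard = k + m) :
    (RPL_G M P r m).card = {X : Set (Fin n) | X ⊆ P ∧ X.ncard = k ∧ rk M X = r}.ncard := by
  classical
  rw [← Set.ncard_coe_finset]
  apply Set.ncard_congr (fun (A : Finset (Fin n)) _ => P \ (A : Set (Fin n)))
  · intro A hA
    rw [Finset.mem_coe, RPL_mem] at hA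
    obtain ⟨h1, h2, h3⟩ := hA
    refine ⟨Set.sdiff_subset, ?_, h3⟩
    have := Set.ncard_sdiff_add_ncard_of_subset h2 (Set.toFinite _)
    rw [Set.ncard_coe_finset] at this
    omega
  · intro A B hA hB h
    rw [Finset.mem_coe, RPL_mem] at hA hB
    apply Finset.coe_injective
    have h1 : P \ (P \ (A : Set (Fin n))) = A := Set.sdiff_sdiff_cancel_left hA.2.1
    have h2 : P \ (P \ (B : Set (Fin n))) = B := Set.sdiff_sdiff_cancel_left hB.2.1
    rw [← h1, ← h2, h]
  · intro X hX
    obtain ⟨h1, h2, h3⟩ := hX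
    refine ⟨(Set.toFinite (P \ X)).toFinset, ?_, ?_⟩
    · rw [Finset.mem_coe, RPL_mem]
      have e : P \ (P \ X) = X := Set.sdiff_sdiff_cancel_left h1
      refine ⟨?_, ?_, ?_⟩
      · rw [← Set.ncard_eq_toFinset_card _ (Set.toFinite _)]
        have := Set.ncard_sdiff_add_ncard_of_subset h1 (Set.toFinite _)
        omega
      · rw [Set.Finite.coe_toFinset]
        exact Set.sdiff_subset
      · rw [Set.Finite.coe_toFinset, e, h3]
    · rw [Set.Finite.coe_toFinset]
      exact Set.sdiff_sdiff_cancel_left h1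

/-- the shadow -/
theorem RPL_shadow {M : Matroid (Fin n)} {P : Set (Fin n)} {s m : ℕ} (hP : rk M P = s) :
    Finset.shadow (RPL_G M P s (m + 1)) ⊆ RPL_G M P s m := by
  classical
  intro B hB
  rw [Finset.mem_shadow_iff] at hB
  obtain ⟨A, hA, a, ha, rfl⟩ := hB
  rw [RPL_mem] at hA ⊢
  obtain ⟨h1, h2, h3⟩ := hA
  refine ⟨by rw [Finset.card_erase_of_mem ha, h1]; rfl, ?_, ?_⟩
  · exact fun x hx => h2 (Finset.mem_of_mem_erase hx)
  · apply le_antisymm
    · rw [← hP]
      exact rk_mono M Set.sdiff_subset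
    · rw [← h3]
      apply rk_mono M
      intro x hx
      exact ⟨hx.1, fun hx' => hx.2 (Finset.mem_of_mem_erase hx')⟩

/-- the number of subsets with one element less -/
theorem RPL_below {M : Matroid (Fin n)} {P : Set (Fin n)} {r m : ℕ} {B : Finset (Fin n)}
    (hB : B.card = m + 1) :
    (Finset.bipartiteBelow (fun A B : Finset (Fin n) => A ⊆ B) (RPL_G M P r m) B).card ≤
      m + 1 := by
  classical
  have h1 : Finset.bipartiteBelow (fun A B : Finset (Fin n) => A ⊆ B) (RPL_G M P r m) B ⊆
      B.powersetCard m := by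
    intro A hA
    rw [Finset.mem_bipartiteBelow] at hA
    rw [Finset.mem_powersetCard]
    exact ⟨hA.2, (RPL_mem.1 hA.1).1⟩
  refine (Finset.card_le_card h1).trans ?_
  rw [Finset.card_powersetCard, hB, Nat.choose_succ_self_right]

theorem RPL_choose {K i j : ℕ} (hij : i ≤ j) (hj : 2 * j ≤ K) : K.choose i ≤ K.choose j := by
  induction j with
  | zero =>
    have : i = 0 := by omega
    rw [this]
  | succ j ih =>
    rcases Nat.lt_or_ge i (j + 1) with h | h
    · refine (ih (by omega) (by omega)).trans ?_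
      apply Nat.choose_le_succ_of_lt_half_left
      omega
    · have : i = j + 1 := by omega
      rw [this]

theorem p_RPL : Stmt_KKL → Stmt_RPL := by
  classical
  intro hKKL n s t K Λ M P hE hs hP hPc ht htK htΛ hKs hbn
  obtain ⟨u, rfl⟩ : ∃ u, t = u + 2 := ⟨t - 2, by omega⟩
  set F0 := RPL_G M P s u with hF0
  set F1 := RPL_G M P s (u + 1) with hF1
  set F2 := RPL_G M P s (u + 2) with hF2
  set Y := RPL_G M P (s - 1) (u + 1) with hY
  have hrk := hP.2
  -- the number of bases
  have hb : F2.card = bn M s P := by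
    rw [hF2, RPL_compl M (k := s) hPc]
    unfold bn
    congr 1
    ext X
    simp only [Set.mem_ofPred_eq]
    constructor
    · rintro ⟨h1, h2, h3⟩
      exact ⟨indep_iff_rk.2 (by rw [h3, h2]), h2, h1⟩
    · rintro ⟨h1, h2, h3⟩
      exact ⟨h3, h2, by rw [indep_iff_rk.1 h1, h2]⟩
  have hy : Y.card = {X : Set (Fin n) | X ⊆ P ∧ X.ncard = s + 1 ∧ rk M X = s - 1}.ncard := by
    rw [hY, RPL_compl M (k := s + 1)]
    omega
  -- (1)
  have e1 : F0.card * (s + 2) ≤ (F1 ∪ Y).card * (u + 1) := by
    apply Finset.card_mul_le_card_mul (fun A B : Finset (Fin n) => A ⊆ B)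
    · intro A hA
      obtain ⟨a1, a2, a3⟩ := RPL_mem.1 hA
      have hc : (P \ (A : Set (Fin n))).ncard = s + 2 := by
        have := Set.ncard_sdiff_add_ncard_of_subset a2 (Set.toFinite _)
        rw [Set.ncard_coe_finset] at this
        omega
      rw [Set.ncard_eq_toFinset_card _ (Set.toFinite _)] at hc
      rw [← hc]
      apply Finset.card_le_card_of_injOn (fun z => insert z A)
      · intro z hz
        have hz' : z ∈ P \ (A : Set (Fin n)) := by
          exact (Set.Finite.mem_toFinset _).1 (Finset.mem_coe.1 hz)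
        have hzA : z ∉ A := hz'.2
        show insert z A ∈ Finset.bipartiteAbove (fun A B : Finset (Fin n) => A ⊆ B) (F1 ∪ Y) A
        rw [Finset.mem_bipartiteAbove]
        refine ⟨?_, Finset.subset_insert _ _⟩
        have hsub : ((insert z A : Finset (Fin n)) : Set (Fin n)) ⊆ P := by
          intro x hx
          rw [Finset.mem_coe, Finset.mem_insert] at hx
          rcases hx with rfl | hx
          · exact hz'.1
          · exact a2 hx
        have hcard : (insert z A).card = u + 1 := by
          rw [Finset.card_insert_of_notMem hzA, a1]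
        have hins : insert z (P \ ((insert z A : Finset (Fin n)) : Set (Fin n))) =
            P \ (A : Set (Fin n)) := by
          ext x
          simp only [Set.mem_insert_iff, Set.mem_sdiff, Finset.coe_insert, Finset.mem_coe, not_or]
          constructor
          · rintro (rfl | h)
            · exact hz'
            · exact ⟨h.1, h.2.2⟩
          · intro h
            by_cases hx : x = z
            · exact Or.inl hx
            · exact Or.inr ⟨h.1, hx, h.2⟩
        have h4 := RPL_rk_insert M (P \ ((insert z A : Finset (Fin n)) : Set (Fin n))) z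
        rw [hins, a3] at h4
        have h5 : rk M (P \ ((insert z A : Finset (Fin n)) : Set (Fin n))) ≤ s := by
          rw [← hrk]
          exact rk_mono M Set.sdiff_subset
        rw [Finset.mem_union, hF1, hY, RPL_mem, RPL_mem]
        by_cases h6 : rk M (P \ ((insert z A : Finset (Fin n)) : Set (Fin n))) = s
        · exact Or.inl ⟨hcard, hsub, h6⟩
        · exact Or.inr ⟨hcard, hsub, by omega⟩
      · intro z hz w hw h
        have hz' : z ∈ P \ (A : Set (Fin n)) := by
          exact (Set.Finite.mem_toFinset _).1 (Finset.mem_coe.1 hz)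
        have hw' : w ∈ P \ (A : Set (Fin n)) := by
          exact (Set.Finite.mem_toFinset _).1 (Finset.mem_coe.1 hw)
        have h1 : z ∈ insert w A := by
          have h0 : insert z A = insert w A := h
          rw [← h0]
          exact Finset.mem_insert_self _ _
        rcases Finset.mem_insert.1 h1 with h2 | h2
        · exact h2
        · exact absurd h2 hz'.2
    · intro B hB
      apply RPL_below
      rcases Finset.mem_union.1 hB with h | h
      · exact (RPL_mem.1 h).1
      · exact (RPL_mem.1 h).1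
  -- (2)
  have e2 : F1.card * 1 ≤ F2.card * (u + 2) := by
    apply Finset.card_mul_le_card_mul (fun A B : Finset (Fin n) => A ⊆ B)
    · intro A hA
      obtain ⟨a1, a2, a3⟩ := RPL_mem.1 hA
      obtain ⟨I, hI⟩ := M.exists_isBasis (P \ (A : Set (Fin n)))
        (by rw [hE]; exact Set.subset_univ _)
      have hIc : I.ncard = s := by
        rw [← indep_iff_rk.1 hI.indep, ← a3, rk_eq_iff]
        exact hI.eRk_eq_eRk
      have hIP : I ⊆ P := hI.subset.trans Set.sdiff_subset
      rw [Nat.one_le_iff_ne_zero, ← Nat.pos_iff_ne_zero, Finset.card_pos]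
      refine ⟨(Set.toFinite (P \ I)).toFinset, ?_⟩
      rw [Finset.mem_bipartiteAbove, hF2, RPL_mem]
      have e : P \ (P \ I) = I := Set.sdiff_sdiff_cancel_left hIP
      refine ⟨⟨?_, ?_, ?_⟩, ?_⟩
      · rw [← Set.ncard_eq_toFinset_card _ (Set.toFinite _)]
        have := Set.ncard_sdiff_add_ncard_of_subset hIP (Set.toFinite _)
        omega
      · rw [Set.Finite.coe_toFinset]
        exact Set.sdiff_subset
      · rw [Set.Finite.coe_toFinset, e, indep_iff_rk.1 hI.indep, hIc]
      · intro x hx
        rw [Set.Finite.mem_toFinset]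
        exact ⟨a2 hx, fun hxI => (hI.subset hxI).2 hx⟩
    · intro B hB
      exact RPL_below (RPL_mem.1 hB).1
  -- (3)
  have h7 : K.choose 7 ≤ K.choose (u + 1) := RPL_choose (by omega) (by omega)
  have h7' : K.choose 7 ≤ K.choose (u + 2) := RPL_choose (by omega) (by omega)
  have hlt2 : F2.card < K.choose (u + 2) := by
    have : Λ ≤ (u + 2) * Λ := Nat.le_mul_of_pos_left _ (by omega)
    omega
  have hlt1 : F1.card < K.choose (u + 1) := by
    have : F2.card * (u + 2) < (u + 2) * Λ := by
      rw [mul_comm]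
      exact Nat.mul_lt_mul_of_pos_left (by omega) (by omega)
    omega
  have hsz1 : (F1 : Set (Finset (Fin n))).Sized (u + 1) := by
    intro A hA
    exact (RPL_mem.1 (Finset.mem_coe.1 hA)).1
  have hsz2 : (F2 : Set (Finset (Fin n))).Sized (u + 2) := by
    intro A hA
    exact (RPL_mem.1 (Finset.mem_coe.1 hA)).1
  have k1 := (hKKL n (u + 1) K F1 (by omega) hsz1 hlt1).1
  have k2 := (hKKL n (u + 2) K F2 (by omega) hsz2 hlt2).2
  have s1 : (Finset.shadow F1).card ≤ F0.card := Finset.card_le_card (RPL_shadow hrk)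
  have s2 : (Finset.shadow (Finset.shadow F2)).card ≤ F0.card := by
    refine (Finset.card_le_card (Finset.shadow_mono (RPL_shadow hrk))).trans s1
  have e3 : (u + 1) * F1.card ≤ K * F0.card := k1.trans (Nat.mul_le_mul_left _ s1)
  have e4 : F2.card ≤ K ^ 2 * F0.card := k2.trans (Nat.mul_le_mul_left _ s2)
  have e5 : (F1 ∪ Y).card ≤ F1.card + Y.card := Finset.card_union_le _ _
  -- the end
  rw [← hb, ← hy]
  obtain ⟨w, hw⟩ : ∃ w, s + 2 = K + w := ⟨s + 2 - K, by omega⟩
  have e6 : w * F0.card ≤ (u + 1) * Y.card := by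
    have h8 : F0.card * (s + 2) ≤ (u + 1) * F1.card + (u + 1) * Y.card := by
      calc F0.card * (s + 2) ≤ (F1 ∪ Y).card * (u + 1) := e1
        _ ≤ (F1.card + Y.card) * (u + 1) := Nat.mul_le_mul_right _ e5
        _ = (u + 1) * F1.card + (u + 1) * Y.card := by ring
    rw [hw] at h8
    nlinarith
  have hsw : s ≤ 2 * w := by omega
  calc s * F2.card ≤ (2 * w) * (K ^ 2 * F0.card) := Nat.mul_le_mul hsw e4
    _ = 2 * K ^ 2 * (w * F0.card) := by ring
    _ ≤ 2 * K ^ 2 * ((u + 1) * Y.card) := Nat.mul_le_mul_left _ e6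
    _ ≤ 2 * K ^ 2 * ((u + 2) * Y.card) :=
        Nat.mul_le_mul_left _ (Nat.mul_le_mul_right _ (by omega))
    _ = 2 * K ^ 2 * (u + 2) * Y.card := by ring

end Pool.F3LT
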