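import Pool.Agent.Work.MP_f3d170_co_helper44.Main

set_option autoImplicit false

/-!
# MP_f3d170_co, LINEAR upper threshold (`n ≥ C r`), helper74

Folder `Pool/Agent/Work/MP_f3d170_lt`, table `lth_blocks`.  Block file `B_X.lean`: import this file
(and other block files for auxiliary lemmas if you like), namespace `Pool.F3LT`, final theorem
`p_X : Stmt_A → Stmt_B → .. → Stmt_X` with exactly the blocks of the column `uses` as hypotheses, in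
that order; all other lemmas in the namespace `Pool.F3LT.X_X` or with the prefix `X_`.  The proved
blocks of the near-linear project (`stmt_CNT`, `stmt_CODE`, `stmt_LC`, `stmt_N1`, `stmt_E4`, .. in
`Pool.Agent.Work.MP_f3d170_co_helper44.Main` and the files `T*.lean` there) can be cited freely, they
are not hypotheses.

GOAL.  For every `k ≥ 1` there is `C` with: for all `r ≥ 3`, `n ≥ C r`, `B(n,r) < C(n,r)` and
`k² n B(n,r) ≤ (k+1)² (r+1) C(n,r)`.  (Near-linear theorem: `n ≥ c r log³ r`.)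

IDEA.  As before a matroid `M` of rank `r = s + 1` is coded level by level.  The circuits with `j`
elements of the small flats of rank `j - 1` are no longer listed one by one (`log n` bits each), but by
the container method with TWO relations: `j`-sets at distance one (never both present) and at distance
two with union in no large flat (every present set has few such neighbours).  The final container has
only `4 N_j / (j n)` elements by a Cauchy-Schwarz argument (SUP2).  To have few neighbours at distance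
two, some `(j+2)`-sets of rank `j` are listed first (GREEDY, SATD, YDG).

Notation: `rk`, `IsHyp M j P` (flat of rank `j`), `trunc`, `Gen`, `HasGen`, `star`, `StarSet`, `Rec`,
`IsPart`, `bn`, `Lg`, `Rm`, `Coh`, `NC`, `NCn`, `NCg`, `Gi`, `QQ`, `LowU`, `LK` as in
`MP_f3d170_co_helper44/Interface.lean`.
-/

open Set Matroid Nat
open Pool.Agent.Work.MP_f3d170_co_h45
open Pool.Agent.Work.MP_f3d170_co_helper60
open Pool.Agent.Work.MP_f3d170_co_helper60b (trunc Gen IsHyp HasGen star StarSet Rec IsPart)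
open Pool.Agent.Work.MP_f3d170_co_helper44

namespace Pool.F3LT

variable {n : ℕ}

/-! ## Definitions -/

/-- The number of members `w` of `A` with `R v w`. -/
noncomputable def dg {α : Type} (R : α → α → Prop) (A : Set α) (v : α) : ℕ :=
  {w | w ∈ A ∧ R v w}.ncard

/-- `j`-sets at distance one. -/
def R1 (j : ℕ) (X X' : Set (Fin n)) : Prop := (X ∩ X').ncard + 1 = j

/-- `j`-sets at distance two whose union is in no member of `𝓖`. -/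
def R2 (j : ℕ) (𝓖 : Set (Set (Fin n))) (X X' : Set (Fin n)) : Prop :=
  (X ∩ X').ncard + 2 = j ∧ ∀ G ∈ 𝓖, ¬ (X ∪ X' ⊆ G)

/-- The `j`-sets in at most one member of `𝓖`, which then has at most `n/2` elements. -/
def Un (n j : ℕ) (𝓖 : Set (Set (Fin n))) : Set (Set (Fin n)) :=
  {X | X.ncard = j ∧ (∀ G ∈ 𝓖, X ⊆ G → 2 * G.ncard ≤ n) ∧
    ∀ G ∈ 𝓖, ∀ G' ∈ 𝓖, X ⊆ G → X ⊆ G' → G = G'}

/-- The families in `Un` without members at distance one and with at most `Δ` neighbours of every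
member at distance two. -/
def FamN (n j Δ : ℕ) (𝓖 : Set (Set (Fin n))) : Set (Set (Set (Fin n))) :=
  {𝒟 | 𝒟 ⊆ Un n j 𝓖 ∧ (∀ x ∈ 𝒟, dg (R1 j) 𝒟 x = 0) ∧ ∀ x ∈ 𝒟, dg (R2 j 𝓖) 𝒟 x ≤ Δ}

/-- The families in `𝒰` without members at distance one. -/
def FamU (j : ℕ) (𝒰 : Set (Set (Fin n))) : Set (Set (Set (Fin n))) :=
  {𝒟 | 𝒟 ⊆ 𝒰 ∧ ∀ x ∈ 𝒟, dg (R1 j) 𝒟 x = 0}

/-- Every element of every member of `𝒰` has at least `2n/5` replacements. -/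
def ExtP (n : ℕ) (𝒰 : Set (Set (Fin n))) : Prop :=
  ∀ X ∈ 𝒰, ∀ x ∈ X, 2 * n ≤ 5 * {z | z ∉ X \ {x} ∧ insert z (X \ {x}) ∈ 𝒰}.ncard

/-- The number of members of `𝒵` which contain `X`. -/
noncomputable def cnz (𝒵 : Set (Set (Fin n))) (X : Set (Fin n)) : ℕ :=
  {Y | Y ∈ 𝒵 ∧ X ⊆ Y}.ncard

/-- The members of `𝓓` contained in at most `E` members of `𝒵` (the unsaturated ones). -/
def US (E : ℕ) (𝒵 𝓓 : Set (Set (Fin n))) : Set (Set (Fin n)) := {D | D ∈ 𝓓 ∧ cnz 𝒵 D ≤ E}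

/-- The blocks with `s + 1` elements of the members of `NCn`. -/
def DN (Λ : ℕ) (M : Matroid (Fin n)) (s : ℕ) : Set (Set (Fin n)) :=
  {D | ∃ P ∈ NCn Λ M s, (star M s P).ncard = s + 1 ∧ D = star M s P}

/-- The blocks with `s + 1` elements of the members of `NCg`. -/
def DG (Λ : ℕ) (M : Matroid (Fin n)) (s : ℕ) : Set (Set (Fin n)) :=
  {D | ∃ P ∈ NCg Λ M s, (star M s P).ncard = s + 1 ∧ D = star M s P}

/-- The other blocks of the members of `NC`. -/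
def B2 (Λ : ℕ) (M : Matroid (Fin n)) (s : ℕ) : Set (Set (Fin n)) :=
  {A | ∃ P ∈ NC Λ M s, (star M s P).ncard ≠ s + 1 ∧ A = star M s P}

/-- The `(j+2)`-sets of rank `j` in no large flat of rank `j`. -/
def YM (Λ : ℕ) (M : Matroid (Fin n)) (j : ℕ) : Set (Set (Fin n)) :=
  {Y | Y.ncard = j + 2 ∧ rk M Y = j ∧ ∀ G ∈ Lg Λ M j, ¬ Y ⊆ G}

/-- The closure of an independent `j`-set which is not large has at most `e` other elements. -/
def Exc (Λ e : ℕ) (M : Matroid (Fin n)) (j : ℕ) : Prop :=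
  ∀ I : Set (Fin n), M.Indep I → I.ncard = j → bn M j (M.closure I) < Λ →
    (M.closure I \ I).ncard ≤ e

open Classical in
/-- The independent `s`-sets whose closure is not large. -/
noncomputable def JS (Λ : ℕ) (M : Matroid (Fin n)) (s : ℕ) : Finset (Finset (Fin n)) :=
  ((Finset.univ : Finset (Fin n)).powersetCard s).filter
    (fun I : Finset (Fin n) => M.Indep (I : Set (Fin n)) ∧
      bn M s (M.closure (I : Set (Fin n))) < Λ)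

/-- The number of elements of the closure outside the set. -/
noncomputable def xc (M : Matroid (Fin n)) (I : Set (Fin n)) : ℕ := (M.closure I \ I).ncard

/-! ## A. Combinatorial blocks -/

/-- CONT (150 lines).  Containers for two relations.
PROOF.  Put `h = h₁ + (Δ+1) h₂`.  CLAIM, by strong induction on `|W|`: for every `W ⊆ V` there is a
function `f : Set α → Set α` with `|f R| ≤ m` for all `R`, such that every `𝒟 ⊆ W` with the two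
properties (`dg R₁ 𝒟 x = 0`, `dg R₂ 𝒟 x ≤ Δ` for `x ∈ 𝒟`; they pass to subsets) has a subset
`R ⊆ 𝒟` with `𝒟 ⊆ R ∪ f R` and `|R| ≤ 0` if `|W| < m`, and `|R| ≤ h (1 + log (|W| / m))` (real numbers)
if `|W| ≥ m`.
`|W| < m`: `f` constant `W`, `R = ∅`.  `|W| ≥ m`: take `v ∈ W` from the hypothesis with `A = W`; let
`N` be the set of `w ∈ W` with `R₁ v w` in the first case (`|W| ≤ h₁ |N|`), with `R₂ v w` in the
second (`|W| ≤ h₂ |N|`); `W₁ = W \ {v}`, `W₂ = W \ ({v} ∪ N)`, `f₁`, `f₂` by induction,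
`f R = if v ∈ R then f₂ (R ∩ W₂) else f₁ R`.  If `v ∉ 𝒟`, use `f₁` (`v ∉ R` as `R ⊆ 𝒟`; the bound is
monotone in `|W|`).  If `v ∈ 𝒟`: let `R'` be the set for `𝒟 ∩ W₂`; `R = {v} ∪ R'` in the first case
(`𝒟 ∩ N = ∅`), `R = {v} ∪ (𝒟 ∩ N) ∪ R'` in the second (`|𝒟 ∩ N| ≤ Δ`); `R ∩ W₂ = R'`.  The bound: if
`|W₂| < m` then `|R| ≤ 1 + Δ ≤ h` (first case `≤ 1`); otherwise `|W₂| ≤ |W| (1 - 1/h₁)` resp.
`|W| (1 - 1/h₂)`, and `h log (1 - 1/h₁) ≤ - h/h₁ ≤ -1` resp. `≤ - h/h₂ ≤ -(Δ+1)` (if `h₁ = 1`, then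
`|W₂| = 0 < m`).
END.  `|R| ≤ h (1 + log (|V|/m)) ≤ h (1 + ℓ)`.  `𝒟 = R ∪ (𝒟 ∩ f R)`, so the number of `𝒟` is at most the
sum over `R` of `2 ^ |f R| ≤ 2 ^ m`. -/
def Stmt_CONT : Prop := ∀ (α : Type) [Finite α] (V : Set α) (R₁ R₂ : α → α → Prop)
    (m h₁ h₂ Δ ℓ : ℕ), 1 ≤ m → 1 ≤ h₁ → 1 ≤ h₂ → V.ncard ≤ 2 ^ ℓ * m →
  (∀ A ⊆ V, m ≤ A.ncard → ∃ v ∈ A, A.ncard ≤ h₁ * dg R₁ A v ∨ A.ncard ≤ h₂ * dg R₂ A v) →
  {𝒟 : Set α | 𝒟 ⊆ V ∧ (∀ x ∈ 𝒟, dg R₁ 𝒟 x = 0) ∧ ∀ x ∈ 𝒟, dg R₂ 𝒟 x ≤ Δ}.ncard ≤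
    {R : Set α | R ⊆ V ∧ R.ncard ≤ (h₁ + (Δ + 1) * h₂) * (ℓ + 1)}.ncard * 2 ^ m

/-- SUP1 (120 lines).  PROOF.  Let `∂` be the set of the `(j-1)`-sets `X \ {x}`, `X ∈ 𝒰`, `x ∈ X`.
By `ExtP` every `S ∈ ∂` has at least `2n/5` elements `z ∉ S` with `S + z ∈ 𝒰`; counting the pairs
`(S, X)`, `|∂| 2n/5 ≤ j |𝒰|`.  For `S ∈ ∂` let `d(S)` be the number of `X ∈ A` with `S ⊆ X`.
`∑ d(S) = j |A|`, Cauchy-Schwarz: `∑ d(S)² ≥ j² |A|² / |∂| ≥ 2 n j |A|² / (5 |𝒰|)`.  The pairs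
`(X, X')` in `A × A` with `|X ∩ X'| = j - 1` correspond to the triples `(S, X, X')` with `S ⊆ X, X'`,
`X ≠ X'`: `∑_(X ∈ A) dg = ∑ d(S)² - ∑ d(S) ≥ 2 n j |A|² / (5|𝒰|) - j |A| ≥ n j |A|² / (5 |𝒰|)` because
`5 |𝒰| ≤ n |A|`.  So some `X` has the required degree. -/
def Stmt_SUP1 : Prop := ∀ (n j : ℕ) (𝒰 A : Set (Set (Fin n))), 1 ≤ n → 1 ≤ j →
  (∀ X ∈ 𝒰, X.ncard = j) → ExtP n 𝒰 → A ⊆ 𝒰 → A.Nonempty → 5 * 𝒰.ncard ≤ n * A.ncard →
  ∃ X ∈ A, j * n * A.ncard ≤ 5 * 𝒰.ncard * dg (R1 j) A X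

/-- SUP2 (220 lines).  PROOF.  An admissible triple `(X, x, y)`: `X ∈ A`, `x ∈ X`, `y ∉ X` and `y ∉ G` for
every `G ∈ 𝓖` with `X ⊆ G`.  For given `X`, `x` there are at least `n/2` such `y` (there is at most
one such `G`, it contains `X` and has at most `n/2` elements; if there is none, `|X| = j ≤ n/2`).  So the
number `T` of admissible triples satisfies `2 T ≥ j n |A|`.  The image of `(X, x, y)` is the `j`-set
`I = X - x + y`.  With `t_I` = the number of triples with image `I`, `T² ≤ N_j ∑ t_I²` (`N_j = n.choose j`).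
`∑ t_I²` counts the ordered pairs of triples with the same image.  Let `(X,x,y)`, `(X',x',y')` be such a
pair (`X = I - y + x`, `X' = I - y' + x'`).  If `x = x'` and `y = y'` the triples are equal (`T` pairs).
If exactly one of `x = x'`, `y = y'` holds, then `|X ∩ X'| = j - 1` (`R1`), and a given ordered pair
`(X, X')` arises at most `n` times: type `x = x'`: `x ∈ X ∩ X'`, `{y} = X' \ X`, `{y'} = X \ X'` (at most
`j - 1` cases); type `y = y'`: `{x} = X \ X'`, `{x'} = X' \ X`, `y ∉ X ∪ X'` (at most `n - j - 1` cases).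
If `x ≠ x'` and `y ≠ y'`, then `X ∩ X' = I - y - y'` has `j - 2` elements, `y ∈ X'`, and no `G ∈ 𝓖`
contains `X ∪ X'` (it would contain `X` and `y`), so `R2`; a given pair `(X, X')` arises at most 4 times
(`x ∈ X \ X'`, `y ∈ X' \ X`, these determine `I`, `y'` and `x'`).  So
`T²/N_j ≤ T + n ∑ dg (R1 j) A X + 4 ∑ dg (R2 j 𝓖) A X`, and `T ≥ 2 N_j` gives
`T²/N_j - T ≥ T²/(2 N_j) ≥ |A|² j² n² / (8 N_j)`.  If the assertion were false, then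
`16 N_j ∑ dg R1 < j² n |A|²` and `64 N_j ∑ dg R2 < j² n² |A|²`, a contradiction. -/
def Stmt_SUP2 : Prop := ∀ (n j : ℕ) (𝓖 A : Set (Set (Fin n))), 2 ≤ j → 2 * j ≤ n →
  A ⊆ Un n j 𝓖 → A.Nonempty → 4 * n.choose j ≤ j * n * A.ncard →
  ∃ X ∈ A, j ^ 2 * n * A.ncard ≤ 16 * n.choose j * dg (R1 j) A X ∨
    j ^ 2 * n ^ 2 * A.ncard ≤ 64 * n.choose j * dg (R2 j 𝓖) A X

/-- GRD (60 lines).  PROOF.  Among the `𝒵 ⊆ 𝓨` (finitely many) take one which maximises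
`φ(𝒵) = ∑_(D ∈ 𝓓) min (cnz 𝒵 D) (E + 1) - σ |𝒵|` (integers).  `φ(𝒵) ≥ φ(∅) = 0` gives
`σ |𝒵| ≤ (E+1) |𝓓|`.  For `Y ∈ 𝓨 \ 𝒵`: `φ(𝒵 ∪ {Y}) = φ(𝒵) + #{D ∈ 𝓓 | D ⊆ Y, cnz 𝒵 D ≤ E} - σ`. -/
def Stmt_GRD : Prop := ∀ (n E σ : ℕ) (𝓨 𝓓 : Set (Set (Fin n))), ∃ 𝒵 ⊆ 𝓨,
  σ * 𝒵.ncard ≤ (E + 1) * 𝓓.ncard ∧
  ∀ Y ∈ 𝓨, Y ∉ 𝒵 → {D | D ∈ US E 𝒵 𝓓 ∧ D ⊆ Y}.ncard ≤ σ

/-- HG2 (130 lines).  PROOF.  `N = n.choose r`, `μ = a r / n ≥ 4 θ ≥ 4`, `Z_X = |X ∩ B|` for the `r`-sets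
`X`.  `∑ Z_X = a (n-1).choose (r-1) = μ N`; `∑ Z_X (Z_X - 1) = a (a-1) (n-2).choose (r-2) ≤ μ² N` (ordered
pairs of different elements of `B` in `X`; `n (n-1) (n-2).choose (r-2) = r (r-1) N` and
`(a-1)/(n-1) ≤ a/n`), so `∑ Z_X² ≤ (μ² + μ) N`.  Let `Q` be the set of the `X` with `Z_X ≥ θ`; the others
contribute at most `θ N ≤ μ N / 4` to `∑ Z_X`, so `∑_Q Z_X ≥ (3/4) μ N`, and Cauchy-Schwarz:
`(9/16) μ² N² ≤ |Q| (μ² + μ) N`, `|Q| ≥ (9/16) (4/5) N ≥ N / 8`. -/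
def Stmt_HG2 : Prop := ∀ (n r a θ : ℕ) (B : Set (Fin n)), 1 ≤ r → r ≤ n → 1 ≤ θ → B.ncard = a →
  4 * θ * n ≤ a * r →
  n.choose r ≤ 8 * {X : Set (Fin n) | X.ncard = r ∧ θ ≤ (X ∩ B).ncard}.ncard

/-- KKL (80 lines).  PROOF.  `𝒜 = ∅` is trivial.  Otherwise let `k` be maximal with
`k.choose t ≤ |𝒜|` (`t.choose t = 1 ≤ |𝒜|`); `t ≤ k < K` (monotone), `k ≤ n` (`|𝒜| ≤ n.choose t` and
`choose` is strictly increasing from `t` on), `|𝒜| < (k+1).choose t`.  Lovasz form of Kruskal-Katona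
(`Finset.kruskal_katona_lovasz_form`, `i = 1` and `i = 2`): `k.choose (t-1) ≤ |∂𝒜|`,
`k.choose (t-2) ≤ |∂∂𝒜|`.  `t (k+1).choose t = (k+1) k.choose (t-1)` gives the first assertion.
`t (t-1) (k+1).choose t = (k+1) k (k-1).choose (t-2) ≤ K² k.choose (t-2)` gives the second. -/
def Stmt_KKL : Prop := ∀ (n t K : ℕ) (𝒜 : Finset (Finset (Fin n))), 2 ≤ t →
  (𝒜 : Set (Finset (Fin n))).Sized t → 𝒜.card < K.choose t →
  t * 𝒜.card ≤ K * (Finset.shadow 𝒜).card ∧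
    𝒜.card ≤ K ^ 2 * (Finset.shadow (Finset.shadow 𝒜)).card

/-! ## B. Counting families -/

/-- CFN (80 lines), uses CONT SUP2.  PROOF.  CONT with `V = Un n j 𝓖` (`|V| ≤ N_j`), `R₁ = R1 j`,
`R₂ = R2 j 𝓖`: for `A ⊆ V` with `|A| ≥ m` we have `4 N_j ≤ j n m ≤ j n |A|`, SUP2 gives `X` with
`j² n |A| ≤ 16 N_j dg ≤ j² n h₁ dg` or `j² n² |A| ≤ 64 N_j dg ≤ j² n² h₂ dg`; cancel.  The number of
`R ⊆ V` with `|R| ≤ F` is at most `(3B)^F` by `stmt_CNT` (`(h₁ + (Δ+1) h₂)(ℓ+1) ≤ F`,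
`|V| ≤ N_j ≤ F B`). -/
def Stmt_CFN : Prop := ∀ (n j Δ m h₁ h₂ ℓ F B : ℕ) (𝓖 : Set (Set (Fin n))), 2 ≤ j → 2 * j ≤ n →
  1 ≤ m → 1 ≤ h₁ → 1 ≤ h₂ → 1 ≤ B → 4 * n.choose j ≤ j * n * m →
  16 * n.choose j ≤ j ^ 2 * n * h₁ → 64 * n.choose j ≤ j ^ 2 * n ^ 2 * h₂ →
  n.choose j ≤ 2 ^ ℓ * m → (h₁ + (Δ + 1) * h₂) * (ℓ + 1) ≤ F → n.choose j ≤ F * B →
  (FamN n j Δ 𝓖).ncard ≤ (3 * B) ^ F * 2 ^ m

/-- CFG (70 lines), uses CONT SUP1.  PROOF.  CONT with `V = 𝒰`, `R₁ = R1 j`, `R₂` always false,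
`h₁ = h`, `h₂ = 1`, `Δ = 0`: for `A ⊆ 𝒰` with `|A| ≥ m ≥ 1`: `5 |𝒰| ≤ 5 g ≤ n m ≤ n |A|`, SUP1 gives `X`
with `j n |A| ≤ 5 |𝒰| dg ≤ 5 g dg ≤ j n h dg`; cancel.  Then `stmt_CNT`. -/
def Stmt_CFG : Prop := ∀ (n j g m h ℓ F B : ℕ) (𝒰 : Set (Set (Fin n))), 1 ≤ n → 1 ≤ j →
  (∀ X ∈ 𝒰, X.ncard = j) → ExtP n 𝒰 → 𝒰.ncard ≤ g → 1 ≤ m → 1 ≤ h → 1 ≤ B →
  5 * g ≤ n * m → 5 * g ≤ j * n * h → g ≤ 2 ^ ℓ * m → (h + 1) * (ℓ + 1) ≤ F → g ≤ F * B →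
  (FamU j 𝒰).ncard ≤ (3 * B) ^ F * 2 ^ m

/-- GIE (60 lines).  PROOF.  First part: `X ⊆ G`, `G` a giant; all `z ∈ G \ (X \ {x})` are allowed, at
least `|G| - (j-1)` elements, `2 |G| ≥ n + 1` and `10 j ≤ n`.  Second part: `n - (j-1)` elements. -/
def Stmt_GIE : Prop := ∀ (n j Λ : ℕ) (M : Matroid (Fin n)), 1 ≤ j → 10 * j ≤ n →
  ExtP n (Gi Λ M j j) ∧ ExtP n {X : Set (Fin n) | X.ncard = j}

/-! ## C. Structure of one level -/

/-- FLJ (130 lines), uses HG2.  PROOF.  `A = cl(I) \ I`.  As in `TP38.lean`/`TFLAT.lean`: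
`2 ^ rk(A) ≤ bn M j (cl I) < Λ ≤ 2^ρ` (for `J` in a fixed basis of `A` extend `J` to a basis of `J ∪ I`,
a `j`-set `T` with `T \ I = J`), so `rk A + 1 ≤ ρ`.  Suppose `|A| ≥ a`, take `B ⊆ A` with `|B| = a`.  Every
`(s+1)`-set `X` with `|X ∩ B| ≥ ρ + 1` has rank at most `rk B + (s + 1 - (ρ+1)) ≤ s - 1`, so it contains no
independent `s`-set and lies in `Rm (trunc M s) s ∅`.  HG2 with `r = s + 1`, `θ = ρ + 1`:
`n.choose (s+1) ≤ 8 |Rm|`, contradiction. -/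
def Stmt_FLJ : Prop := ∀ (n s j Λ ρ a : ℕ) (M : Matroid (Fin n)) (I : Set (Fin n)),
  M.E = Set.univ → s + 1 ≤ n → Λ ≤ 2 ^ ρ → 4 * (ρ + 1) * n ≤ a * (s + 1) →
  8 * (Rm (trunc M s) s ∅).ncard < n.choose (s + 1) →
  M.Indep I → I.ncard = j → bn M j (M.closure I) < Λ → (M.closure I \ I).ncard < a

/-- SATD (60 lines).  PROOF.  If `Y ∈ 𝒵` and `X ⊆ Y` then `rk X = j = rk Y`, so `Y ⊆ cl X`; `cl X` is a
flat of rank `j` containing `Y`, so it is not in `Lg Λ M j`, i.e. `bn M j (cl X) < Λ`, and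
`|cl X \ X| ≤ e`.  `Y = X ∪ {y, y'}` with `y, y' ∈ cl X \ X`: at most `e²` sets `Y`. -/
def Stmt_SATD : Prop := ∀ (n j Λ e : ℕ) (M : Matroid (Fin n)) (𝒵 : Set (Set (Fin n)))
    (X : Set (Fin n)), M.E = Set.univ → Exc Λ e M j → 𝒵 ⊆ YM Λ M j → M.Indep X → X.ncard = j →
  cnz 𝒵 X ≤ e ^ 2

/-- DNP (120 lines).  PROOF.  Let `P ∈ NC Λ M s`, `D = star M s P` (`star_spec`): `D ⊆ P`, all
`s`-subsets of `D` are independent, `|D| ≥ s + 1`, so `cl D = P`; a flat containing `D` contains `P`.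
(1) a large flat `G ⊇ D` of rank `s + 1` contains `P`, so `2|G| ≤ n` (`NCn`), and two such flats are
equal as `P ∉ Coh`.  (2) from the definition of `NCg`.  (3), (4), (6): if `|D ∩ D'| ≥ s`, there is a common
independent `s`-set, so `P = cl = P'` and `D = D'` (as in `isPart_blocks` of helper60b/Encode.lean).
(5), (7): image of a subset of `NCn`, resp. of the set on the right. -/
def Stmt_DNP : Prop := ∀ (n s Λ : ℕ) (M : Matroid (Fin n)), M.E = Set.univ →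
  DN Λ M s ⊆ Un n (s + 1) (Lg Λ M (s + 1)) ∧
  DG Λ M s ⊆ Gi Λ M (s + 1) (s + 1) ∧
  (∀ D ∈ DN Λ M s, ∀ D' ∈ DN Λ M s, D ≠ D' → (D ∩ D').ncard < s) ∧
  (∀ D ∈ DG Λ M s, ∀ D' ∈ DG Λ M s, D ≠ D' → (D ∩ D').ncard < s) ∧
  (DN Λ M s).ncard ≤ (NCn Λ M s).ncard ∧
  IsPart s (B2 Λ M s) ∧
  (B2 Λ M s).ncard ≤ {P | P ∈ NC Λ M s ∧ (star M s P).ncard ≠ s + 1}.ncard

/-- YDG (200 lines), uses DNP.  PROOF.  Write `j = s + 1`, `𝒟' = US E 𝒵 (DN Λ M s)`, `D = star M s P`.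
Let `D' ∈ 𝒟'`, `D' = star M s P'`, `R2 j (Lg Λ M j) D D'`: `|D ∩ D'| = s - 1`, so `D ≠ D'`.
`Y = D ∪ D'` has `s + 3` elements, `Y \ D = D' \ D = {z, w}`.  `z ∉ P`: otherwise `(D ∩ D') + z` is an
`s`-subset of `D'`, independent and in `P ∩ P'`, so `P = P'` and `D = D'`; similarly `w ∉ P`.
`D' ⊆ P' = cl((D ∩ D') + z) ⊆ cl(D + z)`, so `Y ⊆ cl(D + z)` has rank `s + 1`; by `R2` no large flat of rank
`s + 1` contains `Y`.  So `Y ∈ YM Λ M j`.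
The number of `D'` with `Y ∈ 𝒵`: at most `E` sets `Y` (`cnz 𝒵 D ≤ E`), and at most `s + 3` sets `D'` for
each `Y`: for different `D', D'' ∈ DN` in `Y` the complements `Y \ D'`, `Y \ D''` are disjoint (an element
in both gives `|D' ∩ D''| ≥ s`, against DNP (3)).
The number of `D'` with `Y ∉ 𝒵`: at most `σ` for each `Y` by hypothesis.  The number of these `Y`: fix
`x₀ ∈ D`, `I_z = insert z (D \ {x₀})` is independent with `s + 1` elements and `cl I_z = cl (D + z) ⊇ Y`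
is not large, so `Exc` gives `|cl I_z \ I_z| ≤ e`, `w ∈ cl I_z \ I_z`; `Y = D ∪ {z, w}` is determined by
`(z, w)`: at most `n e` sets `Y`. -/
def Stmt_YDG : Prop := ∀ (n s Λ e E σ : ℕ) (M : Matroid (Fin n)) (𝒵 : Set (Set (Fin n))),
  M.E = Set.univ → 1 ≤ s → Exc Λ e M (s + 1) → 𝒵 ⊆ YM Λ M (s + 1) →
  (∀ Y ∈ YM Λ M (s + 1), Y ∉ 𝒵 → {D | D ∈ US E 𝒵 (DN Λ M s) ∧ D ⊆ Y}.ncard ≤ σ) →
  ∀ D ∈ US E 𝒵 (DN Λ M s),
    dg (R2 (s + 1) (Lg Λ M (s + 1))) (US E 𝒵 (DN Λ M s)) D ≤ n * e * σ + E * (s + 3)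

/-- DET (150 lines), uses SATD.  PROOF.  As `TE2.lean`.  Let `X` be an `(s+1)`-set which is dependent in
`M`; show that it is dependent in `M'` (then by symmetry, and `trunc · s` is the same).  If an `s`-subset
of `X` is dependent in `M`, then it is in `M'`.  Otherwise `P = cl X` is a flat of rank `s` with
`HasGen M s P`.  `P ∈ Lg Λ M s`: `P` is a flat of rank `s` of `M'`.  `P` in two large flats of rank
`s + 1`: as in `TE2.lean`.  Otherwise `P ∈ NC Λ M s`; let `D = star M s P`,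
`X ⊆ P ⊆ Rec (trunc M s) s D` (`subset_rec`).  `|D| ≠ s + 1`: `D ∈ B2 Λ M s = B2 Λ M' s`, so
`D = star M' s P'` and `Rec (trunc M' s) s D ⊆ P'` (`rec_subset`), of rank `s`.  `|D| = s + 1`: `P ∈ NCn`
or `P ∈ NCg`.  `P ∈ NCg`: `D ∈ DG Λ M s = DG Λ M' s`, the same.  `P ∈ NCn`, `cnz 𝒵 D ≤ E`:
`D ∈ US E 𝒵 (DN Λ M s) = US E 𝒵 (DN Λ M' s)`, the same.  `P ∈ NCn`, `cnz 𝒵 D > E ≥ e²`: by SATD for `M'`
the set `D` is dependent in `M'`; its `s`-subsets are independent in `M'`, so `cl_(M') D` is a flat of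
rank `s`, and `Rec (trunc M' s) s D ⊆ cl_(M') D` (the proof of `rec_subset` uses only `D ⊆ P`,
`|D| ≥ s + 1` and `Gen`), so `X` is in a flat of rank `s` of `M'`. -/
def Stmt_DET : Prop := ∀ (n s Λ e E : ℕ) (M M' : Matroid (Fin n)) (𝒵 : Set (Set (Fin n))),
  M.E = Set.univ → M'.E = Set.univ → e ^ 2 ≤ E → Exc Λ e M (s + 1) → Exc Λ e M' (s + 1) →
  𝒵 ⊆ YM Λ M (s + 1) → 𝒵 ⊆ YM Λ M' (s + 1) →
  trunc M s = trunc M' s → Lg Λ M s = Lg Λ M' s → Lg Λ M (s + 1) = Lg Λ M' (s + 1) →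
  US E 𝒵 (DN Λ M s) = US E 𝒵 (DN Λ M' s) → DG Λ M s = DG Λ M' s → B2 Λ M s = B2 Λ M' s →
  trunc M (s + 1) = trunc M' (s + 1)

/-- NCN2 (180 lines; copy and change `TNCN.lean`).  PROOF.  Let `P` be in the set; by hypothesis
`A = star M s P` has `s + 2` elements.  Quadruples `(P, u, x, y)`: `u ∈ A`, `D = A \ {u}` (an
`(s+1)`-circuit which spans `P`), `y` as in NCN (`y ∉ P`, `y` not in the large flat of rank `s + 1`
containing `P`, if any: at least `n/2` choices), `x ∈ D` with `|QQ M I| ≤ q` for `I = insert y (D \ {x})`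
(at least `(s+1)/2` choices).  `(P, u, x, y) ↦ (I, y)`: the `s`-set `S = I \ {y} = A \ {u, x}` is
independent and determines `P = cl S` and `{u, x} = star M s P \ S`, so at most TWO quadruples have the
same image.  `y ∈ QQ M I`, so the number of images is at most `q N_(s+1)`.  So
`|..| (s+2) ((s+1)/2) (n/2) ≤ 2 q N_(s+1)`. -/
def Stmt_NCN2 : Prop := ∀ (n s Λ q : ℕ) (M : Matroid (Fin n)), M.E = Set.univ →
  (∀ P ∈ NC Λ M s, 8 * P.ncard ≤ 3 * n) → (∀ P ∈ NC Λ M s, (star M s P).ncard ≤ s + 2) →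
  (∀ (F D : Set (Fin n)) (y : Fin n), IsHyp M s F → D ⊆ F → D.ncard = s + 1 →
    M.IsCircuit D → y ∉ F → bn M (s + 1) (M.closure (insert y F)) < Λ →
    s + 1 ≤ 2 * {x | x ∈ D ∧ (QQ M (insert y (D \ {x}))).ncard ≤ q}.ncard) →
  (s + 2) * (s + 1) * n * {P | P ∈ NCn Λ M s ∧ (star M s P).ncard ≠ s + 1}.ncard ≤
    8 * q * n.choose (s + 1)

/-- NCG2 (120 lines; copy and change `TNCG.lean`).  PROOF.  Quadruples `(P, u, x, z)`: `A = star M s P`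
has `s + 2` elements, `u ∈ A`, `x ∈ D = A \ {u}`, `z ∈ G_P \ P` (`G_P` a giant containing `P`,
at least `n/8` choices) `↦ (I, z)`, `I = insert z (D \ {x}) ∈ Gi Λ M (s+1) (s+1)`, `z ∈ I`; at most two
quadruples have the same image.  `|..| (s+2) (s+1) (n/8) ≤ 2 (s+1) |Gi|`. -/
def Stmt_NCG2 : Prop := ∀ (n s Λ : ℕ) (M : Matroid (Fin n)), M.E = Set.univ →
  (∀ P ∈ NC Λ M s, 8 * P.ncard ≤ 3 * n) → (∀ P ∈ NC Λ M s, (star M s P).ncard ≤ s + 2) →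
  (s + 2) * n * {P | P ∈ NCg Λ M s ∧ (star M s P).ncard ≠ s + 1}.ncard ≤
    16 * (Gi Λ M (s + 1) (s + 1)).ncard

/-- STEP2 (250 lines), uses GRD DNP YDG DET.  One level.  PROOF.  For `M ∈ 𝒞` let `𝒵(M)` be the family
of GRD for `𝓨 = YM Λ M (s+1)`, `𝓓 = DN Λ M s`: `σ |𝒵(M)| ≤ (E+1) |DN| ≤ (E+1) |NCn| ≤ σ z`, so
`|𝒵(M)| ≤ z`.  Data of `M`: `(trunc M s, Lg Λ M s)`, `Lg Λ M (s+1)`, `𝒵(M)`, `US E 𝒵(M) (DN Λ M s)`,
`DG Λ M s`, `B2 Λ M s`.  By DET the data determine `trunc M (s+1)`, so they determine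
`(trunc M (s+1), Lg Λ M (s+1))`.  The number of values of the data: by `stmt_LC` (with
`f M = (trunc M s, Lg Λ M s)`, `j = s + 1`) the first three have at most `|image| * LK n Λ Λs (s+1)`
values.  `𝒵(M)`: a family of at most `z` sets with `s + 3` elements, `≤ (3B)^z` by `stmt_CNT`.
`US ..` is in `FamN n (s+1) Δ (Lg Λ M (s+1))`, `Δ = n e σ + E (s+3)` (DNP (1), (3): for `w ∈ DN`
`|x ∩ w| = s` is impossible; YDG): at most `KN` values for given `Lg Λ M (s+1)`.  `DG Λ M s` is in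
`FamU (s+1) (Gi Λ M (s+1) (s+1))` (DNP (2), (4)), and `Gi Λ M (s+1) (s+1)` depends only on
`Lg Λ M (s+1)`: at most `KG` values for given `Lg Λ M (s+1)`.  `B2 Λ M s` is coded by
`code (B2 Λ M s)` (`stmt_CODE`), a family of at most `2 |B2| ≤ a` sets with `s + 1` elements:
`≤ (3B)^a` values by `stmt_CNT`.  (Counting lemma: if for every value of `f` there are at most `K` values
of `g` on the fibre, then `|(f, g)(𝒞)| ≤ |f(𝒞)| K`.) -/
def Stmt_STEP2 : Prop := ∀ (n s c Λ Λs e E σ B z a KN KG : ℕ) (𝒞 : Set (Matroid (Fin n))),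
  1 ≤ n → 2 ≤ s → c ≤ s → 1 ≤ Λ → 1 ≤ Λs → 30 ! * Λs ≤ (c + 1) ^ 30 → 1 ≤ B → 1 ≤ σ →
  e ^ 2 ≤ E → n.choose (s + 3) ≤ z * B → n.choose (s + 1) ≤ a * B →
  (∀ 𝓖 : Set (Set (Fin n)), (FamN n (s + 1) (n * e * σ + E * (s + 3)) 𝓖).ncard ≤ KN) →
  (∀ M ∈ 𝒞, M.E = Set.univ) →
  (∀ M ∈ 𝒞, Exc Λ e M (s + 1)) →
  (∀ M ∈ 𝒞, ∀ P ∈ NC Λ M s, (star M s P).ncard ≤ s + 2) →
  (∀ M ∈ 𝒞, (E + 1) * (NCn Λ M s).ncard ≤ σ * z) →
  (∀ M ∈ 𝒞, 2 * {P | P ∈ NC Λ M s ∧ (star M s P).ncard ≠ s + 1}.ncard ≤ a) →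
  (∀ M ∈ 𝒞, (FamU (s + 1) (Gi Λ M (s + 1) (s + 1))).ncard ≤ KG) →
  ((fun M => (trunc M (s + 1), Lg Λ M (s + 1))) '' 𝒞).ncard ≤
    ((fun M => (trunc M s, Lg Λ M s)) '' 𝒞).ncard *
      (LK n Λ Λs (s + 1) * (3 * B) ^ z * (3 * B) ^ a * KN * KG)

/-- STEPL (180 lines).  The number of matroids of rank at most `s + 1`.  PROOF.  Data of
`T ∈ LowU n (s+1)`: `(trunc T s, Lg Λ T s)` (at most `|LowU n s| * LK n Λ Λs s` values by `stmt_LC`, with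
`f T = trunc T s`, `j = s`); `𝓑₁ = {star T s P | IsHyp T s P, HasGen T s P, P ∉ Lg Λ T s,
|star T s P| = s+1}`, a member of `FamU (s+1) {X | X.ncard = s+1}` (two members meet in fewer than `s`
elements, as in E1): at most `K₁` values; `𝓑₂`, the blocks of the other flats `P ∉ Lg Λ T s`, which have
`s + 2` elements by `stmt_N1` (`bn T s P < Λ ≤ (s+3).choose 3`): every member of `𝓑₂` has
`(s+2)(s+1)/2` `s`-subsets, different members have no common `s`-subset, so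
`(s+1)(s+2) |𝓑₂| ≤ 2 N_s`, and `2 |𝓑₂| ≤ a`; coded by `code 𝓑₂` (`stmt_CODE`, at most
`2 |𝓑₂| ≤ a` sets), `≤ (3B)^a` values (`stmt_CNT`).  The data determine `T`: the independent sets with
at most `s` elements are those of `trunc T s`, there are none with more than `s + 1` elements, and an
`(s+1)`-set `X` is dependent iff `¬ Gen (trunc T s) s X`, or `X` is in a member of `Lg Λ T s`, or
`X ⊆ Rec (trunc T s) s A` for an `A ∈ 𝓑₁ ∪ 𝓑₂` (as `dep_iff` of helper60b/Encode.lean and `TE3.lean`). -/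
def Stmt_STEPL : Prop := ∀ (n s c Λ Λs B a K₁ : ℕ),
  1 ≤ n → 2 ≤ s → c ≤ s → 1 ≤ Λ → 1 ≤ Λs → 30 ! * Λs ≤ (c + 1) ^ 30 → 1 ≤ B →
  Λ ≤ (s + 3).choose 3 → 4 * n.choose s ≤ a * ((s + 1) * (s + 2)) → n.choose (s + 1) ≤ a * B →
  (FamU (s + 1) {X : Set (Fin n) | X.ncard = s + 1}).ncard ≤ K₁ →
  (LowU n (s + 1)).ncard ≤ (LowU n s).ncard * (LK n Λ Λs s * (3 * B) ^ a * K₁)

/-! ## D. Typical matroids -/

/-- FINS (200 lines; `TFIN.lean` with sums instead of the uniform bound `e`).  PROOF.  Exactly that of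
`stmt_FIN`; `h2` becomes `|A2| ≤ ∑_(I ∈ J) xc M I ^ 2` (`Finset.card_biUnion_le` and
`Finset.sum_le_sum`), `h3` becomes `(s+1) |A3| ≤ ∑_(I ∈ J) xc M I * (n - s)` (`Finset.card_sigma`). -/
def Stmt_FINS : Prop := ∀ (n s Λ : ℕ) (M : RankMatroid n (s + 1)),
  (s + 1) * n.choose (s + 2) ≤ (s + 1) * numCircuits M.1 +
    (s + 1) * (n - (s + 1)) * (Rm (trunc M.1 s) s (Lg Λ M.1 s)).ncard +
    ∑ I ∈ JS Λ M.1 s, ((s + 1) * xc M.1 (I : Set (Fin n)) ^ 2 +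
      xc M.1 (I : Set (Fin n)) * (n - s))

/-- RPL (220 lines), uses KKL.  PROOF.  For `m ≤ t` let `𝒜_m` be the family of the `m`-subsets `A` of `P`
with `rk M (P \ A) = s` (the independent `m`-sets of the dual of `M | P`), `f_m = |𝒜_m|`;
`f_t = bn M s P =: b` (`A = P \ I`), the shadow of `𝒜_m` is in `𝒜_(m-1)`.  Let `𝒴` be the family of the
`(t-1)`-subsets `A` of `P` with `rk M (P \ A) = s - 1`; `A ↦ P \ A` identifies it with the set on the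
right, `y = |𝒴|`.
(1) `(s+2) f_(t-2) ≤ (t-1) f_(t-1) + (t-1) y`: for `A' ∈ 𝒜_(t-2)` and `z ∈ P \ A'` (`s + 2` elements) the
set `A' + z` is in `𝒜_(t-1)` or in `𝒴` (removing one element from the set `P \ A'` of rank `s` lowers the
rank by at most one), and a `(t-1)`-set arises from at most `t - 1` pairs.
(2) `f_(t-1) ≤ t b`: for `A ∈ 𝒜_(t-1)` the set `P \ A` has `s + 1` elements and rank `s`, so there is `z` with
`A + z ∈ 𝒜_t`; every member of `𝒜_t` has `t` subsets with `t - 1` elements.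
(3) `f_(t-1) ≤ t b < t Λ ≤ K.choose 7 ≤ K.choose (t-1)` and `b < K.choose t` (`7 ≤ t - 1 < t ≤ K/2`,
`choose` is increasing up to the middle).  KKL: `(t-1) f_(t-1) ≤ K f_(t-2)` and `b ≤ K² f_(t-2)`.
So `(s + 2 - K) f_(t-2) ≤ (t-1) y` and `s b ≤ s K² f_(t-2) ≤ 2 K² (s + 2 - K) f_(t-2) ≤ 2 K² t y`. -/
def Stmt_RPL : Prop := ∀ (n s t K Λ : ℕ) (M : Matroid (Fin n)) (P : Set (Fin n)),
  M.E = Set.univ → 1 ≤ s → IsHyp M s P → P.ncard = s + t → 8 ≤ t → 2 * t ≤ K →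
  t * Λ ≤ K.choose 7 → 2 * K ≤ s → bn M s P < Λ →
  s * bn M s P ≤ 2 * K ^ 2 * t *
    {X : Set (Fin n) | X ⊆ P ∧ X.ncard = s + 1 ∧ rk M X = s - 1}.ncard

/-- N8 (130 lines), uses RPL.  PROOF.  For `I` on the left `P = cl I` is a flat of rank `s` which is not
large, `|P| = s + t`, `8 ≤ t ≤ e`.  The number of `I` with given `P` is at most `bn M s P`.  RPL (with
`2 t ≤ 2 e ≤ K`, `t Λ ≤ e Λ ≤ K.choose 7`): `s bn M s P ≤ 2 K² e #{X ⊆ P, |X| = s+1, rk X = s-1}`.  Sum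
over `P`: every `X` of rank `s - 1` is in at most `n` flats `P` of rank `s` (choose `z_P ∈ P \ cl X`;
`P = cl (X + z_P)`, so `P ↦ z_P` is injective), and the `X` with `|X| = s + 1`, `rk X = s - 1` are in
`Rm (trunc M s) s ∅`. -/
def Stmt_N8 : Prop := ∀ (n s K Λ e : ℕ) (M : Matroid (Fin n)), M.E = Set.univ → 1 ≤ s →
  Exc Λ e M s → 2 * e ≤ K → e * Λ ≤ K.choose 7 → 2 * K ≤ s →
  s * ((JS Λ M s).filter (fun I : Finset (Fin n) => 8 ≤ xc M (I : Set (Fin n)))).card ≤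
    2 * K ^ 2 * e * n * (Rm (trunc M s) s ∅).ncard

end Pool.F3LT
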