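import Pool.Agent.Work.MP_f3d170_lt.Interface

set_option autoImplicit false

/-!
# MP_f3d170_co, LINEAR upper threshold: numerical blocks

Same rules and table as `Interface.lean`.  These blocks are pure arithmetic.  The files
`TNUMA.lean`, `TNUMF.lean`, `TNUMS.lean`, `TNUMC.lean` of `MP_f3d170_co_helper44` prove the analogous
statements in the range `n ≥ C r log³ r` and can be copied.

NOTATION: `l = pl r = Nat.log 2 r`, `L = pL n = Nat.log 2 n + 1` (`n < 2^L`, `n ≥ 2^(L-1)`),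
`h = pH k = 6 (k+1) ≥ 12`, `Λ = pLam k r n = 10⁴ h r² L`, `Λs = pLs r`, `N_j = n.choose j`, `s = r - 1`,
`q = 3 L + pm k n`.

RANGE `Rg2 k C₁ R r n`: `R ≤ r`, `200 h r ≤ n`, `n ≤ C₁ r l³`; `R` may be any huge number depending on
`k` and `C₁`.  BASIC FACTS for `r ≥ R` large:
(B1) `2^l ≤ r < 2^(l+1)`, `l` is larger than any constant; `L ≤ 3 l` (`n ≤ C₁ r l³ < 2^(3l-1)`);
(B2) every fixed power of `l` times a constant is at most `2^(l/100)`, so at most `r^(1/100)`;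
(B3) for `1 ≤ j ≤ s`: `2 N_(j-1) ≤ N_j`, so `2^(s-j) N_j ≤ N_s` and `∑_(j ≤ s) N_j ≤ 2 N_s`;
(B4) `(n - r + 1) N_s = r N_r`, so `N_s ≤ (2400/2399) (r/n) N_r ≤ N_r / 2399`;
(B5) `N_r ≥ N_7 ≥ (n/7)^7`, so for `v ≥ N_r / ((r+1) h)` and `r` large `v / n ≥ 1000 n⁴`, and
`N_r / n ≥ 1000 n⁴`.
-/

open Nat
open Pool.Agent.Work.MP_f3d170_co_helper44

namespace Pool.F3LT

/-! ## Parameters -/

/-- `l`. -/
def pl (r : ℕ) : ℕ := Nat.log 2 r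

/-- `e`: closures of independent sets in small flats have at most `e` additional elements. -/
def pe (r : ℕ) : ℕ := pl r ^ 6

/-- `E = e²`. -/
def pE (r : ℕ) : ℕ := pe r ^ 2

/-- `σ`. -/
def ps (r : ℕ) : ℕ := pl r ^ 20

/-- `K`. -/
def pK (r : ℕ) : ℕ := 2 ^ (pl r / 3)

/-- The range of the parameters. -/
def Rg2 (k C₁ R r n : ℕ) : Prop :=
  R ≤ r ∧ 200 * pH k * r ≤ n ∧ n ≤ C₁ * r * pl r ^ 3

/-- Bound for the number of the `(j+2)`-sets listed at level `j`. -/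
def zJ (r n j : ℕ) : ℕ := n.choose j / (j * n * pl r ^ 5) + 1

/-- Bound for the number of code sets of the blocks with `j + 1` elements at level `j`. -/
def aJ (r n v j : ℕ) : ℕ :=
  16 * pl r ^ 2 * n.choose j / (j ^ 2 * n) + 200 * v * n.choose j / (j * n * n.choose r) + 2

/-- Bound for the number of `j`-sets in giants of rank `j`. -/
def gJ (r n v j : ℕ) : ℕ := 25 * v * n.choose j / (4 * n.choose r)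

/-- Container size for the giants. -/
def mG (r n v j : ℕ) : ℕ := 5 * gJ r n v j / n + 1

/-- Fingerprint size for the giants. -/
def FG (r n v j : ℕ) : ℕ := (5 * gJ r n v j / (j * n) + 1 + 1) * (pL n + 1)

/-- Container size. -/
def mN (n j : ℕ) : ℕ := 4 * n.choose j / (j * n) + 1

/-- Degree at distance two. -/
def dJ (r n j : ℕ) : ℕ := n * pe r * ps r + pE r * (j + 2)

/-- Fingerprint size. -/
def FN (r n j : ℕ) : ℕ :=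
  (16 * n.choose j / (j ^ 2 * n) + 1 +
    (dJ r n j + 1) * (64 * n.choose j / (j ^ 2 * n ^ 2) + 1)) * (2 * pL n + 1)

/-- The number of bits of level `j` (second pass). -/
def bitJ (r n v j : ℕ) : ℕ :=
  9 * pL n * (zJ r n j + aJ r n v j + FG r n v j + FN r n j) + mG r n v j + mN n j

/-- Bound for the number of values of `(trunc M (r-1), Lg Λ M (r-1))` for the matroids with
`|Rm| = v`. -/
def sideC (k r n v : ℕ) : ℕ :=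
  2 ^ ((pL n + 4) * (2 * n.choose (r / 2) / (r / 2 + 1) + 1 + 2 * n + 2)) *
    (∏ j ∈ Finset.Icc (r / 2 + 1) (r - 1), LK n (pLam k r n) (pLs r) j) *
    ∏ j ∈ Finset.Icc (r / 2 + 2) (r - 1), 2 ^ bitJ r n v j

/-- First pass: number of code sets of the larger blocks. -/
def aL (n i : ℕ) : ℕ := 4 * n.choose i / ((i + 1) * (i + 2)) + 1

/-- First pass: container size. -/
def mL (n j : ℕ) : ℕ := 5 * n.choose j / n + 1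

/-- First pass: fingerprint size. -/
def FL (n j : ℕ) : ℕ := (5 * n.choose j / (j * n) + 1 + 1) * (pL n + 1)

/-- The number of bits of the step from rank `i` to rank `i + 1` (first pass). -/
def bitL (n i : ℕ) : ℕ := 9 * pL n * (aL n i + FL n (i + 1)) + mL n (i + 1)

/-- Bound for the number of matroids of rank at most `r - 1`. -/
def lowC (k r n : ℕ) : ℕ :=
  2 ^ ((pL n + 4) * (2 * n.choose (r / 2) / (r / 2 + 1) + 1 + 2 * n + 2)) *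
    ∏ i ∈ Finset.Icc (r / 2 + 1) (r - 2), (LK n (pLam k r n) (pLs r) i * 2 ^ bitL n i)

/-- Simple numerical facts. -/
structure NumB (k r n : ℕ) : Prop where
  hfl : 4 * (3 * pL n + 1) * n ≤ pe r * r
  hq : 3 * pL n + pm k n ≤ pl r ^ 2
  hz : (pE r + 1) * (4 * (3 * pL n + pm k n)) ≤ pl r ^ 15
  hs : 1 ≤ ps r
  hK1 : 2 * pe r ≤ pK r
  hK2 : pe r * pLam k r n ≤ (pK r).choose 7
  hK3 : 2 * pK r ≤ r - 1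
  hL : 2 ≤ pL n
  hl5 : pl r ^ 5 ≤ n
  h20 : 20 * r ≤ n

/-! ## Blocks -/

/-- NUA2 (250 lines; `TNUMA.lean` for `NumA`).  PROOF.  All immediate from (B1), (B2).  `NumA`: as in
`TNUMA.lean` (`lam3`: `(r/2+4).choose 3 ≥ (r/2)³/6 ≥ 10⁴ h r² L`; `lam2`: `Λ ≤ n³ ≤ 2^(3L)`; `lamm`:
`(r/2+2)² m(m-1)/2 ≥ (r²/4) m(m-1)/2`, `m = pm = 9·10⁵ h L`, `m (m-1) ≥ 4·10⁵ h L`).  `hfl`:
`4 (9l+1) C₁ l³ ≤ l⁶`.  `hq`: `9 l + 27·10⁵ h l ≤ l²`.  `hz`: `(l¹² + 1) 4 l² ≤ l¹⁵`.  `hK1`: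
`2 l⁶ ≤ 2^(l/3)`.  `hK2`: `K.choose 7 ≥ (K/7)^7` (`K ≥ 7`; `Nat.pow_le_choose` or similar),
`K^7 = 2^(7 (l/3)) ≥ 2^(2l) 2^((l-14)/3 - 1)`, `Λ ≤ 10⁴ h 4·2^(2l) 3 l`, so the assertion follows from
`2^((l-14)/3 - 1) ≥ 7^7 · 12·10⁴ h l⁷`.  `hK3`: `2^(l/3 + 1) ≤ 2^(l-1) ≤ r - 1`. -/
def Stmt_NUA2 : Prop := ∀ k, 1 ≤ k → ∀ C₁, ∃ R, ∀ r n, Rg2 k C₁ R r n → NumA k r n ∧ NumB k r n

/-- NBJ (250 lines).  The bits of one level, second pass.  Equivalent real form: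
`bitJ ≤ (1/10) 2^(-(s-j)) v/n + n²`.  PROOF.  Put `w = 2^(-(s-j)) v / n`.  `N_j ≤ 2^(-(s-j)) N_s`, and
`j ≥ r/2`.  By (B4) and `N_r ≤ (r+1) h v`, `n ≥ 200 h r`:
`N_j/(j n) ≤ 2 N_j/(r n) ≤ 2 (2400/2399) 2^(-(s-j)) N_r/n² ≤ 2.001 (r+1) h v/n² 2^(-(s-j)) ≤ 0.0101 w`, and
`(N_j/N_r) (v/n) ≤ w/2399`.  Terms: `mN ≤ 4 · 0.0101 w + 1`; `mG ≤ 31.25 w/2399 + 1 ≤ 0.0131 w + 1`;
`9 L zJ ≤ 27 l (N_j/(j n l⁵) + 1)`; `9 L aJ ≤ 27 l (16 (l²/j) N_j/(j n) + (200/j) (N_j/N_r)(v/n) + 2)`;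
`9 L FG ≤ 27 l · 4 l ((31.25/j) (N_j/N_r) (v/n) + 2)`; `dJ + 1 ≤ 2 n l²⁶` and
`9 L FN ≤ 27 l · 7 l ((16 + 128 l²⁶) (1/j) N_j/(j n) + 2 + 2 n l²⁶)`.  Every term of the last three lines
except the additive constants is at most `0.001 w` because `j ≥ r/2` beats every power of `l`, and the
additive terms are together at most `500 n l²⁸ ≤ n²`. -/
def Stmt_NBJ : Prop := ∀ k, 1 ≤ k → ∀ C₁, ∃ R, ∀ r n, Rg2 k C₁ R r n → ∀ v,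
  n.choose r ≤ (r + 1) * pH k * v → v ≤ n.choose r → ∀ j, r / 2 + 2 ≤ j → j ≤ r - 1 →
  10 * n * 2 ^ (r - 1 - j) * bitJ r n v j ≤ v + 10 * n ^ 3 * 2 ^ (r - 1 - j)

/-- NBL (150 lines).  The bits of one step, first pass.  Equivalent real form (`j = i + 1`):
`bitL ≤ (1/300) 2^(-(s-j)) N_r/n + n²`.  PROOF.  `N_j ≤ 2^(-(s-j)) N_s ≤ 2^(-(s-j)) N_r/2399`.
`mL ≤ 5 N_j/n + 1`.  `N_i = N_j j/(n-i) ≤ 2 j N_j/n`, so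
`9 L aL ≤ 27 l (8 j N_j/(n (i+1)(i+2)) + 1) ≤ 27 l ((8/(i+2)) N_j/n + 1)`;
`9 L FL ≤ 27 l · 4 l ((5/j) N_j/n + 2)`.  So `bitL ≤ 5.5 N_j/n + n²` for `r` large, and
`5.5/2399 ≤ 1/300`. -/
def Stmt_NBL : Prop := ∀ k, 1 ≤ k → ∀ C₁, ∃ R, ∀ r n, Rg2 k C₁ R r n → ∀ i, r / 2 + 1 ≤ i →
  i ≤ r - 2 → 300 * n * 2 ^ (r - 2 - i) * bitL n i ≤ n.choose r + 300 * n ^ 3 * 2 ^ (r - 2 - i)

/-- NUF2 (200 lines), uses NBL.  First pass.  PROOF.  `lowC ≤ 2^cost` with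
`cost = (L+4)(2 N_c/(c+1) + 1 + 2n + 2) + ∑_(i=c+1)^(r-2) [35 L (N_i/Λ + 1) + 2 n (N_i/Λs + 1) + bitL i]`,
`c = r/2`, because `3 Λ n³⁰ ≤ 2^(35L)` (`Λ ≤ n³`), `3 Λs 2^n ≤ 2^(2n)`.  `∑ bitL ≤ (2/300) N_r/n + n³` by
NBL.  `∑_(i ≤ s-1) N_i ≤ N_s ≤ N_r/2399`: `35 L N_s/Λ ≤ N_r/(r² 10⁵)` and `n ≤ C₁ r l³ ≤ r²`, so
this is `≤ 10⁻⁵ N_r/n`; `2 n N_s/Λs ≤ 0.001 N_r/n` (`Λs ≥ (r/2)³⁰/30! - 1 ≥ n²`);
`(L+4) 2 N_c/(c+1) ≤ 2 (L+4) 2^(-(s-c)) N_s ≤ 0.001 N_r/n`.  The additive terms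
`n³ + 100 n r L + log₂ (2 h n!) ≤ 2 n³ ≤ 0.01 N_r/n` by (B5).  Total `≤ N_r/(16 n) ≤ ⌊N_r/(8n)⌋`. -/
def Stmt_NUF2 : Prop := ∀ k, 1 ≤ k → ∀ C₁, ∃ R, ∀ r n, Rg2 k C₁ R r n →
  2 * pH k * n ! * lowC k r n ≤ 2 ^ (n.choose r / (8 * n))

/-- NUS2 (250 lines; `TNUMS.lean`), uses NBJ.  Second pass.  PROOF.  As `TNUMS.lean`, with the range `Rg2`.
`sideC ≤ 2^cost`, `cost = (L+4)(2 N_c/(c+1) + 1 + 2n + 2) + ∑_(j=c+1)^(r-1) [35 L (N_j/Λ + 1)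
+ 2 n (N_j/Λs + 1)] + ∑_(j=c+2)^(r-1) bitJ`.  `∑ bitJ ≤ 0.2 v/n + n³` by NBJ.
`∑_(j ≤ s) N_j ≤ 2 N_s ≤ 2.01 (r/n) N_r ≤ 2.01 r (r+1) h v/n`: `35 L · 2 N_s/Λ ≤ 71 L r(r+1) h/Λ · v/n
≤ 0.01 v/n`; `2 n · 2 N_s/Λs ≤ 5 n r(r+1) h/Λs · v/n ≤ 0.01 v/n` (`Λs ≥ (r/2)³⁰/30! - 1`);
`(L+4) 2 N_c/(c+1) ≤ 2 (L+4) 2^(-(s-c)) N_s ≤ 0.01 v/n`.  Additive terms
`n³ + 100 n r L + log₂ (2 h n! (N_r+1)) ≤ 2 n³ ≤ 0.01 v/n` by (B5).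
Total `≤ 0.3 v/n ≤ v/n - 1 ≤ ⌊v/n⌋`. -/
def Stmt_NUS2 : Prop := ∀ k, 1 ≤ k → ∀ C₁, ∃ R, ∀ r n, Rg2 k C₁ R r n → ∀ v,
  n.choose r ≤ (r + 1) * pH k * v → v ≤ n.choose r →
  2 * pH k * n ! * (n.choose r + 1) * sideC k r n v ≤ 2 ^ (v / n)

/-- NUT2 (150 lines; `TNUMC.lean`).  Typical matroids.  PROOF.  `3(k+1) = h/2`, `s = r - 1`,
`(r+1) N_(r+1) = (n-r) N_r`, `(n-s) N_s = r N_r`.
(1) `(h/2) r (n-r) v < (r/2) (n-r) N_r/(r+1) = r N_(r+1)/2`.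
(2) `r N_(r+1) = N_s (n-s)(n-r)/(r+1) ≥ N_s n²/(2(r+1))`, and
`(h/2) N_s (49 r + 7 n) ≤ 4 h n N_s ≤ r N_(r+1)/8` because `64 h (r+1) ≤ n`.
(3) `r e² + e (n-s) ≤ 2 e² n`, `N₈ ≤ 2 K² e n v/s`, `v < N_r/((r+1) h)`:
`(h/2) N₈ (2 e² n) ≤ 2 K² e³ n² N_r/(s (r+1)) ≤ r N_(r+1)/8` because `r N_(r+1) ≥ n N_r/2` (`r ≥ 3`)
and `32 K² e³ n ≤ s (r+1)`: `K² ≤ 2^(2l/3)`, `e³ n ≤ C₁ l²¹ r`. -/
def Stmt_NUT2 : Prop := ∀ k, 1 ≤ k → ∀ C₁, ∃ R, ∀ r n, Rg2 k C₁ R r n → ∀ v N₈,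
  (r + 1) * pH k * v < n.choose r → (r - 1) * N₈ ≤ 2 * pK r ^ 2 * pe r * n * v →
  3 * (k + 1) * (r * (n - r) * v + n.choose (r - 1) * (49 * r + 7 * (n - (r - 1))) +
    N₈ * (r * pe r ^ 2 + pe r * (n - (r - 1)))) ≤ r * n.choose (r + 1)

end Pool.F3LT
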